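import Pool.Agent.Helper88.SE.Defs

set_option autoImplicit false

open MeasureTheory Set Filter Topology
open scoped ENNReal

namespace Pool.Agent.Helper88.SE

/-- The quadratic form of the hexagonal lattice. -/
def hq (z : ℤ × ℤ) : ℤ := z.1 ^ 2 + z.1 * z.2 + z.2 ^ 2

/-- The points of the hexagonal lattice with minimal distance `1`. -/
noncomputable def hv (z : ℤ × ℤ) : EuclideanSpace ℝ (Fin 2) :=
  !₂[(z.1 : ℝ) + (z.2 : ℝ) / 2, Real.sqrt 3 / 2 * (z.2 : ℝ)]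

open Classical in
/-- Lattice points in the disc of radius `R`. -/
noncomputable def hd (R : ℝ) : Finset (ℤ × ℤ) :=
  (Finset.Icc (-⌈2 * R⌉) ⌈2 * R⌉ ×ˢ Finset.Icc (-⌈2 * R⌉) ⌈2 * R⌉).filter
    (fun z => ((hq z : ℤ) : ℝ) ≤ R ^ 2)

/-- The term of the screened hexagonal lattice sum. -/
noncomputable def ht (s mu : ℝ) (z : ℤ × ℤ) : ℝ :=
  if z = 0 then 0 else
    Real.sqrt ((hq z : ℤ) : ℝ) ^ (-s) * Real.exp (-(mu * Real.sqrt ((hq z : ℤ) : ℝ)))

/-- The screened hexagonal lattice sum. -/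
noncomputable def HS (s mu : ℝ) : ℝ := ∑' z : ℤ × ℤ, ht s mu z

/-- Number of points of the configuration. -/
noncomputable def NN {m : ℕ} (R : Fin m → ℝ) (n : ℕ) : ℕ :=
  ∑ i, (hd (R i * Real.sqrt (1 - R i ^ 2 / 4) * n)).card

/-- The nontrivial character modulo `3`. -/
def chi (n : ℕ) : ℤ := if n % 3 = 1 then 1 else if n % 3 = 2 then -1 else 0

/-- Number of roots of `x^2+x+1` modulo `n`. -/
def rho (n : ℕ) : ℕ := ((Finset.range n).filter (fun x => n ∣ x ^ 2 + x + 1)).card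

/-- `∑_{m ≥ 1} m^(-s/2) exp(-t √m)`. -/
noncomputable def GG (s t : ℝ) : ℝ :=
  ∑' m : ℕ, ((m : ℝ) + 1) ^ (-(s / 2)) * Real.exp (-(t * Real.sqrt ((m : ℝ) + 1)))

/-- `x^(-s/2) GG(mu √x)`. -/
noncomputable def hh (s mu x : ℝ) : ℝ := x ^ (-(s / 2)) * GG s (mu * Real.sqrt x)

end Pool.Agent.Helper88.SE
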