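import Pool.Agent.Helper88.SE3.Defs

set_option autoImplicit false

open MeasureTheory Set Filter Topology
open scoped ENNReal

namespace Pool.Agent.Helper88.SE



theorem D_summable : Summable (fun k : ℕ => Real.log (3 * (k : ℝ) + 2) / (3 * (k : ℝ) + 2) -
    Real.log (3 * (k : ℝ) + 1) / (3 * (k : ℝ) + 1)) := by
  have hsum : Summable (fun k : ℕ => 2 * (1 / (((k + 1 : ℕ) : ℝ)) ^ (3 / 2 : ℝ))) := by
    apply Summable.mul_left
    have h := (Real.summable_one_div_nat_rpow (p := (3 / 2 : ℝ))).2 (by norm_num)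
    exact (summable_nat_add_iff 1).2 h
  refine Summable.of_norm_bounded hsum ?_
  intro k
  have hk : (0 : ℝ) ≤ (k : ℝ) := Nat.cast_nonneg k
  set x : ℝ := 3 * (k : ℝ) + 1 with hx
  have hx1 : (1 : ℝ) ≤ x := by rw [hx]; linarith
  have hx0 : (0 : ℝ) < x := by linarith
  have hy : 3 * (k : ℝ) + 2 = x + 1 := by rw [hx]; ring
  rw [hy]
  have hy0 : (0 : ℝ) < x + 1 := by linarith
  have hlogx : 0 ≤ Real.log x := Real.log_nonneg hx1
  have hlog1 : Real.log (x + 1) = Real.log x + Real.log (1 + 1 / x) := by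
    rw [← Real.log_mul hx0.ne' (by positivity)]
    congr 1
    field_simp
  have hl0 : 0 ≤ Real.log (1 + 1 / x) := Real.log_nonneg (by
    have : 0 < 1 / x := by positivity
    linarith)
  have hl1 : Real.log (1 + 1 / x) ≤ 1 / x := by
    have := Real.log_le_sub_one_of_pos (x := 1 + 1 / x) (by positivity)
    linarith
  have e1 : Real.log (x + 1) / (x + 1) - Real.log x / x =
      Real.log (1 + 1 / x) / (x + 1) - Real.log x / (x * (x + 1)) := by
    rw [hlog1]
    field_simp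
    ring
  have hsq : Real.log x ≤ 2 * Real.sqrt x - 2 := by
    have h1 : Real.log (Real.sqrt x) ≤ Real.sqrt x - 1 :=
      Real.log_le_sub_one_of_pos (Real.sqrt_pos.2 hx0)
    rw [Real.log_sqrt hx0.le] at h1
    linarith
  have hb : ‖Real.log (x + 1) / (x + 1) - Real.log x / x‖ ≤ (1 + Real.log x) / (x * x) := by
    rw [e1, Real.norm_eq_abs]
    have a1 : |Real.log (1 + 1 / x) / (x + 1) - Real.log x / (x * (x + 1))| ≤
        |Real.log (1 + 1 / x) / (x + 1)| + |Real.log x / (x * (x + 1))| := abs_sub _ _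
    have a2 : |Real.log (1 + 1 / x) / (x + 1)| ≤ 1 / (x * x) := by
      rw [abs_of_nonneg (by positivity)]
      calc _ ≤ (1 / x) / x := by gcongr; linarith
        _ = 1 / (x * x) := by field_simp
    have a3 : |Real.log x / (x * (x + 1))| ≤ Real.log x / (x * x) := by
      rw [abs_of_nonneg (by positivity)]
      gcongr
      linarith
    calc _ ≤ _ := a1
      _ ≤ 1 / (x * x) + Real.log x / (x * x) := add_le_add a2 a3
      _ = _ := by ring
  have hs0 : 0 < Real.sqrt x := Real.sqrt_pos.2 hx0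
  have hss : Real.sqrt x * Real.sqrt x = x := Real.mul_self_sqrt hx0.le
  have hb2 : (1 + Real.log x) / (x * x) ≤ 2 * (1 / (x * Real.sqrt x)) := by
    have : (1 + Real.log x) ≤ 2 * Real.sqrt x := by linarith
    calc (1 + Real.log x) / (x * x) ≤ (2 * Real.sqrt x) / (x * x) := by gcongr
      _ = 2 * (1 / (x * Real.sqrt x)) := by
        nth_rewrite 3 [← hss]
        field_simp
  refine hb.trans (hb2.trans ?_)
  have hn0 : (0 : ℝ) < ((k + 1 : ℕ) : ℝ) := by positivity
  have e2 : (((k + 1 : ℕ) : ℝ)) ^ (3 / 2 : ℝ) = ((k + 1 : ℕ) : ℝ) * Real.sqrt ((k + 1 : ℕ) : ℝ) := by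
    rw [Real.sqrt_eq_rpow, show (3 / 2 : ℝ) = 1 + 1 / 2 by norm_num, Real.rpow_add hn0,
      Real.rpow_one]
  rw [e2]
  have hle : ((k + 1 : ℕ) : ℝ) ≤ x := by rw [hx]; push_cast; linarith
  have hle2 : Real.sqrt ((k + 1 : ℕ) : ℝ) ≤ Real.sqrt x := Real.sqrt_le_sqrt hle
  have hs1 : 0 < Real.sqrt ((k + 1 : ℕ) : ℝ) := Real.sqrt_pos.2 hn0
  apply mul_le_mul_of_nonneg_left _ (by norm_num)
  apply one_div_le_one_div_of_le (by positivity)
  exact mul_le_mul hle hle2 hs1.le hx0.le

end Pool.Agent.Helper88.SE
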