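import Pool.Agent.Helper88.SE3.Defs

set_option autoImplicit false

open MeasureTheory Set Filter Topology
open scoped ENNReal

namespace Pool.Agent.Helper88.SE



theorem L1_val_mem : ((1 / 3 : ℝ) : ℂ) ∈ Complex.integerComplement := by
  rw [Complex.mem_integerComplement_iff]
  rintro ⟨n, hn⟩
  have h1 : ((n : ℝ) : ℂ) = ((1 / 3 : ℝ) : ℂ) := by
    rw [← hn]; push_cast; rfl
  have h2 : (n : ℝ) = 1 / 3 := Complex.ofReal_injective h1
  have h3 : (3 * n : ℝ) = 1 := by linarith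
  have h4 : (3 * n : ℤ) = 1 := by exact_mod_cast h3
  omega

theorem L1_val_lim : Tendsto (fun n : ℕ => ∑ j ∈ Finset.range n,
    (1 / ((1 / 3 : ℝ) - (j + 1)) + 1 / ((1 / 3 : ℝ) + (j + 1)))) atTop
    (𝓝 (Real.pi / Real.sqrt 3 - 3)) := by
  have h := tendsto_logDeriv_euler_cot_sub L1_val_mem
  have h1 := (Complex.continuous_re.tendsto _).comp h
  have e1 : ((Real.pi : ℂ) * Complex.cot (Real.pi * ((1 / 3 : ℝ) : ℂ)) - 1 / ((1 / 3 : ℝ) : ℂ)).re =
      Real.pi / Real.sqrt 3 - 3 := by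
    have e2 : (Real.pi : ℂ) * ((1 / 3 : ℝ) : ℂ) = ((Real.pi / 3 : ℝ) : ℂ) := by
      push_cast; ring
    have e3 : Real.cot (Real.pi / 3) = 1 / Real.sqrt 3 := by
      rw [Real.cot_eq_cos_div_sin, Real.cos_pi_div_three, Real.sin_pi_div_three]
      have : Real.sqrt 3 ≠ 0 := by positivity
      field_simp
    rw [e2, ← Complex.ofReal_cot, e3]
    have e4 : (Real.pi : ℂ) * ((1 / Real.sqrt 3 : ℝ) : ℂ) - 1 / ((1 / 3 : ℝ) : ℂ) =
        ((Real.pi / Real.sqrt 3 - 3 : ℝ) : ℂ) := by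
      push_cast; ring
    rw [e4, Complex.ofReal_re]
  rw [e1] at h1
  refine h1.congr fun n => ?_
  simp only [Function.comp_apply]
  rw [Complex.re_sum]
  refine Finset.sum_congr rfl fun j _ => ?_
  have e5 : cotTerm ((1 / 3 : ℝ) : ℂ) j =
      ((1 / ((1 / 3 : ℝ) - (j + 1)) + 1 / ((1 / 3 : ℝ) + (j + 1)) : ℝ) : ℂ) := by
    unfold cotTerm
    push_cast
    ring
  rw [e5, Complex.ofReal_re]

theorem L1_val_sum (n : ℕ) : ∑ k ∈ Finset.range (n + 1),
    (1 / (3 * (k : ℝ) + 1) - 1 / (3 * (k : ℝ) + 2)) =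
    1 - 1 / (3 * (n : ℝ) + 2) + 1 / 3 * ∑ j ∈ Finset.range n,
      (1 / ((1 / 3 : ℝ) - (j + 1)) + 1 / ((1 / 3 : ℝ) + (j + 1))) := by
  induction n with
  | zero => norm_num
  | succ n ih =>
    rw [Finset.sum_range_succ, ih, Finset.sum_range_succ (n := n)]
    have hn : (0:ℝ) ≤ n := Nat.cast_nonneg n
    have h1 : (1 / 3 : ℝ) - (n + 1) = -(3 * n + 2) / 3 := by ring
    have h2 : (1 / 3 : ℝ) + (n + 1) = (3 * n + 4) / 3 := by ring
    rw [h1, h2]
    push_cast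
    have a1 : (3 * (n : ℝ) + 2) ≠ 0 := by positivity
    have a2 : (3 * (n : ℝ) + 4) ≠ 0 := by positivity
    have a3 : (3 * ((n : ℝ) + 1) + 1) ≠ 0 := by positivity
    have a4 : (3 * ((n : ℝ) + 1) + 2) ≠ 0 := by positivity
    generalize ∑ j ∈ Finset.range n,
      (1 / ((1 / 3 : ℝ) - (j + 1)) + 1 / ((1 / 3 : ℝ) + (j + 1))) = SS
    have e1 : 1 / (-(3 * (n:ℝ) + 2) / 3) = -(3 / (3 * (n:ℝ) + 2)) := by
      field_simp
    have e2 : 1 / ((3 * (n:ℝ) + 4) / 3) = 3 / (3 * ((n:ℝ) + 1) + 1) := by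
      have : 3 * ((n:ℝ) + 1) + 1 = 3 * n + 4 := by ring
      rw [this]; field_simp
    rw [e1, e2]
    ring

theorem L1_val : HasSum (fun k : ℕ => 1 / (3 * (k : ℝ) + 1) - 1 / (3 * (k : ℝ) + 2))
    (Real.pi / (3 * Real.sqrt 3)) := by
  rw [hasSum_iff_tendsto_nat_of_nonneg]
  · rw [← tendsto_add_atTop_iff_nat 1]
    have h1 : Tendsto (fun n : ℕ => 1 - 1 / (3 * (n : ℝ) + 2) + 1 / 3 * ∑ j ∈ Finset.range n,
        (1 / ((1 / 3 : ℝ) - (j + 1)) + 1 / ((1 / 3 : ℝ) + (j + 1)))) atTop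
        (𝓝 (1 - 0 + 1 / 3 * (Real.pi / Real.sqrt 3 - 3))) := by
      refine Tendsto.add (Tendsto.sub tendsto_const_nhds ?_) (L1_val_lim.const_mul _)
      simp only [one_div]
      refine tendsto_inv_atTop_zero.comp ?_
      refine tendsto_atTop_add_const_right _ _ ?_
      exact Tendsto.const_mul_atTop (by norm_num) tendsto_natCast_atTop_atTop
    have e : (1 - 0 + 1 / 3 * (Real.pi / Real.sqrt 3 - 3)) = Real.pi / (3 * Real.sqrt 3) := by
      have : Real.sqrt 3 ≠ 0 := by positivity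
      field_simp
      ring
    rw [e] at h1
    exact h1.congr fun n => (L1_val_sum n).symm
  · intro k
    have hk : (0:ℝ) ≤ k := Nat.cast_nonneg k
    rw [sub_nonneg]
    apply one_div_le_one_div_of_le <;> linarith

end Pool.Agent.Helper88.SE
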