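import Pool.Agent.Helper88.SE3.Defs
import Pool.Agent.Helper88.SE3.P_L1_val
import Pool.Agent.Helper88.SE3.P_D_summable

set_option autoImplicit false

open MeasureTheory Set Filter Topology
open scoped ENNReal

namespace Pool.Agent.Helper88.SE

theorem D_rel : ∑' k : ℕ, (Real.log ((k : ℝ) + 2 / 3) / ((k : ℝ) + 2 / 3) -
      Real.log ((k : ℝ) + 1 / 3) / ((k : ℝ) + 1 / 3)) =
    3 * (∑' k : ℕ, (Real.log (3 * (k : ℝ) + 2) / (3 * (k : ℝ) + 2) -
      Real.log (3 * (k : ℝ) + 1) / (3 * (k : ℝ) + 1))) + Real.pi / Real.sqrt 3 * Real.log 3 := by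
  have h1 := D_summable.hasSum.mul_left 3
  have h2 := L1_val.mul_left (3 * Real.log 3)
  have h3 := h1.add h2
  have hterm : ∀ k : ℕ, (Real.log ((k : ℝ) + 2 / 3) / ((k : ℝ) + 2 / 3) -
      Real.log ((k : ℝ) + 1 / 3) / ((k : ℝ) + 1 / 3)) =
      3 * (Real.log (3 * (k : ℝ) + 2) / (3 * (k : ℝ) + 2) -
      Real.log (3 * (k : ℝ) + 1) / (3 * (k : ℝ) + 1)) +
      3 * Real.log 3 * (1 / (3 * (k : ℝ) + 1) - 1 / (3 * (k : ℝ) + 2)) := by
    intro k
    have hk : (0 : ℝ) ≤ k := k.cast_nonneg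
    have e1 : (k : ℝ) + 2 / 3 = (3 * (k : ℝ) + 2) / 3 := by ring
    have e2 : (k : ℝ) + 1 / 3 = (3 * (k : ℝ) + 1) / 3 := by ring
    have p1 : (3 * (k : ℝ) + 2) ≠ 0 := by positivity
    have p2 : (3 * (k : ℝ) + 1) ≠ 0 := by positivity
    rw [e1, e2, Real.log_div p1 (by norm_num), Real.log_div p2 (by norm_num)]
    field_simp
    ring
  rw [tsum_congr hterm, h3.tsum_eq]
  have h4 : Real.sqrt 3 ≠ 0 := by positivity
  field_simp

end Pool.Agent.Helper88.SE
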