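import Pool.Agent.Helper88.SE3.Defs

set_option autoImplicit false

open MeasureTheory Set Filter Topology
open scoped ENNReal

namespace Pool.Agent.Helper88.SE



/-- antiderivative used for `E1_diff` -/
noncomputable def E1A (t x : ℝ) : ℝ := 2 / t * Real.exp (-(t * Real.sqrt x))

/-- the summand -/
noncomputable def E1f (t x : ℝ) : ℝ := Real.exp (-(t * Real.sqrt x)) / Real.sqrt x

theorem E1A_deriv {t x : ℝ} (ht : t ≠ 0) (hx : 0 < x) : HasDerivAt (E1A t) (-(E1f t x)) x := by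
  have h1 : HasDerivAt (fun x => Real.sqrt x) (1 / (2 * Real.sqrt x)) x :=
    Real.hasDerivAt_sqrt hx.ne'
  have h2 := ((h1.const_mul t).fun_neg).exp.const_mul (2 / t)
  have hs : Real.sqrt x ≠ 0 := (Real.sqrt_pos.2 hx).ne'
  have h3 : 2 / t * (Real.exp (-(t * Real.sqrt x)) * -(t * (1 / (2 * Real.sqrt x)))) =
      -(E1f t x) := by
    unfold E1f
    field_simp
  rw [← h3]
  exact h2

theorem E1A_cont (t : ℝ) : Continuous (E1A t) := by
  unfold E1A
  fun_prop

theorem E1_mvt {t t' : ℝ} (ht : t ≠ 0) (ht' : t' ≠ 0) {a : ℝ} (ha : 0 ≤ a) :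
    ∃ c ∈ Set.Ioo a (a + 1), (E1A t a - E1A t' a) - (E1A t (a + 1) - E1A t' (a + 1)) =
      E1f t c - E1f t' c := by
  obtain ⟨c, hc, h⟩ := exists_hasDerivAt_eq_slope (fun x => E1A t x - E1A t' x)
    (fun x => -(E1f t x) - -(E1f t' x)) (show a < a + 1 by linarith)
    ((E1A_cont t).sub (E1A_cont t')).continuousOn
    (fun x hx => (E1A_deriv ht (lt_of_le_of_lt ha hx.1)).sub
      (E1A_deriv ht' (lt_of_le_of_lt ha hx.1)))
  refine ⟨c, hc, ?_⟩
  have h' : -(E1f t c) - -(E1f t' c) =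
      ((E1A t (a + 1) - E1A t' (a + 1)) - (E1A t a - E1A t' a)) / (a + 1 - a) := h
  rw [show a + 1 - a = 1 by ring, div_one] at h'
  linarith

theorem E1_mvt1 {t : ℝ} (ht : t ≠ 0) {a : ℝ} (ha : 0 ≤ a) :
    ∃ c ∈ Set.Ioo a (a + 1), E1A t a - E1A t (a + 1) = E1f t c := by
  obtain ⟨c, hc, h⟩ := exists_hasDerivAt_eq_slope (fun x => E1A t x)
    (fun x => -(E1f t x)) (show a < a + 1 by linarith)
    (E1A_cont t).continuousOn
    (fun x hx => (E1A_deriv ht (lt_of_le_of_lt ha hx.1)))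
  refine ⟨c, hc, ?_⟩
  have h' : -(E1f t c) = (E1A t (a + 1) - E1A t a) / (a + 1 - a) := h
  rw [show a + 1 - a = 1 by ring, div_one] at h'
  linarith

theorem E1_psi_anti {t t' s r : ℝ} (ht : 0 < t) (htt : t ≤ t') (hs : 0 < s) (hsr : s ≤ r) :
    (Real.exp (-(t * r)) - Real.exp (-(t' * r))) / r ≤
      (Real.exp (-(t * s)) - Real.exp (-(t' * s))) / s := by
  have hr : 0 < r := lt_of_lt_of_le hs hsr
  have e1 : ∀ u : ℝ, Real.exp (-(t' * u)) = Real.exp (-(t * u)) * Real.exp (-((t' - t) * u)) := by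
    intro u
    rw [← Real.exp_add]
    congr 1
    ring
  have e2 : ∀ u : ℝ, (Real.exp (-(t * u)) - Real.exp (-(t' * u))) / u =
      Real.exp (-(t * u)) * ((1 - Real.exp (-((t' - t) * u))) / u) := by
    intro u
    rw [e1 u]
    ring
  rw [e2 r, e2 s]
  have h1 : Real.exp (-(t * r)) ≤ Real.exp (-(t * s)) := by
    apply Real.exp_le_exp.2
    have := mul_le_mul_of_nonneg_left hsr ht.le
    linarith
  have hδ : 0 ≤ t' - t := by linarith
  have h2 : 0 ≤ (1 - Real.exp (-((t' - t) * r))) / r := by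
    apply div_nonneg _ hr.le
    have : Real.exp (-((t' - t) * r)) ≤ 1 := by
      apply Real.exp_le_one_iff.2
      have := mul_nonneg hδ hr.le
      linarith
    linarith
  have h3 : (1 - Real.exp (-((t' - t) * r))) / r ≤ (1 - Real.exp (-((t' - t) * s))) / s := by
    have hl0 : 0 ≤ s / r := by positivity
    have hl1 : 0 ≤ 1 - s / r := by
      have : s / r ≤ 1 := (div_le_one hr).2 hsr
      linarith
    have hc := convexOn_exp.2 (Set.mem_univ (-((t' - t) * r))) (Set.mem_univ (0 : ℝ)) hl0 hl1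
      (by ring)
    simp only [smul_eq_mul, mul_zero, add_zero, Real.exp_zero, mul_one] at hc
    have h4 : s / r * -((t' - t) * r) = -((t' - t) * s) := by
      field_simp
    rw [h4] at hc
    rw [div_le_div_iff₀ hr hs]
    have h5 : (1 - Real.exp (-((t' - t) * r))) * s =
        (s / r * (1 - Real.exp (-((t' - t) * r)))) * r := by
      field_simp
    rw [h5]
    apply mul_le_mul_of_nonneg_right _ hr.le
    linarith
  exact mul_le_mul h1 h3 h2 (Real.exp_pos _).le

theorem E1_psi_le {t t' s : ℝ} (ht : 0 < t) (htt : t ≤ t') (hs : 0 < s) :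
    (Real.exp (-(t * s)) - Real.exp (-(t' * s))) / s ≤ t' - t := by
  have e1 : Real.exp (-(t' * s)) = Real.exp (-(t * s)) * Real.exp (-((t' - t) * s)) := by
    rw [← Real.exp_add]
    congr 1
    ring
  rw [e1, div_le_iff₀ hs]
  have h1 : Real.exp (-(t * s)) ≤ 1 := by
    apply Real.exp_le_one_iff.2
    have := mul_pos ht hs
    linarith
  have h2 : 1 - Real.exp (-((t' - t) * s)) ≤ (t' - t) * s := by
    have := Real.add_one_le_exp (-((t' - t) * s))
    linarith
  have h3 : 0 ≤ 1 - Real.exp (-((t' - t) * s)) := by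
    have : Real.exp (-((t' - t) * s)) ≤ 1 := by
      apply Real.exp_le_one_iff.2
      have := mul_nonneg (sub_nonneg.2 htt) hs.le
      linarith
    linarith
  have h4 : Real.exp (-(t * s)) * (1 - Real.exp (-((t' - t) * s))) ≤
      1 * (1 - Real.exp (-((t' - t) * s))) := mul_le_mul_of_nonneg_right h1 h3
  calc Real.exp (-(t * s)) - Real.exp (-(t * s)) * Real.exp (-((t' - t) * s))
      = Real.exp (-(t * s)) * (1 - Real.exp (-((t' - t) * s))) := by ring
    _ ≤ 1 * (1 - Real.exp (-((t' - t) * s))) := h4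
    _ ≤ (t' - t) * s := by linarith

theorem E1_tendsto {t : ℝ} (ht : 0 < t) :
    Filter.Tendsto (fun n : ℕ => E1A t (n : ℝ)) Filter.atTop (nhds 0) := by
  have h1 : Filter.Tendsto (fun n : ℕ => -(t * Real.sqrt (n : ℝ))) Filter.atTop Filter.atBot := by
    apply Filter.tendsto_neg_atTop_atBot.comp
    apply Filter.Tendsto.const_mul_atTop ht
    exact Real.tendsto_sqrt_atTop.comp tendsto_natCast_atTop_atTop
  have h2 := (Real.tendsto_exp_atBot.comp h1).const_mul (2 / t)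
  rw [mul_zero] at h2
  exact h2

theorem E1_summable {t : ℝ} (ht : 0 < t) : Summable (fun n : ℕ => E1f t ((n : ℝ) + 1)) := by
  apply summable_of_sum_range_le (c := 2 / t)
  · intro n
    unfold E1f
    positivity
  · intro n
    have h : ∀ i ∈ Finset.range n, E1f t ((i : ℝ) + 1) ≤ E1A t (i : ℝ) - E1A t ((i + 1 : ℕ) : ℝ) := by
      intro i _
      obtain ⟨c, hc, h⟩ := E1_mvt1 ht.ne' (show (0 : ℝ) ≤ (i : ℝ) by positivity)
      push_cast
      rw [h]
      unfold E1f
      have hi : (0 : ℝ) ≤ (i : ℝ) := by positivity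
      have hc0 : 0 < c := lt_of_le_of_lt hi hc.1
      have hs : Real.sqrt c ≤ Real.sqrt ((i : ℝ) + 1) := Real.sqrt_le_sqrt hc.2.le
      apply div_le_div₀ (Real.exp_pos _).le _ (Real.sqrt_pos.2 hc0) hs
      apply Real.exp_le_exp.2
      have := mul_le_mul_of_nonneg_left hs ht.le
      linarith
    have h2 := Finset.sum_le_sum h
    rw [Finset.sum_range_sub' (fun i : ℕ => E1A t (i : ℝ))] at h2
    have h3 : E1A t ((0 : ℕ) : ℝ) = 2 / t := by simp [E1A]
    have h4 : 0 ≤ E1A t (n : ℝ) := by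
      unfold E1A
      positivity
    rw [h3] at h2
    linarith

theorem E1_GG (t : ℝ) : GG 1 t = ∑' n : ℕ, E1f t ((n : ℝ) + 1) := by
  unfold GG E1f
  congr 1
  funext m
  rw [Real.rpow_neg (by positivity), ← Real.sqrt_eq_rpow]
  rw [div_eq_mul_inv, mul_comm]

theorem E1_diff (t t' : ℝ) (ht : 0 < t) (htt : t ≤ t') :
    0 ≤ (GG 1 t' - 2 / t') - (GG 1 t - 2 / t) ∧
    (GG 1 t' - 2 / t') - (GG 1 t - 2 / t) ≤ min (t' - t) (2 / t - 2 / t') := by
  have ht' : 0 < t' := lt_of_lt_of_le ht htt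
  have hS := E1_summable ht
  have hS' := E1_summable ht'
  set φ : ℕ → ℝ := fun n => E1f t ((n : ℝ) + 1) - E1f t' ((n : ℝ) + 1) with hφ
  have hφs : Summable φ := hS.sub hS'
  have hG : GG 1 t - GG 1 t' = ∑' n, φ n := by
    rw [E1_GG, E1_GG, ← hS.tsum_sub hS']
  set Φ : ℕ → ℝ := fun n => E1A t (n : ℝ) - E1A t' (n : ℝ) with hΦ
  have key : ∀ n : ℕ, φ n ≤ Φ n - Φ (n + 1) ∧ Φ n - Φ (n + 1) ≤ t' - t ∧
      (∀ k : ℕ, n = k + 1 → Φ n - Φ (n + 1) ≤ φ k) := by
    intro n
    have hn : (0 : ℝ) ≤ (n : ℝ) := by positivity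
    obtain ⟨c, hc, h⟩ := E1_mvt ht.ne' ht'.ne' hn
    have hc0 : 0 < c := lt_of_le_of_lt hn hc.1
    have hsc : 0 < Real.sqrt c := Real.sqrt_pos.2 hc0
    have h' : Φ n - Φ (n + 1) = (Real.exp (-(t * Real.sqrt c)) - Real.exp (-(t' * Real.sqrt c))) /
        Real.sqrt c := by
      simp only [hΦ]
      push_cast
      rw [h]
      unfold E1f
      ring
    have hf : ∀ k : ℕ, φ k = (Real.exp (-(t * Real.sqrt ((k : ℝ) + 1))) -
        Real.exp (-(t' * Real.sqrt ((k : ℝ) + 1)))) / Real.sqrt ((k : ℝ) + 1) := by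
      intro k
      simp only [hφ]
      unfold E1f
      ring
    refine ⟨?_, ?_, ?_⟩
    · rw [h', hf]
      exact E1_psi_anti ht htt hsc (Real.sqrt_le_sqrt hc.2.le)
    · rw [h']
      exact E1_psi_le ht htt hsc
    · intro k hk
      rw [h', hf]
      have hk' : ((k : ℝ) + 1) = (n : ℝ) := by rw [hk]; push_cast; ring
      rw [hk']
      apply E1_psi_anti ht htt
      · apply Real.sqrt_pos.2
        rw [← hk']
        positivity
      · exact Real.sqrt_le_sqrt hc.1.le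
  have hφ0 : ∀ n, 0 ≤ φ n := by
    intro n
    simp only [hφ]
    unfold E1f
    rw [← sub_div]
    apply div_nonneg _ (Real.sqrt_nonneg _)
    have : Real.exp (-(t' * Real.sqrt ((n : ℝ) + 1))) ≤ Real.exp (-(t * Real.sqrt ((n : ℝ) + 1))) := by
      apply Real.exp_le_exp.2
      have := mul_le_mul_of_nonneg_right htt (Real.sqrt_nonneg ((n : ℝ) + 1))
      linarith
    linarith
  have hsum : HasSum (fun n => Φ n - Φ (n + 1)) (2 / t - 2 / t') := by
    rw [hasSum_iff_tendsto_nat_of_nonneg (fun n => (hφ0 n).trans (key n).1)]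
    have h1 : ∀ n, ∑ i ∈ Finset.range n, (Φ i - Φ (i + 1)) = Φ 0 - Φ n :=
      fun n => Finset.sum_range_sub' Φ n
    simp only [h1]
    have h2 : Φ 0 = 2 / t - 2 / t' := by simp [hΦ, E1A]
    rw [h2]
    have h3 := ((E1_tendsto ht).sub (E1_tendsto ht')).const_sub (2 / t - 2 / t')
    simpa using h3
  have hS1 : ∑' n, φ n ≤ 2 / t - 2 / t' := by
    rw [← hsum.tsum_eq]
    exact hφs.tsum_le_tsum (fun n => (key n).1) hsum.summable
  have hS2 : 2 / t - 2 / t' ≤ (t' - t) + ∑' n, φ n := by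
    rw [← hsum.tsum_eq, hsum.summable.tsum_eq_zero_add]
    have h1 := (key 0).2.1
    have h2 : ∑' n, (Φ (n + 1) - Φ (n + 1 + 1)) ≤ ∑' n, φ n := by
      refine Summable.tsum_le_tsum (fun n => (key (n + 1)).2.2 n rfl) ?_ hφs
      exact (summable_nat_add_iff (f := fun n => Φ n - Φ (n + 1)) 1).2 hsum.summable
    linarith
  have hS3 : 0 ≤ ∑' n, φ n := tsum_nonneg hφ0
  have hexp : (GG 1 t' - 2 / t') - (GG 1 t - 2 / t) = (2 / t - 2 / t') - ∑' n, φ n := by
    rw [← hG]
    ring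
  rw [hexp]
  refine ⟨by linarith, le_min (by linarith) (by linarith)⟩

end Pool.Agent.Helper88.SE
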