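import Pool.Agent.Helper88.SE3.Defs

set_option autoImplicit false

open MeasureTheory Set Filter Topology
open scoped ENNReal

namespace Pool.Agent.Helper88.SE



/-- auxiliary terms -/
noncomputable def btE1 (t : ℝ) (m : ℕ) : ℝ :=
  (Real.sqrt ((m : ℝ) + 1))⁻¹ * Real.exp (-(t * Real.sqrt ((m : ℝ) + 1))) -
    2 / t * (Real.exp (-(t * Real.sqrt (m : ℝ))) - Real.exp (-(t * Real.sqrt ((m : ℝ) + 1))))

/-- their limits -/
noncomputable def atE1 (m : ℕ) : ℝ :=
  (Real.sqrt ((m : ℝ) + 1))⁻¹ - 2 * (Real.sqrt ((m : ℝ) + 1) - Real.sqrt (m : ℝ))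

theorem btE1_core (t u v : ℝ) (ht : 0 < t) (hu : 0 ≤ u) (hv : 0 < v) (huv : v ^ 2 = u ^ 2 + 1) :
    v⁻¹ * Real.exp (-(t * v)) - 2 / t * (Real.exp (-(t * u)) - Real.exp (-(t * v))) ≤ 0 ∧
    v⁻¹ * Real.exp (-(t * v)) - 2 * (v - u) * Real.exp (-(t * u)) ≤
      v⁻¹ * Real.exp (-(t * v)) - 2 / t * (Real.exp (-(t * u)) - Real.exp (-(t * v))) := by
  have hlt : u < v := by nlinarith
  have hE1 : 0 < Real.exp (-(t * u)) := Real.exp_pos _
  have hE2 : 0 < Real.exp (-(t * v)) := Real.exp_pos _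
  have hP : Real.exp (-(t * v)) * (1 + t * (v - u)) ≤ Real.exp (-(t * u)) := by
    have h1 : Real.exp (-(t * u)) = Real.exp (-(t * v)) * Real.exp (t * (v - u)) := by
      rw [← Real.exp_add]; congr 1; ring
    rw [h1]
    apply mul_le_mul_of_nonneg_left _ hE2.le
    have := Real.add_one_le_exp (t * (v - u))
    linarith
  have hQ : Real.exp (-(t * u)) * (1 - t * (v - u)) ≤ Real.exp (-(t * v)) := by
    have h1 : Real.exp (-(t * v)) = Real.exp (-(t * u)) * Real.exp (-(t * (v - u))) := by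
      rw [← Real.exp_add]; congr 1; ring
    rw [h1]
    apply mul_le_mul_of_nonneg_left _ hE1.le
    have := Real.add_one_le_exp (-(t * (v - u)))
    linarith
  constructor
  · have h1 : 2 * (v - u) * Real.exp (-(t * v)) ≤
        2 / t * (Real.exp (-(t * u)) - Real.exp (-(t * v))) := by
      rw [div_mul_eq_mul_div, le_div_iff₀ ht]
      nlinarith
    have h2 : v⁻¹ ≤ 2 * (v - u) := by
      rw [inv_eq_one_div, div_le_iff₀ hv]
      nlinarith
    have h3 := mul_le_mul_of_nonneg_right h2 hE2.le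
    linarith
  · have h1 : 2 / t * (Real.exp (-(t * u)) - Real.exp (-(t * v))) ≤
        2 * (v - u) * Real.exp (-(t * u)) := by
      rw [div_mul_eq_mul_div, div_le_iff₀ ht]
      nlinarith
    linarith

theorem btE1_abs0 (t : ℝ) (ht : 0 < t) : |btE1 t 0| ≤ 3 := by
  have h := btE1_core t 0 1 ht le_rfl one_pos (by norm_num)
  unfold btE1
  simp only [Nat.cast_zero, zero_add, Real.sqrt_one, Real.sqrt_zero]
  rw [abs_of_nonpos h.1]
  have h2 := h.2
  have h3 : 0 < Real.exp (-(t * 1)) := Real.exp_pos _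
  have h4 : Real.exp (-(t * 0)) = 1 := by simp
  rw [h4] at h2 ⊢
  rw [inv_one, one_mul] at h2 ⊢
  linarith

theorem btE1_abs (t : ℝ) (ht : 0 < t) (m : ℕ) (hm : 1 ≤ m) :
    |btE1 t m| ≤ 3 * ((Real.sqrt (m : ℝ))⁻¹) ^ 3 := by
  have hm' : (1 : ℝ) ≤ m := by exact_mod_cast hm
  obtain ⟨u, hu⟩ : ∃ u, u = Real.sqrt (m : ℝ) := ⟨_, rfl⟩
  obtain ⟨v, hv⟩ : ∃ v, v = Real.sqrt ((m : ℝ) + 1) := ⟨_, rfl⟩
  have hu0 : 0 < u := by rw [hu]; exact Real.sqrt_pos.2 (by linarith)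
  have hv0 : 0 < v := by rw [hv]; exact Real.sqrt_pos.2 (by linarith)
  have huv : v ^ 2 = u ^ 2 + 1 := by
    rw [hu, hv, Real.sq_sqrt (by linarith), Real.sq_sqrt (by linarith)]
  have h := btE1_core t u v ht hu0.le hv0 huv
  unfold btE1
  rw [← hu, ← hv, abs_of_nonpos h.1]
  have hlt : u < v := by nlinarith
  have hE1 : 0 < Real.exp (-(t * u)) := Real.exp_pos _
  have hE1' : Real.exp (-(t * u)) ≤ 1 := Real.exp_le_one_iff.2 (by nlinarith)
  have hQ : Real.exp (-(t * u)) * (1 - t * (v - u)) ≤ Real.exp (-(t * v)) := by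
    have h1 : Real.exp (-(t * v)) = Real.exp (-(t * u)) * Real.exp (-(t * (v - u))) := by
      rw [← Real.exp_add]; congr 1; ring
    rw [h1]
    apply mul_le_mul_of_nonneg_left _ hE1.le
    have := Real.add_one_le_exp (-(t * (v - u)))
    linarith
  have hd : (v - u) * (u + v) = 1 := by nlinarith
  have hdu : v - u ≤ u⁻¹ := by
    rw [inv_eq_one_div, le_div_iff₀ hu0]
    nlinarith
  have hvu : v⁻¹ ≤ u⁻¹ := inv_anti₀ hu0 hlt.le
  have hte : t * Real.exp (-(t * u)) ≤ u⁻¹ := by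
    rw [inv_eq_one_div, le_div_iff₀ hu0]
    have h1 := Real.add_one_le_exp (t * u)
    have h2 : Real.exp (-(t * u)) * Real.exp (t * u) = 1 := by
      rw [← Real.exp_add]; simp
    nlinarith
  have hvd : 2 * (v - u) - v⁻¹ = (v - u) ^ 2 * v⁻¹ := by
    field_simp
    nlinarith
  have hvi : 0 < v⁻¹ := inv_pos.2 hv0
  have hui : 0 < u⁻¹ := inv_pos.2 hu0
  have hdpos : 0 < v - u := by linarith
  have k1 : v⁻¹ * (Real.exp (-(t * u)) * (1 - t * (v - u))) ≤ v⁻¹ * Real.exp (-(t * v)) :=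
    mul_le_mul_of_nonneg_left hQ hvi.le
  have k2 : (v - u) ^ 2 * v⁻¹ ≤ (u⁻¹) ^ 3 := by
    calc (v - u) ^ 2 * v⁻¹ ≤ (u⁻¹) ^ 2 * u⁻¹ := by
          apply mul_le_mul (pow_le_pow_left₀ hdpos.le hdu 2) hvu hvi.le (by positivity)
      _ = (u⁻¹) ^ 3 := by ring
  have k3 : v⁻¹ * (v - u) * (t * Real.exp (-(t * u))) ≤ (u⁻¹) ^ 3 := by
    calc v⁻¹ * (v - u) * (t * Real.exp (-(t * u))) ≤ u⁻¹ * u⁻¹ * u⁻¹ := by
          apply mul_le_mul (mul_le_mul hvu hdu hdpos.le hui.le) hte (by positivity) (by positivity)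
      _ = (u⁻¹) ^ 3 := by ring
  have k4 : (v - u) ^ 2 * v⁻¹ * Real.exp (-(t * u)) ≤ (u⁻¹) ^ 3 := by
    calc (v - u) ^ 2 * v⁻¹ * Real.exp (-(t * u)) ≤ (v - u) ^ 2 * v⁻¹ * 1 := by
          apply mul_le_mul_of_nonneg_left hE1' (by positivity)
      _ ≤ (u⁻¹) ^ 3 := by rw [mul_one]; exact k2
  have k5 : 2 * (v - u) * Real.exp (-(t * u)) - v⁻¹ * (Real.exp (-(t * u)) * (1 - t * (v - u)))
      = (v - u) ^ 2 * v⁻¹ * Real.exp (-(t * u)) + v⁻¹ * (v - u) * (t * Real.exp (-(t * u))) := by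
    rw [← hvd]; ring
  have k6 : 0 ≤ (u⁻¹) ^ 3 := by positivity
  linarith [h.2]

theorem btE1_lim (m : ℕ) : Tendsto (fun t : ℝ => btE1 t m) (𝓝[>] 0) (𝓝 (atE1 m)) := by
  obtain ⟨u, hu⟩ : ∃ u, u = Real.sqrt (m : ℝ) := ⟨_, rfl⟩
  obtain ⟨v, hv⟩ : ∃ v, v = Real.sqrt ((m : ℝ) + 1) := ⟨_, rfl⟩
  unfold btE1 atE1
  rw [← hu, ← hv]
  have h1 : Tendsto (fun t : ℝ => v⁻¹ * Real.exp (-(t * v))) (𝓝[>] 0) (𝓝 v⁻¹) := by
    have hc : Continuous fun t : ℝ => v⁻¹ * Real.exp (-(t * v)) := by fun_prop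
    have h2 := hc.tendsto 0
    simp only [zero_mul, neg_zero, Real.exp_zero, mul_one] at h2
    exact h2.mono_left nhdsWithin_le_nhds
  have h2 : Tendsto (fun t : ℝ => 2 / t * (Real.exp (-(t * u)) - Real.exp (-(t * v)))) (𝓝[>] 0)
      (𝓝 (2 * (v - u))) := by
    have hd : HasDerivAt (fun t : ℝ => Real.exp (-(t * u)) - Real.exp (-(t * v))) (v - u) 0 := by
      have e1 : HasDerivAt (fun t : ℝ => Real.exp (-(t * u)))
          (Real.exp (-(0 * u)) * (-(1 * u))) 0 :=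
        (((hasDerivAt_id (0 : ℝ)).mul_const u).neg).exp
      have e2 : HasDerivAt (fun t : ℝ => Real.exp (-(t * v)))
          (Real.exp (-(0 * v)) * (-(1 * v))) 0 :=
        (((hasDerivAt_id (0 : ℝ)).mul_const v).neg).exp
      have e3 := e1.sub e2
      simp only [zero_mul, neg_zero, Real.exp_zero, one_mul] at e3
      have e4 : v - u = -u - -v := by ring
      rw [e4]
      exact e3
    have h3 := hd.tendsto_slope_zero_right
    have h4 := h3.const_mul 2
    refine h4.congr fun t => ?_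
    simp only [zero_add, zero_mul, neg_zero, Real.exp_zero, sub_self, sub_zero, smul_eq_mul]
    rw [div_eq_mul_inv]; ring
  exact h1.sub h2

/-- dominating sequence -/
noncomputable def bdE1 (m : ℕ) : ℝ := 3 * ((Real.sqrt (m : ℝ))⁻¹) ^ 3 + (if m = 0 then 3 else 0)

theorem bdE1_summable : Summable bdE1 := by
  have h1 : Summable fun m : ℕ => ((Real.sqrt (m : ℝ))⁻¹) ^ 3 := by
    have h2 : Summable fun m : ℕ => ((m : ℝ) ^ (-(3 / 2) : ℝ)) :=
      Real.summable_nat_rpow.2 (by norm_num)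
    refine h2.congr fun m => ?_
    rw [Real.sqrt_eq_rpow, ← Real.rpow_neg (Nat.cast_nonneg m), ← Real.rpow_natCast,
      ← Real.rpow_mul (Nat.cast_nonneg m)]
    norm_num
  have h3 : Summable fun m : ℕ => (if m = 0 then (3 : ℝ) else 0) :=
    (hasSum_ite_eq 0 (3 : ℝ)).summable
  exact (h1.mul_left 3).add h3

theorem btE1_le (t : ℝ) (ht : 0 < t) (m : ℕ) : ‖btE1 t m‖ ≤ bdE1 m := by
  rw [Real.norm_eq_abs]
  unfold bdE1
  rcases Nat.eq_zero_or_pos m with h | h
  · subst h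
    have := btE1_abs0 t ht
    simp
    linarith
  · rw [if_neg (by omega), add_zero]
    exact btE1_abs t ht m h

theorem E1_lim (z : ℝ) (hz : Tendsto (fun M : ℕ =>
      (∑ m ∈ Finset.range M, ((m : ℝ) + 1) ^ (-(1 / 2) : ℝ)) - 2 * Real.sqrt M) atTop (𝓝 z)) :
    Tendsto (fun t : ℝ => GG 1 t - 2 / t) (𝓝[>] 0) (𝓝 z) := by
  have hrp : ∀ m : ℕ, ((m : ℝ) + 1) ^ (-(1 / 2) : ℝ) = (Real.sqrt ((m : ℝ) + 1))⁻¹ := by
    intro m
    rw [Real.rpow_neg (by positivity), ← Real.sqrt_eq_rpow]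
  have hlim := tendsto_tsum_of_dominated_convergence bdE1_summable
    (f := fun t m => btE1 t m) (g := atE1) (𝓕 := 𝓝[>] (0 : ℝ)) btE1_lim (by
      filter_upwards [self_mem_nhdsWithin] with t ht m
      exact btE1_le t ht m)
  have hle : ∀ m, ‖atE1 m‖ ≤ bdE1 m := by
    intro m
    refine le_of_tendsto ((btE1_lim m).norm) ?_
    filter_upwards [self_mem_nhdsWithin] with t ht
    exact btE1_le t ht m
  have hsa : Summable atE1 := Summable.of_norm_bounded bdE1_summable hle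
  have hz2 : ∑' m, atE1 m = z := by
    have h1 := hsa.hasSum.tendsto_sum_nat
    refine tendsto_nhds_unique h1 (hz.congr fun M => ?_)
    unfold atE1
    rw [Finset.sum_sub_distrib, ← Finset.mul_sum]
    have h2 : ∑ m ∈ Finset.range M, (Real.sqrt ((m : ℝ) + 1) - Real.sqrt (m : ℝ)) = Real.sqrt M := by
      have h3 := Finset.sum_range_sub (fun m : ℕ => Real.sqrt (m : ℝ)) M
      push_cast at h3
      rw [h3]; simp
    rw [h2]
    congr 1
    exact Finset.sum_congr rfl fun m _ => hrp m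
  rw [hz2] at hlim
  refine hlim.congr' ?_
  filter_upwards [self_mem_nhdsWithin] with t ht
  have ht' : 0 < t := ht
  have hb : Summable (btE1 t) := Summable.of_norm_bounded bdE1_summable (btE1_le t ht')
  have htel : HasSum (fun m : ℕ => 2 / t * (Real.exp (-(t * Real.sqrt (m : ℝ))) -
      Real.exp (-(t * Real.sqrt ((m : ℝ) + 1))))) (2 / t) := by
    rw [hasSum_iff_tendsto_nat_of_nonneg]
    · have h1 : ∀ M : ℕ, ∑ m ∈ Finset.range M, 2 / t * (Real.exp (-(t * Real.sqrt (m : ℝ))) -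
          Real.exp (-(t * Real.sqrt ((m : ℝ) + 1)))) =
          2 / t * (1 - Real.exp (-(t * Real.sqrt (M : ℝ)))) := by
        intro M
        rw [← Finset.mul_sum]
        have h3 := Finset.sum_range_sub' (fun m : ℕ => Real.exp (-(t * Real.sqrt (m : ℝ)))) M
        push_cast at h3
        rw [h3]; simp
      have h2 : Tendsto (fun M : ℕ => 2 / t * (1 - Real.exp (-(t * Real.sqrt (M : ℝ))))) atTop
          (𝓝 (2 / t * (1 - 0))) := by
        refine Tendsto.const_mul _ (Tendsto.sub tendsto_const_nhds ?_)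
        refine Real.tendsto_exp_atBot.comp ?_
        refine tendsto_neg_atTop_atBot.comp ?_
        refine Tendsto.const_mul_atTop ht' ?_
        exact Real.tendsto_sqrt_atTop.comp tendsto_natCast_atTop_atTop
      rw [sub_zero, mul_one] at h2
      exact h2.congr fun M => (h1 M).symm
    · intro m
      have h1 : Real.sqrt (m : ℝ) ≤ Real.sqrt ((m : ℝ) + 1) := Real.sqrt_le_sqrt (by linarith)
      have h2 : Real.exp (-(t * Real.sqrt ((m : ℝ) + 1))) ≤ Real.exp (-(t * Real.sqrt (m : ℝ))) :=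
        Real.exp_le_exp.2 (by nlinarith)
      have h3 : 0 < 2 / t := by positivity
      exact mul_nonneg h3.le (by linarith)
  have hG : HasSum (fun m : ℕ => ((m : ℝ) + 1) ^ (-((1 : ℝ) / 2)) *
      Real.exp (-(t * Real.sqrt ((m : ℝ) + 1)))) (∑' m, btE1 t m + 2 / t) := by
    refine (hb.hasSum.add htel).congr_fun ?_
    intro m
    unfold btE1
    rw [hrp m]
    ring
  unfold GG
  rw [hG.tsum_eq]
  ring

end Pool.Agent.Helper88.SE
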