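import Pool.Agent.Helper88.SE3.Defs

set_option autoImplicit false

open MeasureTheory Set Filter Topology
open scoped ENNReal

namespace Pool.Agent.Helper88.SE



theorem E2_core_up (r s u : ℝ) (hu : 0 < u) (hs : 0 < s) (hrs : s ^ 2 = r ^ 2 + 1) :
    Real.exp (-(u * s)) / s ≤ 2 / u * (Real.exp (-(u * r)) - Real.exp (-(u * s))) := by
  have h1 : Real.exp (-(u * r)) = Real.exp (-(u * s)) * Real.exp (u * (s - r)) := by
    rw [← Real.exp_add]
    congr 1
    ring
  have h2 : u * (s - r) + 1 ≤ Real.exp (u * (s - r)) := Real.add_one_le_exp _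
  have h3 : 1 / s ≤ 2 * (s - r) := by
    rw [div_le_iff₀ hs]
    nlinarith [sq_nonneg (s - r)]
  have h4 : 0 < Real.exp (-(u * s)) := Real.exp_pos _
  calc Real.exp (-(u * s)) / s = Real.exp (-(u * s)) * (1 / s) := by ring
    _ ≤ Real.exp (-(u * s)) * (2 * (s - r)) := mul_le_mul_of_nonneg_left h3 h4.le
    _ = 2 / u * (Real.exp (-(u * s)) * (u * (s - r))) := by
        field_simp
    _ ≤ 2 / u * (Real.exp (-(u * s)) * (Real.exp (u * (s - r)) - 1)) := by
        apply mul_le_mul_of_nonneg_left _ (by positivity)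
        apply mul_le_mul_of_nonneg_left _ h4.le
        linarith
    _ = 2 / u * (Real.exp (-(u * r)) - Real.exp (-(u * s))) := by
        rw [h1]
        ring

theorem E2_core_lo (s s' u : ℝ) (hu : 0 < u) (hs : 0 < s) (hss : s' ^ 2 = s ^ 2 + 1) :
    2 / u * (Real.exp (-(u * s)) - Real.exp (-(u * s'))) ≤ Real.exp (-(u * s)) / s := by
  have h1 : Real.exp (-(u * s')) = Real.exp (-(u * s)) * Real.exp (-(u * (s' - s))) := by
    rw [← Real.exp_add]
    congr 1
    ring
  have h2 : -(u * (s' - s)) + 1 ≤ Real.exp (-(u * (s' - s))) := Real.add_one_le_exp _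
  have h3 : 2 * (s' - s) ≤ 1 / s := by
    rw [le_div_iff₀ hs]
    nlinarith [sq_nonneg (s' - s)]
  have h4 : 0 < Real.exp (-(u * s)) := Real.exp_pos _
  calc 2 / u * (Real.exp (-(u * s)) - Real.exp (-(u * s')))
      = 2 / u * (Real.exp (-(u * s)) * (1 - Real.exp (-(u * (s' - s))))) := by
        rw [h1]
        ring
    _ ≤ 2 / u * (Real.exp (-(u * s)) * (u * (s' - s))) := by
        apply mul_le_mul_of_nonneg_left _ (by positivity)
        apply mul_le_mul_of_nonneg_left _ h4.le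
        linarith
    _ = Real.exp (-(u * s)) * (2 * (s' - s)) := by
        field_simp
    _ ≤ Real.exp (-(u * s)) * (1 / s) := mul_le_mul_of_nonneg_left h3 h4.le
    _ = Real.exp (-(u * s)) / s := by ring

theorem E2_up (u : ℝ) (hu : 0 < u) (N : ℕ) :
    ∑ m ∈ Finset.range N, Real.exp (-(u * Real.sqrt ((m : ℝ) + 1))) / Real.sqrt ((m : ℝ) + 1) ≤
      2 / u * (1 - Real.exp (-(u * Real.sqrt (N : ℝ)))) := by
  induction N with
  | zero => simp
  | succ N ih =>
    rw [Finset.sum_range_succ]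
    have h := E2_core_up (Real.sqrt (N : ℝ)) (Real.sqrt ((N : ℝ) + 1)) u hu
      (Real.sqrt_pos.2 (by positivity)) (by
        rw [Real.sq_sqrt (by positivity), Real.sq_sqrt (by positivity)])
    push_cast
    have e : 2 / u * (1 - Real.exp (-(u * Real.sqrt ((N : ℝ) + 1)))) =
        2 / u * (1 - Real.exp (-(u * Real.sqrt (N : ℝ)))) +
        2 / u * (Real.exp (-(u * Real.sqrt (N : ℝ))) -
          Real.exp (-(u * Real.sqrt ((N : ℝ) + 1)))) := by ring
    rw [e]
    linarith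

theorem E2_lo (u : ℝ) (hu : 0 < u) (N : ℕ) :
    2 / u * (Real.exp (-u) - Real.exp (-(u * Real.sqrt ((N : ℝ) + 1)))) ≤
    ∑ m ∈ Finset.range N, Real.exp (-(u * Real.sqrt ((m : ℝ) + 1))) / Real.sqrt ((m : ℝ) + 1) := by
  induction N with
  | zero => simp
  | succ N ih =>
    rw [Finset.sum_range_succ]
    have h := E2_core_lo (Real.sqrt ((N : ℝ) + 1)) (Real.sqrt ((N : ℝ) + 1 + 1)) u hu
      (Real.sqrt_pos.2 (by positivity)) (by
        rw [Real.sq_sqrt (by positivity), Real.sq_sqrt (by positivity)])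
    push_cast
    have e : 2 / u * (Real.exp (-u) - Real.exp (-(u * Real.sqrt ((N : ℝ) + 1 + 1)))) =
        2 / u * (Real.exp (-u) - Real.exp (-(u * Real.sqrt ((N : ℝ) + 1)))) +
        2 / u * (Real.exp (-(u * Real.sqrt ((N : ℝ) + 1))) -
          Real.exp (-(u * Real.sqrt ((N : ℝ) + 1 + 1)))) := by ring
    rw [e]
    linarith

theorem E2_pow (m : ℕ) : ((m : ℝ) + 1) ^ (-((2 : ℝ) / 2)) = ((m : ℝ) + 1)⁻¹ := by
  rw [show -((2 : ℝ) / 2) = -1 by norm_num, Real.rpow_neg_one]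

theorem E2_summable (t : ℝ) (ht : 0 < t) :
    Summable (fun m : ℕ => ((m : ℝ) + 1) ^ (-((2 : ℝ) / 2)) *
      Real.exp (-(t * Real.sqrt ((m : ℝ) + 1)))) := by
  have h0 : Summable (fun m : ℕ => 2 / t ^ 2 * (1 / ((m + 1 : ℕ) : ℝ) ^ 2)) :=
    ((summable_nat_add_iff 1).2 (Real.summable_one_div_nat_pow.2 (by norm_num))).mul_left _
  refine Summable.of_nonneg_of_le (fun m => by positivity) (fun m => ?_) h0
  rw [E2_pow]
  have hm : (0 : ℝ) < (m : ℝ) + 1 := by positivity
  set x := t * Real.sqrt ((m : ℝ) + 1) with hx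
  have hx0 : 0 < x := mul_pos ht (Real.sqrt_pos.2 hm)
  have hx2 : x ^ 2 = t ^ 2 * ((m : ℝ) + 1) := by
    rw [hx, mul_pow, Real.sq_sqrt hm.le]
  have h1 : x ^ 2 / 2 ≤ Real.exp x := by
    have := Real.quadratic_le_exp_of_nonneg hx0.le
    linarith
  have h2 : Real.exp (-x) ≤ 2 / x ^ 2 := by
    rw [Real.exp_neg, inv_le_comm₀ (Real.exp_pos _) (by positivity), inv_div]
    exact h1
  calc ((m : ℝ) + 1)⁻¹ * Real.exp (-x) ≤ ((m : ℝ) + 1)⁻¹ * (2 / x ^ 2) :=
        mul_le_mul_of_nonneg_left h2 (by positivity)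
    _ = 2 / t ^ 2 * (1 / ((m + 1 : ℕ) : ℝ) ^ 2) := by
        rw [hx2]
        push_cast
        field_simp

theorem E2_deriv (N : ℕ) (u : ℝ) (hu : 0 < u) :
    HasDerivAt (fun u : ℝ => (∑ m ∈ Finset.range N, ((m : ℝ) + 1) ^ (-((2 : ℝ) / 2)) *
      Real.exp (-(u * Real.sqrt ((m : ℝ) + 1)))) + 2 * Real.log u)
      (-(∑ m ∈ Finset.range N, Real.exp (-(u * Real.sqrt ((m : ℝ) + 1))) /
        Real.sqrt ((m : ℝ) + 1)) + 2 / u) u := by
  have h1 : HasDerivAt (fun u : ℝ => 2 * Real.log u) (2 / u) u := by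
    have := (Real.hasDerivAt_log hu.ne').const_mul 2
    rw [← div_eq_mul_inv] at this
    exact this
  refine HasDerivAt.add ?_ h1
  rw [← Finset.sum_neg_distrib]
  apply HasDerivAt.fun_sum
  intro m _
  rw [E2_pow]
  have hm : (0 : ℝ) < (m : ℝ) + 1 := by positivity
  set s := Real.sqrt ((m : ℝ) + 1) with hs
  have hs0 : 0 < s := Real.sqrt_pos.2 hm
  have hs2 : s ^ 2 = (m : ℝ) + 1 := Real.sq_sqrt hm.le
  have h2 : HasDerivAt (fun u : ℝ => -(u * s)) (-(1 * s)) u :=
    ((hasDerivAt_id u).mul_const s).neg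
  have h3 := (h2.exp).const_mul ((m : ℝ) + 1)⁻¹
  refine h3.congr_deriv ?_
  rw [← hs2]
  field_simp

theorem E2_diff (t t' : ℝ) (ht : 0 < t) (htt : t ≤ t') :
    0 ≤ (GG 2 t' + 2 * Real.log t') - (GG 2 t + 2 * Real.log t) ∧
    (GG 2 t' + 2 * Real.log t') - (GG 2 t + 2 * Real.log t) ≤ 2 * (t' - t) := by
  set S : ℕ → ℝ → ℝ := fun N u => (∑ m ∈ Finset.range N, ((m : ℝ) + 1) ^ (-((2 : ℝ) / 2)) *
      Real.exp (-(u * Real.sqrt ((m : ℝ) + 1)))) + 2 * Real.log u with hS
  have ht' : 0 < t' := lt_of_lt_of_le ht htt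
  have hlim : ∀ u : ℝ, 0 < u → Tendsto (fun N => S N u) atTop (𝓝 (GG 2 u + 2 * Real.log u)) := by
    intro u hu
    exact (E2_summable u hu).hasSum.tendsto_sum_nat.add_const _
  have hdiff : ∀ N : ℕ, ∀ u : ℝ, 0 < u → HasDerivAt (S N)
      (-(∑ m ∈ Finset.range N, Real.exp (-(u * Real.sqrt ((m : ℝ) + 1))) /
        Real.sqrt ((m : ℝ) + 1)) + 2 / u) u := fun N u hu => E2_deriv N u hu
  have hcont : ∀ N : ℕ, ContinuousOn (S N) (Icc t t') := by
    intro N u hu
    exact (hdiff N u (lt_of_lt_of_le ht hu.1)).continuousAt.continuousWithinAt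
  have hdiffOn : ∀ N : ℕ, DifferentiableOn ℝ (S N) (interior (Icc t t')) := by
    intro N u hu
    rw [interior_Icc] at hu
    exact (hdiff N u (ht.trans hu.1)).differentiableAt.differentiableWithinAt
  have hlow : ∀ N : ℕ, 0 ≤ S N t' - S N t := by
    intro N
    have := Convex.mul_sub_le_image_sub_of_le_deriv (convex_Icc t t') (hcont N) (hdiffOn N)
      (C := 0) (fun u hu => by
        rw [interior_Icc] at hu
        have hu0 : 0 < u := ht.trans hu.1
        rw [(hdiff N u hu0).deriv]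
        have h1 := E2_up u hu0 N
        have h2 : 2 / u * (1 - Real.exp (-(u * Real.sqrt (N : ℝ)))) ≤ 2 / u := by
          have h3 : 0 < Real.exp (-(u * Real.sqrt (N : ℝ))) := Real.exp_pos _
          have h4 : 0 < 2 / u := by positivity
          nlinarith
        linarith) t ⟨le_rfl, htt⟩ t' ⟨htt, le_rfl⟩ htt
    linarith
  have hup : ∀ N : ℕ, S N t' - S N t ≤
      (2 + 2 / t * Real.exp (-(t * Real.sqrt ((N : ℝ) + 1)))) * (t' - t) := by
    intro N
    refine Convex.image_sub_le_mul_sub_of_deriv_le (convex_Icc t t') (hcont N) (hdiffOn N)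
      (fun u hu => ?_) t ⟨le_rfl, htt⟩ t' ⟨htt, le_rfl⟩ htt
    rw [interior_Icc] at hu
    have hu0 : 0 < u := ht.trans hu.1
    rw [(hdiff N u hu0).deriv]
    have h1 := E2_lo u hu0 N
    have h2 : -u + 1 ≤ Real.exp (-u) := Real.add_one_le_exp _
    have h3 : Real.exp (-(u * Real.sqrt ((N : ℝ) + 1))) ≤
        Real.exp (-(t * Real.sqrt ((N : ℝ) + 1))) := by
      apply Real.exp_le_exp.2
      have := mul_le_mul_of_nonneg_right hu.1.le (Real.sqrt_nonneg ((N : ℝ) + 1))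
      linarith
    have h4 : 2 / u * Real.exp (-(u * Real.sqrt ((N : ℝ) + 1))) ≤
        2 / t * Real.exp (-(t * Real.sqrt ((N : ℝ) + 1))) := by
      apply mul_le_mul _ h3 (Real.exp_pos _).le (by positivity)
      exact div_le_div_of_nonneg_left (by norm_num) ht hu.1.le
    have h5 : 2 / u * (-u + 1) ≤ 2 / u * Real.exp (-u) :=
      mul_le_mul_of_nonneg_left h2 (by positivity)
    have h6 : 2 / u * (-u + 1) = -2 + 2 / u := by
      field_simp
    have h7 : 2 / u * (Real.exp (-u) - Real.exp (-(u * Real.sqrt ((N : ℝ) + 1)))) =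
      2 / u * Real.exp (-u) - 2 / u * Real.exp (-(u * Real.sqrt ((N : ℝ) + 1))) := by ring
    linarith
  have hl := (hlim t' ht').sub (hlim t ht)
  refine ⟨ge_of_tendsto' hl hlow, ?_⟩
  have hexp : Tendsto (fun N : ℕ => Real.exp (-(t * Real.sqrt ((N : ℝ) + 1)))) atTop (𝓝 0) := by
    apply Real.tendsto_exp_neg_atTop_nhds_zero.comp
    apply Tendsto.const_mul_atTop ht
    apply Real.tendsto_sqrt_atTop.comp
    exact tendsto_atTop_add_const_right _ _ tendsto_natCast_atTop_atTop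
  have hr : Tendsto (fun N : ℕ => (2 + 2 / t * Real.exp (-(t * Real.sqrt ((N : ℝ) + 1)))) *
      (t' - t)) atTop (𝓝 ((2 + 2 / t * 0) * (t' - t))) :=
    ((hexp.const_mul (2 / t)).const_add 2).mul_const _
  have := le_of_tendsto_of_tendsto' hl hr hup
  simpa using this

end Pool.Agent.Helper88.SE
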