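import Pool.Agent.Helper88.SE3.Defs

set_option autoImplicit false

open MeasureTheory Set Filter Topology
open scoped ENNReal

namespace Pool.Agent.Helper88.SE


theorem EI_int0 : IntegrableOn (fun w : ℝ => Real.exp (-w) * Real.log w) (Ioi 0) := by
  rw [← Ioc_union_Ioi_eq_Ioi (zero_le_one (α := ℝ)), integrableOn_union]
  constructor
  · have h1 : IntervalIntegrable (fun w : ℝ => Real.exp (-w) * Real.log w) volume 0 1 :=
      (intervalIntegral.intervalIntegrable_log').continuousOn_mul
        (Real.continuous_exp.comp continuous_neg).continuousOn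
    exact (intervalIntegrable_iff_integrableOn_Ioc_of_le zero_le_one).1 h1
  · have h2 : IntegrableOn (fun x : ℝ => Real.exp (-x) * x ^ ((2:ℝ) - 1)) (Ioi 1) :=
      (Real.GammaIntegral_convergent (s := 2) (by norm_num)).mono_set
        (Ioi_subset_Ioi zero_le_one)
    refine Integrable.mono' h2 ?_ ?_
    · exact ((Real.measurable_exp.comp measurable_neg).mul
        Real.measurable_log).aestronglyMeasurable
    · refine (ae_restrict_mem measurableSet_Ioi).mono (fun x hx => ?_)
      have hx1 : (1:ℝ) < x := hx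
      have hl : 0 ≤ Real.log x := Real.log_nonneg hx1.le
      rw [Real.norm_eq_abs, abs_of_nonneg (mul_nonneg (Real.exp_pos _).le hl)]
      apply mul_le_mul_of_nonneg_left _ (Real.exp_pos _).le
      have h3 : ((2:ℝ) - 1) = 1 := by norm_num
      rw [h3, Real.rpow_one]
      have h4 := Real.log_le_sub_one_of_pos (by linarith : (0:ℝ) < x)
      linarith

theorem EI_val : ∫ w in Ioi (0:ℝ), Real.exp (-w) * Real.log w = -Real.eulerMascheroniConstant := by
  have h1 := Complex.hasDerivAt_GammaIntegral (s := 1) (by simp)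
  have h2 : HasDerivAt Complex.GammaIntegral (-(Real.eulerMascheroniConstant : ℂ)) 1 := by
    refine Complex.hasDerivAt_Gamma_one.congr_of_eventuallyEq ?_
    have h3 : {z : ℂ | 0 < z.re} ∈ 𝓝 (1:ℂ) :=
      (isOpen_lt continuous_const Complex.continuous_re).mem_nhds (by simp)
    filter_upwards [h3] with z hz
    exact (Complex.Gamma_eq_integral hz).symm
  have h4 := h1.unique h2
  have h5 : (∫ t : ℝ in Ioi 0, (t:ℂ) ^ ((1:ℂ) - 1) * (Real.log t * Real.exp (-t))) =
      ((∫ w in Ioi (0:ℝ), Real.exp (-w) * Real.log w : ℝ) : ℂ) := by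
    rw [← integral_complex_ofReal]
    refine setIntegral_congr_fun measurableSet_Ioi (fun t _ => ?_)
    simp only [sub_self, Complex.cpow_zero, one_mul]
    push_cast
    ring
  rw [h5] at h4
  exact_mod_cast h4

theorem EI_b (w : ℝ) (hw : 0 ≤ w) : 0 ≤ 1 - Real.exp (-w) ∧ 1 - Real.exp (-w) ≤ w := by
  constructor
  · have := Real.exp_le_one_iff.2 (by linarith : -w ≤ 0)
    linarith
  · have := Real.one_sub_le_exp_neg w
    linarith

theorem EI_int1 (X : ℝ) (hX : 0 ≤ X) :
    IntervalIntegrable (fun w : ℝ => (1 - Real.exp (-w)) / w) volume 0 X := by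
  refine IntervalIntegrable.mono_fun' (g := fun _ => (1:ℝ)) intervalIntegrable_const ?_ ?_
  · exact ((measurable_const.sub (Real.measurable_exp.comp measurable_neg)).div
      measurable_id).aestronglyMeasurable
  · refine (ae_restrict_mem measurableSet_uIoc).mono (fun x hx => ?_)
    rw [uIoc_of_le hX] at hx
    have h := EI_b x hx.1.le
    change ‖(1 - Real.exp (-x)) / x‖ ≤ 1
    rw [Real.norm_eq_abs, abs_of_nonneg (div_nonneg h.1 hx.1.le), div_le_one hx.1]
    exact h.2

theorem EI_parts (X : ℝ) (hX : 0 < X) : (∫ w in (0 : ℝ)..X, (1 - Real.exp (-w)) / w) =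
    (1 - Real.exp (-X)) * Real.log X - ∫ w in (0:ℝ)..X, Real.exp (-w) * Real.log w := by
  have hi1 := EI_int1 X hX.le
  have hi0 : IntervalIntegrable (fun w : ℝ => Real.exp (-w) * Real.log w) volume 0 X :=
    (intervalIntegral.intervalIntegrable_log').continuousOn_mul
      (Real.continuous_exp.comp continuous_neg).continuousOn
  have hcont : ContinuousOn (fun w : ℝ => (1 - Real.exp (-w)) * Real.log w) (Icc 0 X) := by
    intro w hw
    rcases hw.1.eq_or_lt with h0 | h0
    · subst h0
      have hz : (1 - Real.exp (-(0:ℝ))) * Real.log 0 = 0 := by simp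
      rw [ContinuousWithinAt, hz]
      have hlim : Tendsto (fun x : ℝ => |x * Real.log x|) (𝓝[Icc 0 X] 0) (𝓝 0) := by
        have h1 : Tendsto (fun x : ℝ => |x * Real.log x|) (𝓝 0) (𝓝 |(0:ℝ) * Real.log 0|) :=
          (Real.continuous_mul_log.abs).tendsto 0
        rw [zero_mul, abs_zero] at h1
        exact h1.mono_left nhdsWithin_le_nhds
      refine squeeze_zero_norm' ?_ hlim
      filter_upwards [self_mem_nhdsWithin] with x hx
      have h := EI_b x hx.1
      rw [Real.norm_eq_abs, abs_mul, abs_mul, abs_of_nonneg h.1, abs_of_nonneg hx.1]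
      exact mul_le_mul_of_nonneg_right h.2 (abs_nonneg _)
    · apply ContinuousAt.continuousWithinAt
      apply ContinuousAt.mul
      · exact (continuous_const.sub (Real.continuous_exp.comp continuous_neg)).continuousAt
      · exact Real.continuousAt_log h0.ne'
  have hder : ∀ x ∈ Ioo (0:ℝ) X, HasDerivAt (fun w : ℝ => (1 - Real.exp (-w)) * Real.log w)
      (Real.exp (-x) * Real.log x + (1 - Real.exp (-x)) / x) x := by
    intro x hx
    have h1 : HasDerivAt (fun w : ℝ => 1 - Real.exp (-w)) (Real.exp (-x)) x := by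
      have h2 := ((Real.hasDerivAt_exp (-x)).comp x (hasDerivAt_neg x)).const_sub 1
      simpa using h2
    have h3 := h1.mul (Real.hasDerivAt_log hx.1.ne')
    rw [div_eq_mul_inv]
    exact h3
  have h := intervalIntegral.integral_eq_sub_of_hasDerivAt_of_le hX.le hcont hder (hi0.add hi1)
  rw [intervalIntegral.integral_add hi0 hi1] at h
  simp only [neg_zero, Real.exp_zero, sub_self, zero_mul, sub_zero] at h
  linarith

theorem exp_int : Tendsto (fun X : ℝ => (∫ w in (0 : ℝ)..X, (1 - Real.exp (-w)) / w) - Real.log X)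
    atTop (𝓝 Real.eulerMascheroniConstant) := by
  have h1 : Tendsto (fun X : ℝ => ∫ w in (0:ℝ)..X, Real.exp (-w) * Real.log w) atTop
      (𝓝 (-Real.eulerMascheroniConstant)) := by
    rw [← EI_val]
    exact intervalIntegral_tendsto_integral_Ioi 0 EI_int0 tendsto_id
  have h2 : Tendsto (fun X : ℝ => Real.exp (-X) * Real.log X) atTop (𝓝 0) := by
    have h3 := Real.tendsto_pow_mul_exp_neg_atTop_nhds_zero 1
    refine squeeze_zero_norm' ?_ h3
    filter_upwards [eventually_ge_atTop (1:ℝ)] with x hx
    have hl : 0 ≤ Real.log x := Real.log_nonneg hx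
    rw [Real.norm_eq_abs, abs_of_nonneg (mul_nonneg (Real.exp_pos _).le hl), pow_one, mul_comm]
    apply mul_le_mul_of_nonneg_right _ (Real.exp_pos _).le
    have h4 := Real.log_le_sub_one_of_pos (by linarith : (0:ℝ) < x)
    linarith
  have h5 : Tendsto (fun X : ℝ => -(Real.exp (-X) * Real.log X) -
      ∫ w in (0:ℝ)..X, Real.exp (-w) * Real.log w) atTop (𝓝 Real.eulerMascheroniConstant) := by
    have h6 := h2.neg.sub h1
    simpa using h6
  refine h5.congr' ?_
  filter_upwards [eventually_gt_atTop (0:ℝ)] with X hX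
  rw [EI_parts X hX]
  ring

end Pool.Agent.Helper88.SE
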