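import Pool.Agent.Helper88.SE3.Defs
import Pool.Agent.Helper88.SE3.P_exp_int

set_option autoImplicit false

open MeasureTheory Set Filter Topology
open scoped ENNReal

namespace Pool.Agent.Helper88.SE



noncomputable def E2_I (x : ℝ) : ℝ := ∫ w in (0 : ℝ)..x, (1 - Real.exp (-w)) / w

lemma E2_g_bound (w : ℝ) (hw : 0 ≤ w) : |(1 - Real.exp (-w)) / w| ≤ 1 := by
  rcases hw.eq_or_lt with h | h
  · subst h; simp
  · have h1 : 0 ≤ 1 - Real.exp (-w) := by
      have := Real.exp_le_one_iff.mpr (show -w ≤ 0 by linarith)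
      linarith
    have h2 : 1 - Real.exp (-w) ≤ w := by
      have := Real.add_one_le_exp (-w)
      linarith
    rw [abs_of_nonneg (div_nonneg h1 hw), div_le_one h]
    exact h2

lemma E2_meas : Measurable (fun w : ℝ => (1 - Real.exp (-w)) / w) := by fun_prop

lemma E2_int (x : ℝ) (hx : 0 ≤ x) :
    IntervalIntegrable (fun w => (1 - Real.exp (-w)) / w) volume 0 x := by
  rw [intervalIntegrable_iff_integrableOn_Ioc_of_le hx]
  refine Measure.integrableOn_of_bounded (M := 1) (by simp) E2_meas.aestronglyMeasurable ?_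
  filter_upwards [ae_restrict_mem measurableSet_Ioc] with w hw
  exact E2_g_bound w hw.1.le

lemma E2l_deriv (x : ℝ) (hx : 0 < x) : HasDerivAt E2_I ((1 - Real.exp (-x)) / x) x := by
  refine intervalIntegral.integral_hasDerivAt_right (E2_int x hx.le) ?_ ?_
  · exact E2_meas.stronglyMeasurable.stronglyMeasurableAtFilter
  · exact ContinuousAt.div (by fun_prop) continuousAt_id hx.ne'

lemma E2_I_bound (x : ℝ) (hx : 0 ≤ x) : |E2_I x| ≤ x := by
  have h := intervalIntegral.norm_integral_le_of_norm_le_const (a := (0 : ℝ)) (b := x) (C := 1)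
    (f := fun w => (1 - Real.exp (-w)) / w) (fun w hw => by
      rw [Set.uIoc_of_le hx] at hw
      exact E2_g_bound w hw.1.le)
  rw [sub_zero, abs_of_nonneg hx, one_mul] at h
  exact h

/-- the function `Phi` -/
noncomputable def E2_P (x : ℝ) : ℝ := E2_I x - Real.log x

lemma E2_P_deriv (x : ℝ) (hx : 0 < x) : HasDerivAt E2_P (-(Real.exp (-x) / x)) x := by
  have h := (E2l_deriv x hx).sub (Real.hasDerivAt_log hx.ne')
  refine h.congr_deriv ?_
  field_simp
  ring

noncomputable def E2_f (t x : ℝ) : ℝ := Real.exp (-(t * Real.sqrt x)) / x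

noncomputable def E2_Q (t x : ℝ) : ℝ := -(2 * E2_P (t * Real.sqrt x))

lemma E2_Q_deriv (t x : ℝ) (ht : 0 < t) (hx : 0 < x) :
    HasDerivAt (E2_Q t) (E2_f t x) x := by
  have hs : 0 < Real.sqrt x := Real.sqrt_pos.mpr hx
  have h1 : HasDerivAt (fun x => t * Real.sqrt x) (t * (1 / (2 * Real.sqrt x))) x :=
    (Real.hasDerivAt_sqrt hx.ne').const_mul t
  have h2 := (E2_P_deriv (t * Real.sqrt x) (mul_pos ht hs)).comp x h1
  have h3 := (h2.const_mul 2).neg
  refine h3.congr_deriv ?_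
  unfold E2_f
  have hx2 : x = Real.sqrt x * Real.sqrt x := (Real.mul_self_sqrt hx.le).symm
  rw [eq_div_iff hx.ne']
  nth_rewrite 4 [hx2]
  field_simp

/-- the term -/
noncomputable def E2_a (t : ℝ) (k : ℕ) : ℝ :=
  E2_f t ((k : ℝ) + 1) - (E2_Q t ((k : ℝ) + 1 + 1) - E2_Q t ((k : ℝ) + 1))

lemma E2_f_anti (t : ℝ) (ht : 0 < t) (x y : ℝ) (hx : 0 < x) (hxy : x ≤ y) :
    E2_f t y ≤ E2_f t x := by
  unfold E2_f
  have h1 : Real.sqrt x ≤ Real.sqrt y := Real.sqrt_le_sqrt hxy
  have h2 : Real.exp (-(t * Real.sqrt y)) ≤ Real.exp (-(t * Real.sqrt x)) := by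
    apply Real.exp_le_exp.mpr
    have := mul_le_mul_of_nonneg_left h1 ht.le
    linarith
  exact div_le_div₀ (Real.exp_pos _).le h2 hx hxy

lemma E2_f_diff (t : ℝ) (ht : 0 < t) (m : ℝ) (hm : 1 ≤ m) :
    E2_f t m - E2_f t (m + 1) ≤ 2 / m ^ 2 := by
  unfold E2_f
  have hm0 : 0 < m := by linarith
  set a := Real.sqrt m with ha
  set b := Real.sqrt (m + 1) with hb
  have ha0 : 0 < a := Real.sqrt_pos.mpr hm0
  have ha2 : a * a = m := Real.mul_self_sqrt hm0.le
  have hb2 : b * b = m + 1 := Real.mul_self_sqrt (by linarith)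
  have hab : a ≤ b := Real.sqrt_le_sqrt (by linarith)
  have hba : 2 * a * (b - a) ≤ 1 := by nlinarith
  have e1 : Real.exp (-(t * a)) ≤ 1 := Real.exp_le_one_iff.mpr (by
    have : 0 ≤ t * a := by positivity
    linarith)
  have e0 := Real.exp_pos (-(t * a))
  have e2 : Real.exp (-(t * b)) = Real.exp (-(t * a)) * Real.exp (-(t * (b - a))) := by
    rw [← Real.exp_add]; congr 1; ring
  have e3 : 1 - Real.exp (-(t * (b - a))) ≤ t * (b - a) := by
    have := Real.add_one_le_exp (-(t * (b - a)))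
    linarith
  have e4 : Real.exp (-(t * a)) * (t * a) ≤ 1 := by
    have h1 := Real.add_one_le_exp (t * a)
    have h2 : Real.exp (-(t * a)) * Real.exp (t * a) = 1 := by
      rw [← Real.exp_add]; simp
    nlinarith
  have e5 : Real.exp (-(t * a)) - Real.exp (-(t * b)) ≤ 1 / (2 * m) := by
    rw [le_div_iff₀ (by linarith), e2]
    have h1 : Real.exp (-(t * a)) - Real.exp (-(t * a)) * Real.exp (-(t * (b - a))) ≤
        Real.exp (-(t * a)) * (t * (b - a)) := by nlinarith
    have h2 : Real.exp (-(t * a)) * (t * (b - a)) * (2 * m) =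
        (Real.exp (-(t * a)) * (t * a)) * (2 * a * (b - a)) := by
      rw [← ha2]; ring
    have h3 : (Real.exp (-(t * a)) * (t * a)) * (2 * a * (b - a)) ≤ 1 * 1 := by
      refine mul_le_mul e4 hba ?_ zero_le_one
      have : 0 ≤ b - a := by linarith
      positivity
    have h4 := mul_le_mul_of_nonneg_right h1 (show 0 ≤ 2 * m by linarith)
    linarith
  have e6 : Real.exp (-(t * a)) / m - Real.exp (-(t * b)) / (m + 1) =
      Real.exp (-(t * a)) * (1 / m - 1 / (m + 1)) +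
        (Real.exp (-(t * a)) - Real.exp (-(t * b))) / (m + 1) := by
    field_simp
    ring
  rw [e6]
  have e7 : (1 / m - 1 / (m + 1)) = 1 / (m * (m + 1)) := by field_simp; ring
  rw [e7]
  have e8 : Real.exp (-(t * a)) * (1 / (m * (m + 1))) ≤ 1 / (m * (m + 1)) := by
    have : 0 ≤ 1 / (m * (m + 1)) := by positivity
    nlinarith
  have e9 : (Real.exp (-(t * a)) - Real.exp (-(t * b))) / (m + 1) ≤ 1 / (2 * m) / (m + 1) :=
    div_le_div_of_nonneg_right e5 (by linarith)
  have e10 : 1 / (m * (m + 1)) ≤ 1 / m ^ 2 := by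
    apply one_div_le_one_div_of_le (by positivity)
    nlinarith
  have e11 : 1 / (2 * m) / (m + 1) ≤ 1 / m ^ 2 := by
    rw [div_div]
    apply one_div_le_one_div_of_le (by positivity)
    nlinarith
  have e12 : (2 : ℝ) / m ^ 2 = 1 / m ^ 2 + 1 / m ^ 2 := by ring
  linarith

lemma E2_a_bound (t : ℝ) (ht : 0 < t) (k : ℕ) :
    0 ≤ E2_a t k ∧ E2_a t k ≤ 2 / ((k : ℝ) + 1) ^ 2 := by
  have hk : (1 : ℝ) ≤ (k : ℝ) + 1 := by
    have : (0 : ℝ) ≤ k := Nat.cast_nonneg k
    linarith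
  obtain ⟨c, hc, hcc⟩ := exists_hasDerivAt_eq_slope (E2_Q t) (E2_f t)
    (show (k : ℝ) + 1 < (k : ℝ) + 1 + 1 by linarith)
    (fun x hx => (E2_Q_deriv t x ht (by linarith [hx.1])).continuousAt.continuousWithinAt)
    (fun x hx => E2_Q_deriv t x ht (by linarith [hx.1]))
  have h1 : E2_Q t ((k : ℝ) + 1 + 1) - E2_Q t ((k : ℝ) + 1) = E2_f t c := by
    rw [hcc]
    have : (k : ℝ) + 1 + 1 - ((k : ℝ) + 1) = 1 := by ring
    rw [this, div_one]
  unfold E2_a
  rw [h1]
  have h2 := E2_f_anti t ht ((k : ℝ) + 1) c (by linarith) hc.1.le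
  have h3 := E2_f_anti t ht c ((k : ℝ) + 1 + 1) (by linarith [hc.1]) hc.2.le
  have h4 := E2_f_diff t ht ((k : ℝ) + 1) hk
  constructor <;> linarith

lemma E2_summable_bound : Summable (fun k : ℕ => 2 / ((k : ℝ) + 1) ^ 2) := by
  have h := (Real.summable_one_div_nat_pow (p := 2)).mpr (by norm_num)
  rw [← summable_nat_add_iff 1] at h
  have h2 := h.mul_left 2
  refine h2.congr fun k => ?_
  push_cast
  ring

lemma E2_GG (t : ℝ) (ht : 0 < t) :
    GG 2 t = ∑' k, E2_a t k + 2 * E2_P t - 2 * Real.eulerMascheroniConstant := by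
  have hsum : Summable (E2_a t) :=
    Summable.of_nonneg_of_le (fun k => (E2_a_bound t ht k).1) (fun k => (E2_a_bound t ht k).2)
      E2_summable_bound
  have h1 := hsum.hasSum.tendsto_sum_nat
  have h2 : ∀ n : ℕ, ∑ k ∈ Finset.range n, E2_f t ((k : ℝ) + 1) =
      ∑ k ∈ Finset.range n, E2_a t k + (E2_Q t ((n : ℝ) + 1) - E2_Q t 1) := by
    intro n
    have h3 : ∑ k ∈ Finset.range n, (E2_Q t ((k : ℝ) + 1 + 1) - E2_Q t ((k : ℝ) + 1)) =
        E2_Q t ((n : ℝ) + 1) - E2_Q t 1 := by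
      have h4 := Finset.sum_range_sub (fun k : ℕ => E2_Q t ((k : ℝ) + 1)) n
      simp only [Nat.cast_add, Nat.cast_one, Nat.cast_zero, zero_add] at h4
      exact h4
    rw [← h3, ← Finset.sum_add_distrib]
    refine Finset.sum_congr rfl fun k _ => ?_
    unfold E2_a
    ring
  have h5 : Tendsto (fun n : ℕ => E2_P (t * Real.sqrt ((n : ℝ) + 1))) atTop
      (𝓝 Real.eulerMascheroniConstant) := by
    have h6 : Tendsto (fun n : ℕ => t * Real.sqrt ((n : ℝ) + 1)) atTop atTop := by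
      refine Tendsto.const_mul_atTop ht ?_
      refine Real.tendsto_sqrt_atTop.comp ?_
      exact tendsto_atTop_add_const_right _ _ tendsto_natCast_atTop_atTop
    exact exp_int.comp h6
  have h7 : Tendsto (fun n : ℕ => ∑ k ∈ Finset.range n, E2_f t ((k : ℝ) + 1)) atTop
      (𝓝 (∑' k, E2_a t k + 2 * E2_P t - 2 * Real.eulerMascheroniConstant)) := by
    simp only [h2]
    have h8 := h1.add ((h5.const_mul 2).neg.sub_const (E2_Q t 1))
    refine h8.congr' ?_ |>.trans_eq ?_
    · filter_upwards with n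
      rfl
    · congr 1
      unfold E2_Q
      rw [Real.sqrt_one, mul_one]
      ring
  have h9 : HasSum (fun k : ℕ => E2_f t ((k : ℝ) + 1))
      (∑' k, E2_a t k + 2 * E2_P t - 2 * Real.eulerMascheroniConstant) := by
    rw [hasSum_iff_tendsto_nat_of_nonneg]
    · exact h7
    · intro k
      unfold E2_f
      positivity
  rw [← h9.tsum_eq]
  unfold GG
  refine tsum_congr fun k => ?_
  unfold E2_f
  rw [show (-((2 : ℝ) / 2)) = -1 by norm_num, Real.rpow_neg_one]
  field_simp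

lemma E2_tsum0 : ∑' k : ℕ, (1 / ((k : ℝ) + 1) - (Real.log ((k : ℝ) + 1 + 1) - Real.log ((k : ℝ) + 1))) =
    Real.eulerMascheroniConstant := by
  have hb : ∀ k : ℕ, 0 ≤ 1 / ((k : ℝ) + 1) - (Real.log ((k : ℝ) + 1 + 1) - Real.log ((k : ℝ) + 1)) := by
    intro k
    have h1 : (0 : ℝ) < (k : ℝ) + 1 := by positivity
    rw [← Real.log_div (by positivity) h1.ne']
    have h2 := Real.log_le_sub_one_of_pos (show 0 < ((k : ℝ) + 1 + 1) / ((k : ℝ) + 1) by positivity)
    have h3 : ((k : ℝ) + 1 + 1) / ((k : ℝ) + 1) - 1 = 1 / ((k : ℝ) + 1) := by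
      field_simp
      ring
    linarith
  have h : HasSum (fun k : ℕ => 1 / ((k : ℝ) + 1) - (Real.log ((k : ℝ) + 1 + 1) - Real.log ((k : ℝ) + 1)))
      Real.eulerMascheroniConstant := by
    rw [hasSum_iff_tendsto_nat_of_nonneg hb]
    refine Real.tendsto_eulerMascheroniSeq.congr fun n => ?_
    rw [Finset.sum_sub_distrib]
    have h4 := Finset.sum_range_sub (fun k : ℕ => Real.log ((k : ℝ) + 1)) n
    simp only [Nat.cast_add, Nat.cast_one, Nat.cast_zero, zero_add, Real.log_one, sub_zero] at h4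
    rw [h4]
    unfold Real.eulerMascheroniSeq harmonic
    push_cast
    congr 1
    refine Finset.sum_congr rfl fun k _ => ?_
    rw [one_div]
  exact h.tsum_eq

lemma E2_I_tendsto (c : ℝ) (hc : 0 ≤ c) : Tendsto (fun t : ℝ => E2_I (t * c)) (𝓝[>] 0) (𝓝 0) := by
  rw [tendsto_zero_iff_abs_tendsto_zero]
  have h1 : Tendsto (fun t : ℝ => t * c) (𝓝[>] 0) (𝓝 0) := by
    have h2 : Tendsto (fun t : ℝ => t * c) (𝓝 0) (𝓝 (0 * c)) := tendsto_id.mul_const c
    rw [zero_mul] at h2
    exact h2.mono_left nhdsWithin_le_nhds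
  refine tendsto_of_tendsto_of_tendsto_of_le_of_le' tendsto_const_nhds h1 ?_ ?_
  · filter_upwards with t
    exact abs_nonneg _
  · filter_upwards [self_mem_nhdsWithin] with t ht
    exact E2_I_bound _ (mul_nonneg (le_of_lt ht) hc)

theorem E2_lim : Tendsto (fun t : ℝ => GG 2 t + 2 * Real.log t) (𝓝[>] 0)
    (𝓝 (-Real.eulerMascheroniConstant)) := by
  have hA : Tendsto (fun t : ℝ => ∑' k, E2_a t k) (𝓝[>] 0)
      (𝓝 (∑' k : ℕ, (1 / ((k : ℝ) + 1) - (Real.log ((k : ℝ) + 1 + 1) - Real.log ((k : ℝ) + 1))))) := by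
    refine tendsto_tsum_of_dominated_convergence E2_summable_bound ?_ ?_
    · intro k
      have hk : (0 : ℝ) < (k : ℝ) + 1 := by positivity
      have hk2 : (0 : ℝ) < (k : ℝ) + 1 + 1 := by positivity
      have h1 : Tendsto (fun t : ℝ => E2_f t ((k : ℝ) + 1)) (𝓝[>] 0) (𝓝 (1 / ((k : ℝ) + 1))) := by
        have : Continuous (fun t : ℝ => E2_f t ((k : ℝ) + 1)) := by
          unfold E2_f; fun_prop
        have h2 := (this.tendsto 0).mono_left (nhdsWithin_le_nhds (s := Set.Ioi (0 : ℝ)))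
        have h3 : E2_f 0 ((k : ℝ) + 1) = 1 / ((k : ℝ) + 1) := by
          unfold E2_f; simp
        rw [h3] at h2
        exact h2
      have h4 : Tendsto (fun t : ℝ => (-2 * E2_I (t * Real.sqrt ((k : ℝ) + 1 + 1)) +
          2 * E2_I (t * Real.sqrt ((k : ℝ) + 1))) + (Real.log ((k : ℝ) + 1 + 1) - Real.log ((k : ℝ) + 1)))
          (𝓝[>] 0) (𝓝 ((-2 * 0 + 2 * 0) + (Real.log ((k : ℝ) + 1 + 1) - Real.log ((k : ℝ) + 1)))) :=
        (((E2_I_tendsto _ (Real.sqrt_nonneg _)).const_mul (-2)).add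
          ((E2_I_tendsto _ (Real.sqrt_nonneg _)).const_mul 2)).add_const _
      have h5 := h1.sub h4
      have h6 : (-2 * 0 + 2 * 0) + (Real.log ((k : ℝ) + 1 + 1) - Real.log ((k : ℝ) + 1)) =
          Real.log ((k : ℝ) + 1 + 1) - Real.log ((k : ℝ) + 1) := by ring
      rw [h6] at h5
      refine h5.congr' ?_
      filter_upwards [self_mem_nhdsWithin] with t ht
      have ht' : (0 : ℝ) < t := ht
      unfold E2_a
      congr 1
      unfold E2_Q E2_P
      rw [Real.log_mul ht'.ne' (Real.sqrt_pos.mpr hk).ne',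
        Real.log_mul ht'.ne' (Real.sqrt_pos.mpr hk2).ne', Real.log_sqrt hk.le, Real.log_sqrt hk2.le]
      ring
    · filter_upwards [self_mem_nhdsWithin] with t ht k
      have h := E2_a_bound t ht k
      rw [Real.norm_eq_abs, abs_of_nonneg h.1]
      exact h.2
  rw [E2_tsum0] at hA
  have hB := E2_I_tendsto 1 zero_le_one
  simp only [mul_one] at hB
  have hC := (hA.add (hB.const_mul 2)).sub_const (2 * Real.eulerMascheroniConstant)
  have e : Real.eulerMascheroniConstant + 2 * 0 - 2 * Real.eulerMascheroniConstant =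
      -Real.eulerMascheroniConstant := by ring
  rw [e] at hC
  refine hC.congr' ?_
  filter_upwards [self_mem_nhdsWithin] with t ht
  rw [E2_GG t ht]
  unfold E2_P
  ring

end Pool.Agent.Helper88.SE
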