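import Pool.Agent.Helper88.SE3.Defs

set_option autoImplicit false

open MeasureTheory Set Filter Topology
open scoped ENNReal

namespace Pool.Agent.Helper88.SE



theorem Es_diff_exp (a y : ℝ) (ha0 : 0 ≤ a) (ha : a ≤ 1) (hy : 0 < y) :
    Real.exp (-y) ≤ y ^ (-a) ∧ y * Real.exp (-y) ≤ 2 * y ^ (-a) := by
  have h1 : y ^ a ≤ 1 + y := by
    rcases le_total y 1 with h | h
    · calc y ^ a ≤ 1 := Real.rpow_le_one hy.le h ha0
        _ ≤ 1 + y := by linarith
    · calc y ^ a ≤ y ^ (1:ℝ) := Real.rpow_le_rpow_of_exponent_le h ha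
        _ = y := Real.rpow_one y
        _ ≤ 1 + y := by linarith
  have h2 : 0 < y ^ a := Real.rpow_pos_of_pos hy a
  have h3 : 1 + y ≤ Real.exp y := by linarith [Real.add_one_le_exp y]
  have h4 : 1 + y + y ^ 2 / 2 ≤ Real.exp y := Real.quadratic_le_exp_of_nonneg hy.le
  rw [Real.rpow_neg hy.le, Real.exp_neg]
  constructor
  · apply inv_anti₀ h2; linarith
  · rw [← div_eq_mul_inv, ← div_eq_mul_inv, div_le_div_iff₀ (Real.exp_pos y) h2]
    nlinarith

theorem Es_diff_pow (s u x : ℝ) (hu : 0 < u) (hx : 0 < x) :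
    (u * Real.sqrt x) ^ (-(1 - s / 2)) = u ^ (-(1 - s / 2)) * x ^ (-(1 - s / 2) / 2) := by
  rw [Real.mul_rpow hu.le (Real.sqrt_nonneg x), Real.sqrt_eq_rpow, ← Real.rpow_mul hx.le]
  congr 2
  ring

theorem Es_diff_phi (s u x : ℝ) (hs : 0 < s) (hs2 : s < 2) (hu : 0 < u) (hx : 0 < x) :
    x ^ ((1 - s) / 2) * Real.exp (-(u * Real.sqrt x)) ≤ u ^ (-(1 - s / 2)) * x ^ (-(s / 4)) := by
  have hy : 0 < u * Real.sqrt x := mul_pos hu (Real.sqrt_pos.2 hx)
  have h := (Es_diff_exp (1 - s / 2) (u * Real.sqrt x) (by linarith) (by linarith) hy).1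
  rw [Es_diff_pow s u x hu hx] at h
  calc x ^ ((1 - s) / 2) * Real.exp (-(u * Real.sqrt x))
      ≤ x ^ ((1 - s) / 2) * (u ^ (-(1 - s / 2)) * x ^ (-(1 - s / 2) / 2)) := by
        gcongr
    _ = u ^ (-(1 - s / 2)) * (x ^ ((1 - s) / 2) * x ^ (-(1 - s / 2) / 2)) := by ring
    _ = u ^ (-(1 - s / 2)) * x ^ (-(s / 4)) := by
        rw [← Real.rpow_add hx]
        congr 2
        ring

theorem Es_diff_deriv (s u x : ℝ) (hx : 0 < x) :
    HasDerivAt (fun x => x ^ ((1 - s) / 2) * Real.exp (-(u * Real.sqrt x)))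
      (x ^ (-(1 + s) / 2) * (((1 - s) / 2) * Real.exp (-(u * Real.sqrt x)) -
        (u * Real.sqrt x) / 2 * Real.exp (-(u * Real.sqrt x)))) x := by
  have h1 : HasDerivAt (fun x : ℝ => x ^ ((1 - s) / 2)) (((1 - s) / 2) * x ^ ((1 - s) / 2 - 1)) x :=
    Real.hasDerivAt_rpow_const (Or.inl hx.ne')
  have h2 : HasDerivAt (fun x : ℝ => Real.exp (-(u * Real.sqrt x)))
      (Real.exp (-(u * Real.sqrt x)) * (-(u * (1 / (2 * Real.sqrt x))))) x :=
    ((Real.hasDerivAt_sqrt hx.ne').const_mul u).neg.exp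
  have h3 := h1.fun_mul h2
  refine h3.congr_deriv ?_
  symm
  have e1 : x ^ ((1 - s) / 2 - 1) = x ^ (-(1 + s) / 2) := by
    congr 1; ring
  have e2 : x ^ ((1 - s) / 2) = x ^ (-(1 + s) / 2) * x := by
    nth_rewrite 3 [← Real.rpow_one x]
    rw [← Real.rpow_add hx]
    congr 1; ring
  have e3 : x * (1 / (2 * Real.sqrt x)) = Real.sqrt x / 2 := by
    have h4 : Real.sqrt x ≠ 0 := (Real.sqrt_pos.2 hx).ne'
    have h5 : Real.sqrt x * Real.sqrt x = x := Real.mul_self_sqrt hx.le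
    field_simp
    rw [sq, h5]
  rw [e1, e2]
  have : x ^ (-(1 + s) / 2) * x * (Real.exp (-(u * Real.sqrt x)) * (-(u * (1 / (2 * Real.sqrt x))))) =
      -(x ^ (-(1 + s) / 2) * Real.exp (-(u * Real.sqrt x)) * u * (x * (1 / (2 * Real.sqrt x)))) := by
    ring
  rw [this, e3]
  ring

theorem Es_diff_dbound (s u x : ℝ) (hs : 0 < s) (hs2 : s < 2) (hu : 0 < u) (hx : 0 < x) :
    |x ^ (-(1 + s) / 2) * (((1 - s) / 2) * Real.exp (-(u * Real.sqrt x)) -
        (u * Real.sqrt x) / 2 * Real.exp (-(u * Real.sqrt x)))| ≤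
      3 / 2 * u ^ (-(1 - s / 2)) * x ^ (-(1 + s / 4)) := by
  have hy : 0 < u * Real.sqrt x := mul_pos hu (Real.sqrt_pos.2 hx)
  obtain ⟨h1, h2⟩ := Es_diff_exp (1 - s / 2) (u * Real.sqrt x) (by linarith) (by linarith) hy
  rw [Es_diff_pow s u x hu hx] at h1 h2
  set e := Real.exp (-(u * Real.sqrt x)) with he
  have he0 : 0 < e := Real.exp_pos _
  set y := u * Real.sqrt x with hydef
  set p := u ^ (-(1 - s / 2)) * x ^ (-(1 - s / 2) / 2) with hp
  have h3 : |(1 - s) / 2 * e - y / 2 * e| ≤ 3 / 2 * p := by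
    rw [abs_le]
    constructor <;> nlinarith
  have hx0 : 0 < x ^ (-(1 + s) / 2) := Real.rpow_pos_of_pos hx _
  rw [abs_mul, abs_of_pos hx0]
  calc x ^ (-(1 + s) / 2) * |(1 - s) / 2 * e - y / 2 * e|
      ≤ x ^ (-(1 + s) / 2) * (3 / 2 * p) := by gcongr
    _ = 3 / 2 * u ^ (-(1 - s / 2)) * (x ^ (-(1 + s) / 2) * x ^ (-(1 - s / 2) / 2)) := by
        rw [hp]; ring
    _ = 3 / 2 * u ^ (-(1 - s / 2)) * x ^ (-(1 + s / 4)) := by
        rw [← Real.rpow_add hx]
        congr 2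
        ring

theorem Es_diff_phidiff (s u m x y : ℝ) (hs : 0 < s) (hs2 : s < 2) (hu : 0 < u) (hm : 0 < m)
    (hx : x ∈ Set.Icc m (m + 1)) (hy : y ∈ Set.Icc m (m + 1)) :
    |y ^ ((1 - s) / 2) * Real.exp (-(u * Real.sqrt y)) -
      x ^ ((1 - s) / 2) * Real.exp (-(u * Real.sqrt x))| ≤
      3 / 2 * u ^ (-(1 - s / 2)) * m ^ (-(1 + s / 4)) := by
  have h := Convex.norm_image_sub_le_of_norm_hasDerivWithin_le
    (f := fun x => x ^ ((1 - s) / 2) * Real.exp (-(u * Real.sqrt x)))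
    (f' := fun x => (x ^ (-(1 + s) / 2) * (((1 - s) / 2) * Real.exp (-(u * Real.sqrt x)) -
        (u * Real.sqrt x) / 2 * Real.exp (-(u * Real.sqrt x)))))
    (C := 3 / 2 * u ^ (-(1 - s / 2)) * m ^ (-(1 + s / 4))) (s := Set.Icc m (m + 1)) (x := x) (y := y)
    (fun z hz => (Es_diff_deriv s u z (lt_of_lt_of_le hm hz.1)).hasDerivWithinAt)
    (fun z hz => by
      rw [Real.norm_eq_abs]
      refine (Es_diff_dbound s u z hs hs2 hu (lt_of_lt_of_le hm hz.1)).trans ?_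
      have : z ^ (-(1 + s / 4)) ≤ m ^ (-(1 + s / 4)) :=
        Real.rpow_le_rpow_of_nonpos hm hz.1 (by linarith)
      gcongr)
    (convex_Icc _ _) hx hy
  rw [Real.norm_eq_abs, Real.norm_eq_abs] at h
  have h1 : |y - x| ≤ 1 := by
    rw [abs_le]; constructor <;> linarith [hx.1, hx.2, hy.1, hy.2]
  have h2 : 0 ≤ 3 / 2 * u ^ (-(1 - s / 2)) * m ^ (-(1 + s / 4)) := by positivity
  calc _ ≤ _ := h
    _ ≤ 3 / 2 * u ^ (-(1 - s / 2)) * m ^ (-(1 + s / 4)) * 1 := by gcongr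
    _ = _ := mul_one _

theorem Es_diff_sqrt (s x : ℝ) (hx : 0 < x) : x ^ (-(s / 2)) * Real.sqrt x = x ^ ((1 - s) / 2) := by
  rw [Real.sqrt_eq_rpow, ← Real.rpow_add hx]
  congr 1; ring

theorem Es_diff_gdiff (s m x y t t' : ℝ) (hs : 0 < s) (hs2 : s < 2) (ht : 0 < t) (htt : t ≤ t')
    (hm : 0 < m) (hx : x ∈ Set.Icc m (m + 1)) (hy : y ∈ Set.Icc m (m + 1)) :
    |(y ^ (-(s / 2)) * Real.exp (-(t * Real.sqrt y)) - y ^ (-(s / 2)) * Real.exp (-(t' * Real.sqrt y))) -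
      (x ^ (-(s / 2)) * Real.exp (-(t * Real.sqrt x)) - x ^ (-(s / 2)) * Real.exp (-(t' * Real.sqrt x)))|
      ≤ t ^ (-(1 - s / 2)) * (t' - t) * (3 / 2 * m ^ (-(1 + s / 4))) := by
  have hx0 : 0 < x := lt_of_lt_of_le hm hx.1
  have hy0 : 0 < y := lt_of_lt_of_le hm hy.1
  have hd : ∀ z : ℝ, 0 < z → ∀ u : ℝ, HasDerivAt (fun u => z ^ (-(s / 2)) * Real.exp (-(u * Real.sqrt z)))
      (-(z ^ ((1 - s) / 2) * Real.exp (-(u * Real.sqrt z)))) u := by
    intro z hz u
    have h1 : HasDerivAt (fun u : ℝ => -(u * Real.sqrt z)) (-(1 * Real.sqrt z)) u :=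
      ((hasDerivAt_id u).mul_const _).neg
    have h2 := h1.exp.const_mul (z ^ (-(s / 2)))
    refine h2.congr_deriv ?_
    rw [← Es_diff_sqrt s z hz]
    ring
  have h := Convex.norm_image_sub_le_of_norm_hasDerivWithin_le
    (f := fun u => y ^ (-(s / 2)) * Real.exp (-(u * Real.sqrt y)) -
      x ^ (-(s / 2)) * Real.exp (-(u * Real.sqrt x)))
    (f' := fun u => -(y ^ ((1 - s) / 2) * Real.exp (-(u * Real.sqrt y))) -
      -(x ^ ((1 - s) / 2) * Real.exp (-(u * Real.sqrt x))))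
    (C := 3 / 2 * t ^ (-(1 - s / 2)) * m ^ (-(1 + s / 4))) (s := Set.Icc t t') (x := t') (y := t)
    (fun u hu => ((hd y hy0 u).sub (hd x hx0 u)).hasDerivWithinAt)
    (fun u hu => by
      have h1 := Es_diff_phidiff s u m x y hs hs2 (lt_of_lt_of_le ht hu.1) hm hx hy
      have h2 : u ^ (-(1 - s / 2)) ≤ t ^ (-(1 - s / 2)) :=
        Real.rpow_le_rpow_of_nonpos ht hu.1 (by linarith)
      rw [Real.norm_eq_abs, ← abs_neg]
      have e : -(-(y ^ ((1 - s) / 2) * Real.exp (-(u * Real.sqrt y))) -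
          -(x ^ ((1 - s) / 2) * Real.exp (-(u * Real.sqrt x)))) =
          y ^ ((1 - s) / 2) * Real.exp (-(u * Real.sqrt y)) -
          x ^ ((1 - s) / 2) * Real.exp (-(u * Real.sqrt x)) := by ring
      rw [e]
      refine h1.trans ?_
      gcongr)
    (convex_Icc _ _) (Set.right_mem_Icc.2 htt) (Set.left_mem_Icc.2 htt)
  rw [Real.norm_eq_abs, Real.norm_eq_abs, abs_sub_comm t t', abs_of_nonneg (sub_nonneg.2 htt)] at h
  have e : (y ^ (-(s / 2)) * Real.exp (-(t * Real.sqrt y)) - y ^ (-(s / 2)) * Real.exp (-(t' * Real.sqrt y))) -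
      (x ^ (-(s / 2)) * Real.exp (-(t * Real.sqrt x)) - x ^ (-(s / 2)) * Real.exp (-(t' * Real.sqrt x))) =
      y ^ (-(s / 2)) * Real.exp (-(t * Real.sqrt y)) - x ^ (-(s / 2)) * Real.exp (-(t * Real.sqrt x)) -
      (y ^ (-(s / 2)) * Real.exp (-(t' * Real.sqrt y)) - x ^ (-(s / 2)) * Real.exp (-(t' * Real.sqrt x))) := by
    ring
  rw [e]
  refine h.trans (le_of_eq ?_)
  ring

theorem Es_diff_gbound (s x t t' : ℝ) (hs : 0 < s) (hs2 : s < 2) (ht : 0 < t) (htt : t ≤ t')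
    (hx : 0 < x) :
    0 ≤ (x ^ (-(s / 2)) * Real.exp (-(t * Real.sqrt x)) - x ^ (-(s / 2)) * Real.exp (-(t' * Real.sqrt x))) ∧
    (x ^ (-(s / 2)) * Real.exp (-(t * Real.sqrt x)) - x ^ (-(s / 2)) * Real.exp (-(t' * Real.sqrt x)))
      ≤ t ^ (-(1 - s / 2)) * (t' - t) * x ^ (-(s / 4)) := by
  have hsx := Real.sqrt_nonneg x
  have h0 : 0 < x ^ (-(s / 2)) := Real.rpow_pos_of_pos hx _
  have e1 : Real.exp (-(t' * Real.sqrt x)) =
      Real.exp (-(t * Real.sqrt x)) * Real.exp (-((t' - t) * Real.sqrt x)) := by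
    rw [← Real.exp_add]; congr 1; ring
  have h1 : 1 - (t' - t) * Real.sqrt x ≤ Real.exp (-((t' - t) * Real.sqrt x)) := by
    linarith [Real.add_one_le_exp (-((t' - t) * Real.sqrt x))]
  have h2 : Real.exp (-((t' - t) * Real.sqrt x)) ≤ 1 := by
    rw [Real.exp_le_one_iff]
    have : 0 ≤ (t' - t) * Real.sqrt x := mul_nonneg (sub_nonneg.2 htt) hsx
    linarith
  have he : 0 < Real.exp (-(t * Real.sqrt x)) := Real.exp_pos _
  have e2 : x ^ (-(s / 2)) * Real.exp (-(t * Real.sqrt x)) - x ^ (-(s / 2)) * Real.exp (-(t' * Real.sqrt x)) =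
      (x ^ (-(s / 2)) * Real.exp (-(t * Real.sqrt x))) * (1 - Real.exp (-((t' - t) * Real.sqrt x))) := by
    rw [e1]; ring
  rw [e2]
  constructor
  · have : 0 ≤ 1 - Real.exp (-((t' - t) * Real.sqrt x)) := by linarith
    positivity
  · calc (x ^ (-(s / 2)) * Real.exp (-(t * Real.sqrt x))) * (1 - Real.exp (-((t' - t) * Real.sqrt x)))
        ≤ (x ^ (-(s / 2)) * Real.exp (-(t * Real.sqrt x))) * ((t' - t) * Real.sqrt x) := by
          apply mul_le_mul_of_nonneg_left _ (by positivity)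
          linarith
      _ = (x ^ (-(s / 2)) * Real.sqrt x * Real.exp (-(t * Real.sqrt x))) * (t' - t) := by ring
      _ = (x ^ ((1 - s) / 2) * Real.exp (-(t * Real.sqrt x))) * (t' - t) := by
          rw [Es_diff_sqrt s x hx]
      _ ≤ (t ^ (-(1 - s / 2)) * x ^ (-(s / 4))) * (t' - t) := by
          apply mul_le_mul_of_nonneg_right _ (sub_nonneg.2 htt)
          exact Es_diff_phi s t x hs hs2 ht hx
      _ = _ := by ring

theorem Es_diff_int (s t : ℝ) (hs : 0 < s) (hs2 : s < 2) (ht : 0 < t) :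
    IntegrableOn (fun x : ℝ => x ^ (-(s / 2)) * Real.exp (-(t * Real.sqrt x))) (Set.Ioi 0) ∧
    ∫ x in Set.Ioi (0 : ℝ), x ^ (-(s / 2)) * Real.exp (-(t * Real.sqrt x)) =
      2 * Real.Gamma (2 - s) * t ^ (s - 2) := by
  have h := integral_rpow_mul_exp_neg_mul_rpow (p := 1 / 2) (q := -(s / 2)) (b := t) (by norm_num)
    (by linarith) ht
  have e : ∀ x : ℝ, x ^ (-(s / 2)) * Real.exp (-t * x ^ (1 / 2 : ℝ)) =
      x ^ (-(s / 2)) * Real.exp (-(t * Real.sqrt x)) := by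
    intro x; rw [Real.sqrt_eq_rpow, neg_mul]
  simp only [e] at h
  have e2 : t ^ (-(-(s / 2) + 1) / (1 / 2)) * (1 / (1 / 2)) * Real.Gamma ((-(s / 2) + 1) / (1 / 2)) =
      2 * Real.Gamma (2 - s) * t ^ (s - 2) := by
    have e3 : (-(-(s / 2) + 1) / (1 / 2)) = s - 2 := by ring
    have e4 : ((-(s / 2) + 1) / (1 / 2)) = 2 - s := by ring
    rw [e3, e4]
    ring
  rw [e2] at h
  refine ⟨?_, h⟩
  apply Integrable.of_integral_ne_zero
  rw [h]
  have : 0 < Real.Gamma (2 - s) := Real.Gamma_pos_of_pos (by linarith)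
  positivity

theorem Es_diff_summable (s t : ℝ) (hs : 0 < s) (ht : 0 < t) :
    Summable fun m : ℕ => ((m : ℝ) + 1) ^ (-(s / 2)) * Real.exp (-(t * Real.sqrt ((m : ℝ) + 1))) := by
  have h1 : Summable fun m : ℕ => (24 / t ^ 4) * (1 / ((m : ℝ) + 1) ^ 2) := by
    apply Summable.mul_left
    have := (summable_nat_add_iff 1).2 (Real.summable_one_div_nat_pow.2 (by norm_num : 1 < 2))
    simpa using this
  refine Summable.of_nonneg_of_le (fun m => by positivity) (fun m => ?_) h1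
  set x : ℝ := (m : ℝ) + 1 with hx
  have hx1 : 1 ≤ x := by rw [hx]; have : (0:ℝ) ≤ m := Nat.cast_nonneg m; linarith
  have hx0 : 0 < x := by linarith
  have h2 : x ^ (-(s / 2)) ≤ 1 := Real.rpow_le_one_of_one_le_of_nonpos hx1 (by linarith)
  have hy : 0 < t * Real.sqrt x := mul_pos ht (Real.sqrt_pos.2 hx0)
  have h3 := Real.pow_div_factorial_le_exp (t * Real.sqrt x) hy.le 4
  have h4 : (t * Real.sqrt x) ^ 4 = t ^ 4 * x ^ 2 := by
    have : Real.sqrt x ^ 4 = x ^ 2 := by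
      have h5 : Real.sqrt x ^ 2 = x := Real.sq_sqrt hx0.le
      calc Real.sqrt x ^ 4 = (Real.sqrt x ^ 2) ^ 2 := by ring
        _ = x ^ 2 := by rw [h5]
    rw [mul_pow, this]
  rw [h4] at h3
  have h5 : Real.exp (-(t * Real.sqrt x)) ≤ (24 / t ^ 4) * (1 / x ^ 2) := by
    rw [Real.exp_neg]
    have : (24 / t ^ 4) * (1 / x ^ 2) = (t ^ 4 * x ^ 2 / (Nat.factorial 4 : ℕ))⁻¹ := by
      have : ((Nat.factorial 4 : ℕ) : ℝ) = 24 := by norm_num [Nat.factorial]
      rw [this]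
      field_simp
    rw [this]
    apply inv_anti₀ (by positivity) h3
  calc x ^ (-(s / 2)) * Real.exp (-(t * Real.sqrt x)) ≤ 1 * ((24 / t ^ 4) * (1 / x ^ 2)) := by
        gcongr
    _ = _ := one_mul _

theorem Es_diff (s : ℝ) (hs : 0 < s) (hs2 : s < 2) : ∃ C : ℝ, 0 < C ∧
    ∀ t t' : ℝ, 0 < t → t ≤ t' →
    |(GG s t' - 2 * Real.Gamma (2 - s) * t' ^ (s - 2)) -
      (GG s t - 2 * Real.Gamma (2 - s) * t ^ (s - 2))| ≤ C * t ^ (-(1 - s / 2)) * (t' - t) := by
  have hsum : Summable fun n : ℕ => (n : ℝ) ^ (-(1 + s / 4)) :=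
    Real.summable_nat_rpow.2 (by linarith)
  have hS0 : 0 ≤ ∑' n : ℕ, (n : ℝ) ^ (-(1 + s / 4)) := tsum_nonneg fun n => by positivity
  refine ⟨3 + 3 / 2 * ∑' n : ℕ, (n : ℝ) ^ (-(1 + s / 4)), by positivity, ?_⟩
  intro t t' ht htt
  have ht' : 0 < t' := lt_of_lt_of_le ht htt
  set T : ℝ := t ^ (-(1 - s / 2)) * (t' - t) with hT
  have hT0 : 0 ≤ T := mul_nonneg (by positivity) (sub_nonneg.2 htt)
  set g : ℝ → ℝ := fun x => x ^ (-(s / 2)) * Real.exp (-(t * Real.sqrt x)) -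
    x ^ (-(s / 2)) * Real.exp (-(t' * Real.sqrt x)) with hg
  obtain ⟨hi1, hv1⟩ := Es_diff_int s t hs hs2 ht
  obtain ⟨hi2, hv2⟩ := Es_diff_int s t' hs hs2 ht'
  have hgi : IntegrableOn g (Set.Ioi 0) := hi1.sub hi2
  have hgv : ∫ x in Set.Ioi (0 : ℝ), g x =
      2 * Real.Gamma (2 - s) * t ^ (s - 2) - 2 * Real.Gamma (2 - s) * t' ^ (s - 2) := by
    rw [← hv1, ← hv2]
    exact integral_sub hi1 hi2
  have hs1 := Es_diff_summable s t hs ht
  have hs2' := Es_diff_summable s t' hs ht'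
  have hgs : HasSum (fun m : ℕ => g ((m : ℝ) + 1)) (GG s t - GG s t') :=
    hs1.hasSum.sub hs2'.hasSum
  have hii : ∀ a b : ℝ, 0 ≤ a → a ≤ b → IntervalIntegrable g volume a b := by
    intro a b ha hab
    rw [intervalIntegrable_iff_integrableOn_Ioc_of_le hab]
    exact hgi.mono_set (fun x hx => lt_of_le_of_lt ha hx.1)
  -- the single differences
  have hD : ∀ m : ℕ, |g ((m : ℝ) + 1) - ∫ x in (m : ℝ)..((m + 1 : ℕ) : ℝ), g x| ≤
      T * ((if m = 0 then 3 else 0) + 3 / 2 * (m : ℝ) ^ (-(1 + s / 4))) := by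
    intro m
    rcases Nat.eq_zero_or_pos m with h0 | h0
    · subst h0
      have hz : ((0 : ℕ) : ℝ) ^ (-(1 + s / 4)) = 0 := by
        rw [Nat.cast_zero, Real.zero_rpow (by linarith)]
      rw [hz]
      simp only [Nat.cast_zero, zero_add, Nat.cast_one, if_true, mul_zero, add_zero]
      have b1 := Es_diff_gbound s 1 t t' hs hs2 ht htt one_pos
      have b1a : 0 ≤ g 1 := b1.1
      have b1b : g 1 ≤ T := by
        have := b1.2
        rw [Real.one_rpow (-(s / 4)), mul_one] at this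
        exact this
      have b2 : 0 ≤ ∫ x in (0 : ℝ)..1, g x := by
        rw [intervalIntegral.integral_of_le zero_le_one]
        apply setIntegral_nonneg measurableSet_Ioc
        intro x hx
        exact (Es_diff_gbound s x t t' hs hs2 ht htt hx.1).1
      have b3 : ∫ x in (0 : ℝ)..1, g x ≤ T * 2 := by
        have c1 : ∫ x in (0 : ℝ)..1, g x ≤ ∫ x in (0 : ℝ)..1, T * x ^ (-(s / 4)) := by
          rw [intervalIntegral.integral_of_le zero_le_one, intervalIntegral.integral_of_le zero_le_one]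
          apply setIntegral_mono_on _ _ measurableSet_Ioc
          · intro x hx
            exact (Es_diff_gbound s x t t' hs hs2 ht htt hx.1).2
          · exact (intervalIntegrable_iff_integrableOn_Ioc_of_le zero_le_one).1 (hii 0 1 le_rfl zero_le_one)
          · have : IntervalIntegrable (fun x : ℝ => T * x ^ (-(s / 4))) volume 0 1 :=
              (intervalIntegral.intervalIntegrable_rpow' (by linarith)).const_mul T
            exact (intervalIntegrable_iff_integrableOn_Ioc_of_le zero_le_one).1 this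
        refine c1.trans ?_
        rw [intervalIntegral.integral_const_mul, integral_rpow (Or.inl (by linarith))]
        rw [Real.one_rpow, Real.zero_rpow (by linarith), sub_zero]
        apply mul_le_mul_of_nonneg_left _ hT0
        rw [div_le_iff₀ (by linarith)]
        linarith
      rw [abs_le]
      constructor <;> nlinarith
    · have hm : (0 : ℝ) < m := by exact_mod_cast h0
      rw [if_neg (by omega), zero_add]
      have e1 : g ((m : ℝ) + 1) - ∫ x in (m : ℝ)..((m + 1 : ℕ) : ℝ), g x =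
          ∫ x in (m : ℝ)..((m : ℝ) + 1), (g ((m : ℝ) + 1) - g x) := by
        rw [intervalIntegral.integral_sub (by simp) (hii _ _ hm.le (by linarith)),
          intervalIntegral.integral_const]
        push_cast
        simp
      rw [e1, ← Real.norm_eq_abs]
      have h2 := intervalIntegral.norm_integral_le_of_norm_le_const (a := (m : ℝ)) (b := (m : ℝ) + 1)
        (f := fun x => g ((m : ℝ) + 1) - g x) (C := T * (3 / 2 * (m : ℝ) ^ (-(1 + s / 4)))) (by
          intro x hx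
          rw [Set.uIoc_of_le (by linarith)] at hx
          rw [Real.norm_eq_abs]
          exact Es_diff_gdiff s m x ((m : ℝ) + 1) t t' hs hs2 ht htt hm ⟨hx.1.le, hx.2⟩
            ⟨by linarith, le_rfl⟩)
      simpa using h2
  -- partial sums
  have hpart : ∀ M : ℕ, |(∑ m ∈ Finset.range M, g ((m : ℝ) + 1)) - ∫ x in (0 : ℝ)..(M : ℝ), g x| ≤
      T * (3 + 3 / 2 * ∑' n : ℕ, (n : ℝ) ^ (-(1 + s / 4))) := by
    intro M
    have e1 : ∫ x in (0 : ℝ)..(M : ℝ), g x =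
        ∑ m ∈ Finset.range M, ∫ x in (m : ℝ)..((m + 1 : ℕ) : ℝ), g x := by
      have := intervalIntegral.sum_integral_adjacent_intervals (f := g) (μ := volume)
        (a := fun n : ℕ => (n : ℝ)) (n := M) (fun k _ => hii _ _ (Nat.cast_nonneg k) (by simp))
      rw [this, Nat.cast_zero]
    rw [e1, ← Finset.sum_sub_distrib]
    refine (Finset.abs_sum_le_sum_abs _ _).trans ((Finset.sum_le_sum fun m _ => hD m).trans ?_)
    rw [← Finset.mul_sum, Finset.sum_add_distrib, ← Finset.mul_sum]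
    apply mul_le_mul_of_nonneg_left _ hT0
    apply add_le_add
    · rw [Finset.sum_ite_eq' (Finset.range M) 0 (fun _ => (3 : ℝ))]
      split_ifs <;> norm_num
    · apply mul_le_mul_of_nonneg_left _ (by norm_num)
      exact hsum.sum_le_tsum _ (fun n _ => by positivity)
  have hlim : Tendsto (fun M : ℕ => |(∑ m ∈ Finset.range M, g ((m : ℝ) + 1)) - ∫ x in (0 : ℝ)..(M : ℝ), g x|)
      atTop (𝓝 |(GG s t - GG s t') - ∫ x in Set.Ioi (0 : ℝ), g x|) := by
    apply Tendsto.abs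
    apply Tendsto.sub hgs.tendsto_sum_nat
    exact intervalIntegral_tendsto_integral_Ioi 0 hgi tendsto_natCast_atTop_atTop
  have hfin := le_of_tendsto' hlim hpart
  rw [hgv] at hfin
  have e : (GG s t' - 2 * Real.Gamma (2 - s) * t' ^ (s - 2)) -
      (GG s t - 2 * Real.Gamma (2 - s) * t ^ (s - 2)) =
      -((GG s t - GG s t') - (2 * Real.Gamma (2 - s) * t ^ (s - 2) - 2 * Real.Gamma (2 - s) * t' ^ (s - 2))) := by
    ring
  rw [e, abs_neg]
  refine hfin.trans (le_of_eq ?_)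
  rw [hT]; ring

end Pool.Agent.Helper88.SE
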