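import Pool.Agent.Helper88.SE3.Defs

set_option autoImplicit false

open MeasureTheory Set Filter Topology
open scoped ENNReal

namespace Pool.Agent.Helper88.SE



/-- the cut-off power -/
noncomputable def esF (s t x : ℝ) : ℝ := x ^ (-(s / 2)) * Real.exp (-(t * Real.sqrt x))

theorem esF_meas (s t : ℝ) : Measurable (esF s t) := by
  unfold esF
  fun_prop

theorem esF_nonneg (s t x : ℝ) (hx : 0 ≤ x) : 0 ≤ esF s t x :=
  mul_nonneg (Real.rpow_nonneg hx _) (Real.exp_pos _).le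

theorem esF_le (s t x : ℝ) (ht : 0 ≤ t) (hx : 0 ≤ x) : esF s t x ≤ x ^ (-(s / 2)) := by
  apply mul_le_of_le_one_right (Real.rpow_nonneg hx _)
  apply Real.exp_le_one_iff.2
  have := mul_nonneg ht (Real.sqrt_nonneg x)
  linarith

theorem esF_anti (s t x y : ℝ) (hs : 0 ≤ s) (ht : 0 ≤ t) (hx : 0 < x) (hxy : x ≤ y) :
    esF s t y ≤ esF s t x := by
  unfold esF
  apply mul_le_mul
  · exact Real.rpow_le_rpow_of_nonpos hx hxy (by linarith)
  · apply Real.exp_le_exp.2
    have := mul_le_mul_of_nonneg_left (Real.sqrt_le_sqrt hxy) ht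
    linarith
  · exact (Real.exp_pos _).le
  · exact Real.rpow_nonneg hx.le _

theorem esF_int (s t : ℝ) (hs2 : s < 2) (ht : 0 < t) : IntegrableOn (esF s t) (Ioi 0) := by
  have h := integrableOn_rpow_mul_exp_neg_mul_rpow (p := 1 / 2) (s := -(s / 2)) (b := t)
    (by linarith) (by norm_num) ht
  refine h.congr_fun (fun x hx => ?_) measurableSet_Ioi
  simp only [esF, Real.sqrt_eq_rpow, neg_mul]

theorem esF_val (s t : ℝ) (hs2 : s < 2) (ht : 0 < t) :
    ∫ x in Ioi (0 : ℝ), esF s t x = 2 * Real.Gamma (2 - s) * t ^ (s - 2) := by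
  have h := integral_rpow_mul_exp_neg_mul_rpow (p := 1 / 2) (q := -(s / 2)) (b := t)
    (by norm_num) (by linarith) ht
  have h1 : ∫ x in Ioi (0 : ℝ), esF s t x =
      ∫ x in Ioi (0 : ℝ), x ^ (-(s / 2)) * Real.exp (-t * x ^ (1 / 2 : ℝ)) := by
    refine setIntegral_congr_fun measurableSet_Ioi (fun x hx => ?_)
    simp only [esF, Real.sqrt_eq_rpow, neg_mul]
  rw [h1, h]
  have h2 : (-(-(s / 2) + 1) / (1 / 2) : ℝ) = s - 2 := by ring
  have h3 : ((-(s / 2) + 1) / (1 / 2) : ℝ) = 2 - s := by ring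
  rw [h2, h3]
  ring

theorem esF_ii (s t : ℝ) (hs2 : s < 2) (ht : 0 ≤ t) (x y : ℝ) (hx : 0 ≤ x) (hy : 0 ≤ y) :
    IntervalIntegrable (esF s t) volume x y := by
  have h : IntervalIntegrable (fun x : ℝ => x ^ (-(s / 2))) volume x y :=
    intervalIntegral.intervalIntegrable_rpow' (by linarith)
  refine h.mono_fun (esF_meas s t).aestronglyMeasurable ?_
  refine (ae_restrict_iff' measurableSet_uIoc).2 (Filter.Eventually.of_forall fun w hw => ?_)
  have hw0 : 0 ≤ w := by
    rcases Set.mem_uIoc.1 hw with h | h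
    · linarith [h.1]
    · linarith [h.1]
  show ‖esF s t w‖ ≤ ‖w ^ (-(s / 2))‖
  rw [Real.norm_of_nonneg (esF_nonneg s t w hw0), Real.norm_of_nonneg (Real.rpow_nonneg hw0 _)]
  exact esF_le s t w ht hw0

/-- auxiliary terms -/
noncomputable def esB (s t : ℝ) (m : ℕ) : ℝ :=
  esF s t ((m : ℝ) + 1) - ∫ x in (m : ℝ)..((m : ℝ) + 1), esF s t x

/-- their limits -/
noncomputable def esA (s : ℝ) (m : ℕ) : ℝ :=
  ((m : ℝ) + 1) ^ (-(s / 2)) - ∫ x in (m : ℝ)..((m : ℝ) + 1), x ^ (-(s / 2))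

theorem esB_lim (s : ℝ) (hs2 : s < 2) (m : ℕ) :
    Tendsto (fun t : ℝ => esB s t m) (𝓝[>] 0) (𝓝 (esA s m)) := by
  have hm : (0 : ℝ) ≤ m := Nat.cast_nonneg m
  have hpt : ∀ x : ℝ, Tendsto (fun t : ℝ => esF s t x) (𝓝[>] 0) (𝓝 (x ^ (-(s / 2)))) := by
    intro x
    have hc : Continuous fun t : ℝ => x ^ (-(s / 2)) * Real.exp (-(t * Real.sqrt x)) := by
      fun_prop
    have h2 := hc.tendsto 0
    simp only [zero_mul, neg_zero, Real.exp_zero, mul_one] at h2
    exact h2.mono_left nhdsWithin_le_nhds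
  refine (hpt _).sub ?_
  refine intervalIntegral.tendsto_integral_filter_of_dominated_convergence
    (fun x : ℝ => x ^ (-(s / 2))) ?_ ?_ ?_ ?_
  · exact Filter.Eventually.of_forall fun t => (esF_meas s t).aestronglyMeasurable
  · filter_upwards [self_mem_nhdsWithin] with t ht
    refine Filter.Eventually.of_forall fun x hx => ?_
    have hx0 : 0 ≤ x := by
      rcases Set.mem_uIoc.1 hx with h | h
      · linarith [h.1]
      · linarith [h.1]
    rw [Real.norm_of_nonneg (esF_nonneg s t x hx0)]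
    exact esF_le s t x (le_of_lt ht) hx0
  · exact intervalIntegral.intervalIntegrable_rpow' (by linarith)
  · exact Filter.Eventually.of_forall fun x _ => hpt x

theorem esB_abs (s t : ℝ) (hs : 0 < s) (hs2 : s < 2) (ht : 0 < t) (m : ℕ) (hm : 1 ≤ m) :
    |esB s t m| ≤ 2 * (m : ℝ) ^ (-(s / 2) - 1) := by
  have hm' : (1 : ℝ) ≤ m := by exact_mod_cast hm
  have hm0 : (0 : ℝ) < m := by linarith
  have hii := esF_ii s t hs2 ht.le (m : ℝ) ((m : ℝ) + 1) hm0.le (by linarith)
  have hup : ∫ x in (m : ℝ)..((m : ℝ) + 1), esF s t x ≤ esF s t m := by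
    have h1 : ∫ x in (m : ℝ)..((m : ℝ) + 1), esF s t x ≤
        ∫ x in (m : ℝ)..((m : ℝ) + 1), esF s t m := by
      refine intervalIntegral.integral_mono_on (by linarith) hii intervalIntegrable_const ?_
      intro x hx
      exact esF_anti s t m x hs.le ht.le hm0 hx.1
    simpa using h1
  have hlo : esF s t ((m : ℝ) + 1) ≤ ∫ x in (m : ℝ)..((m : ℝ) + 1), esF s t x := by
    have h1 : ∫ x in (m : ℝ)..((m : ℝ) + 1), esF s t ((m : ℝ) + 1) ≤
        ∫ x in (m : ℝ)..((m : ℝ) + 1), esF s t x := by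
      refine intervalIntegral.integral_mono_on (by linarith) intervalIntegrable_const hii ?_
      intro x hx
      exact esF_anti s t x _ hs.le ht.le (lt_of_lt_of_le hm0 hx.1) hx.2
    simpa using h1
  have hb1 : esB s t m ≤ 0 := by unfold esB; linarith
  have hb2 : esF s t ((m : ℝ) + 1) - esF s t m ≤ esB s t m := by unfold esB; linarith
  rw [abs_of_nonpos hb1]
  suffices h : esF s t m - esF s t ((m : ℝ) + 1) ≤ 2 * (m : ℝ) ^ (-(s / 2) - 1) by linarith
  obtain ⟨u, hu⟩ : ∃ u, u = Real.sqrt (m : ℝ) := ⟨_, rfl⟩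
  obtain ⟨v, hv⟩ : ∃ v, v = Real.sqrt ((m : ℝ) + 1) := ⟨_, rfl⟩
  obtain ⟨A, hA⟩ : ∃ A, A = (m : ℝ) ^ (-(s / 2)) := ⟨_, rfl⟩
  obtain ⟨B, hB⟩ : ∃ B, B = ((m : ℝ) + 1) ^ (-(s / 2)) := ⟨_, rfl⟩
  have hu0 : 0 < u := by rw [hu]; exact Real.sqrt_pos.2 (by linarith)
  have hv0 : 0 < v := by rw [hv]; exact Real.sqrt_pos.2 (by linarith)
  have hum : u ^ 2 = m := by rw [hu, Real.sq_sqrt (by linarith)]
  have huv : v ^ 2 = u ^ 2 + 1 := by
    rw [hu, hv, Real.sq_sqrt (by linarith), Real.sq_sqrt (by linarith)]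
  have hlt : u < v := by nlinarith
  have hA0 : 0 < A := by rw [hA]; exact Real.rpow_pos_of_pos hm0 _
  have hB0 : 0 < B := by rw [hB]; exact Real.rpow_pos_of_pos (by linarith) _
  have hBA : B ≤ A := by
    rw [hA, hB]
    exact Real.rpow_le_rpow_of_nonpos hm0 (by linarith) (by linarith)
  have hAB : A * ((m : ℝ) / (m + 1)) ≤ B := by
    have hy : 1 ≤ ((m : ℝ) + 1) / m := by
      rw [le_div_iff₀ hm0]; linarith
    have h1 : (((m : ℝ) + 1) / m) ^ (s / 2) ≤ ((m : ℝ) + 1) / m := by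
      have := Real.rpow_le_rpow_of_exponent_le hy (show s / 2 ≤ 1 by linarith)
      simpa using this
    have h2 : B = A * ((((m : ℝ) + 1) / m) ^ (s / 2))⁻¹ := by
      rw [hA, hB, ← Real.rpow_neg (by positivity),
        ← Real.mul_rpow hm0.le (by positivity)]
      congr 1
      field_simp
    rw [h2]
    apply mul_le_mul_of_nonneg_left _ hA0.le
    have h3 : (m : ℝ) / (m + 1) = (((m : ℝ) + 1) / m)⁻¹ := by rw [inv_div]
    rw [h3]
    exact inv_anti₀ (Real.rpow_pos_of_pos (by positivity) _) h1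
  have hAm : (m : ℝ) ^ (-(s / 2) - 1) = A / m := by
    rw [hA, Real.rpow_sub hm0, Real.rpow_one]
  have hE1 : 0 < Real.exp (-(t * u)) := Real.exp_pos _
  have hE1' : Real.exp (-(t * u)) ≤ 1 := Real.exp_le_one_iff.2 (by nlinarith)
  have hQ : Real.exp (-(t * u)) * (1 - t * (v - u)) ≤ Real.exp (-(t * v)) := by
    have h1 : Real.exp (-(t * v)) = Real.exp (-(t * u)) * Real.exp (-(t * (v - u))) := by
      rw [← Real.exp_add]; congr 1; ring
    rw [h1]
    apply mul_le_mul_of_nonneg_left _ hE1.le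
    have := Real.add_one_le_exp (-(t * (v - u)))
    linarith
  have hdu : v - u ≤ u⁻¹ := by
    rw [inv_eq_one_div, le_div_iff₀ hu0]
    nlinarith
  have hte : t * Real.exp (-(t * u)) ≤ u⁻¹ := by
    rw [inv_eq_one_div, le_div_iff₀ hu0]
    have h1 := Real.add_one_le_exp (t * u)
    have h2 : Real.exp (-(t * u)) * Real.exp (t * u) = 1 := by
      rw [← Real.exp_add]; simp
    nlinarith
  have k1 : esF s t m - esF s t ((m : ℝ) + 1) =
      (A - B) * Real.exp (-(t * u)) + B * (Real.exp (-(t * u)) - Real.exp (-(t * v))) := by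
    unfold esF
    rw [← hu, ← hv, ← hA, ← hB]
    ring
  have hui : 0 < u⁻¹ := inv_pos.2 hu0
  have k2 : Real.exp (-(t * u)) - Real.exp (-(t * v)) ≤ u⁻¹ * u⁻¹ := by
    have h1 : Real.exp (-(t * u)) - Real.exp (-(t * v)) ≤ (t * Real.exp (-(t * u))) * (v - u) := by
      linarith
    refine h1.trans ?_
    exact mul_le_mul hte hdu (by linarith) hui.le
  have k3 : u⁻¹ * u⁻¹ = 1 / m := by
    rw [← hum]; field_simp
  have k4 : (A - B) * Real.exp (-(t * u)) ≤ A / m := by
    have h1 : (A - B) * Real.exp (-(t * u)) ≤ (A - B) * 1 :=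
      mul_le_mul_of_nonneg_left hE1' (by linarith)
    have h2 : A - B ≤ A / (m + 1) := by
      have h3 : A - A * ((m : ℝ) / (m + 1)) = A / (m + 1) := by
        field_simp
        ring
      linarith
    have h4 : A / (m + 1) ≤ A / m := div_le_div_of_nonneg_left hA0.le hm0 (by linarith)
    linarith
  have k5 : B * (Real.exp (-(t * u)) - Real.exp (-(t * v))) ≤ A / m := by
    calc B * (Real.exp (-(t * u)) - Real.exp (-(t * v))) ≤ B * (u⁻¹ * u⁻¹) :=
          mul_le_mul_of_nonneg_left k2 hB0.le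
      _ = B / m := by rw [k3]; ring
      _ ≤ A / m := div_le_div_of_nonneg_right hBA hm0.le
  rw [k1, hAm]
  linarith

theorem esB_abs0 (s t : ℝ) (hs2 : s < 2) (ht : 0 < t) :
    |esB s t 0| ≤ 1 + ∫ x in (0 : ℝ)..1, x ^ (-(s / 2)) := by
  have hii := esF_ii s t hs2 ht.le 0 1 le_rfl zero_le_one
  have h0 : 0 ≤ ∫ x in (0 : ℝ)..1, esF s t x :=
    intervalIntegral.integral_nonneg zero_le_one fun x hx => esF_nonneg s t x hx.1
  have h1 : ∫ x in (0 : ℝ)..1, esF s t x ≤ ∫ x in (0 : ℝ)..1, x ^ (-(s / 2)) := by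
    refine intervalIntegral.integral_mono_on zero_le_one hii
      (intervalIntegral.intervalIntegrable_rpow' (by linarith)) ?_
    intro x hx
    exact esF_le s t x ht.le hx.1
  have h2 : 0 ≤ esF s t 1 := esF_nonneg s t 1 zero_le_one
  have h3 : esF s t 1 ≤ 1 := by
    have := esF_le s t 1 ht.le zero_le_one
    simpa using this
  unfold esB
  simp only [Nat.cast_zero, zero_add]
  rw [abs_le]
  constructor
  · linarith
  · linarith

/-- dominating sequence -/
noncomputable def esD (s : ℝ) (m : ℕ) : ℝ :=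
  2 * (m : ℝ) ^ (-(s / 2) - 1) +
    (if m = 0 then 1 + ∫ x in (0 : ℝ)..1, x ^ (-(s / 2)) else 0)

theorem esD_summable (s : ℝ) (hs : 0 < s) : Summable (esD s) := by
  have h1 : Summable fun m : ℕ => ((m : ℝ) ^ (-(s / 2) - 1)) :=
    Real.summable_nat_rpow.2 (by linarith)
  have h3 : Summable fun m : ℕ =>
      (if m = 0 then (1 + ∫ x in (0 : ℝ)..1, x ^ (-(s / 2)) : ℝ) else 0) :=
    (hasSum_ite_eq 0 (1 + ∫ x in (0 : ℝ)..1, x ^ (-(s / 2)) : ℝ)).summable
  exact (h1.mul_left 2).add h3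

theorem esB_le (s t : ℝ) (hs : 0 < s) (hs2 : s < 2) (ht : 0 < t) (m : ℕ) :
    ‖esB s t m‖ ≤ esD s m := by
  rw [Real.norm_eq_abs]
  unfold esD
  rcases Nat.eq_zero_or_pos m with h | h
  · subst h
    have h1 := esB_abs0 s t hs2 ht
    have h2 : (0 : ℝ) ≤ 2 * ((0 : ℕ) : ℝ) ^ (-(s / 2) - 1) := by positivity
    rw [if_pos rfl]
    linarith
  · rw [if_neg (by omega), add_zero]
    exact esB_abs s t hs hs2 ht m h

theorem Es_lim (s : ℝ) (hs : 0 < s) (hs2 : s < 2) (z : ℝ)
    (hz : Tendsto (fun M : ℕ => (∑ m ∈ Finset.range M, ((m : ℝ) + 1) ^ (-(s / 2))) -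
      (M : ℝ) ^ (1 - s / 2) / (1 - s / 2)) atTop (𝓝 z)) :
    Tendsto (fun t : ℝ => GG s t - 2 * Real.Gamma (2 - s) * t ^ (s - 2)) (𝓝[>] 0) (𝓝 z) := by
  have hlim := tendsto_tsum_of_dominated_convergence (esD_summable s hs)
    (f := fun t m => esB s t m) (g := esA s) (𝓕 := 𝓝[>] (0 : ℝ)) (esB_lim s hs2) (by
      filter_upwards [self_mem_nhdsWithin] with t ht m
      exact esB_le s t hs hs2 ht m)
  have hle : ∀ m, ‖esA s m‖ ≤ esD s m := by
    intro m
    refine le_of_tendsto ((esB_lim s hs2 m).norm) ?_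
    filter_upwards [self_mem_nhdsWithin] with t ht
    exact esB_le s t hs hs2 ht m
  have hsa : Summable (esA s) := Summable.of_norm_bounded (esD_summable s hs) hle
  have hz2 : ∑' m, esA s m = z := by
    have h1 := hsa.hasSum.tendsto_sum_nat
    refine tendsto_nhds_unique h1 (hz.congr fun M => ?_)
    unfold esA
    rw [Finset.sum_sub_distrib]
    congr 1
    have h2 := intervalIntegral.sum_integral_adjacent_intervals (μ := volume)
      (f := fun x : ℝ => x ^ (-(s / 2))) (a := fun k : ℕ => (k : ℝ)) (n := M)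
      (fun k _ => intervalIntegral.intervalIntegrable_rpow' (by linarith))
    push_cast at h2
    rw [h2, integral_rpow (Or.inl (by linarith))]
    have h3 : (-(s / 2) + 1 : ℝ) = 1 - s / 2 := by ring
    rw [h3, Real.zero_rpow (by linarith), sub_zero]
  rw [hz2] at hlim
  refine hlim.congr' ?_
  filter_upwards [self_mem_nhdsWithin] with t ht
  have ht' : 0 < t := ht
  have hb : Summable (esB s t) :=
    Summable.of_norm_bounded (esD_summable s hs) (esB_le s t hs hs2 ht')
  have htel : HasSum (fun m : ℕ => ∫ x in (m : ℝ)..((m : ℝ) + 1), esF s t x)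
      (2 * Real.Gamma (2 - s) * t ^ (s - 2)) := by
    rw [hasSum_iff_tendsto_nat_of_nonneg]
    · have h1 : ∀ M : ℕ, ∑ m ∈ Finset.range M, (∫ x in (m : ℝ)..((m : ℝ) + 1), esF s t x) =
          ∫ x in (0 : ℝ)..(M : ℝ), esF s t x := by
        intro M
        have h2 := intervalIntegral.sum_integral_adjacent_intervals (μ := volume)
          (f := esF s t) (a := fun k : ℕ => (k : ℝ)) (n := M)
          (fun k _ => esF_ii s t hs2 ht'.le _ _ (Nat.cast_nonneg k) (Nat.cast_nonneg (k + 1)))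
        push_cast at h2
        exact h2
      rw [← esF_val s t hs2 ht']
      have h2 := intervalIntegral_tendsto_integral_Ioi (μ := volume) (0 : ℝ)
        (esF_int s t hs2 ht') (tendsto_natCast_atTop_atTop (R := ℝ))
      exact h2.congr fun M => (h1 M).symm
    · intro m
      have hm : (0 : ℝ) ≤ m := Nat.cast_nonneg m
      exact intervalIntegral.integral_nonneg (by linarith)
        fun x hx => esF_nonneg s t x (hm.trans hx.1)
  have hG : HasSum (fun m : ℕ => ((m : ℝ) + 1) ^ (-(s / 2)) *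
      Real.exp (-(t * Real.sqrt ((m : ℝ) + 1))))
      (∑' m, esB s t m + 2 * Real.Gamma (2 - s) * t ^ (s - 2)) := by
    refine (hb.hasSum.add htel).congr_fun ?_
    intro m
    unfold esB esF
    ring
  unfold GG
  rw [hG.tsum_eq]
  ring

end Pool.Agent.Helper88.SE
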