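import Pool.Agent.Helper88.SE3.Defs

set_option autoImplicit false

open MeasureTheory Set Filter Topology
open scoped ENNReal

namespace Pool.Agent.Helper88.SE



theorem ht_aux_exp (c : ℝ) (hc : 0 < c) : Summable (fun n : ℤ => Real.exp (-(c * |(n : ℝ)|))) := by
  have h1 : Summable (fun n : ℕ => Real.exp (-(c * |(((n : ℕ) : ℤ) : ℝ)|))) := by
    have h := (Real.summable_exp_nat_mul_iff (a := -c)).mpr (by linarith)
    refine h.congr ?_
    intro n
    congr 1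
    have : |(((n : ℕ) : ℤ) : ℝ)| = (n : ℝ) := by
      rw [Int.cast_natCast]; exact abs_of_nonneg (Nat.cast_nonneg n)
    rw [this]; ring
  refine Summable.of_nat_of_neg h1 ?_
  refine h1.congr ?_
  intro n
  congr 3
  push_cast
  rw [abs_neg]

theorem ht_aux_quad (a b : ℝ) : ((|a| + |b|) / 2) ^ 2 ≤ a ^ 2 + a * b + b ^ 2 := by
  have h1 : -(|a| * |b|) ≤ a * b := by
    rw [← abs_mul]; exact neg_abs_le (a * b)
  have h2 : |a| ^ 2 = a ^ 2 := sq_abs a
  have h3 : |b| ^ 2 = b ^ 2 := sq_abs b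
  nlinarith [sq_nonneg (|a| - |b|)]

theorem ht_summable (s mu : ℝ) (hs : 0 < s) (hmu : 0 < mu) :
    (∀ z, 0 ≤ ht s mu z) ∧ Summable (ht s mu) := by
  have hnn : ∀ z, 0 ≤ ht s mu z := by
    intro z
    unfold ht
    split_ifs
    · exact le_refl _
    · positivity
  refine ⟨hnn, ?_⟩
  have hc : 0 < mu / 2 := by linarith
  have hS := (ht_aux_exp (mu / 2) hc).mul_of_nonneg (ht_aux_exp (mu / 2) hc)
    (fun _ => (Real.exp_pos _).le) (fun _ => (Real.exp_pos _).le)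
  refine Summable.of_nonneg_of_le hnn ?_ hS
  intro z
  unfold ht
  split_ifs with hz
  · positivity
  · have hq1 : ((|(z.1 : ℝ)| + |(z.2 : ℝ)|) / 2) ^ 2 ≤ ((hq z : ℤ) : ℝ) := by
      have := ht_aux_quad (z.1 : ℝ) (z.2 : ℝ)
      unfold hq
      push_cast
      exact this
    have hsq : (|(z.1 : ℝ)| + |(z.2 : ℝ)|) / 2 ≤ Real.sqrt ((hq z : ℤ) : ℝ) := by
      apply Real.le_sqrt_of_sq_le hq1
    have hpos : (0 : ℝ) < ((hq z : ℤ) : ℝ) := by
      refine lt_of_lt_of_le ?_ hq1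
      have : 0 < |(z.1 : ℝ)| + |(z.2 : ℝ)| := by
        by_contra hcon
        have h1 : |(z.1 : ℝ)| = 0 := le_antisymm (by linarith [abs_nonneg (z.2 : ℝ)]) (abs_nonneg _)
        have h2 : |(z.2 : ℝ)| = 0 := le_antisymm (by linarith [abs_nonneg (z.1 : ℝ)]) (abs_nonneg _)
        apply hz
        have h1' : z.1 = 0 := by exact_mod_cast abs_eq_zero.mp h1
        have h2' : z.2 = 0 := by exact_mod_cast abs_eq_zero.mp h2
        exact Prod.ext h1' h2'
      positivity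
    have hge1 : (1 : ℝ) ≤ ((hq z : ℤ) : ℝ) := by
      have : 0 < hq z := by exact_mod_cast hpos
      exact_mod_cast this
    have hs1 : (1 : ℝ) ≤ Real.sqrt ((hq z : ℤ) : ℝ) := Real.one_le_sqrt.mpr hge1
    have hp : Real.sqrt ((hq z : ℤ) : ℝ) ^ (-s) ≤ 1 :=
      Real.rpow_le_one_of_one_le_of_nonpos hs1 (by linarith)
    calc Real.sqrt ((hq z : ℤ) : ℝ) ^ (-s) * Real.exp (-(mu * Real.sqrt ((hq z : ℤ) : ℝ)))
        ≤ 1 * Real.exp (-(mu * Real.sqrt ((hq z : ℤ) : ℝ))) :=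
          mul_le_mul_of_nonneg_right hp (Real.exp_pos _).le
      _ = Real.exp (-(mu * Real.sqrt ((hq z : ℤ) : ℝ))) := one_mul _
      _ ≤ Real.exp (-(mu / 2 * |(z.1 : ℝ)|) + -(mu / 2 * |(z.2 : ℝ)|)) := by
          apply Real.exp_le_exp.mpr
          nlinarith [mul_le_mul_of_nonneg_left hsq hmu.le]
      _ = Real.exp (-(mu / 2 * |(z.1 : ℝ)|)) * Real.exp (-(mu / 2 * |(z.2 : ℝ)|)) := Real.exp_add _ _

end Pool.Agent.Helper88.SE

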