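import Pool.Agent.Helper88.SE3.Defs

set_option autoImplicit false

open MeasureTheory Set Filter Topology
open scoped ENNReal

namespace Pool.Agent.Helper88.SE



theorem rho_dvd_mod_aux (m x : ℕ) : m ∣ (x % m) ^ 2 + (x % m) + 1 ↔ m ∣ x ^ 2 + x + 1 := by
  have h : (x % m) ≡ x [MOD m] := Nat.mod_modEq x m
  exact (((h.pow 2).add h).add_right 1).dvd_iff (dvd_refl m)

theorem rho_mul_aux (m n : ℕ) (h : Nat.Coprime m n) : rho (m * n) = rho m * rho n := by
  unfold rho
  rcases Nat.eq_zero_or_pos m with rfl | hm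
  · simp
  rcases Nat.eq_zero_or_pos n with rfl | hn
  · simp
  rw [← Finset.card_product]
  refine Finset.card_bij (fun x _ => (x % m, x % n)) ?_ ?_ ?_
  · intro x hx
    rw [Finset.mem_filter, Finset.mem_range] at hx
    rw [Finset.mem_product, Finset.mem_filter, Finset.mem_filter, Finset.mem_range,
      Finset.mem_range]
    refine ⟨⟨Nat.mod_lt _ hm, ?_⟩, ⟨Nat.mod_lt _ hn, ?_⟩⟩
    · exact (rho_dvd_mod_aux m x).2 ((dvd_mul_right m n).trans hx.2)
    · exact (rho_dvd_mod_aux n x).2 ((dvd_mul_left n m).trans hx.2)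
  · intro x hx y hy hxy
    rw [Finset.mem_filter, Finset.mem_range] at hx hy
    rw [Prod.mk.injEq] at hxy
    have h1 : x ≡ y [MOD m * n] := (Nat.modEq_and_modEq_iff_modEq_mul h).1 ⟨hxy.1, hxy.2⟩
    exact Nat.ModEq.eq_of_lt_of_lt h1 hx.1 hy.1
  · rintro ⟨a, b⟩ hab
    rw [Finset.mem_product, Finset.mem_filter, Finset.mem_filter, Finset.mem_range,
      Finset.mem_range] at hab
    obtain ⟨⟨ha1, ha2⟩, hb1, hb2⟩ := hab
    simp only at ha1 ha2 hb1 hb2
    obtain ⟨c, hc⟩ : ∃ c : ℕ, c = (Nat.chineseRemainder h a b : ℕ) := ⟨_, rfl⟩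
    have hca : c % m = a := by
      have := (Nat.chineseRemainder h a b).2.1
      rw [Nat.ModEq, Nat.mod_eq_of_lt ha1] at this
      rw [hc]
      exact this
    have hcb : c % n = b := by
      have := (Nat.chineseRemainder h a b).2.2
      rw [Nat.ModEq, Nat.mod_eq_of_lt hb1] at this
      rw [hc]
      exact this
    have hclt : c < m * n := by
      rw [hc]
      exact Nat.chineseRemainder_lt_mul h a b hm.ne' hn.ne'
    refine ⟨c, ?_, by rw [hca, hcb]⟩
    rw [Finset.mem_filter, Finset.mem_range]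
    refine ⟨hclt, ?_⟩
    exact h.mul_dvd_of_dvd_of_dvd ((rho_dvd_mod_aux m c).1 (by rw [hca]; exact ha2))
      ((rho_dvd_mod_aux n c).1 (by rw [hcb]; exact hb2))

theorem rho_ndvd_aux (p : ℕ) (hp : p.Prime) (hp3 : p ≠ 3) (y : ℤ)
    (h : (p : ℤ) ∣ y ^ 2 + y + 1) : ¬ (p : ℤ) ∣ 2 * y + 1 := by
  intro h2
  have h3 : (p : ℤ) ∣ 3 := by
    have h4 : (3 : ℤ) = 4 * (y ^ 2 + y + 1) - (2 * y + 1) * (2 * y + 1) := by ring
    rw [h4]
    exact (h.mul_left 4).sub (h2.mul_left _)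
  have h5 : p ∣ 3 := by exact_mod_cast h3
  exact hp3 ((Nat.prime_dvd_prime_iff_eq hp Nat.prime_three).1 h5)

theorem rho_lift_aux (p k : ℕ) (hp : p.Prime) (hp3 : p ≠ 3) (hk : 1 ≤ k) :
    rho (p ^ (k + 1)) = rho (p ^ k) := by
  have hpk : 0 < p ^ k := pow_pos hp.pos k
  have hdk : p ^ k ∣ p ^ (k + 1) := pow_dvd_pow p (Nat.le_succ k)
  have hd1 : p ∣ p ^ k := dvd_pow_self p (by omega)
  unfold rho
  refine Finset.card_bij (fun x _ => x % p ^ k) ?_ ?_ ?_
  · intro x hx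
    rw [Finset.mem_filter, Finset.mem_range] at hx ⊢
    exact ⟨Nat.mod_lt _ hpk, (rho_dvd_mod_aux _ x).2 (hdk.trans hx.2)⟩
  · intro x hx y hy hxy
    rw [Finset.mem_filter, Finset.mem_range] at hx hy
    have h0 : (p : ℤ) ∣ (x : ℤ) - y := by
      have h1 : y ≡ x [MOD p ^ k] := hxy.symm
      have h2 : y ≡ x [MOD p] := h1.of_dvd hd1
      exact (Nat.modEq_iff_dvd).1 h2
    have hx2 : ((p : ℤ) ^ (k + 1)) ∣ (x : ℤ) ^ 2 + x + 1 := by exact_mod_cast hx.2
    have hy2 : ((p : ℤ) ^ (k + 1)) ∣ (y : ℤ) ^ 2 + y + 1 := by exact_mod_cast hy.2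
    have hy1 : (p : ℤ) ∣ (y : ℤ) ^ 2 + y + 1 := (dvd_pow_self _ (by omega)).trans hy2
    have h3 : ((p : ℤ) ^ (k + 1)) ∣ ((x : ℤ) + y + 1) * ((x : ℤ) - y) := by
      have h4 : ((x : ℤ) + y + 1) * ((x : ℤ) - y)
          = ((x : ℤ) ^ 2 + x + 1) - ((y : ℤ) ^ 2 + y + 1) := by ring
      rw [h4]
      exact hx2.sub hy2
    have h5 : ¬ (p : ℤ) ∣ (x : ℤ) + y + 1 := by
      intro h6
      have h7 : (p : ℤ) ∣ 2 * (y : ℤ) + 1 := by
        have h8 : 2 * (y : ℤ) + 1 = ((x : ℤ) + y + 1) - ((x : ℤ) - y) := by ring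
        rw [h8]
        exact h6.sub h0
      exact rho_ndvd_aux p hp hp3 y hy1 h7
    have h6 : IsCoprime (p : ℤ) ((x : ℤ) + y + 1) :=
      (Prime.coprime_iff_not_dvd (Nat.prime_iff_prime_int.1 hp)).2 h5
    have h7 : ((p : ℤ) ^ (k + 1)) ∣ (x : ℤ) - y := (h6.pow_left).dvd_of_dvd_mul_left h3
    have h8 : y ≡ x [MOD p ^ (k + 1)] := by
      rw [Nat.modEq_iff_dvd]
      exact_mod_cast h7
    exact (Nat.ModEq.eq_of_lt_of_lt h8 hy.1 hx.1).symm
  · intro a ha
    rw [Finset.mem_filter, Finset.mem_range] at ha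
    obtain ⟨ha1, c, hc⟩ := ha
    have : Fact p.Prime := ⟨hp⟩
    have hne : ((2 * a + 1 : ℕ) : ZMod p) ≠ 0 := by
      intro h0
      rw [ZMod.natCast_eq_zero_iff] at h0
      have h1 : (p : ℤ) ∣ (a : ℤ) ^ 2 + a + 1 := by
        have : p ∣ a ^ 2 + a + 1 := hd1.trans ⟨c, hc⟩
        exact_mod_cast this
      exact rho_ndvd_aux p hp hp3 a h1 (by exact_mod_cast h0)
    obtain ⟨t, ht⟩ : ∃ t : ℕ, t = (-(c : ZMod p) * ((2 * a + 1 : ℕ) : ZMod p)⁻¹).val := ⟨_, rfl⟩
    have htlt : t < p := by rw [ht]; exact ZMod.val_lt _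
    have htz : (t : ZMod p) = -(c : ZMod p) * ((2 * a + 1 : ℕ) : ZMod p)⁻¹ := by
      rw [ht]; exact ZMod.natCast_zmod_val _
    have hd : p ∣ c + t * (2 * a + 1) := by
      rw [← ZMod.natCast_eq_zero_iff, Nat.cast_add, Nat.cast_mul, htz, mul_assoc,
        inv_mul_cancel₀ hne]
      ring
    obtain ⟨e, he⟩ := hd
    refine ⟨a + p ^ k * t, ?_, ?_⟩
    · rw [Finset.mem_filter, Finset.mem_range]
      constructor
      · calc a + p ^ k * t < p ^ k + p ^ k * t := by omega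
          _ = p ^ k * (t + 1) := by ring
          _ ≤ p ^ k * p := Nat.mul_le_mul_left _ htlt
          _ = p ^ (k + 1) := by ring
      · obtain ⟨j, rfl⟩ : ∃ j, k = j + 1 := ⟨k - 1, by omega⟩
        refine ⟨e + p ^ j * t ^ 2, ?_⟩
        calc (a + p ^ (j + 1) * t) ^ 2 + (a + p ^ (j + 1) * t) + 1
            = (a ^ 2 + a + 1) + p ^ (j + 1) * (t * (2 * a + 1)) + (p ^ (j + 1) * t) ^ 2 := by ring
          _ = p ^ (j + 1) * c + p ^ (j + 1) * (t * (2 * a + 1)) + (p ^ (j + 1) * t) ^ 2 := by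
              rw [hc]
          _ = p ^ (j + 1) * (c + t * (2 * a + 1)) + (p ^ (j + 1) * t) ^ 2 := by ring
          _ = p ^ (j + 1) * (p * e) + (p ^ (j + 1) * t) ^ 2 := by rw [he]
          _ = p ^ (j + 1 + 1) * (e + p ^ j * t ^ 2) := by ring
    · show (a + p ^ k * t) % p ^ k = a
      rw [Nat.add_mul_mod_self_left, Nat.mod_eq_of_lt ha1]

theorem rho_pow_aux (p k : ℕ) (hp : p.Prime) (hp3 : p ≠ 3) (hk : 1 ≤ k) :
    rho (p ^ k) = rho p := by
  induction k, hk using Nat.le_induction with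
  | base => rw [pow_one]
  | succ k hk ih => rw [rho_lift_aux p k hp hp3 hk, ih]

theorem rho_prime_one_aux (p : ℕ) (hp : p.Prime) (h1 : p % 3 = 1) : rho p = 2 := by
  have : Fact p.Prime := ⟨hp⟩
  have : Fact (Nat.Prime 3) := ⟨Nat.prime_three⟩
  have hp3 : p ≠ 3 := by
    rintro rfl
    omega
  have h30 : (3 : ZMod p) ≠ 0 := by
    intro h
    have h2 : ((3 : ℕ) : ZMod p) = 0 := by exact_mod_cast h
    rw [ZMod.natCast_eq_zero_iff] at h2
    exact hp3 ((Nat.prime_dvd_prime_iff_eq hp Nat.prime_three).1 h2)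
  obtain ⟨u, hu⟩ : ∃ u : (ZMod p)ˣ, orderOf u = 3 := by
    apply exists_prime_orderOf_dvd_card 3
    rw [ZMod.card_units]
    omega
  have hu3 : u ^ 3 = 1 := by rw [← hu]; exact pow_orderOf_eq_one u
  have hu1 : u ≠ 1 := by
    rintro rfl
    rw [orderOf_one] at hu
    omega
  obtain ⟨x, hx⟩ : ∃ x : ZMod p, x = (u : ZMod p) := ⟨_, rfl⟩
  have hx3 : x ^ 3 = 1 := by
    rw [hx, ← Units.val_pow_eq_pow_val, hu3, Units.val_one]
  have hx1 : x ≠ 1 := by
    intro h
    apply hu1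
    apply Units.ext
    rw [← hx, h, Units.val_one]
  have hx0 : x ^ 2 + x + 1 = 0 := by
    have h2 : (x - 1) * (x ^ 2 + x + 1) = 0 := by
      have : (x - 1) * (x ^ 2 + x + 1) = x ^ 3 - 1 := by ring
      rw [this, hx3, sub_self]
    rcases mul_eq_zero.1 h2 with h | h
    · exact absurd (sub_eq_zero.1 h) hx1
    · exact h
  have hne : x ≠ -1 - x := by
    intro h
    apply h30
    have h2 : 2 * x + 1 = 0 := by
      have : 2 * x + 1 = x - (-1 - x) := by ring
      rw [this, ← h, sub_self]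
    have h3 : (3 : ZMod p) = 4 * (x ^ 2 + x + 1) - (2 * x + 1) * (2 * x + 1) := by ring
    rw [h3, hx0, h2]
    ring
  have hset : (Finset.range p).filter (fun y => p ∣ y ^ 2 + y + 1)
      = {x.val, (-1 - x).val} := by
    ext y
    rw [Finset.mem_filter, Finset.mem_range, Finset.mem_insert, Finset.mem_singleton]
    constructor
    · rintro ⟨hy1, hy2⟩
      have hy3 : ((y : ZMod p)) ^ 2 + y + 1 = 0 := by
        have := (ZMod.natCast_eq_zero_iff (y ^ 2 + y + 1) p).2 hy2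
        push_cast at this
        exact this
      have h4 : ((y : ZMod p) - x) * ((y : ZMod p) - (-1 - x)) = 0 := by
        have : ((y : ZMod p) - x) * ((y : ZMod p) - (-1 - x))
            = (((y : ZMod p)) ^ 2 + y + 1) - (x ^ 2 + x + 1) := by ring
        rw [this, hy3, hx0, sub_self]
      rcases mul_eq_zero.1 h4 with h | h
      · left
        rw [← sub_eq_zero.1 h, ZMod.val_cast_of_lt hy1]
      · right
        rw [← sub_eq_zero.1 h, ZMod.val_cast_of_lt hy1]
    · have key : ∀ z : ZMod p, z ^ 2 + z + 1 = 0 → z.val < p ∧ p ∣ z.val ^ 2 + z.val + 1 := by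
        intro z hz
        refine ⟨ZMod.val_lt z, ?_⟩
        rw [← ZMod.natCast_eq_zero_iff]
        push_cast
        rw [ZMod.natCast_zmod_val]
        exact hz
      rintro (rfl | rfl)
      · exact key x hx0
      · apply key
        rw [← hx0]
        ring
  unfold rho
  rw [hset, Finset.card_pair]
  intro h
  exact hne (ZMod.val_injective p h)

theorem rho_prime_two_aux (p : ℕ) (hp : p.Prime) (h1 : p % 3 = 2) : rho p = 0 := by
  have : Fact p.Prime := ⟨hp⟩
  have : Fact (Nat.Prime 3) := ⟨Nat.prime_three⟩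
  have hp3 : p ≠ 3 := by
    rintro rfl
    omega
  have h30 : (3 : ZMod p) ≠ 0 := by
    intro h
    have h2 : ((3 : ℕ) : ZMod p) = 0 := by exact_mod_cast h
    rw [ZMod.natCast_eq_zero_iff] at h2
    exact hp3 ((Nat.prime_dvd_prime_iff_eq hp Nat.prime_three).1 h2)
  unfold rho
  rw [Finset.card_eq_zero, Finset.filter_eq_empty_iff]
  intro y _ hy
  have hy3 : ((y : ZMod p)) ^ 2 + y + 1 = 0 := by
    have := (ZMod.natCast_eq_zero_iff (y ^ 2 + y + 1) p).2 hy
    push_cast at this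
    exact this
  have hc : ((y : ZMod p)) ^ 3 = 1 := by
    have : ((y : ZMod p)) ^ 3 - 1 = ((y : ZMod p) - 1) * (((y : ZMod p)) ^ 2 + y + 1) := by ring
    rw [hy3, mul_zero] at this
    exact sub_eq_zero.1 this
  have hn1 : (y : ZMod p) ≠ 1 := by
    intro h
    rw [h] at hy3
    apply h30
    rw [← hy3]
    ring
  have hn0 : (y : ZMod p) ≠ 0 := by
    intro h
    rw [h] at hc
    norm_num at hc
  have ho : orderOf (y : ZMod p) = 3 := orderOf_eq_prime hc hn1
  have hd : orderOf (y : ZMod p) ∣ p - 1 := ZMod.orderOf_dvd_card_sub_one hn0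
  rw [ho] at hd
  omega

theorem rho_facts : rho 1 = 1 ∧ (∀ m n : ℕ, Nat.Coprime m n → rho (m * n) = rho m * rho n) ∧
    ∀ p k : ℕ, p.Prime → 1 ≤ k →
      rho (p ^ k) = if p = 3 then (if k = 1 then 1 else 0) else if p % 3 = 1 then 2 else 0 := by
  refine ⟨by decide, rho_mul_aux, ?_⟩
  intro p k hp hk
  by_cases hp3 : p = 3
  · rw [if_pos hp3]
    subst hp3
    by_cases hk1 : k = 1
    · rw [if_pos hk1, hk1]
      decide
    · rw [if_neg hk1]
      unfold rho
      rw [Finset.card_eq_zero, Finset.filter_eq_empty_iff]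
      intro y _ hy
      have h9 : 9 ∣ y ^ 2 + y + 1 := by
        have h1 : (3 : ℕ) ^ 2 ∣ 3 ^ k := pow_dvd_pow 3 (by omega)
        exact (by norm_num at h1; exact h1 : (9 : ℕ) ∣ 3 ^ k).trans hy
      have h10 := (rho_dvd_mod_aux 9 y).2 h9
      have h11 : y % 9 < 9 := Nat.mod_lt _ (by norm_num)
      revert h10
      generalize y % 9 = z at h11
      interval_cases z <;> decide
  · rw [if_neg hp3, rho_pow_aux p k hp hp3 hk]
    by_cases h1 : p % 3 = 1
    · rw [if_pos h1]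
      exact rho_prime_one_aux p hp h1
    · rw [if_neg h1]
      apply rho_prime_two_aux p hp
      have h0 : p % 3 ≠ 0 := by
        intro h
        exact hp3 ((Nat.prime_dvd_prime_iff_eq Nat.prime_three hp).1 (Nat.dvd_of_mod_eq_zero h)).symm
      omega

end Pool.Agent.Helper88.SE
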