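import Pool.Agent.Helper88.SE3.Defs
import Pool.Agent.Helper88.SE3.P_rho_facts

set_option autoImplicit false

open MeasureTheory Set Filter Topology
open scoped ENNReal

namespace Pool.Agent.Helper88.SE



open Classical in
theorem ds_sq_cop {m n : ℕ} (h : Nat.Coprime m n) : IsSquare (m * n) ↔ IsSquare m ∧ IsSquare n := by
  constructor
  · rintro ⟨c, hc⟩
    have hc2 : m * n = c ^ 2 := by rw [hc, sq]
    have hc3 : n * m = c ^ 2 := by rw [mul_comm, hc2]
    constructor
    · obtain ⟨d, hd⟩ := exists_eq_pow_of_mul_eq_pow (a := m) (b := n) (c := c) (k := 2)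
        (by rw [Nat.isUnit_iff]; exact h) hc2
      exact ⟨d, by rw [hd, sq]⟩
    · obtain ⟨d, hd⟩ := exists_eq_pow_of_mul_eq_pow (a := n) (b := m) (c := c) (k := 2)
        (by rw [Nat.isUnit_iff]; exact h.symm) hc3
      exact ⟨d, by rw [hd, sq]⟩
  · rintro ⟨h1, h2⟩
    exact h1.mul h2

theorem ds_sq_pow {p : ℕ} (hp : p.Prime) (i : ℕ) : IsSquare (p ^ i) ↔ Even i := by
  constructor
  · rintro ⟨c, hc⟩
    have hc0 : c ≠ 0 := by
      rintro rfl
      have := pow_pos hp.pos i
      omega
    have h := congrArg (fun x => x.factorization p) hc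
    simp only [Nat.factorization_mul hc0 hc0, Nat.factorization_pow, Finsupp.coe_add, Pi.add_apply,
      Finsupp.coe_smul, Pi.smul_apply, hp.factorization_self, smul_eq_mul, mul_one] at h
    exact ⟨_, h⟩
  · rintro ⟨j, hj⟩
    exact ⟨p ^ j, by rw [hj, pow_add]⟩

theorem ds_chi_mul (m n : ℕ) : chi (m * n) = chi m * chi n := by
  unfold chi
  rw [Nat.mul_mod]
  have h1 : m % 3 < 3 := Nat.mod_lt _ (by norm_num)
  have h2 : n % 3 < 3 := Nat.mod_lt _ (by norm_num)
  interval_cases m % 3 <;> interval_cases n % 3 <;> simp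

theorem ds_rec (a : ℕ → ℤ) (k : ℕ) :
    ∑ i ∈ Finset.range (k + 2 + 1), (if Even i then a (k + 2 - i) else 0)
      = a (k + 2) + ∑ i ∈ Finset.range (k + 1), (if Even i then a (k - i) else 0) := by
  rw [Finset.sum_range_succ', Finset.sum_range_succ']
  simp only [zero_add, Nat.sub_zero, Even.zero, if_true]
  have h1 : ¬ Even 1 := by decide
  rw [if_neg h1, add_zero, add_comm]
  congr 1
  refine Finset.sum_congr rfl (fun i _ => ?_)
  have h2 : k + 2 - (i + 1 + 1) = k - i := by omega
  have h3 : Even (i + 1 + 1) ↔ Even i := by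
    rw [show i + 1 + 1 = i + 2 by ring, Nat.even_add]
    simp
  rw [h2]
  by_cases h : Even i
  · rw [if_pos h, if_pos (h3.2 h)]
  · rw [if_neg h, if_neg (fun h' => h (h3.1 h'))]

theorem ds_pp (p k : ℕ) (hp : p.Prime) :
    ∑ i ∈ Finset.range (k + 1), (if Even i then ((rho (p ^ (k - i)) : ℕ) : ℤ) else 0)
      = ∑ i ∈ Finset.range (k + 1), chi (p ^ i) := by
  obtain ⟨r1, -, r2⟩ := rho_facts
  have hchi : ∀ i, chi (p ^ i) = (chi p) ^ i := by
    intro i
    induction i with
    | zero => simp [chi]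
    | succ i ih => rw [pow_succ, ds_chi_mul, ih, pow_succ]
  simp only [hchi]
  have hT : ∀ k, ∑ i ∈ Finset.range (k + 2 + 1), (chi p) ^ i
      = ∑ i ∈ Finset.range (k + 1), (chi p) ^ i + (chi p ^ (k + 1) + chi p ^ (k + 2)) := by
    intro k
    rw [Finset.sum_range_succ, Finset.sum_range_succ, add_assoc]
  induction k using Nat.twoStepInduction with
  | zero =>
    rw [zero_add, Finset.sum_range_one, Finset.sum_range_one, if_pos Even.zero]
    simp [r1]
  | one =>
    rw [Finset.sum_range_succ, Finset.sum_range_succ, Finset.sum_range_zero]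
    rw [Finset.sum_range_succ, Finset.sum_range_succ, Finset.sum_range_zero]
    have h1 : ¬ Even 1 := by decide
    simp only [Even.zero, if_true, h1, if_false, Nat.sub_zero, pow_zero, pow_one, zero_add, add_zero]
    have := r2 p 1 hp le_rfl
    rw [pow_one] at this
    rw [this]
    unfold chi
    by_cases h3 : p = 3
    · subst h3; simp
    · rw [if_neg h3]
      have h0 : p % 3 ≠ 0 := by
        intro h0
        have : 3 ∣ p := Nat.dvd_of_mod_eq_zero h0
        rcases (Nat.dvd_prime hp).1 this with h | h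
        · omega
        · exact h3 h.symm
      have hlt : p % 3 < 3 := Nat.mod_lt _ (by norm_num)
      interval_cases hh : p % 3 <;> simp_all
  | more k ih0 ih1 =>
    rw [ds_rec (fun j => ((rho (p ^ j) : ℕ) : ℤ)), hT]
    rw [ih0, r2 p (k + 2) hp (by omega)]
    rw [add_comm]
    congr 1
    by_cases h3 : p = 3
    · subst h3
      have : chi 3 = 0 := by simp [chi]
      rw [this]
      simp
    · rw [if_neg h3]
      have h0 : p % 3 ≠ 0 := by
        intro h0
        have : 3 ∣ p := Nat.dvd_of_mod_eq_zero h0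
        rcases (Nat.dvd_prime hp).1 this with h | h
        · omega
        · exact h3 h.symm
      have hlt : p % 3 < 3 := Nat.mod_lt _ (by norm_num)
      by_cases h1 : p % 3 = 1
      · have : chi p = 1 := by simp [chi, h1]
        rw [this, if_pos h1]; norm_num
      · have : chi p = -1 := by
          have h2 : p % 3 = 2 := by omega
          simp [chi, h2]
        rw [this, if_neg h1]
        push_cast
        ring

open Classical in
noncomputable def dsR : ArithmeticFunction ℤ := ⟨fun n => if n = 0 then 0 else ((rho n : ℕ) : ℤ), by simp⟩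
open Classical in
noncomputable def dsQ : ArithmeticFunction ℤ := ⟨fun n => if n = 0 then 0 else if IsSquare n then 1 else 0, by simp⟩
noncomputable def dsX : ArithmeticFunction ℤ := ⟨chi, by simp [chi]⟩

theorem ds_R_mult : dsR.IsMultiplicative := by
  obtain ⟨r1, r0, -⟩ := rho_facts
  rw [ArithmeticFunction.IsMultiplicative.iff_ne_zero]
  refine ⟨?_, fun {m n} hm hn h => ?_⟩
  · simp [dsR, r1]
  · simp only [dsR, ArithmeticFunction.coe_mk]
    rw [if_neg hm, if_neg hn, if_neg (mul_ne_zero hm hn), r0 m n h]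
    push_cast; ring

theorem ds_Q_mult : dsQ.IsMultiplicative := by
  classical
  rw [ArithmeticFunction.IsMultiplicative.iff_ne_zero]
  refine ⟨?_, fun {m n} hm hn h => ?_⟩
  · simp [dsQ]
  · simp only [dsQ, ArithmeticFunction.coe_mk]
    rw [if_neg hm, if_neg hn, if_neg (mul_ne_zero hm hn)]
    have := ds_sq_cop h
    by_cases h1 : IsSquare m <;> by_cases h2 : IsSquare n <;> simp [this, h1, h2]

theorem ds_X_mult : dsX.IsMultiplicative := by
  rw [ArithmeticFunction.IsMultiplicative.iff_ne_zero]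
  refine ⟨?_, fun {m n} hm hn h => ?_⟩
  · simp [dsX, chi]
  · simp only [dsX, ArithmeticFunction.coe_mk]
    exact ds_chi_mul m n

theorem ds_main : dsQ * dsR = (ArithmeticFunction.zeta : ArithmeticFunction ℤ) * dsX := by
  classical
  rw [ArithmeticFunction.IsMultiplicative.eq_iff_eq_on_prime_powers _ (ds_Q_mult.mul ds_R_mult) _
    (ArithmeticFunction.isMultiplicative_zeta.natCast.mul ds_X_mult)]
  intro p k hp
  rw [ArithmeticFunction.coe_zeta_mul_apply, Nat.sum_divisors_prime_pow hp, ArithmeticFunction.mul_apply,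
    Nat.sum_divisorsAntidiagonal (f := fun x y => dsQ x * dsR y), Nat.sum_divisors_prime_pow hp]
  have := ds_pp p k hp
  have e1 : ∀ i, dsX (p ^ i) = chi (p ^ i) := fun i => rfl
  simp only [e1]
  rw [← this]
  refine Finset.sum_congr rfl (fun i hi => ?_)
  rw [Finset.mem_range] at hi
  rw [Nat.pow_div (by omega) hp.pos]
  have hne : ∀ j, p ^ j ≠ 0 := fun j => (pow_pos hp.pos j).ne'
  simp only [dsQ, dsR, ArithmeticFunction.coe_mk]
  rw [if_neg (hne _), if_neg (hne _)]
  by_cases h : Even i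
  · rw [if_pos h, if_pos ((ds_sq_pow hp i).2 h), one_mul]
  · rw [if_neg h, if_neg (fun h' => h ((ds_sq_pow hp i).1 h')), zero_mul]

theorem div_sum (n : ℕ) (hn : 1 ≤ n) :
    (((∑ d ∈ (Finset.Icc 1 n).filter (fun d => d ^ 2 ∣ n), rho (n / d ^ 2) : ℕ)) : ℤ) =
      ∑ d ∈ n.divisors, chi d := by
  classical
  have h := congrArg (fun f : ArithmeticFunction ℤ => f n) ds_main
  rw [ArithmeticFunction.coe_zeta_mul_apply, ArithmeticFunction.mul_apply,
    Nat.sum_divisorsAntidiagonal (f := fun x y => dsQ x * dsR y)] at h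
  have e1 : ∑ i ∈ n.divisors, dsX i = ∑ d ∈ n.divisors, chi d := rfl
  rw [← e1, ← h]
  have e2 : ∑ i ∈ n.divisors, dsQ i * dsR (n / i)
      = ∑ i ∈ n.divisors.filter (fun i => IsSquare i), ((rho (n / i) : ℕ) : ℤ) := by
    rw [Finset.sum_filter]
    refine Finset.sum_congr rfl (fun i hi => ?_)
    have hi' := Nat.mem_divisors.1 hi
    have hi0 : i ≠ 0 := by
      rintro rfl
      exact hi'.2 (Nat.eq_zero_of_zero_dvd hi'.1)
    have hi1 : n / i ≠ 0 := by
      have := Nat.div_pos (Nat.le_of_dvd hn hi'.1) (Nat.pos_of_ne_zero hi0)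
      omega
    simp only [dsQ, dsR, ArithmeticFunction.coe_mk]
    rw [if_neg hi0, if_neg hi1]
    by_cases h : IsSquare i
    · rw [if_pos h, if_pos h, one_mul]
    · rw [if_neg h, if_neg h, zero_mul]
  rw [e2]
  push_cast
  refine Finset.sum_bij (fun d _ => d ^ 2) ?_ ?_ ?_ ?_
  · intro d hd
    rw [Finset.mem_filter, Finset.mem_Icc] at hd
    rw [Finset.mem_filter, Nat.mem_divisors]
    exact ⟨⟨hd.2, by omega⟩, ⟨d, sq d⟩⟩
  · intro a _ b _ hab
    exact Nat.pow_left_injective (n := 2) (by norm_num) hab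
  · intro b hb
    rw [Finset.mem_filter, Nat.mem_divisors] at hb
    obtain ⟨⟨hb1, hb2⟩, ⟨c, hc⟩⟩ := hb
    refine ⟨c, ?_, by rw [hc, sq]⟩
    have hc2 : c ^ 2 ∣ n := by rw [sq, ← hc]; exact hb1
    have hc0 : c ≠ 0 := by
      rintro rfl
      rw [zero_mul] at hc
      rw [hc] at hb1
      exact hb2 (Nat.eq_zero_of_zero_dvd hb1)
    rw [Finset.mem_filter, Finset.mem_Icc]
    refine ⟨⟨Nat.pos_of_ne_zero hc0, ?_⟩, hc2⟩
    have h3 := Nat.le_of_dvd hn hc2
    have h4 : c ≤ c ^ 2 := Nat.le_self_pow (by norm_num) c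
    omega
  · intro d _
    rfl

end Pool.Agent.Helper88.SE
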