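import Pool.Agent.Helper88.SE3.Defs

set_option autoImplicit false

open MeasureTheory Set Filter Topology
open scoped ENNReal

namespace Pool.Agent.Helper88.SE



theorem unimod_base : Nat.card {z : ℤ × ℤ // 1 * z.1 ^ 2 + (-1) * z.1 * z.2 + 1 * z.2 ^ 2 = 1} = 6 := by
  have h1 : {z : ℤ × ℤ | 1 * z.1 ^ 2 + (-1) * z.1 * z.2 + 1 * z.2 ^ 2 = 1} =
      (({(1, 0), (-1, 0), (0, 1), (0, -1), (1, 1), (-1, -1)} : Finset (ℤ × ℤ)) : Set (ℤ × ℤ)) := by
    ext ⟨x, y⟩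
    constructor
    · intro h
      have h2 : 1 * x ^ 2 + (-1) * x * y + 1 * y ^ 2 = 1 := h
      have hy1 : y ≤ 1 := by nlinarith [sq_nonneg (2 * x - y)]
      have hy2 : -1 ≤ y := by nlinarith [sq_nonneg (2 * x - y)]
      have hx1 : x ≤ 1 := by nlinarith [sq_nonneg (2 * y - x)]
      have hx2 : -1 ≤ x := by nlinarith [sq_nonneg (2 * y - x)]
      interval_cases x <;> interval_cases y <;> simp_all
    · intro h
      simp only [Finset.coe_insert, Finset.coe_singleton, Set.mem_insert_iff,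
        Set.mem_singleton_iff, Prod.mk.injEq] at h
      show 1 * x ^ 2 + (-1) * x * y + 1 * y ^ 2 = 1
      rcases h with ⟨rfl, rfl⟩ | ⟨rfl, rfl⟩ | ⟨rfl, rfl⟩ | ⟨rfl, rfl⟩ | ⟨rfl, rfl⟩ | ⟨rfl, rfl⟩ <;>
        norm_num
  have h3 : Nat.card {z : ℤ × ℤ // 1 * z.1 ^ 2 + (-1) * z.1 * z.2 + 1 * z.2 ^ 2 = 1} =
      Set.ncard {z : ℤ × ℤ | 1 * z.1 ^ 2 + (-1) * z.1 * z.2 + 1 * z.2 ^ 2 = 1} :=
    Nat.card_coe_set_eq _
  rw [h3, h1, Set.ncard_coe_finset]
  decide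

theorem unimod_shift (A B D k : ℤ) :
    Nat.card {z : ℤ × ℤ // A * z.1 ^ 2 + (B + 2 * k * A) * z.1 * z.2 +
      (A * k ^ 2 + B * k + D) * z.2 ^ 2 = 1} =
    Nat.card {z : ℤ × ℤ // A * z.1 ^ 2 + B * z.1 * z.2 + D * z.2 ^ 2 = 1} := by
  refine Nat.card_congr ⟨fun z => ⟨(z.1.1 + k * z.1.2, z.1.2), ?_⟩,
    fun z => ⟨(z.1.1 - k * z.1.2, z.1.2), ?_⟩, ?_, ?_⟩
  · have h := z.2
    show A * (z.1.1 + k * z.1.2) ^ 2 + B * (z.1.1 + k * z.1.2) * z.1.2 + D * z.1.2 ^ 2 = 1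
    linear_combination h
  · have h := z.2
    show A * (z.1.1 - k * z.1.2) ^ 2 + (B + 2 * k * A) * (z.1.1 - k * z.1.2) * z.1.2 +
      (A * k ^ 2 + B * k + D) * z.1.2 ^ 2 = 1
    linear_combination h
  · intro z
    apply Subtype.ext
    apply Prod.ext
    · show z.1.1 + k * z.1.2 - k * z.1.2 = z.1.1
      ring
    · rfl
  · intro z
    apply Subtype.ext
    apply Prod.ext
    · show z.1.1 - k * z.1.2 + k * z.1.2 = z.1.1
      ring
    · rfl

theorem unimod_swap (A B D : ℤ) :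
    Nat.card {z : ℤ × ℤ // D * z.1 ^ 2 + B * z.1 * z.2 + A * z.2 ^ 2 = 1} =
    Nat.card {z : ℤ × ℤ // A * z.1 ^ 2 + B * z.1 * z.2 + D * z.2 ^ 2 = 1} := by
  refine Nat.card_congr ⟨fun z => ⟨(z.1.2, z.1.1), ?_⟩, fun z => ⟨(z.1.2, z.1.1), ?_⟩,
    fun z => rfl, fun z => rfl⟩
  · have h := z.2
    show A * z.1.2 ^ 2 + B * z.1.2 * z.1.1 + D * z.1.1 ^ 2 = 1
    linear_combination h
  · have h := z.2
    show D * z.1.2 ^ 2 + B * z.1.2 * z.1.1 + A * z.1.1 ^ 2 = 1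
    linear_combination h

theorem unimod_aux (n : ℕ) : ∀ (A B D : ℤ), A.toNat = n → 0 < A → B ^ 2 - 4 * A * D = -3 →
    Nat.card {z : ℤ × ℤ // A * z.1 ^ 2 + B * z.1 * z.2 + D * z.2 ^ 2 = 1} = 6 := by
  induction n using Nat.strong_induction_on with
  | _ n ih =>
    intro A B D hn hA h
    obtain ⟨k, hk⟩ : ∃ k : ℤ, k = -((B + A) / (2 * A)) := ⟨_, rfl⟩
    have e1 := Int.emod_add_mul_ediv (B + A) (2 * A)
    have e2 := Int.emod_nonneg (B + A) (show (2 * A) ≠ 0 by omega)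
    have e3 := Int.emod_lt_of_pos (B + A) (show 0 < 2 * A by omega)
    obtain ⟨B', hB'⟩ : ∃ B' : ℤ, B' = B + 2 * k * A := ⟨_, rfl⟩
    obtain ⟨D', hD'⟩ : ∃ D' : ℤ, D' = A * k ^ 2 + B * k + D := ⟨_, rfl⟩
    have hB1 : B' = (B + A) % (2 * A) - A := by
      rw [hB', hk]
      linarith
    have hb1 : -A ≤ B' := by omega
    have hb2 : B' < A := by omega
    have hdisc : B' ^ 2 - 4 * A * D' = -3 := by
      rw [hB', hD', ← h]
      ring
    rw [← unimod_shift A B D k, ← hB', ← hD']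
    have hD0 : 0 < D' := by
      by_contra hneg
      have : D' ≤ 0 := by omega
      nlinarith [sq_nonneg B', mul_nonneg hA.le (neg_nonneg.2 this)]
    by_cases hlt : D' < A
    · rw [← unimod_swap]
      exact ih D'.toNat (by omega) D' B' A rfl hD0 (by rw [← hdisc]; ring)
    · have hA1 : A = 1 := by
        have h1 : B' ^ 2 ≤ A ^ 2 := by nlinarith
        have h2 : A * A ≤ A * D' := mul_le_mul_of_nonneg_left (by omega) hA.le
        have h3 : A ^ 2 ≤ 1 := by nlinarith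
        nlinarith
      subst hA1
      have hB2 : B' = -1 := by
        have h4 : B' = -1 ∨ B' = 0 := by omega
        rcases h4 with h4 | h4
        · exact h4
        · rw [h4] at hdisc
          omega
      rw [hB2] at hdisc ⊢
      have hD2 : D' = 1 := by omega
      rw [hD2]
      exact unimod_base

theorem unimod (A B D : ℤ) (hA : 0 < A) (h : B ^ 2 - 4 * A * D = -3) :
    Nat.card {z : ℤ × ℤ // A * z.1 ^ 2 + B * z.1 * z.2 + D * z.2 ^ 2 = 1} = 6 := by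
  exact unimod_aux A.toNat A B D rfl hA h

end Pool.Agent.Helper88.SE
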