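import Pool.Agent.Helper88.SE3.Defs
import Pool.Agent.Helper88.SE3.P_unimod

set_option autoImplicit false

open MeasureTheory Set Filter Topology
open scoped ENNReal

namespace Pool.Agent.Helper88.SE



theorem prim_rep (n : ℕ) (hn : 1 ≤ n) :
    Nat.card {z : ℤ × ℤ // hq z = n ∧ IsCoprime z.1 z.2} = 6 * rho n := by
  classical
  set I : Finset ℕ := (Finset.range n).filter (fun x => n ∣ x ^ 2 + x + 1) with hI
  let A : ℕ → ℤ := fun x => ((x:ℤ) ^ 2 + x + 1) / n
  let Fb : I → Type := fun x =>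
    {w : ℤ × ℤ // A x * w.1 ^ 2 + (2 * ((x : ℕ) : ℤ) + 1) * w.1 * w.2 + (n:ℤ) * w.2 ^ 2 = 1}
  have hnz : (n:ℤ) ≠ 0 := by
    have : n ≠ 0 := by omega
    exact_mod_cast this
  have hnpos : (0:ℤ) < n := by
    have : 0 < n := hn
    exact_mod_cast this
  have hA : ∀ x ∈ I, (n:ℤ) * A x = (x:ℤ) ^ 2 + x + 1 := by
    intro x hx
    apply Int.mul_ediv_cancel'
    have h1 := (Finset.mem_filter.1 hx).2
    have h2 : ((n : ℕ) : ℤ) ∣ ((x ^ 2 + x + 1 : ℕ) : ℤ) := Int.natCast_dvd_natCast.2 h1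
    simpa using h2
  have hcard : ∀ x : I, Nat.card (Fb x) = 6 := by
    intro x
    have h := hA x x.2
    apply unimod (A x) (2 * ((x : ℕ) : ℤ) + 1) n
    · by_contra hcon
      push Not at hcon
      have h1 : (n:ℤ) * A x ≤ 0 := mul_nonpos_of_nonneg_of_nonpos hnpos.le hcon
      have h2 : (0:ℤ) ≤ ((x:ℕ):ℤ) := Int.natCast_nonneg _
      nlinarith
    · linear_combination (-4) * h
  have hq1 : ∀ (x : ℕ) (b k : ℤ), x ∈ I →
      hq ((x:ℤ) * b + n * k, b) = n * (A x * b ^ 2 + (2 * (x : ℤ) + 1) * b * k + (n:ℤ) * k ^ 2) := by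
    intro x b k hx
    have h := hA x hx
    unfold hq
    simp only
    linear_combination (-(b ^ 2)) * h
  let Φ : (Σ x : I, Fb x) → {z : ℤ × ℤ // hq z = n ∧ IsCoprime z.1 z.2} := fun p =>
    ⟨(((p.1 : ℕ) : ℤ) * p.2.1.1 + n * p.2.1.2, p.2.1.1), by
      constructor
      · rw [hq1 _ _ _ p.1.2, p.2.2, mul_one]
      · refine ⟨p.2.1.2, A p.1 * p.2.1.1 + (2 * ((p.1 : ℕ) : ℤ) + 1) * p.2.1.2
          - p.2.1.2 * ((p.1 : ℕ) : ℤ), ?_⟩
        have h := p.2.2
        simp only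
        linear_combination h⟩
  have hΦ : Function.Bijective Φ := by
    constructor
    · rintro ⟨⟨x, hx⟩, ⟨⟨b, k⟩, hw⟩⟩ ⟨⟨x', hx'⟩, ⟨⟨b', k'⟩, hw'⟩⟩ hE
      have h1 := congrArg Subtype.val hE
      simp only [Φ, Prod.mk.injEq] at h1
      obtain ⟨h1, h2⟩ := h1
      simp only at hw hw' h1 h2
      subst h2
      have hc : IsCoprime (n:ℤ) b := ⟨k ^ 2, A x * b + (2 * (x : ℤ) + 1) * k, by
        linear_combination hw⟩
      have hd : (n:ℤ) ∣ b * ((x:ℤ) - x') := ⟨k' - k, by linear_combination h1⟩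
      have hd2 : (n:ℤ) ∣ (x:ℤ) - x' := hc.dvd_of_dvd_mul_left hd
      have hxl : x < n := Finset.mem_range.1 (Finset.mem_filter.1 hx).1
      have hxl' : x' < n := Finset.mem_range.1 (Finset.mem_filter.1 hx').1
      have hxe : (x:ℤ) - x' = 0 := by
        apply Int.eq_zero_of_abs_lt_dvd hd2
        rw [abs_lt]
        constructor <;> omega
      have hxx : x = x' := by omega
      subst hxx
      have hk : (n:ℤ) * k = n * k' := by linear_combination h1
      have hkk : k = k' := mul_left_cancel₀ hnz hk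
      subst hkk
      rfl
    · rintro ⟨⟨a, b⟩, hz, hc⟩
      simp only at hc
      have hz' : a ^ 2 + a * b + b ^ 2 = n := hz
      have hcn : IsCoprime (n:ℤ) b := by
        obtain ⟨u, v, huv⟩ := hc
        have h2 : IsCoprime (a ^ 2) b := IsCoprime.pow_left ⟨u, v, huv⟩
        obtain ⟨u, v, huv⟩ := h2
        refine ⟨u, v - u * (a + b), ?_⟩
        rw [← hz']
        linear_combination huv
      obtain ⟨u, v, huv⟩ := hcn
      -- v * b ≡ 1 mod n
      let X : ℤ := (a * v) % n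
      have hX0 : 0 ≤ X := Int.emod_nonneg _ hnz
      have hXn : X < n := Int.emod_lt_of_pos _ hnpos
      have hXd : (n:ℤ) * ((a * v) / n) + X = a * v := Int.mul_ediv_add_emod (a * v) n
      obtain ⟨x, hx⟩ : ∃ x : ℕ, (x:ℤ) = X := ⟨X.toNat, Int.toNat_of_nonneg hX0⟩
      have hk : ∃ k : ℤ, a = x * b + n * k := by
        refine ⟨a * u + (a * v) / n * b, ?_⟩
        rw [hx]
        linear_combination (-a) * huv - b * hXd
      obtain ⟨k, hk⟩ := hk
      have hdv : (n:ℤ) ∣ b ^ 2 * ((x:ℤ) ^ 2 + x + 1) := by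
        refine ⟨1 - (2 * x + 1) * b * k - n * k ^ 2, ?_⟩
        rw [hk] at hz'
        linear_combination hz'
      have hcb : IsCoprime (n:ℤ) (b ^ 2) := IsCoprime.pow_right ⟨u, v, huv⟩
      have hdv2 : (n:ℤ) ∣ (x:ℤ) ^ 2 + x + 1 := hcb.dvd_of_dvd_mul_left hdv
      have hxI : x ∈ I := by
        rw [hI, Finset.mem_filter, Finset.mem_range]
        refine ⟨by omega, ?_⟩
        exact_mod_cast hdv2
      have hw : A x * b ^ 2 + (2 * (x : ℤ) + 1) * b * k + (n:ℤ) * k ^ 2 = 1 := by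
        have h3 := hq1 x b k hxI
        have h4 : hq ((x:ℤ) * b + n * k, b) = n := by
          rw [← hk]; exact hz
        rw [h4] at h3
        have h5 : (n:ℤ) * (A x * b ^ 2 + (2 * (x : ℤ) + 1) * b * k + (n:ℤ) * k ^ 2) = n * 1 := by
          rw [← h3, mul_one]
        exact mul_left_cancel₀ hnz h5
      refine ⟨⟨⟨x, hxI⟩, ⟨(b, k), hw⟩⟩, ?_⟩
      apply Subtype.ext
      simp only [Φ, Prod.mk.injEq]
      exact ⟨hk.symm, trivial⟩
  have hfin : ∀ x : I, Finite (Fb x) := by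
    intro x
    apply Nat.finite_of_card_ne_zero
    rw [hcard]
    norm_num
  rw [← Nat.card_congr (Equiv.ofBijective Φ hΦ), Nat.card_sigma]
  rw [Finset.sum_congr rfl (fun x _ => hcard x)]
  rw [Finset.sum_const, Finset.card_univ, Fintype.card_coe, smul_eq_mul, mul_comm]
  rfl

end Pool.Agent.Helper88.SE
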