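import Pool.Agent.Helper88.SE3.Defs

set_option autoImplicit false

open MeasureTheory Set Filter Topology
open scoped ENNReal

namespace Pool.Agent.Helper88.SE



theorem rep_finite (m : ℕ) (Q : ℤ × ℤ → Prop) : Finite {z : ℤ × ℤ // hq z = (m : ℤ) ∧ Q z} := by
  have h : Set.Finite {z : ℤ × ℤ | hq z = (m : ℤ) ∧ Q z} := by
    refine Set.Finite.subset (Set.Finite.prod (Set.finite_Icc (-(2 * (m : ℤ))) (2 * (m : ℤ)))
      (Set.finite_Icc (-(2 * (m : ℤ))) (2 * (m : ℤ)))) ?_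
    rintro ⟨a, b⟩ ⟨h1, -⟩
    simp only [hq] at h1
    have hb : b ^ 2 ≤ 2 * (m : ℤ) := by nlinarith [sq_nonneg (2 * a + b), sq_nonneg b]
    have ha : a ^ 2 ≤ 2 * (m : ℤ) := by nlinarith [sq_nonneg (2 * b + a), sq_nonneg a]
    have hb1 : |b| ≤ b ^ 2 := by
      rcases eq_or_ne b 0 with h0 | h0
      · simp [h0]
      · have : 1 ≤ |b| := Int.one_le_abs h0
        rw [← sq_abs]; nlinarith
    have ha1 : |a| ≤ a ^ 2 := by
      rcases eq_or_ne a 0 with h0 | h0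
      · simp [h0]
      · have : 1 ≤ |a| := Int.one_le_abs h0
        rw [← sq_abs]; nlinarith
    have hb2 := abs_le.1 (hb1.trans hb)
    have ha2 := abs_le.1 (ha1.trans ha)
    exact ⟨⟨ha2.1, ha2.2⟩, ⟨hb2.1, hb2.2⟩⟩
  exact h.to_subtype

theorem hq_mul (d : ℤ) (a b : ℤ) : hq (d * a, d * b) = d ^ 2 * hq (a, b) := by
  simp only [hq]; ring

theorem rep_sum (n : ℕ) (hn : 1 ≤ n) :
    Nat.card {z : ℤ × ℤ // hq z = n} =
      ∑ d ∈ (Finset.Icc 1 n).filter (fun d => d ^ 2 ∣ n),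
        Nat.card {z : ℤ × ℤ // hq z = ((n / d ^ 2 : ℕ) : ℤ) ∧ IsCoprime z.1 z.2} := by
  classical
  set D := (Finset.Icc 1 n).filter (fun d => d ^ 2 ∣ n) with hD
  rw [← Finset.sum_coe_sort D (fun d => Nat.card {z : ℤ × ℤ // hq z = ((n / d ^ 2 : ℕ) : ℤ) ∧ IsCoprime z.1 z.2})]
  haveI : ∀ d : D, Finite {z : ℤ × ℤ // hq z = ((n / (d : ℕ) ^ 2 : ℕ) : ℤ) ∧ IsCoprime z.1 z.2} :=
    fun d => rep_finite _ _
  rw [← Nat.card_sigma]
  symm
  let f : (Σ d : D, {z : ℤ × ℤ // hq z = ((n / (d : ℕ) ^ 2 : ℕ) : ℤ) ∧ IsCoprime z.1 z.2}) →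
      {z : ℤ × ℤ // hq z = n} := fun p =>
    ⟨(((p.1 : ℕ) : ℤ) * p.2.1.1, ((p.1 : ℕ) : ℤ) * p.2.1.2), by
      have h1 := p.2.2.1
      have h2 := (Finset.mem_filter.1 p.1.2).2
      rw [hq_mul]
      have h3 : hq (p.2.1.1, p.2.1.2) = ((n / (p.1 : ℕ) ^ 2 : ℕ) : ℤ) := h1
      rw [h3]
      exact_mod_cast Nat.mul_div_cancel' h2⟩
  refine Nat.card_eq_of_bijective f ⟨?_, ?_⟩
  · rintro ⟨⟨d, hd⟩, ⟨⟨a, b⟩, h1, h2⟩⟩ ⟨⟨d', hd'⟩, ⟨⟨a', b'⟩, h1', h2'⟩⟩ heq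
    have e0 := congrArg Subtype.val heq
    simp only [f, Prod.mk.injEq] at e0
    obtain ⟨e1, e2⟩ := e0
    have hdp : 0 < d := (Finset.mem_Icc.1 (Finset.mem_filter.1 hd).1).1
    have g1 : Int.gcd ((d : ℤ) * a) ((d : ℤ) * b) = d := by
      rw [Int.gcd_mul_left, Int.isCoprime_iff_gcd_eq_one.1 h2]; simp
    have g2 : Int.gcd ((d' : ℤ) * a') ((d' : ℤ) * b') = d' := by
      rw [Int.gcd_mul_left, Int.isCoprime_iff_gcd_eq_one.1 h2']; simp
    have hdd : d = d' := by rw [← g1, ← g2, e1, e2]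
    subst hdd
    have hd0 : (d : ℤ) ≠ 0 := by exact_mod_cast hdp.ne'
    have ea : a = a' := mul_left_cancel₀ hd0 e1
    have eb : b = b' := mul_left_cancel₀ hd0 e2
    subst ea; subst eb
    rfl
  · rintro ⟨⟨x, y⟩, hz⟩
    have hg : 0 < Int.gcd x y := by
      rw [Nat.pos_iff_ne_zero]
      intro h0
      rw [Int.gcd_eq_zero_iff] at h0
      rw [h0.1, h0.2] at hz
      simp only [hq] at hz
      have : (n : ℤ) = 0 := by rw [← hz]; ring
      have : n = 0 := by exact_mod_cast this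
      omega
    obtain ⟨a, b, hab, hx, hy⟩ := Int.exists_gcd_one hg
    set g := Int.gcd x y with hgdef
    have hz2 : (g : ℤ) ^ 2 * hq (a, b) = n := by
      rw [← hq_mul, ← hz, hx, hy]
      simp only [hq]; ring
    have hdvd : g ^ 2 ∣ n := by
      have : ((g ^ 2 : ℕ) : ℤ) ∣ (n : ℤ) := ⟨hq (a, b), by push_cast; exact hz2.symm⟩
      exact_mod_cast this
    have hgn : g ≤ n := by
      have h1 : g ^ 2 ≤ n := Nat.le_of_dvd hn hdvd
      nlinarith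
    have hgD : g ∈ D := Finset.mem_filter.2 ⟨Finset.mem_Icc.2 ⟨hg, hgn⟩, hdvd⟩
    have hval : hq (a, b) = ((n / g ^ 2 : ℕ) : ℤ) := by
      have hg0 : ((g : ℤ) ^ 2) ≠ 0 := by
        have : (g : ℤ) ≠ 0 := by exact_mod_cast hg.ne'
        positivity
      refine mul_left_cancel₀ hg0 ?_
      rw [hz2]
      exact_mod_cast (Nat.mul_div_cancel' hdvd).symm
    refine ⟨⟨⟨g, hgD⟩, ⟨(a, b), hval, Int.isCoprime_iff_gcd_eq_one.2 hab⟩⟩, ?_⟩
    apply Subtype.ext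
    simp only [f, Prod.mk.injEq]
    constructor
    · rw [mul_comm]; exact hx.symm
    · rw [mul_comm]; exact hy.symm

end Pool.Agent.Helper88.SE
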