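import Pool.Agent.Helper88.SE3.Defs
import Pool.Agent.Helper88.SE3.P_prim_rep
import Pool.Agent.Helper88.SE3.P_rep_sum
import Pool.Agent.Helper88.SE3.P_div_sum

set_option autoImplicit false

open MeasureTheory Set Filter Topology
open scoped ENNReal

namespace Pool.Agent.Helper88.SE



theorem rep_form (n : ℕ) (hn : 1 ≤ n) :
    Finite {z : ℤ × ℤ // hq z = n} ∧
    ((Nat.card {z : ℤ × ℤ // hq z = n} : ℕ) : ℤ) = 6 * ∑ d ∈ n.divisors, chi d := by
  constructor
  · have hfin : {z : ℤ × ℤ | hq z = n}.Finite := by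
      apply Set.Finite.subset
        (Finset.finite_toSet (Finset.Icc (-(2 * (n : ℤ))) (2 * n) ×ˢ
          Finset.Icc (-(2 * (n : ℤ))) (2 * n)))
      rintro ⟨a, b⟩ h
      have h' : a ^ 2 + a * b + b ^ 2 = n := h
      have hn' : (1 : ℤ) ≤ n := by exact_mod_cast hn
      have hb : b ^ 2 ≤ (2 * (n : ℤ)) ^ 2 := by nlinarith [sq_nonneg (2 * a + b)]
      have ha : a ^ 2 ≤ (2 * (n : ℤ)) ^ 2 := by nlinarith [sq_nonneg (a + 2 * b)]
      have hb1 := abs_le_of_sq_le_sq' hb (by positivity)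
      have ha1 := abs_le_of_sq_le_sq' ha (by positivity)
      simp only [Finset.coe_product, Finset.coe_Icc, Set.mem_prod, Set.mem_Icc]
      exact ⟨ha1, hb1⟩
    exact hfin.to_subtype
  · rw [rep_sum n hn, ← div_sum n hn]
    have h : ∀ d ∈ (Finset.Icc 1 n).filter (fun d => d ^ 2 ∣ n),
        Nat.card {z : ℤ × ℤ // hq z = ((n / d ^ 2 : ℕ) : ℤ) ∧ IsCoprime z.1 z.2} =
          6 * rho (n / d ^ 2) := by
      intro d hd
      rw [Finset.mem_filter, Finset.mem_Icc] at hd
      apply prim_rep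
      exact Nat.div_pos (Nat.le_of_dvd (by omega) hd.2) (by have := hd.1.1; positivity)
    rw [Finset.sum_congr rfl h, ← Finset.mul_sum]
    push_cast
    rfl

end Pool.Agent.Helper88.SE
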