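import Pool.Agent.Helper88.SE3.Defs
import Pool.Agent.Helper88.SE3.P_ht_summable
import Pool.Agent.Helper88.SE3.P_rep_form

set_option autoImplicit false

open MeasureTheory Set Filter Topology
open scoped ENNReal

namespace Pool.Agent.Helper88.SE



/-- the radial term -/
noncomputable def Fn (s mu : ℝ) (n : ℕ) : ℝ :=
  (n : ℝ) ^ (-(s / 2)) * Real.exp (-(mu * Real.sqrt (n : ℝ)))

theorem Fn_zero (s mu : ℝ) (hs : 0 < s) : Fn s mu 0 = 0 := by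
  unfold Fn
  rw [Nat.cast_zero, Real.zero_rpow (by linarith), zero_mul]

theorem hq_nonneg (z : ℤ × ℤ) : 0 ≤ hq z := by
  unfold hq
  nlinarith [sq_nonneg (2 * z.1 + z.2), sq_nonneg z.2]

theorem ht_eq (s mu : ℝ) (hs : 0 < s) (z : ℤ × ℤ) : ht s mu z = Fn s mu (hq z).toNat := by
  unfold ht
  split_ifs with h
  · subst h
    have : (hq 0).toNat = 0 := by unfold hq; simp
    rw [this, Fn_zero s mu hs]
  · unfold Fn
    have h1 : (((hq z).toNat : ℕ) : ℝ) = ((hq z : ℤ) : ℝ) := by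
      have := Int.toNat_of_nonneg (hq_nonneg z)
      exact_mod_cast this
    have h2 : (0 : ℝ) ≤ ((hq z : ℤ) : ℝ) := by exact_mod_cast hq_nonneg z
    rw [h1]
    congr 1
    rw [Real.sqrt_eq_rpow, ← Real.rpow_mul h2]
    congr 1
    ring

theorem exp_summable (c : ℝ) (hc : 0 < c) :
    Summable (fun n : ℕ+ => Real.exp (-(c * Real.sqrt ((n : ℕ) : ℝ)))) := by
  have h0 : Summable (fun n : ℕ => (24 / c ^ 4) * (1 / (n : ℝ) ^ 2)) :=
    (Real.summable_one_div_nat_pow.2 (by norm_num)).mul_left _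
  have h1 : Summable (fun n : ℕ+ => (24 / c ^ 4) * (1 / ((n : ℕ) : ℝ) ^ 2)) :=
    h0.comp_injective PNat.coe_injective
  refine Summable.of_nonneg_of_le (fun n => (Real.exp_pos _).le) (fun n => ?_) h1
  have hn : (0 : ℝ) < ((n : ℕ) : ℝ) := by exact_mod_cast n.pos
  have hx : 0 ≤ c * Real.sqrt ((n : ℕ) : ℝ) := by positivity
  have h2 := Real.pow_div_factorial_le_exp _ hx 4
  have h3 : (c * Real.sqrt ((n : ℕ) : ℝ)) ^ 4 = c ^ 4 * ((n : ℕ) : ℝ) ^ 2 := by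
    have : Real.sqrt ((n : ℕ) : ℝ) ^ 4 = ((n : ℕ) : ℝ) ^ 2 := by
      rw [show (4 : ℕ) = 2 * 2 by norm_num, pow_mul, Real.sq_sqrt hn.le]
    rw [mul_pow, this]
  rw [h3] at h2
  have h4 : ((Nat.factorial 4 : ℕ) : ℝ) = 24 := by norm_num [Nat.factorial]
  rw [h4] at h2
  rw [Real.exp_neg]
  have h5 : 0 < c ^ 4 * ((n : ℕ) : ℝ) ^ 2 / 24 := by positivity
  calc (Real.exp (c * Real.sqrt ((n : ℕ) : ℝ)))⁻¹ ≤ (c ^ 4 * ((n : ℕ) : ℝ) ^ 2 / 24)⁻¹ :=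
        inv_anti₀ h5 h2
    _ = (24 / c ^ 4) * (1 / ((n : ℕ) : ℝ) ^ 2) := by field_simp

theorem rp_le (s : ℝ) (hs : 0 < s) (n : ℕ+) : (((n : ℕ) : ℝ)) ^ (-(s / 2)) ≤ 1 :=
  Real.rpow_le_one_of_one_le_of_nonpos (by exact_mod_cast n.one_le) (by linarith)

theorem GG_hasSum (s t : ℝ) (hs : 0 < s) (ht0 : 0 < t) :
    HasSum (fun m : ℕ+ => (((m : ℕ) : ℝ)) ^ (-(s / 2)) * Real.exp (-(t * Real.sqrt ((m : ℕ) : ℝ))))
      (GG s t) := by
  have h1 : Summable (fun m : ℕ+ => (((m : ℕ) : ℝ)) ^ (-(s / 2)) *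
      Real.exp (-(t * Real.sqrt ((m : ℕ) : ℝ)))) := by
    refine Summable.of_nonneg_of_le (fun n => by positivity) (fun n => ?_) (exp_summable t ht0)
    calc _ ≤ 1 * Real.exp (-(t * Real.sqrt ((n : ℕ) : ℝ))) :=
          mul_le_mul_of_nonneg_right (rp_le s hs n) (Real.exp_pos _).le
      _ = _ := one_mul _
  have h2 := h1.hasSum
  have h3 := (Equiv.pnatEquivNat.symm.hasSum_iff).2 h2
  have h4 : ((fun m : ℕ+ => (((m : ℕ) : ℝ)) ^ (-(s / 2)) *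
      Real.exp (-(t * Real.sqrt ((m : ℕ) : ℝ)))) ∘ Equiv.pnatEquivNat.symm)
      = fun m : ℕ => ((m : ℝ) + 1) ^ (-(s / 2)) * Real.exp (-(t * Real.sqrt ((m : ℝ) + 1))) := by
    funext m
    simp
  rw [h4] at h3
  have h5 : GG s t = _ := h3.tsum_eq
  rw [h5]
  exact h2

theorem Fn_mul (s mu : ℝ) (d m : ℕ) :
    Fn s mu (d * m) = (d : ℝ) ^ (-(s / 2)) * ((m : ℝ) ^ (-(s / 2)) *
      Real.exp (-((mu * Real.sqrt (d : ℝ)) * Real.sqrt (m : ℝ)))) := by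
  unfold Fn
  rw [Nat.cast_mul, Real.mul_rpow (Nat.cast_nonneg _) (Nat.cast_nonneg _),
    Real.sqrt_mul (Nat.cast_nonneg _), mul_assoc, mul_assoc]

theorem dbl_summable (s mu : ℝ) (hs : 0 < s) (hmu : 0 < mu) :
    Summable (fun p : ℕ+ × ℕ+ => Fn s mu ((p.1 : ℕ) * (p.2 : ℕ))) := by
  have h1 := exp_summable (mu / 2) (by positivity)
  have h2 := Summable.mul_of_nonneg h1 h1 (fun n => (Real.exp_pos _).le) (fun n => (Real.exp_pos _).le)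
  refine Summable.of_nonneg_of_le (fun p => by unfold Fn; positivity) (fun p => ?_) h2
  rw [Fn_mul]
  have ha : (1 : ℝ) ≤ Real.sqrt ((p.1 : ℕ) : ℝ) := by
    rw [Real.one_le_sqrt]; exact_mod_cast p.1.one_le
  have hb : (1 : ℝ) ≤ Real.sqrt ((p.2 : ℕ) : ℝ) := by
    rw [Real.one_le_sqrt]; exact_mod_cast p.2.one_le
  have hexp : Real.exp (-((mu * Real.sqrt ((p.1 : ℕ) : ℝ)) * Real.sqrt ((p.2 : ℕ) : ℝ))) ≤
      Real.exp (-(mu / 2 * Real.sqrt ((p.1 : ℕ) : ℝ))) *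
        Real.exp (-(mu / 2 * Real.sqrt ((p.2 : ℕ) : ℝ))) := by
    rw [← Real.exp_add, Real.exp_le_exp]
    have h5 : 0 ≤ 2 * (Real.sqrt ((p.1 : ℕ) : ℝ) * Real.sqrt ((p.2 : ℕ) : ℝ))
        - Real.sqrt ((p.1 : ℕ) : ℝ) - Real.sqrt ((p.2 : ℕ) : ℝ) := by nlinarith
    nlinarith [mul_nonneg hmu.le h5]
  have e1 := rp_le s hs p.1
  have e2 := rp_le s hs p.2
  have e3 : 0 ≤ (((p.1 : ℕ) : ℝ)) ^ (-(s / 2)) := by positivity
  have e4 : 0 ≤ (((p.2 : ℕ) : ℝ)) ^ (-(s / 2)) := by positivity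
  calc _ ≤ 1 * (1 * Real.exp (-((mu * Real.sqrt ((p.1 : ℕ) : ℝ)) * Real.sqrt ((p.2 : ℕ) : ℝ)))) := by
        apply mul_le_mul e1 _ (by positivity) zero_le_one
        exact mul_le_mul_of_nonneg_right e2 (Real.exp_pos _).le
    _ ≤ _ := by rw [one_mul, one_mul]; exact hexp

theorem chi_abs (n : ℕ) : |((chi n : ℤ) : ℝ)| ≤ 1 := by
  unfold chi
  split_ifs <;> simp

theorem chi_dbl (s mu : ℝ) (hs : 0 < s) (hmu : 0 < mu) :
    Summable (fun p : ℕ+ × ℕ+ => ((chi (p.1 : ℕ) : ℤ) : ℝ) * Fn s mu ((p.1 : ℕ) * (p.2 : ℕ))) := by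
  refine Summable.of_norm_bounded (dbl_summable s mu hs hmu) fun p => ?_
  have h0 : 0 ≤ Fn s mu ((p.1 : ℕ) * (p.2 : ℕ)) := by unfold Fn; positivity
  rw [norm_mul, Real.norm_eq_abs, Real.norm_eq_abs, abs_of_nonneg h0]
  calc _ ≤ 1 * Fn s mu ((p.1 : ℕ) * (p.2 : ℕ)) := mul_le_mul_of_nonneg_right (chi_abs _) h0
    _ = _ := one_mul _

theorem HS_hasSum (s mu : ℝ) (hs : 0 < s) (hmu : 0 < mu) :
    HasSum (fun n : ℕ => 6 * (((∑ d ∈ n.divisors, chi d : ℤ) : ℝ) * Fn s mu n)) (HS s mu) := by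
  have h1 : HasSum (ht s mu) (HS s mu) := (ht_summable s mu hs hmu).2.hasSum
  have h2 := ((Equiv.sigmaFiberEquiv (fun z : ℤ × ℤ => (hq z).toNat)).hasSum_iff).2 h1
  refine HasSum.sigma h2 ?_
  intro n
  rcases Nat.eq_zero_or_pos n with h0 | h0
  · subst h0
    have : (fun c : {z : ℤ × ℤ // (hq z).toNat = 0} => (ht s mu ∘
        (Equiv.sigmaFiberEquiv (fun z : ℤ × ℤ => (hq z).toNat))) ⟨0, c⟩) = fun _ => (0 : ℝ) := by
      funext c
      show ht s mu c.1 = 0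
      rw [ht_eq s mu hs, c.2, Fn_zero s mu hs]
    rw [this, Fn_zero s mu hs, mul_zero, mul_zero]
    exact hasSum_zero
  · obtain ⟨hfin, hcard⟩ := rep_form n h0
    have hiff : ∀ z : ℤ × ℤ, (hq z).toNat = n ↔ hq z = n := by
      intro z
      have := hq_nonneg z
      omega
    let e : {z : ℤ × ℤ // (hq z).toNat = n} ≃ {z : ℤ × ℤ // hq z = n} :=
      Equiv.subtypeEquivRight hiff
    haveI : Finite {z : ℤ × ℤ // (hq z).toNat = n} := Finite.of_equiv _ e.symm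
    haveI := Fintype.ofFinite {z : ℤ × ℤ // (hq z).toNat = n}
    have hfun : (fun c : {z : ℤ × ℤ // (hq z).toNat = n} => (ht s mu ∘
        (Equiv.sigmaFiberEquiv (fun z : ℤ × ℤ => (hq z).toNat))) ⟨n, c⟩) = fun _ => Fn s mu n := by
      funext c
      show ht s mu c.1 = _
      rw [ht_eq s mu hs, c.2]
    rw [hfun]
    have h3 := hasSum_fintype (fun _ : {z : ℤ × ℤ // (hq z).toNat = n} => Fn s mu n)
    have h4 : ∑ _c : {z : ℤ × ℤ // (hq z).toNat = n}, Fn s mu n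
        = 6 * (((∑ d ∈ n.divisors, chi d : ℤ) : ℝ) * Fn s mu n) := by
      rw [Finset.sum_const, Finset.card_univ, nsmul_eq_mul, ← Nat.card_eq_fintype_card,
        Nat.card_congr e, ← mul_assoc]
      congr 1
      exact_mod_cast hcard
    rw [h4] at h3
    exact h3

theorem HS_eq (s mu : ℝ) (hs : 0 < s) (hmu : 0 < mu) :
    HasSum (fun p : ℕ+ × ℕ+ => ((chi (p.1 : ℕ) : ℤ) : ℝ) * Fn s mu ((p.1 : ℕ) * (p.2 : ℕ)))
      (HS s mu / 6) := by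
  have h1 := (chi_dbl s mu hs hmu).hasSum
  set H := ∑' p : ℕ+ × ℕ+, ((chi (p.1 : ℕ) : ℤ) : ℝ) * Fn s mu ((p.1 : ℕ) * (p.2 : ℕ)) with hH
  have h2 := (sigmaAntidiagonalEquivProd.hasSum_iff).2 h1
  have h3 : HasSum (fun n : ℕ+ => ((∑ d ∈ (n : ℕ).divisors, chi d : ℤ) : ℝ) * Fn s mu (n : ℕ)) H := by
    refine HasSum.sigma h2 ?_
    intro n
    have h4 := hasSum_fintype (fun c : Nat.divisorsAntidiagonal (n : ℕ) =>
      ((fun p : ℕ+ × ℕ+ => ((chi (p.1 : ℕ) : ℤ) : ℝ) * Fn s mu ((p.1 : ℕ) * (p.2 : ℕ))) ∘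
        sigmaAntidiagonalEquivProd) ⟨n, c⟩)
    have h5 : ∑ c : Nat.divisorsAntidiagonal (n : ℕ),
      ((fun p : ℕ+ × ℕ+ => ((chi (p.1 : ℕ) : ℤ) : ℝ) * Fn s mu ((p.1 : ℕ) * (p.2 : ℕ))) ∘
        sigmaAntidiagonalEquivProd) ⟨n, c⟩
        = ((∑ d ∈ (n : ℕ).divisors, chi d : ℤ) : ℝ) * Fn s mu (n : ℕ) := by
      have h6 : ∀ c : Nat.divisorsAntidiagonal (n : ℕ),
        ((fun p : ℕ+ × ℕ+ => ((chi (p.1 : ℕ) : ℤ) : ℝ) * Fn s mu ((p.1 : ℕ) * (p.2 : ℕ))) ∘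
          sigmaAntidiagonalEquivProd) ⟨n, c⟩ = ((chi c.1.1 : ℤ) : ℝ) * Fn s mu (n : ℕ) := by
        intro c
        have hc := (Nat.mem_divisorsAntidiagonal.1 c.2).1
        show ((chi c.1.1 : ℤ) : ℝ) * Fn s mu (c.1.1 * c.1.2) = _
        rw [hc]
      rw [Finset.sum_congr rfl (fun c _ => h6 c), ← Finset.sum_mul]
      congr 1
      rw [Finset.univ_eq_attach, Finset.sum_attach _ (fun x : ℕ × ℕ => ((chi x.1 : ℤ) : ℝ)),
        Nat.sum_divisorsAntidiagonal (fun d _ => ((chi d : ℤ) : ℝ))]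
      push_cast
      rfl
    rw [h5] at h4
    exact h4
  have h7 := HS_hasSum s mu hs hmu
  have h8 : HasSum ((fun n : ℕ => 6 * (((∑ d ∈ n.divisors, chi d : ℤ) : ℝ) * Fn s mu n)) ∘
      (fun n : ℕ+ => (n : ℕ))) (HS s mu) := by
    rw [PNat.coe_injective.hasSum_iff]
    · exact h7
    · intro x hx
      have : x = 0 := by
        by_contra hne
        exact hx ⟨⟨x, Nat.pos_of_ne_zero hne⟩, rfl⟩
      subst this
      rw [Fn_zero s mu hs, mul_zero, mul_zero]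
  have h9 := h3.mul_left 6
  have h10 : HS s mu = 6 * H := h8.unique h9
  rw [h10]
  have : 6 * H / 6 = H := by ring
  rw [this]
  exact h1

theorem HS_pair (s mu : ℝ) (hs : 0 < s) (hmu : 0 < mu) :
    HasSum (fun k : ℕ => hh s mu (3 * k + 1) - hh s mu (3 * k + 2)) (HS s mu / 6) := by
  have h1 := HS_eq s mu hs hmu
  have h2 : HasSum (fun d : ℕ+ => ((chi (d : ℕ) : ℤ) : ℝ) * hh s mu ((d : ℕ) : ℝ)) (HS s mu / 6) := by
    refine HasSum.prod_fiberwise h1 ?_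
    intro d
    have hd : (0 : ℝ) < ((d : ℕ) : ℝ) := by exact_mod_cast d.pos
    have h3 := (GG_hasSum s (mu * Real.sqrt ((d : ℕ) : ℝ)) hs (by positivity)).mul_left
      ((((d : ℕ) : ℝ)) ^ (-(s / 2)))
    have h4 := h3.mul_left ((chi (d : ℕ) : ℤ) : ℝ)
    show HasSum (fun m : ℕ+ => ((chi (d : ℕ) : ℤ) : ℝ) * Fn s mu ((d : ℕ) * (m : ℕ)))
      (((chi (d : ℕ) : ℤ) : ℝ) * hh s mu ((d : ℕ) : ℝ))
    simp only [Fn_mul]
    exact h4
  have h3 := (Equiv.pnatEquivNat.symm.hasSum_iff).2 h2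
  have h4 := ((Nat.divModEquiv 3).symm.hasSum_iff).2 h3
  have h5 := HasSum.prod_fiberwise h4 (g := fun k : ℕ => hh s mu (3 * k + 1) - hh s mu (3 * k + 2)) ?_
  · exact h5
  · intro k
    have h6 := hasSum_fintype (fun r : Fin 3 => (((fun d : ℕ+ => ((chi (d : ℕ) : ℤ) : ℝ) *
      hh s mu ((d : ℕ) : ℝ)) ∘ Equiv.pnatEquivNat.symm) ∘ (Nat.divModEquiv 3).symm) (k, r))
    convert h6 using 1
    rw [Fin.sum_univ_three]
    have c1 : chi (k * 3 + 0 + 1) = 1 := by unfold chi; rw [if_pos (by omega)]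
    have c2 : chi (k * 3 + 1 + 1) = -1 := by
      unfold chi; rw [if_neg (by omega), if_pos (by omega)]
    have c3 : chi (k * 3 + 2 + 1) = 0 := by
      unfold chi; rw [if_neg (by omega), if_neg (by omega)]
    show _ = ((chi (k * 3 + 0 + 1) : ℤ) : ℝ) * hh s mu ((k * 3 + 0 + 1 : ℕ) : ℝ)
      + ((chi (k * 3 + 1 + 1) : ℤ) : ℝ) * hh s mu ((k * 3 + 1 + 1 : ℕ) : ℝ)
      + ((chi (k * 3 + 2 + 1) : ℤ) : ℝ) * hh s mu ((k * 3 + 2 + 1 : ℕ) : ℝ)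
    rw [c1, c2, c3]
    have d1 : ((k * 3 + 0 + 1 : ℕ) : ℝ) = 3 * k + 1 := by push_cast; ring
    have d2 : ((k * 3 + 1 + 1 : ℕ) : ℝ) = 3 * k + 2 := by push_cast; ring
    rw [d1, d2]
    push_cast
    ring

end Pool.Agent.Helper88.SE
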