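import Pool.Agent.Helper88.SE3.Defs
import Pool.Agent.Helper88.SE3.P_HS_pair
import Pool.Agent.Helper88.SE3.P_L1_val
import Pool.Agent.Helper88.SE3.P_E1_diff

set_option autoImplicit false

open MeasureTheory Set Filter Topology
open scoped ENNReal

namespace Pool.Agent.Helper88.SE



theorem HS1_lim (z l : ℝ)
    (hz : Tendsto (fun t : ℝ => GG 1 t - 2 / t) (𝓝[>] 0) (𝓝 z))
    (hl : HasSum (fun k : ℕ => (3 * (k : ℝ) + 1) ^ (-(1 / 2) : ℝ) -
      (3 * (k : ℝ) + 2) ^ (-(1 / 2) : ℝ)) l) :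
    Tendsto (fun mu : ℝ => HS 1 mu - 4 * Real.pi / Real.sqrt 3 / mu) (𝓝[>] 0)
      (𝓝 (6 * z * l)) := by
  obtain ⟨e, he⟩ : ∃ e : ℝ → ℝ, e = fun t => GG 1 t - 2 / t - z := ⟨_, rfl⟩
  have hlim : ∀ t : ℝ, Tendsto (fun s : ℝ => (GG 1 t - 2 / t) - (GG 1 s - 2 / s)) (𝓝[>] 0)
      (𝓝 ((GG 1 t - 2 / t) - z)) := fun t => tendsto_const_nhds.sub hz
  have hev : ∀ t : ℝ, 0 < t → ∀ᶠ s in 𝓝[>] (0:ℝ), 0 < s ∧ s ≤ t := by
    intro t ht
    filter_upwards [Ioc_mem_nhdsGT ht] with s hs using hs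
  have E0 : ∀ t, 0 < t → 0 ≤ e t := by
    intro t ht
    rw [he]
    exact ge_of_tendsto (hlim t) ((hev t ht).mono fun s hs => (E1_diff s t hs.1 hs.2).1)
  have E1 : ∀ t, 0 < t → e t ≤ t := by
    intro t ht
    rw [he]
    exact le_of_tendsto (hlim t) ((hev t ht).mono fun s hs =>
      ((E1_diff s t hs.1 hs.2).2.trans (min_le_left _ _)).trans (by linarith [hs.1]))
  have E3 : ∀ t t', 0 < t → t ≤ t' → 0 ≤ e t' - e t ∧
      e t' - e t ≤ min (t' - t) (2 / t - 2 / t') := by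
    intro t t' ht htt
    have h := E1_diff t t' ht htt
    have h2 : e t' - e t = (GG 1 t' - 2 / t') - (GG 1 t - 2 / t) := by simp only [he]; ring
    rw [h2]
    exact h
  have E2 : ∀ t, 0 < t → e t ≤ 3 := by
    intro t ht
    rcases le_total t 1 with h | h
    · linarith [E1 t ht]
    · have h2 := (E3 1 t one_pos h).2.trans (min_le_right _ _)
      have h3 := E1 1 one_pos
      have h4 : 0 < 2 / t := by positivity
      linarith
  have hhe : ∀ mu x : ℝ, 0 < mu → 0 < x → hh 1 mu x =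
      2 / mu * (1 / x) + z * x ^ (-(1 / 2) : ℝ) + x ^ (-(1 / 2) : ℝ) * e (mu * Real.sqrt x) := by
    intro mu x hmu hx
    have hs : 0 < Real.sqrt x := Real.sqrt_pos.2 hx
    have hxx : Real.sqrt x * Real.sqrt x = x := Real.mul_self_sqrt hx.le
    have hp : x ^ (-(1 / 2) : ℝ) = (Real.sqrt x)⁻¹ := by
      rw [Real.rpow_neg hx.le, ← Real.sqrt_eq_rpow]
    have h1 : hh 1 mu x = x ^ (-(1 / 2) : ℝ) * GG 1 (mu * Real.sqrt x) := rfl
    have h2 : GG 1 (mu * Real.sqrt x) = 2 / (mu * Real.sqrt x) + z + e (mu * Real.sqrt x) := by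
      simp only [he]; ring
    have h3 : (Real.sqrt x)⁻¹ * (2 / (mu * Real.sqrt x)) =
        2 / mu * (1 / (Real.sqrt x * Real.sqrt x)) := by
      field_simp
    rw [hxx] at h3
    rw [h1, h2, hp]
    linear_combination h3
  obtain ⟨r, hr⟩ : ∃ r : ℝ → ℕ → ℝ, r = fun (mu : ℝ) (k : ℕ) =>
      (3 * (k : ℝ) + 1) ^ (-(1 / 2) : ℝ) * e (mu * Real.sqrt (3 * (k : ℝ) + 1)) -
      (3 * (k : ℝ) + 2) ^ (-(1 / 2) : ℝ) * e (mu * Real.sqrt (3 * (k : ℝ) + 2)) := ⟨_, rfl⟩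
  have hsum : ∀ mu : ℝ, 0 < mu → HasSum (r mu)
      (HS 1 mu / 6 - 2 / mu * (Real.pi / (3 * Real.sqrt 3)) - z * l) := by
    intro mu hmu
    have h1 := HS_pair 1 mu one_pos hmu
    have h2 := L1_val.mul_left (2 / mu)
    have h3 := hl.mul_left z
    have h4 := (h1.sub h2).sub h3
    have hfun : r mu = fun k : ℕ =>
        hh 1 mu (3 * (k : ℝ) + 1) - hh 1 mu (3 * (k : ℝ) + 2) -
          2 / mu * (1 / (3 * (k : ℝ) + 1) - 1 / (3 * (k : ℝ) + 2)) -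
          z * ((3 * (k : ℝ) + 1) ^ (-(1 / 2) : ℝ) - (3 * (k : ℝ) + 2) ^ (-(1 / 2) : ℝ)) := by
      funext k
      rw [hhe mu (3 * (k : ℝ) + 1) hmu (by positivity),
        hhe mu (3 * (k : ℝ) + 2) hmu (by positivity)]
      simp only [hr]
      ring
    rw [hfun]
    exact h4
  have hb : ∀ mu : ℝ, 0 < mu → ∀ k : ℕ, ‖r mu k‖ ≤ ((k : ℝ) + 1) ^ (-(3 / 2) : ℝ) +
      3 * ((3 * (k : ℝ) + 1) ^ (-(1 / 2) : ℝ) - (3 * (k : ℝ) + 2) ^ (-(1 / 2) : ℝ)) := by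
    intro mu hmu k
    have hk : (0 : ℝ) ≤ k := Nat.cast_nonneg k
    have hrk : r mu k = (3 * (k : ℝ) + 1) ^ (-(1 / 2) : ℝ) * e (mu * Real.sqrt (3 * (k : ℝ) + 1)) -
      (3 * (k : ℝ) + 2) ^ (-(1 / 2) : ℝ) * e (mu * Real.sqrt (3 * (k : ℝ) + 2)) := by rw [hr]
    rw [hrk]
    have hx2 : 3 * (k : ℝ) + 2 = (3 * (k : ℝ) + 1) + 1 := by ring
    rw [hx2]
    have hkx : (k : ℝ) + 1 ≤ 3 * (k : ℝ) + 1 := by linarith
    have hx1 : (1:ℝ) ≤ 3 * (k : ℝ) + 1 := by linarith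
    generalize 3 * (k : ℝ) + 1 = x at hkx hx1 ⊢
    obtain ⟨a, ha⟩ : ∃ a, a = Real.sqrt x := ⟨_, rfl⟩
    obtain ⟨b, hb⟩ : ∃ b, b = Real.sqrt (x + 1) := ⟨_, rfl⟩
    have haa : a * a = x := by rw [ha]; exact Real.mul_self_sqrt (by linarith)
    have hbb : b * b = x + 1 := by rw [hb]; exact Real.mul_self_sqrt (by linarith)
    have ha0 : 0 < a := by rw [ha]; exact Real.sqrt_pos.2 (by linarith)
    have hab : a ≤ b := by rw [ha, hb]; exact Real.sqrt_le_sqrt (by linarith)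
    have hb0 : 0 < b := by linarith
    have hpa : x ^ (-(1 / 2) : ℝ) = a⁻¹ := by
      rw [Real.rpow_neg (by linarith), ← Real.sqrt_eq_rpow, ha]
    have hpb : (x + 1) ^ (-(1 / 2) : ℝ) = b⁻¹ := by
      rw [Real.rpow_neg (by linarith), ← Real.sqrt_eq_rpow, hb]
    rw [hpa, hpb, ← ha, ← hb]
    have h3 := E3 (mu * a) (mu * b) (by positivity) (mul_le_mul_of_nonneg_left hab hmu.le)
    have hpos : 0 < (a * a)⁻¹ := by positivity
    have hmin : min (mu * b - mu * a) (2 / (mu * a) - 2 / (mu * b)) ≤ (a * a)⁻¹ := by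
      have hd : b - a ≤ (2 * a)⁻¹ := by
        rw [← one_div, le_div_iff₀ (by positivity)]
        nlinarith
      have huv : (mu * b - mu * a) * (2 / (mu * a) - 2 / (mu * b)) ≤ (a * a)⁻¹ * (a * a)⁻¹ := by
        have e1 : (mu * b - mu * a) * (2 / (mu * a) - 2 / (mu * b)) =
            2 * (b - a) ^ 2 * (a * b)⁻¹ := by
          field_simp
        rw [e1]
        have e2 : (b - a) ^ 2 ≤ ((2 * a)⁻¹) ^ 2 := pow_le_pow_left₀ (by linarith) hd 2
        have e3 : (a * b)⁻¹ ≤ (a * a)⁻¹ := inv_anti₀ (by positivity) (by nlinarith)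
        calc 2 * (b - a) ^ 2 * (a * b)⁻¹ ≤ 2 * ((2 * a)⁻¹) ^ 2 * (a * a)⁻¹ := by gcongr
          _ = (1 / 2) * ((a * a)⁻¹ * (a * a)⁻¹) := by field_simp <;> ring
          _ ≤ _ := by nlinarith [mul_pos hpos hpos]
      by_contra hcon
      push Not at hcon
      have h5 := lt_min_iff.1 hcon
      have := mul_lt_mul'' h5.1 h5.2 hpos.le hpos.le
      linarith
    have h4 := h3.2.trans hmin
    have h5 := E0 (mu * b) (by positivity)
    have h6 := E2 (mu * b) (by positivity)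
    have h7 : 0 ≤ a⁻¹ - b⁻¹ := by
      have := inv_anti₀ ha0 hab
      linarith
    have h8 : a⁻¹ * (a * a)⁻¹ ≤ ((k : ℝ) + 1) ^ (-(3 / 2) : ℝ) := by
      have h9 : x ^ (-(3 / 2) : ℝ) = a⁻¹ * (a * a)⁻¹ := by
        rw [show (-(3 / 2) : ℝ) = -(1 / 2) + (-1) by norm_num,
          Real.rpow_add (by linarith), hpa, Real.rpow_neg_one, haa]
      rw [← h9]
      exact Real.rpow_le_rpow_of_nonpos (by positivity) hkx (by norm_num)
    have h10 : a⁻¹ * (e (mu * b) - e (mu * a)) ≤ a⁻¹ * (a * a)⁻¹ :=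
      mul_le_mul_of_nonneg_left h4 (by positivity)
    have h11 : 0 ≤ a⁻¹ * (e (mu * b) - e (mu * a)) := mul_nonneg (by positivity) h3.1
    have h12 : (a⁻¹ - b⁻¹) * e (mu * b) ≤ (a⁻¹ - b⁻¹) * 3 := mul_le_mul_of_nonneg_left h6 h7
    have h13 : 0 ≤ (a⁻¹ - b⁻¹) * e (mu * b) := mul_nonneg h7 h5
    have h14 : a⁻¹ * e (mu * a) - b⁻¹ * e (mu * b) =
        -(a⁻¹ * (e (mu * b) - e (mu * a))) + (a⁻¹ - b⁻¹) * e (mu * b) := by ring
    rw [h14, Real.norm_eq_abs, abs_le]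
    constructor <;> nlinarith
  have hsb : Summable (fun k : ℕ => ((k : ℝ) + 1) ^ (-(3 / 2) : ℝ) +
      3 * ((3 * (k : ℝ) + 1) ^ (-(1 / 2) : ℝ) - (3 * (k : ℝ) + 2) ^ (-(1 / 2) : ℝ))) := by
    refine Summable.add ?_ (hl.summable.mul_left 3)
    have h1 : Summable (fun n : ℕ => (n : ℝ) ^ (-(3 / 2) : ℝ)) :=
      Real.summable_nat_rpow.2 (by norm_num)
    have h2 := (summable_nat_add_iff 1).2 h1
    refine h2.congr fun k => ?_
    push_cast
    rfl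
  have he0 : Tendsto e (𝓝[>] 0) (𝓝 0) := by
    have := hz.sub_const z
    rw [sub_self] at this
    rw [he]; exact this
  have hr0 : ∀ k, Tendsto (fun mu => r mu k) (𝓝[>] 0) (𝓝 0) := by
    intro k
    have hc : ∀ c : ℝ, 0 < c → Tendsto (fun mu : ℝ => e (mu * c)) (𝓝[>] 0) (𝓝 0) := by
      intro c hc
      refine he0.comp ?_
      rw [tendsto_nhdsWithin_iff]
      constructor
      · have : Tendsto (fun mu : ℝ => mu * c) (𝓝 0) (𝓝 (0 * c)) := tendsto_id.mul_const c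
        rw [zero_mul] at this
        exact this.mono_left nhdsWithin_le_nhds
      · filter_upwards [self_mem_nhdsWithin] with mu hmu
        exact mul_pos hmu hc
    have h1 := (hc (Real.sqrt (3 * (k : ℝ) + 1)) (by positivity)).const_mul
      ((3 * (k : ℝ) + 1) ^ (-(1 / 2) : ℝ))
    have h2 := (hc (Real.sqrt (3 * (k : ℝ) + 2)) (by positivity)).const_mul
      ((3 * (k : ℝ) + 2) ^ (-(1 / 2) : ℝ))
    have h3 := h1.sub h2
    simp only [mul_zero, sub_zero] at h3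
    rw [hr]; exact h3
  have hT : Tendsto (fun mu => ∑' k, r mu k) (𝓝[>] 0) (𝓝 (∑' _k : ℕ, (0:ℝ))) :=
    tendsto_tsum_of_dominated_convergence hsb hr0
      (by filter_upwards [self_mem_nhdsWithin] with mu hmu using hb mu hmu)
  rw [tsum_zero] at hT
  have hT2 := (hT.const_mul 6).add_const (6 * z * l)
  rw [mul_zero, zero_add] at hT2
  refine hT2.congr' ?_
  filter_upwards [self_mem_nhdsWithin] with mu hmu
  have hmu0 : (0:ℝ) < mu := hmu
  rw [(hsum mu hmu0).tsum_eq]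
  have h3 : Real.sqrt 3 ≠ 0 := by positivity
  field_simp
  ring

end Pool.Agent.Helper88.SE
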