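import Pool.Agent.Helper88.SE3.Defs
import Pool.Agent.Helper88.SE3.P_HS_pair
import Pool.Agent.Helper88.SE3.P_L1_val
import Pool.Agent.Helper88.SE3.P_D_summable
import Pool.Agent.Helper88.SE3.P_E2_diff
import Pool.Agent.Helper88.SE3.P_E2_lim

set_option autoImplicit false

open MeasureTheory Set Filter Topology
open scoped ENNReal

namespace Pool.Agent.Helper88.SE



/-- error term -/
noncomputable def ee (t : ℝ) : ℝ := GG 2 t + 2 * Real.log t + Real.eulerMascheroniConstant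

theorem ee_lim : Tendsto ee (𝓝[>] 0) (𝓝 0) := by
  have h := E2_lim.add_const Real.eulerMascheroniConstant
  rw [neg_add_cancel] at h
  exact h

theorem ee_diff (t t' : ℝ) (ht : 0 < t) (htt : t ≤ t') :
    0 ≤ ee t' - ee t ∧ ee t' - ee t ≤ 2 * (t' - t) := by
  have h := E2_diff t t' ht htt
  unfold ee
  constructor <;> linarith [h.1, h.2]

theorem ee_nonneg (t : ℝ) (ht : 0 < t) : 0 ≤ ee t := by
  refine le_of_tendsto ee_lim ?_
  have : Set.Ioo (0:ℝ) t ∈ 𝓝[>] (0:ℝ) := Ioo_mem_nhdsGT ht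
  filter_upwards [this] with u hu
  have := (ee_diff u t hu.1 hu.2.le).1
  linarith

theorem ee_le (t : ℝ) (ht : 0 < t) : ee t ≤ 2 * t := by
  have h1 : Tendsto (fun u : ℝ => ee t - ee u) (𝓝[>] 0) (𝓝 (ee t - 0)) :=
    tendsto_const_nhds.sub ee_lim
  rw [sub_zero] at h1
  refine le_of_tendsto h1 ?_
  have : Set.Ioo (0:ℝ) t ∈ 𝓝[>] (0:ℝ) := Ioo_mem_nhdsGT ht
  filter_upwards [this] with u hu
  have := (ee_diff u t hu.1 hu.2.le).2
  have := hu.1
  linarith

theorem hh_eq (mu x : ℝ) (hmu : 0 < mu) (hx : 0 < x) :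
    hh 2 mu x = (ee (mu * Real.sqrt x) - 2 * Real.log mu - Real.log x
      - Real.eulerMascheroniConstant) / x := by
  have h1 : Real.log (mu * Real.sqrt x) = Real.log mu + Real.log x / 2 := by
    rw [Real.log_mul hmu.ne' (Real.sqrt_pos.2 hx).ne', Real.log_sqrt hx.le]
  unfold hh ee
  rw [h1]
  have h2 : x ^ (-((2:ℝ) / 2)) = x⁻¹ := by
    rw [div_self (two_ne_zero), Real.rpow_neg_one]
  rw [h2]
  field_simp
  ring

/-- remainder term -/
noncomputable def RR (mu : ℝ) (k : ℕ) : ℝ :=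
  ee (mu * Real.sqrt (3 * k + 1)) / (3 * k + 1) - ee (mu * Real.sqrt (3 * k + 2)) / (3 * k + 2)

theorem RR_eq (mu : ℝ) (hmu : 0 < mu) (k : ℕ) :
    RR mu k = (hh 2 mu (3 * k + 1) - hh 2 mu (3 * k + 2))
      - (-2 * Real.log mu - Real.eulerMascheroniConstant) *
        (1 / (3 * (k : ℝ) + 1) - 1 / (3 * (k : ℝ) + 2))
      - (Real.log (3 * (k : ℝ) + 2) / (3 * (k : ℝ) + 2) -
          Real.log (3 * (k : ℝ) + 1) / (3 * (k : ℝ) + 1)) := by
  have hk : (0:ℝ) ≤ k := Nat.cast_nonneg k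
  have h1 : (0:ℝ) < 3 * k + 1 := by positivity
  have h2 : (0:ℝ) < 3 * k + 2 := by positivity
  rw [hh_eq mu _ hmu h1, hh_eq mu _ hmu h2]
  unfold RR
  field_simp
  ring

theorem RR_le (mu : ℝ) (hmu : 0 < mu) (k : ℕ) :
    |RR mu k| ≤ mu * (3 * (1 / ((k : ℝ) + 1) ^ ((3:ℝ) / 2))) := by
  have hk : (0:ℝ) ≤ k := Nat.cast_nonneg k
  set a : ℝ := Real.sqrt (3 * k + 1) with ha
  set b : ℝ := Real.sqrt (3 * k + 2) with hb
  have h1 : (0:ℝ) < 3 * k + 1 := by positivity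
  have h2 : (0:ℝ) < 3 * k + 2 := by positivity
  have ha0 : 0 < a := Real.sqrt_pos.2 h1
  have hb0 : 0 < b := Real.sqrt_pos.2 h2
  have ha2 : a ^ 2 = 3 * k + 1 := Real.sq_sqrt h1.le
  have hb2 : b ^ 2 = 3 * k + 2 := Real.sq_sqrt h2.le
  have hab : a ≤ b := Real.sqrt_le_sqrt (by linarith)
  have hd := ee_diff (mu * a) (mu * b) (by positivity) (by gcongr)
  have hn := ee_nonneg (mu * b) (by positivity)
  have hl := ee_le (mu * b) (by positivity)
  -- b - a = 1/(a+b) <= 1/(2a)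
  have hba : b - a ≤ 1 / (2 * a) := by
    rw [le_div_iff₀ (by positivity)]
    nlinarith
  have hR : RR mu k = (ee (mu * b) - ee (mu * a)) * (-(1 / a ^ 2))
      + ee (mu * b) * (1 / a ^ 2 - 1 / b ^ 2) := by
    unfold RR
    rw [← ha, ← hb, ← ha2, ← hb2]
    field_simp
    ring
  have h3 : 1 / a ^ 2 - 1 / b ^ 2 = 1 / (a ^ 2 * b ^ 2) := by
    field_simp
    linarith
  have h4 : |RR mu k| ≤ (2 * (mu * b - mu * a)) * (1 / a ^ 2) + 2 * (mu * b) * (1 / (a ^ 2 * b ^ 2)) := by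
    rw [hR, h3]
    refine (abs_add_le _ _).trans ?_
    rw [abs_mul, abs_mul, abs_neg, abs_of_nonneg hd.1, abs_of_nonneg hn,
      abs_of_nonneg (by positivity : (0:ℝ) ≤ 1 / a ^ 2),
      abs_of_nonneg (by positivity : (0:ℝ) ≤ 1 / (a ^ 2 * b ^ 2))]
    gcongr
    · exact hd.2
  have h5 : (2 * (mu * b - mu * a)) * (1 / a ^ 2) ≤ mu * (1 / a ^ 3) := by
    have : (2 * (mu * b - mu * a)) * (1 / a ^ 2) = mu * (2 * (b - a)) * (1 / a ^ 2) := by ring
    rw [this]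
    calc mu * (2 * (b - a)) * (1 / a ^ 2) ≤ mu * (2 * (1 / (2 * a))) * (1 / a ^ 2) := by
          gcongr
      _ = mu * (1 / a ^ 3) := by field_simp
  have h6 : 2 * (mu * b) * (1 / (a ^ 2 * b ^ 2)) ≤ mu * (2 * (1 / a ^ 3)) := by
    have : 2 * (mu * b) * (1 / (a ^ 2 * b ^ 2)) = mu * (2 * (1 / (a ^ 2 * b))) := by
      field_simp
    rw [this]
    have : a ^ 3 ≤ a ^ 2 * b := by nlinarith [sq_nonneg a, mul_le_mul_of_nonneg_left hab (sq_nonneg a)]
    gcongr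
  have h7 : 1 / a ^ 3 ≤ 1 / ((k : ℝ) + 1) ^ ((3:ℝ) / 2) := by
    have : a ^ 3 = (3 * (k:ℝ) + 1) ^ ((3:ℝ) / 2) := by
      rw [ha, Real.sqrt_eq_rpow, ← Real.rpow_natCast, ← Real.rpow_mul h1.le]
      norm_num
    rw [this]
    gcongr
    linarith
  calc |RR mu k| ≤ mu * (1 / a ^ 3) + mu * (2 * (1 / a ^ 3)) := by linarith
    _ = mu * (3 * (1 / a ^ 3)) := by ring
    _ ≤ _ := by gcongr

theorem HS2_lim : Tendsto (fun mu : ℝ => HS 2 mu + 4 * Real.pi / Real.sqrt 3 * Real.log mu)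
    (𝓝[>] 0) (𝓝 (6 * (∑' k : ℕ, (Real.log (3 * (k : ℝ) + 2) / (3 * (k : ℝ) + 2) -
      Real.log (3 * (k : ℝ) + 1) / (3 * (k : ℝ) + 1))) -
      2 * Real.pi / Real.sqrt 3 * Real.eulerMascheroniConstant)) := by
  have hsum : Summable (fun k : ℕ => 3 * (1 / ((k : ℝ) + 1) ^ ((3:ℝ) / 2))) := by
    have h0 : Summable (fun k : ℕ => 1 / ((k : ℝ)) ^ ((3:ℝ) / 2)) :=
      Real.summable_one_div_nat_rpow.2 (by norm_num)
    have h1 := (summable_nat_add_iff 1).2 h0
    refine Summable.mul_left 3 ?_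
    refine h1.congr ?_
    intro k
    push_cast
    rfl
  set C : ℝ := ∑' k : ℕ, 3 * (1 / ((k : ℝ) + 1) ^ ((3:ℝ) / 2)) with hC
  set D : ℝ := ∑' k : ℕ, (Real.log (3 * (k : ℝ) + 2) / (3 * (k : ℝ) + 2) -
      Real.log (3 * (k : ℝ) + 1) / (3 * (k : ℝ) + 1)) with hD
  have key : ∀ mu : ℝ, 0 < mu →
      |HS 2 mu + 4 * Real.pi / Real.sqrt 3 * Real.log mu - (6 * D -
      2 * Real.pi / Real.sqrt 3 * Real.eulerMascheroniConstant)| ≤ 6 * C * mu := by
    intro mu hmu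
    have hRs : HasSum (RR mu) (HS 2 mu / 6 -
        (-2 * Real.log mu - Real.eulerMascheroniConstant) * (Real.pi / (3 * Real.sqrt 3)) - D) := by
      have h := ((HS_pair 2 mu (by norm_num) hmu).sub
        (L1_val.mul_left (-2 * Real.log mu - Real.eulerMascheroniConstant))).sub
        D_summable.hasSum
      refine h.congr_fun ?_ 
      intro k
      exact RR_eq mu hmu k
    have hb : |HS 2 mu / 6 -
        (-2 * Real.log mu - Real.eulerMascheroniConstant) * (Real.pi / (3 * Real.sqrt 3)) - D|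
        ≤ mu * C := by
      rw [← hRs.tsum_eq, ← Real.norm_eq_abs]
      have := tsum_of_norm_bounded (hsum.hasSum.mul_left mu) (f := RR mu)
        (fun k => by rw [Real.norm_eq_abs]; exact RR_le mu hmu k)
      exact this
    have h3 : (0:ℝ) < Real.sqrt 3 := Real.sqrt_pos.2 (by norm_num)
    have he : HS 2 mu + 4 * Real.pi / Real.sqrt 3 * Real.log mu - (6 * D -
      2 * Real.pi / Real.sqrt 3 * Real.eulerMascheroniConstant) = 6 * (HS 2 mu / 6 -
        (-2 * Real.log mu - Real.eulerMascheroniConstant) * (Real.pi / (3 * Real.sqrt 3)) - D) := by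
      field_simp
      ring
    rw [he, abs_mul, abs_of_nonneg (by norm_num : (0:ℝ) ≤ 6)]
    calc 6 * _ ≤ 6 * (mu * C) := by gcongr
      _ = 6 * C * mu := by ring
  rw [tendsto_iff_norm_sub_tendsto_zero]
  have hz : Tendsto (fun mu : ℝ => 6 * C * mu) (𝓝[>] 0) (𝓝 0) := by
    have : Tendsto (fun mu : ℝ => 6 * C * mu) (𝓝 0) (𝓝 (6 * C * 0)) :=
      (continuous_const.mul continuous_id).tendsto 0
    rw [mul_zero] at this
    exact this.mono_left nhdsWithin_le_nhds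
  refine squeeze_zero' (Eventually.of_forall fun _ => norm_nonneg _) ?_ hz
  filter_upwards [self_mem_nhdsWithin] with mu hmu
  rw [Real.norm_eq_abs]
  exact key mu hmu

end Pool.Agent.Helper88.SE
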