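import Pool.Agent.Helper88.SE3.Defs
import Pool.Agent.Helper88.SE3.P_HS_pair
import Pool.Agent.Helper88.SE3.P_L1_val
import Pool.Agent.Helper88.SE3.P_Es_diff

set_option autoImplicit false

open MeasureTheory Set Filter Topology
open scoped ENNReal

namespace Pool.Agent.Helper88.SE



theorem hsl_dyadic (e : ℝ → ℝ) (he : Tendsto e (𝓝[>] 0) (𝓝 0)) (C σ : ℝ) (hC : 0 < C)
    (hσ : 0 < σ)
    (hd : ∀ t t' : ℝ, 0 < t → t ≤ t' → |e t' - e t| ≤ C * t ^ (-(1 - σ)) * (t' - t)) :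
    ∃ K : ℝ, 0 < K ∧ ∀ t : ℝ, 0 < t → |e t| ≤ K * t ^ σ := by
  set q : ℝ := (1 / 2 : ℝ) ^ σ with hq
  have hq0 : 0 < q := by rw [hq]; positivity
  have hq1 : q < 1 := by
    rw [hq]
    exact Real.rpow_lt_one (by norm_num) (by norm_num) hσ
  have h1q : 0 < 1 - q := by linarith
  set K : ℝ := C * q / (1 - q) with hK
  have hK0 : 0 < K := by rw [hK]; positivity
  have hKq : C * q = K * (1 - q) := by
    rw [hK]; field_simp
  have hhalf : ∀ t : ℝ, 0 < t → (t * (1 / 2)) ^ σ = t ^ σ * q := by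
    intro t ht
    rw [Real.mul_rpow ht.le (by norm_num)]
  have hstep : ∀ t : ℝ, 0 < t → |e t| ≤ |e (t * (1 / 2))| + C * q * t ^ σ := by
    intro t ht
    have hu : 0 < t * (1 / 2) := by positivity
    have h1 := hd (t * (1 / 2)) t hu (by linarith)
    have h2 : t - t * (1 / 2) = t * (1 / 2) := by ring
    rw [h2, mul_assoc] at h1
    have h3 : (t * (1 / 2)) ^ (-(1 - σ)) * (t * (1 / 2)) = (t * (1 / 2)) ^ σ := by
      conv_lhs => rw [← Real.rpow_one (t * (1 / 2)), ← Real.rpow_mul hu.le, ← Real.rpow_add hu]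
      congr 1
      ring
    rw [h3, hhalf t ht] at h1
    have h4 : |e t| ≤ |e (t * (1 / 2))| + |e t - e (t * (1 / 2))| := by
      have := abs_add_le (e (t * (1 / 2))) (e t - e (t * (1 / 2)))
      simpa using this
    nlinarith
  have hind : ∀ n : ℕ, ∀ t : ℝ, 0 < t →
      |e t| ≤ |e (t * (1 / 2) ^ n)| + K * t ^ σ * (1 - q ^ n) := by
    intro n
    induction n with
    | zero => intro t ht; simp
    | succ n ih =>
      intro t ht
      have h1 := hstep t ht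
      have h2 := ih (t * (1 / 2)) (by positivity)
      have h3 : t * (1 / 2) * (1 / 2) ^ n = t * (1 / 2) ^ (n + 1) := by ring
      rw [h3, hhalf t ht] at h2
      have h4 : K * (t ^ σ * q) * (1 - q ^ n) + C * q * t ^ σ = K * t ^ σ * (1 - q ^ (n + 1)) := by
        rw [hKq]; ring
      linarith
  refine ⟨K, hK0, ?_⟩
  intro t ht
  have htend : Tendsto (fun n : ℕ => t * (1 / 2 : ℝ) ^ n) atTop (𝓝[>] 0) := by
    rw [tendsto_nhdsWithin_iff]
    constructor
    · have := (tendsto_pow_atTop_nhds_zero_of_lt_one (r := (1 / 2 : ℝ)) (by norm_num)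
        (by norm_num)).const_mul t
      simpa using this
    · exact Filter.Eventually.of_forall fun n => by
        show 0 < t * (1 / 2 : ℝ) ^ n
        positivity
  have h1 : Tendsto (fun n : ℕ => |e (t * (1 / 2 : ℝ) ^ n)| + K * t ^ σ) atTop
      (𝓝 (|0| + K * t ^ σ)) := ((he.comp htend).abs).add_const _
  have h2 : |e t| ≤ |0| + K * t ^ σ := by
    refine ge_of_tendsto' h1 fun n => ?_
    have h3 := hind n t ht
    have h4 : 0 ≤ q ^ n := by positivity
    have h5 : 0 ≤ K * t ^ σ := by positivity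
    nlinarith
  simpa using h2

theorem hsl_rk (e : ℝ → ℝ) (C K σ : ℝ) (hC : 0 < C) (hσ : 0 < σ) (hσ1 : σ < 1)
    (hd : ∀ t t' : ℝ, 0 < t → t ≤ t' → |e t' - e t| ≤ C * t ^ (-(1 - σ)) * (t' - t))
    (hK0 : 0 < K) (hK : ∀ t : ℝ, 0 < t → |e t| ≤ K * t ^ σ) (mu x : ℝ) (hmu : 0 < mu)
    (hx : 1 ≤ x) :
    |x ^ (-σ) * e (mu * Real.sqrt x) - (x + 1) ^ (-σ) * e (mu * Real.sqrt (x + 1))|
      ≤ (K + C) * mu ^ σ * x ^ (-(1 + σ / 2)) := by
  have hx0 : 0 < x := by linarith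
  have hsx : 0 < Real.sqrt x := Real.sqrt_pos.mpr hx0
  have hsx2 : Real.sqrt x * Real.sqrt x = x := Real.mul_self_sqrt hx0.le
  have hsy2 : Real.sqrt (x + 1) * Real.sqrt (x + 1) = x + 1 := Real.mul_self_sqrt (by linarith)
  have hsxy : Real.sqrt x ≤ Real.sqrt (x + 1) := Real.sqrt_le_sqrt (by linarith)
  have ht : 0 < mu * Real.sqrt x := by positivity
  set A : ℝ := (mu * Real.sqrt x) ^ σ with hA
  have hA0 : 0 < A := by rw [hA]; positivity
  set P : ℝ := x ^ (-σ) with hP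
  have hP0 : 0 < P := by rw [hP]; positivity
  set Q : ℝ := (x + 1) ^ (-σ) with hQ
  have hQ0 : 0 < Q := by rw [hQ]; positivity
  have hQP : Q ≤ P := Real.rpow_le_rpow_of_nonpos hx0 (by linarith) (by linarith)
  have hPQ : P - Q ≤ P / x := by
    have hb : 1 ≤ (x + 1) / x := by
      rw [le_div_iff₀ hx0]; linarith
    have h1 : ((x + 1) / x) ^ (-1 : ℝ) ≤ ((x + 1) / x) ^ (-σ) :=
      Real.rpow_le_rpow_of_exponent_le hb (by linarith)
    rw [Real.div_rpow (by linarith) hx0.le (-σ), Real.rpow_neg_one] at h1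
    have h2 : ((x + 1) / x)⁻¹ = x / (x + 1) := inv_div _ _
    rw [h2] at h1
    have h3 : x / (x + 1) * P ≤ Q := by
      rw [le_div_iff₀ hP0] at h1
      exact h1
    have h4 : P - x / (x + 1) * P = P / (x + 1) := by
      field_simp
      ring
    have h5 : P / (x + 1) ≤ P / x := by
      apply div_le_div_of_nonneg_left hP0.le hx0 (by linarith)
    linarith
  have h1 : |e (mu * Real.sqrt x)| ≤ K * A := hK _ ht
  have h2 : |e (mu * Real.sqrt (x + 1)) - e (mu * Real.sqrt x)| ≤ C * (A / x) := by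
    have h3 := hd (mu * Real.sqrt x) (mu * Real.sqrt (x + 1)) ht
      (mul_le_mul_of_nonneg_left hsxy hmu.le)
    refine h3.trans ?_
    have h4 : Real.sqrt (x + 1) - Real.sqrt x ≤ Real.sqrt x / x := by
      rw [le_div_iff₀ hx0]
      have h5 : (Real.sqrt (x + 1) - Real.sqrt x) * (Real.sqrt (x + 1) + Real.sqrt x) = 1 := by
        have h55 : (Real.sqrt (x + 1) - Real.sqrt x) * (Real.sqrt (x + 1) + Real.sqrt x)
          = Real.sqrt (x + 1) * Real.sqrt (x + 1) - Real.sqrt x * Real.sqrt x := by ring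
        rw [h55, hsy2, hsx2]
        ring
      have h6 : 0 ≤ Real.sqrt (x + 1) - Real.sqrt x := by linarith
      have h7 : (Real.sqrt (x + 1) - Real.sqrt x) * Real.sqrt x ≤ 1 := by
        nlinarith
      calc (Real.sqrt (x + 1) - Real.sqrt x) * x
          = ((Real.sqrt (x + 1) - Real.sqrt x) * Real.sqrt x) * Real.sqrt x := by
            rw [mul_assoc, hsx2]
        _ ≤ 1 * Real.sqrt x := mul_le_mul_of_nonneg_right h7 hsx.le
        _ = Real.sqrt x := one_mul _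
    have h8 : mu * Real.sqrt (x + 1) - mu * Real.sqrt x ≤ (mu * Real.sqrt x) / x := by
      have := mul_le_mul_of_nonneg_left h4 hmu.le
      calc _ = mu * (Real.sqrt (x + 1) - Real.sqrt x) := by ring
        _ ≤ mu * (Real.sqrt x / x) := this
        _ = _ := by ring
    have h9 : (mu * Real.sqrt x) ^ (-(1 - σ)) * (mu * Real.sqrt x) = A := by
      rw [hA]
      conv_lhs => rw [← Real.rpow_one (mu * Real.sqrt x), ← Real.rpow_mul ht.le, ← Real.rpow_add ht]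
      congr 1
      ring
    have h10 : 0 ≤ C * (mu * Real.sqrt x) ^ (-(1 - σ)) := by positivity
    calc C * (mu * Real.sqrt x) ^ (-(1 - σ)) * (mu * Real.sqrt (x + 1) - mu * Real.sqrt x)
        ≤ C * (mu * Real.sqrt x) ^ (-(1 - σ)) * ((mu * Real.sqrt x) / x) :=
          mul_le_mul_of_nonneg_left h8 h10
      _ = C * (((mu * Real.sqrt x) ^ (-(1 - σ)) * (mu * Real.sqrt x)) / x) := by ring
      _ = C * (A / x) := by rw [h9]
  have h3 : P * e (mu * Real.sqrt x) - Q * e (mu * Real.sqrt (x + 1))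
      = (P - Q) * e (mu * Real.sqrt x) - Q * (e (mu * Real.sqrt (x + 1)) - e (mu * Real.sqrt x)) := by
    ring
  rw [h3]
  have h4 : |(P - Q) * e (mu * Real.sqrt x)| ≤ (P / x) * (K * A) := by
    rw [abs_mul, abs_of_nonneg (by linarith : 0 ≤ P - Q)]
    exact mul_le_mul hPQ h1 (abs_nonneg _) (by positivity)
  have h5 : |Q * (e (mu * Real.sqrt (x + 1)) - e (mu * Real.sqrt x))| ≤ P * (C * (A / x)) := by
    rw [abs_mul, abs_of_nonneg hQ0.le]
    exact mul_le_mul hQP h2 (abs_nonneg _) hP0.le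
  have h6 := abs_sub ((P - Q) * e (mu * Real.sqrt x))
    (Q * (e (mu * Real.sqrt (x + 1)) - e (mu * Real.sqrt x)))
  have h7 : P / x * A = mu ^ σ * x ^ (-(1 + σ / 2)) := by
    rw [hA, hP, Real.mul_rpow hmu.le hsx.le, Real.sqrt_eq_rpow, ← Real.rpow_mul hx0.le]
    have h8 : x ^ (-(1 + σ / 2)) = x ^ (-σ) * x ^ (-1 : ℝ) * x ^ (1 / 2 * σ) := by
      rw [← Real.rpow_add hx0, ← Real.rpow_add hx0]
      congr 1
      ring
    rw [h8, Real.rpow_neg_one]
    ring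
  calc _ ≤ (P / x) * (K * A) + P * (C * (A / x)) := by linarith
    _ = (K + C) * (P / x * A) := by ring
    _ = _ := by rw [h7]; ring

theorem hsl_summable (σ : ℝ) (hσ : 0 < σ) :
    Summable (fun k : ℕ => ((k : ℝ) + 1) ^ (-(1 + σ / 2))) := by
  have h1 : Summable (fun n : ℕ => 1 / (n : ℝ) ^ (1 + σ / 2)) :=
    Real.summable_one_div_nat_rpow.mpr (by linarith)
  have h2 := (summable_nat_add_iff 1).mpr h1
  refine h2.congr fun k => ?_
  push_cast
  rw [Real.rpow_neg (by positivity), one_div]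

theorem HSs_lim (s : ℝ) (hs : 0 < s) (hs2 : s < 2) (z l : ℝ)
    (hz : Tendsto (fun t : ℝ => GG s t - 2 * Real.Gamma (2 - s) * t ^ (s - 2)) (𝓝[>] 0) (𝓝 z))
    (hl : HasSum (fun k : ℕ => (3 * (k : ℝ) + 1) ^ (-(s / 2)) - (3 * (k : ℝ) + 2) ^ (-(s / 2))) l) :
    Tendsto (fun mu : ℝ => HS s mu - 4 * Real.pi / Real.sqrt 3 * (mu ^ (s - 2) * Real.Gamma (2 - s)))
      (𝓝[>] 0) (𝓝 (6 * z * l)) := by
  obtain ⟨C, hC, hCd⟩ := Es_diff s hs hs2
  set c : ℝ := 2 * Real.Gamma (2 - s) with hc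
  set e : ℝ → ℝ := fun t => GG s t - c * t ^ (s - 2) - z with he
  have hσ : 0 < s / 2 := by linarith
  have hσ1 : s / 2 < 1 := by linarith
  have he0 : Tendsto e (𝓝[>] 0) (𝓝 0) := by
    have := hz.sub_const z
    simpa using this
  have hd : ∀ t t' : ℝ, 0 < t → t ≤ t' →
      |e t' - e t| ≤ C * t ^ (-(1 - s / 2)) * (t' - t) := by
    intro t t' ht htt
    have h1 := hCd t t' ht htt
    have h2 : e t' - e t = (GG s t' - 2 * Real.Gamma (2 - s) * t' ^ (s - 2)) -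
      (GG s t - 2 * Real.Gamma (2 - s) * t ^ (s - 2)) := by
      simp only [he, hc]; ring
    rw [h2]
    exact h1
  obtain ⟨K, hK0, hK⟩ := hsl_dyadic e he0 C (s / 2) hC hσ hd
  have hhx : ∀ mu x : ℝ, 0 < mu → 0 < x → hh s mu x
      = c * mu ^ (s - 2) * (1 / x) + z * x ^ (-(s / 2)) + x ^ (-(s / 2)) * e (mu * Real.sqrt x) := by
    intro mu x hmu hx
    have hsx : 0 < Real.sqrt x := Real.sqrt_pos.mpr hx
    simp only [hh, he]
    rw [Real.mul_rpow hmu.le hsx.le]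
    have h1 : x ^ (-(s / 2)) * Real.sqrt x ^ (s - 2) = 1 / x := by
      have h11 : x ^ (-(s / 2)) * Real.sqrt x ^ (s - 2) = x ^ (-1 : ℝ) := by
        rw [Real.sqrt_eq_rpow, ← Real.rpow_mul hx.le, ← Real.rpow_add hx]
        congr 1
        ring
      rw [h11, Real.rpow_neg_one, one_div]
    linear_combination (c * mu ^ (s - 2)) * h1
  have hB := hsl_summable (s / 2) hσ
  set B : ℝ := ∑' k : ℕ, ((k : ℝ) + 1) ^ (-(1 + s / 2 / 2)) with hBdef
  have hmain : ∀ mu : ℝ, 0 < mu →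
      |HS s mu / 6 - c * mu ^ (s - 2) * (Real.pi / (3 * Real.sqrt 3)) - z * l|
        ≤ (K + C) * mu ^ (s / 2) * B := by
    intro mu hmu
    have h1 := HS_pair s mu hs hmu
    have h2 := L1_val.mul_left (c * mu ^ (s - 2))
    have h3 := hl.mul_left z
    have h4 := (h1.sub h2).sub h3
    have h5 : HasSum (fun k : ℕ => (K + C) * mu ^ (s / 2) * ((k : ℝ) + 1) ^ (-(1 + s / 2 / 2)))
        ((K + C) * mu ^ (s / 2) * B) := hB.hasSum.mul_left _
    rw [← Real.norm_eq_abs]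
    refine h4.norm_le_of_bounded h5 fun k => ?_
    have hk0 : (0:ℝ) ≤ (k:ℝ) := Nat.cast_nonneg k
    have hx : (1:ℝ) ≤ 3 * (k:ℝ) + 1 := by linarith
    have h6 := hsl_rk e C K (s / 2) hC hσ hσ1 hd hK0 hK mu (3 * (k:ℝ) + 1) hmu hx
    have h7 : (3 * (k:ℝ) + 1 + 1) = 3 * (k:ℝ) + 2 := by ring
    rw [h7] at h6
    rw [hhx mu (3 * (k:ℝ) + 1) hmu (by linarith), hhx mu (3 * (k:ℝ) + 2) hmu (by linarith)]
    have h8 : c * mu ^ (s - 2) * (1 / (3 * (k:ℝ) + 1)) + z * (3 * (k:ℝ) + 1) ^ (-(s / 2)) +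
          (3 * (k:ℝ) + 1) ^ (-(s / 2)) * e (mu * Real.sqrt (3 * (k:ℝ) + 1)) -
        (c * mu ^ (s - 2) * (1 / (3 * (k:ℝ) + 2)) + z * (3 * (k:ℝ) + 2) ^ (-(s / 2)) +
          (3 * (k:ℝ) + 2) ^ (-(s / 2)) * e (mu * Real.sqrt (3 * (k:ℝ) + 2))) -
        c * mu ^ (s - 2) * (1 / (3 * (k:ℝ) + 1) - 1 / (3 * (k:ℝ) + 2)) -
        z * ((3 * (k:ℝ) + 1) ^ (-(s / 2)) - (3 * (k:ℝ) + 2) ^ (-(s / 2)))
        = (3 * (k:ℝ) + 1) ^ (-(s / 2)) * e (mu * Real.sqrt (3 * (k:ℝ) + 1)) -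
          (3 * (k:ℝ) + 2) ^ (-(s / 2)) * e (mu * Real.sqrt (3 * (k:ℝ) + 2)) := by ring
    rw [h8, Real.norm_eq_abs]
    refine h6.trans ?_
    refine mul_le_mul_of_nonneg_left ?_ (by positivity)
    exact Real.rpow_le_rpow_of_nonpos (by linarith) (by linarith) (by linarith)
  rw [tendsto_iff_norm_sub_tendsto_zero]
  have hlim : Tendsto (fun mu : ℝ => 6 * ((K + C) * mu ^ (s / 2) * B)) (𝓝[>] 0) (𝓝 0) := by
    have h1 : Tendsto (fun mu : ℝ => mu ^ (s / 2)) (𝓝[>] 0) (𝓝 0) := by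
      have h2 := (Real.continuous_rpow_const hσ.le).tendsto (0:ℝ)
      rw [Real.zero_rpow hσ.ne'] at h2
      exact h2.mono_left nhdsWithin_le_nhds
    have h3 := ((h1.const_mul (K + C)).mul_const B).const_mul 6
    simpa using h3
  refine squeeze_zero' (Filter.Eventually.of_forall fun _ => norm_nonneg _) ?_ hlim
  filter_upwards [self_mem_nhdsWithin] with mu hmu
  have hmu' : 0 < mu := hmu
  have h1 := hmain mu hmu'
  have h3 : (0:ℝ) < Real.sqrt 3 := Real.sqrt_pos.mpr (by norm_num)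
  have h2 : HS s mu - 4 * Real.pi / Real.sqrt 3 * (mu ^ (s - 2) * Real.Gamma (2 - s)) - 6 * z * l
      = 6 * (HS s mu / 6 - c * mu ^ (s - 2) * (Real.pi / (3 * Real.sqrt 3)) - z * l) := by
    rw [hc]
    field_simp
    ring
  rw [h2, norm_mul, Real.norm_eq_abs, Real.norm_eq_abs, abs_of_pos (by norm_num : (0:ℝ) < 6)]
  linarith

end Pool.Agent.Helper88.SE
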