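import Pool.Agent.Helper88.SE3.Defs
import Pool.Agent.Helper88.SE3.P_IU_formula
import Pool.Agent.Helper88.SE3.P_exp_int

set_option autoImplicit false

open MeasureTheory Set Filter Topology
open scoped ENNReal

namespace Pool.Agent.Helper88.SE



theorem IU_asymp : Tendsto (fun mu : ℝ => IU mu - 1 / 2 * Real.log mu) atTop
    (𝓝 (1 / 2 * (Real.log 2 + Real.eulerMascheroniConstant))) := by
  have h1 : Tendsto (fun mu : ℝ => 1 / 2 * ((∫ w in (0 : ℝ)..(2 * mu), (1 - Real.exp (-w)) / w) - Real.log (2 * mu))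
      + 1 / 2 * Real.log 2) atTop (𝓝 (1 / 2 * Real.eulerMascheroniConstant + 1 / 2 * Real.log 2)) := by
    have h2 : Tendsto (fun mu : ℝ => 2 * mu) atTop atTop := tendsto_id.const_mul_atTop (by norm_num)
    exact ((exp_int.comp h2).const_mul (1/2)).add_const _
  have e1 : (1 / 2 * (Real.log 2 + Real.eulerMascheroniConstant)) =
      1 / 2 * Real.eulerMascheroniConstant + 1 / 2 * Real.log 2 := by ring
  rw [e1]
  refine h1.congr' ?_
  filter_upwards [eventually_gt_atTop 0] with mu hmu
  have h3 := (IU_formula mu hmu.le).2.2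
  have h4 : ∫ t in (0 : ℝ)..2, (1 - Real.exp (-(mu * t))) / (2 * t) =
      1 / 2 * ∫ w in (0 : ℝ)..(2 * mu), (1 - Real.exp (-w)) / w := by
    have h5 := intervalIntegral.integral_comp_mul_left (a := 0) (b := 2) (fun w : ℝ => (1 - Real.exp (-w)) / w) hmu.ne'
    have h6 : ∫ t in (0 : ℝ)..2, (1 - Real.exp (-(mu * t))) / (2 * t) =
        ∫ t in (0 : ℝ)..2, (mu / 2) * ((1 - Real.exp (-(mu * t))) / (mu * t)) := by
      apply intervalIntegral.integral_congr
      intro t _
      simp only
      by_cases ht : t = 0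
      · simp [ht]
      · field_simp
    rw [h6, intervalIntegral.integral_const_mul, h5, mul_zero, mul_comm mu 2, smul_eq_mul]
    field_simp
  rw [h3, h4, Real.log_mul (by norm_num) hmu.ne']
  ring

end Pool.Agent.Helper88.SE
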