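import Pool.Agent.Helper88.SE3.Defs
import Pool.Agent.Helper88.SE3.P_sg_prob
import Pool.Agent.Helper88.SE3.P_law2
import Pool.Agent.Helper88.SE3.P_KL_const

set_option autoImplicit false

open MeasureTheory Set Filter Topology
open scoped ENNReal

namespace Pool.Agent.Helper88.SE



theorem ja_one (s lam : ℝ) (hs : 0 < s) (hs2 : s < 2) (hlam : 0 < lam) :
    J 2 s lam = ∫ t in (0:ℝ)..2, (1 / 2) * (t ^ (1 - s) * Real.exp (-(lam * t))) := by
  obtain ⟨h1, hpos, -⟩ := KL_const 2 (by norm_num) s lam hs (by exact_mod_cast hs2) hlam.le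
  have x0 : S 2 := ⟨EuclideanSpace.single 0 1, by simp⟩
  have h2 := (h1 x0).2.2
  have hm : Measurable (fun t : ℝ => ENNReal.ofReal (t ^ (-s) * Real.exp (-(lam * t)))) := by
    fun_prop
  have h3 := law2 (fun t => ENNReal.ofReal (t ^ (-s) * Real.exp (-(lam * t)))) hm x0
  have h4 : ∫⁻ y, ENNReal.ofReal (KL s lam x0 y) ∂(sg 2) =
      ∫⁻ y, (fun t => ENNReal.ofReal (t ^ (-s) * Real.exp (-(lam * t)))) (dist x0 y) ∂(sg 2) := rfl
  rw [h4, h3] at h2
  rw [intervalIntegral.integral_of_le (by norm_num : (0:ℝ) ≤ 2)]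
  have h5 : ∫⁻ t in Icc (0 : ℝ) 2, ENNReal.ofReal (t ^ (-s) * Real.exp (-(lam * t))) *
      ENNReal.ofReal (t / 2) =
      ∫⁻ t in Ioc (0 : ℝ) 2, ENNReal.ofReal ((1 / 2) * (t ^ (1 - s) * Real.exp (-(lam * t)))) := by
    rw [setLIntegral_congr (Ioc_ae_eq_Icc (α := ℝ) (μ := volume)).symm]
    refine setLIntegral_congr_fun measurableSet_Ioc fun t ht => ?_
    have ht0 : 0 < t := ht.1

    rw [← ENNReal.ofReal_mul (by positivity)]
    congr 1
    have e : t ^ (1 - s) = t * t ^ (-s) := by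
      rw [show (1 - s) = 1 + (-s) by ring, Real.rpow_add ht0, Real.rpow_one]
    rw [e]; ring
  rw [h5] at h2
  rw [integral_eq_lintegral_of_nonneg_ae, h2, ENNReal.toReal_ofReal hpos.le]
  · filter_upwards [ae_restrict_mem measurableSet_Ioc] with t ht
    have ht0 : 0 < t := ht.1
    simp only [Pi.zero_apply]
    positivity
  · exact (by fun_prop : Measurable fun t : ℝ => (1 / 2) * (t ^ (1 - s) * Real.exp (-(lam * t)))).aestronglyMeasurable

theorem ja_two (s lam : ℝ) (hs : 0 < s) (hs2 : s < 2) (hlam : 0 < lam) :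
    lam ^ (2 - s) * J 2 s lam = (1 / 2) * ∫ w in (0:ℝ)..(2 * lam), w ^ (1 - s) * Real.exp (-w) := by
  rw [ja_one s lam hs hs2 hlam, intervalIntegral.integral_const_mul]
  have h1 := intervalIntegral.integral_comp_mul_left (a := 0) (b := 2)
    (fun w : ℝ => w ^ (1 - s) * Real.exp (-w)) hlam.ne'
  rw [mul_zero, mul_comm lam 2] at h1
  have h2 : ∫ x in (0:ℝ)..2, (lam * x) ^ (1 - s) * Real.exp (-(lam * x)) =
      lam ^ (1 - s) * ∫ x in (0:ℝ)..2, x ^ (1 - s) * Real.exp (-(lam * x)) := by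
    rw [← intervalIntegral.integral_const_mul]
    refine intervalIntegral.integral_congr fun x hx => ?_
    rw [uIcc_of_le (by norm_num : (0:ℝ) ≤ 2)] at hx

    rw [Real.mul_rpow hlam.le hx.1]
    ring
  rw [h2, smul_eq_mul] at h1
  have h3 : ∫ w in (0:ℝ)..(2 * lam), w ^ (1 - s) * Real.exp (-w) =
      lam * (lam ^ (1 - s) * ∫ x in (0:ℝ)..2, x ^ (1 - s) * Real.exp (-(lam * x))) := by
    rw [h1]; field_simp
  rw [h3, show (2 - s) = 1 + (1 - s) by ring, Real.rpow_add hlam, Real.rpow_one]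
  ring

theorem J_asymp (s : ℝ) (hs : 0 < s) (hs2 : s < 2) :
    Tendsto (fun lam : ℝ => lam ^ (2 - s) * J 2 s lam) atTop (𝓝 (Real.Gamma (2 - s) / 2)) := by
  have hG : Real.Gamma (2 - s) = ∫ x in Ioi (0:ℝ), x ^ (1 - s) * Real.exp (-x) := by
    rw [Real.Gamma_eq_integral (by linarith)]
    refine setIntegral_congr_fun measurableSet_Ioi fun x _ => ?_

    rw [show (2 - s - 1) = 1 - s by ring, mul_comm]
  have hI : IntegrableOn (fun x : ℝ => x ^ (1 - s) * Real.exp (-x)) (Ioi 0) := by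
    have := Real.GammaIntegral_convergent (s := 2 - s) (by linarith)
    refine this.congr_fun (fun x _ => ?_) measurableSet_Ioi
    simp only
    rw [show (2 - s - 1) = 1 - s by ring, mul_comm]
  have h1 : Tendsto (fun lam : ℝ => ∫ x in (0:ℝ)..(2 * lam), x ^ (1 - s) * Real.exp (-x)) atTop
      (𝓝 (∫ x in Ioi (0:ℝ), x ^ (1 - s) * Real.exp (-x))) :=
    intervalIntegral_tendsto_integral_Ioi 0 hI
      (tendsto_id.const_mul_atTop (by norm_num : (0:ℝ) < 2))
  rw [← hG] at h1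
  have h2 := h1.const_mul (1 / 2 : ℝ)
  rw [show Real.Gamma (2 - s) / 2 = 1 / 2 * Real.Gamma (2 - s) by ring]
  refine h2.congr' ?_
  filter_upwards [eventually_gt_atTop (0:ℝ)] with lam hlam
  exact (ja_two s lam hs hs2 hlam).symm

end Pool.Agent.Helper88.SE
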