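import Pool.Agent.Helper88.SE3.Defs

set_option autoImplicit false

open MeasureTheory Set Filter Topology
open scoped ENNReal

namespace Pool.Agent.Helper88.SE



/-- the terms -/
noncomputable def Lhalf_T (k : ℕ) (s : ℂ) : ℂ :=
  ((3 * (k : ℝ) + 1 : ℝ) : ℂ) ^ (-s) - ((3 * (k : ℝ) + 2 : ℝ) : ℂ) ^ (-s)

/-- the region -/
def Lhalf_U : Set ℂ := {s | 1 / 4 < s.re} ∩ Metric.ball 0 3

theorem Lhalf_bound (k : ℕ) (s : ℂ) (hs : s ∈ Lhalf_U) :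
    ‖Lhalf_T k s‖ ≤ 3 * ((k + 1 : ℕ) : ℝ) ^ (-(5 / 4) : ℝ) := by
  obtain ⟨h1, h2⟩ := hs
  have h1' : 1 / 4 < s.re := h1
  have h2' : ‖s‖ < 3 := by simpa using h2
  have hk : (0 : ℝ) ≤ (k : ℝ) := Nat.cast_nonneg k
  have hder : ∀ x ∈ Set.Icc (3 * (k : ℝ) + 1) (3 * (k : ℝ) + 2),
      HasDerivWithinAt (fun x : ℝ => (x : ℂ) ^ (-s)) (-s * (x : ℂ) ^ (-s - 1) * 1)
        (Set.Icc (3 * (k : ℝ) + 1) (3 * (k : ℝ) + 2)) x := by
    intro x hx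
    have hx0 : 0 < x := by linarith [hx.1]
    have h := ((hasDerivAt_id (x : ℂ)).cpow_const (c := -s)
      (Complex.ofReal_mem_slitPlane.mpr hx0)).comp_ofReal
    exact h.hasDerivWithinAt
  have hbd : ∀ x ∈ Set.Icc (3 * (k : ℝ) + 1) (3 * (k : ℝ) + 2),
      ‖-s * (x : ℂ) ^ (-s - 1) * 1‖ ≤ 3 * ((k + 1 : ℕ) : ℝ) ^ (-(5 / 4) : ℝ) := by
    intro x hx
    have hx1 : 3 * (k : ℝ) + 1 ≤ x := hx.1
    have hx0 : 0 < x := by linarith
    have hxk : ((k + 1 : ℕ) : ℝ) ≤ x := by push_cast; linarith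
    have hkp : (0 : ℝ) < ((k + 1 : ℕ) : ℝ) := by positivity
    rw [mul_one, norm_mul, norm_neg, Complex.norm_cpow_eq_rpow_re_of_pos hx0]
    have e1 : (-s - 1).re = -s.re - 1 := by simp
    rw [e1]
    have e2 : x ^ (-s.re - 1) ≤ x ^ (-(5 / 4) : ℝ) :=
      Real.rpow_le_rpow_of_exponent_le (by linarith) (by linarith)
    have e3 : x ^ (-(5 / 4) : ℝ) ≤ ((k + 1 : ℕ) : ℝ) ^ (-(5 / 4) : ℝ) :=
      Real.rpow_le_rpow_of_nonpos hkp hxk (by norm_num)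
    exact mul_le_mul h2'.le (e2.trans e3) (Real.rpow_nonneg hx0.le _) (by norm_num)
  have h3 := (convex_Icc (3 * (k : ℝ) + 1) (3 * (k : ℝ) + 2)).norm_image_sub_le_of_norm_hasDerivWithin_le
    hder hbd (x := 3 * (k : ℝ) + 2) (y := 3 * (k : ℝ) + 1) ⟨by linarith, le_rfl⟩ ⟨le_rfl, by linarith⟩
  have h4 : ‖(3 * (k : ℝ) + 1) - (3 * (k : ℝ) + 2)‖ = 1 := by
    rw [Real.norm_eq_abs]
    have : (3 * (k : ℝ) + 1) - (3 * (k : ℝ) + 2) = -1 := by ring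
    rw [this]; norm_num
  rw [h4, mul_one] at h3
  exact h3

theorem Lhalf_summable : Summable (fun k : ℕ => 3 * ((k + 1 : ℕ) : ℝ) ^ (-(5 / 4) : ℝ)) := by
  refine Summable.mul_left _ ?_
  have h := Real.summable_nat_rpow.mpr (show (-(5 / 4) : ℝ) < -1 by norm_num)
  exact (summable_nat_add_iff 1).mpr h

theorem Lhalf_open : IsOpen Lhalf_U :=
  (isOpen_lt continuous_const Complex.continuous_re).inter Metric.isOpen_ball

theorem Lhalf_conn : IsPreconnected Lhalf_U := by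
  have h1 : Convex ℝ {s : ℂ | 1 / 4 < s.re} := convex_halfSpace_re_gt _
  exact (h1.inter (convex_ball _ _)).isPreconnected

theorem Lhalf_Tdiff (k : ℕ) : DifferentiableOn ℂ (Lhalf_T k) Lhalf_U := by
  have h1 : ∀ a : ℝ, 0 < a → Differentiable ℂ (fun s : ℂ => ((a : ℝ) : ℂ) ^ (-s)) := by
    intro a ha s
    have ha' : ((a : ℝ) : ℂ) ≠ 0 := by exact_mod_cast ha.ne'
    exact (differentiableAt_id.neg).const_cpow (Or.inl ha')
  have hk : (0 : ℝ) ≤ (k : ℝ) := Nat.cast_nonneg k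
  exact ((h1 (3 * (k : ℝ) + 1) (by positivity)).sub
    (h1 (3 * (k : ℝ) + 2) (by positivity))).differentiableOn

theorem Lhalf_Fdiff : DifferentiableOn ℂ (fun s : ℂ => (3 : ℂ) ^ s * ∑' k, Lhalf_T k s) Lhalf_U := by
  have h1 := Complex.differentiableOn_tsum_of_summable_norm Lhalf_summable Lhalf_Tdiff Lhalf_open
    (fun k s hs => Lhalf_bound k s hs)
  have h2 : Differentiable ℂ (fun s : ℂ => (3 : ℂ) ^ s) := by
    intro s
    exact differentiableAt_id.const_cpow (Or.inl (by norm_num))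
  exact h2.differentiableOn.mul h1

theorem Lhalf_pow (a : ℝ) (ha : 0 ≤ a) (k : ℕ) (s : ℂ) :
    (3 : ℂ) ^ s * ((3 * ((k : ℝ) + a) : ℝ) : ℂ) ^ (-s) = 1 / ((k : ℂ) + (a : ℂ)) ^ s := by
  have hk : (0 : ℝ) ≤ (k : ℝ) + a := by positivity
  have h1 : ((3 * ((k : ℝ) + a) : ℝ) : ℂ) = ((3 : ℝ) : ℂ) * (((k : ℝ) + a : ℝ) : ℂ) := by
    push_cast; ring
  rw [h1, Complex.mul_cpow_ofReal_nonneg (by norm_num) hk]
  have h3 : (3 : ℂ) ^ s * ((3 : ℝ) : ℂ) ^ (-s) = 1 := by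
    have : ((3 : ℝ) : ℂ) = 3 := by norm_num
    rw [this, ← Complex.cpow_add _ _ (by norm_num), add_neg_cancel, Complex.cpow_zero]
  rw [← mul_assoc, h3, one_mul, Complex.cpow_neg, one_div]
  congr 2
  push_cast
  ring

theorem Lhalf_eq (s : ℂ) (hs : s ∈ Lhalf_U) :
    HurwitzZeta.hurwitzZeta ((1 / 3 : ℝ) : UnitAddCircle) s -
      HurwitzZeta.hurwitzZeta ((2 / 3 : ℝ) : UnitAddCircle) s = (3 : ℂ) ^ s * ∑' k, Lhalf_T k s := by
  have hG : AnalyticOnNhd ℂ (fun s => HurwitzZeta.hurwitzZeta ((1 / 3 : ℝ) : UnitAddCircle) s -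
      HurwitzZeta.hurwitzZeta ((2 / 3 : ℝ) : UnitAddCircle) s) Lhalf_U :=
    (HurwitzZeta.differentiable_hurwitzZeta_sub_hurwitzZeta _ _).differentiableOn.analyticOnNhd
      Lhalf_open
  have hF := Lhalf_Fdiff.analyticOnNhd Lhalf_open
  have h2U : (2 : ℂ) ∈ Lhalf_U := by
    refine ⟨?_, ?_⟩
    · show 1 / 4 < (2 : ℂ).re
      norm_num
    · simp
      norm_num
  refine hG.eqOn_of_preconnected_of_eventuallyEq hF Lhalf_conn h2U ?_ hs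
  have hopen : {s : ℂ | 1 < s.re} ∈ 𝓝 (2 : ℂ) :=
    (isOpen_lt continuous_const Complex.continuous_re).mem_nhds (by
      show 1 < (2 : ℂ).re
      norm_num)
  filter_upwards [hopen] with s hs1
  have a1 := HurwitzZeta.hasSum_hurwitzZeta_of_one_lt_re (a := 1 / 3) ⟨by norm_num, by norm_num⟩ hs1
  have a2 := HurwitzZeta.hasSum_hurwitzZeta_of_one_lt_re (a := 2 / 3) ⟨by norm_num, by norm_num⟩ hs1
  rw [← (a1.sub a2).tsum_eq, ← tsum_mul_left]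
  refine tsum_congr fun k => ?_
  unfold Lhalf_T
  rw [mul_sub]
  have b1 := Lhalf_pow (1 / 3) (by norm_num) k s
  have b2 := Lhalf_pow (2 / 3) (by norm_num) k s
  rw [← b1, ← b2]
  have c1 : 3 * ((k : ℝ) + 1 / 3) = 3 * (k : ℝ) + 1 := by ring
  have c2 : 3 * ((k : ℝ) + 2 / 3) = 3 * (k : ℝ) + 2 := by ring
  rw [c1, c2]

theorem Lhalf : ∃ l : ℝ, HasSum (fun k : ℕ => (3 * (k : ℝ) + 1) ^ (-(1 / 2) : ℝ) -
      (3 * (k : ℝ) + 2) ^ (-(1 / 2) : ℝ)) l ∧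
    HurwitzZeta.hurwitzZeta ((1 / 3 : ℝ) : UnitAddCircle) (1 / 2) -
      HurwitzZeta.hurwitzZeta ((2 / 3 : ℝ) : UnitAddCircle) (1 / 2) =
      ((Real.sqrt 3 * l : ℝ) : ℂ) := by
  have hhalf : (1 / 2 : ℂ) ∈ Lhalf_U := by
    refine ⟨?_, ?_⟩
    · show 1 / 4 < (1 / 2 : ℂ).re
      norm_num
    · simp
      norm_num
  have hT : ∀ k : ℕ, Lhalf_T k (1 / 2) = (((3 * (k : ℝ) + 1) ^ (-(1 / 2) : ℝ) -
      (3 * (k : ℝ) + 2) ^ (-(1 / 2) : ℝ) : ℝ) : ℂ) := by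
    intro k
    have hk : (0 : ℝ) ≤ (k : ℝ) := Nat.cast_nonneg k
    unfold Lhalf_T
    rw [Complex.ofReal_sub, Complex.ofReal_cpow (by positivity), Complex.ofReal_cpow (by positivity)]
    push_cast
    rfl
  have hsumT : Summable (fun k => Lhalf_T k (1 / 2)) :=
    Summable.of_norm_bounded Lhalf_summable (fun k => Lhalf_bound k _ hhalf)
  have hsumR : Summable (fun k : ℕ => (3 * (k : ℝ) + 1) ^ (-(1 / 2) : ℝ) -
      (3 * (k : ℝ) + 2) ^ (-(1 / 2) : ℝ)) := by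
    simp only [hT] at hsumT
    exact Complex.summable_ofReal.mp hsumT
  refine ⟨_, hsumR.hasSum, ?_⟩
  rw [Lhalf_eq _ hhalf]
  simp only [hT]
  rw [← Complex.ofReal_tsum, Complex.ofReal_mul]
  congr 1
  rw [Real.sqrt_eq_rpow, Complex.ofReal_cpow (by norm_num)]
  push_cast
  rfl

end Pool.Agent.Helper88.SE
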