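import Pool.Agent.Helper88.SE3.Defs

set_option autoImplicit false

open MeasureTheory Set Filter Topology
open scoped ENNReal

namespace Pool.Agent.Helper88.SE



theorem hd_mem_aux (R : ℝ) (hR : 0 ≤ R) (a : ℤ) (h : (a : ℝ) ^ 2 ≤ 4 * R ^ 2) :
    -⌈2 * R⌉ ≤ a ∧ a ≤ ⌈2 * R⌉ := by
  have h1 : |(a : ℝ)| ≤ 2 * R := by
    apply abs_le_of_sq_le_sq _ (by linarith)
    linarith
  have h2 := abs_le.1 h1
  have h3 := Int.le_ceil (2 * R)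
  constructor
  · have : ((-⌈2 * R⌉ : ℤ) : ℝ) ≤ (a : ℝ) := by push_cast; linarith
    exact_mod_cast this
  · have : (a : ℝ) ≤ ((⌈2 * R⌉ : ℤ) : ℝ) := by linarith
    exact_mod_cast this

theorem hd_mem (R : ℝ) (hR : 0 ≤ R) (z : ℤ × ℤ) : z ∈ hd R ↔ ((hq z : ℤ) : ℝ) ≤ R ^ 2 := by
  classical
  unfold hd
  rw [Finset.mem_filter]
  constructor
  · exact fun h => h.2
  · intro h
    refine ⟨?_, h⟩
    have hh : (z.1 : ℝ) ^ 2 + z.1 * z.2 + (z.2 : ℝ) ^ 2 ≤ R ^ 2 := by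
      have : ((hq z : ℤ) : ℝ) = (z.1 : ℝ) ^ 2 + z.1 * z.2 + (z.2 : ℝ) ^ 2 := by
        unfold hq; push_cast; ring
      rw [← this]; exact h
    have a1 := hd_mem_aux R hR z.1 (by nlinarith [sq_nonneg ((z.2 : ℝ) + z.1 / 2), sq_nonneg (z.1 : ℝ), sq_nonneg R])
    have a2 := hd_mem_aux R hR z.2 (by nlinarith [sq_nonneg ((z.1 : ℝ) + z.2 / 2), sq_nonneg (z.2 : ℝ), sq_nonneg R])
    rw [Finset.mem_product, Finset.mem_Icc, Finset.mem_Icc]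
    exact ⟨a1, a2⟩

end Pool.Agent.Helper88.SE
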