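import Pool.Agent.Helper88.SE3.Defs
import Pool.Agent.Helper88.SE3.P_ht_summable

set_option autoImplicit false

open MeasureTheory Set Filter Topology
open scoped ENNReal

namespace Pool.Agent.Helper88.SE



theorem ht_sum (s mu : ℝ) (hs : 0 < s) (hmu : 0 < mu) (A : Finset (ℤ × ℤ)) (z : ℤ × ℤ) :
    0 ≤ HS s mu ∧ ∑ w ∈ A, ht s mu (z - w) ≤ HS s mu := by
  classical
  obtain ⟨h0, hsum⟩ := ht_summable s mu hs hmu
  refine ⟨tsum_nonneg h0, ?_⟩
  have hinj : Function.Injective (fun w : ℤ × ℤ => z - w) := fun a b h => sub_right_injective h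
  have h1 : ∑ w ∈ A, ht s mu (z - w) = ∑ v ∈ A.image (fun w => z - w), ht s mu v := by
    rw [Finset.sum_image (fun a _ b _ h => hinj h)]
  rw [h1]
  exact hsum.sum_le_tsum _ (fun v _ => h0 v)

end Pool.Agent.Helper88.SE
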