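import Pool.Agent.Helper88.SE3.Defs

set_option autoImplicit false

open MeasureTheory Set Filter Topology
open scoped ENNReal

namespace Pool.Agent.Helper88.SE



theorem hv_norm_aux (x y : ℝ) : ‖(!₂[x + y / 2, Real.sqrt 3 / 2 * y] : EuclideanSpace ℝ (Fin 2))‖ =
    Real.sqrt (x ^ 2 + x * y + y ^ 2) := by
  rw [EuclideanSpace.norm_eq, Fin.sum_univ_two]
  congr 1
  have h3 : Real.sqrt 3 ^ 2 = 3 := Real.sq_sqrt (by norm_num)
  simp only [Real.norm_eq_abs, sq_abs]
  show (x + y / 2) ^ 2 + (Real.sqrt 3 / 2 * y) ^ 2 = _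
  rw [mul_pow, div_pow, h3]
  ring

theorem hv_norm (z w : ℤ × ℤ) : dist (hv z) (hv w) = Real.sqrt ((hq (z - w) : ℤ) : ℝ) ∧
    ‖hv z‖ = Real.sqrt ((hq z : ℤ) : ℝ) ∧ 0 ≤ hq z ∧ (z ≠ 0 → 1 ≤ hq z) := by
  have hq0 : 0 ≤ hq z := by
    unfold hq
    nlinarith [sq_nonneg (z.1 + z.2), sq_nonneg z.1, sq_nonneg z.2]
  refine ⟨?_, ?_, hq0, ?_⟩
  · have h1 : hv z - hv w = !₂[((z - w).1 : ℝ) + ((z - w).2 : ℝ) / 2,
        Real.sqrt 3 / 2 * ((z - w).2 : ℝ)] := by
      ext i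
      fin_cases i
      · simp [hv]
        ring
      · simp [hv]
        ring
    rw [dist_eq_norm, h1, hv_norm_aux]
    congr 1
    unfold hq
    push_cast
    ring
  · unfold hv
    rw [hv_norm_aux]
    congr 1
    unfold hq
    push_cast
    ring
  · intro hz
    by_contra hcon
    have h0 : hq z = 0 := by omega
    apply hz
    unfold hq at h0
    have h1 : z.1 = 0 := by
      have : z.1 ^ 2 = 0 := by
        nlinarith [sq_nonneg (z.1 + 2 * z.2), sq_nonneg (2 * z.1 + z.2), sq_nonneg z.1,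
          sq_nonneg z.2]
      exact pow_eq_zero_iff (two_ne_zero) |>.1 this
    have h2 : z.2 = 0 := by
      rw [h1] at h0
      have : z.2 ^ 2 = 0 := by linarith
      exact pow_eq_zero_iff (two_ne_zero) |>.1 this
    exact Prod.ext h1 h2

end Pool.Agent.Helper88.SE
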