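import Pool.Agent.Helper88.SE3.Defs

set_option autoImplicit false

open MeasureTheory Set Filter Topology
open scoped ENNReal

namespace Pool.Agent.Helper88.SE



theorem lift_iso (p : E 2) (hp : ‖p‖ = 1) :
    ∃ T : EuclideanSpace ℝ (Fin 2) →ₗᵢ[ℝ] E 2, ∀ a, inner ℝ (T a) p = 0 := by
  have hp0 : p ≠ 0 := by
    intro h
    rw [h, norm_zero] at hp
    exact zero_ne_one hp
  haveI : Fact (Module.finrank ℝ (E 2) = 2 + 1) := ⟨by simp⟩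
  have hr : Module.finrank ℝ (ℝ ∙ p)ᗮ = 2 := Submodule.finrank_orthogonal_span_singleton hp0
  let b := (stdOrthonormalBasis ℝ (ℝ ∙ p)ᗮ).reindex (finCongr hr)
  refine ⟨(ℝ ∙ p)ᗮ.subtypeₗᵢ.comp b.repr.symm.toLinearIsometry, ?_⟩
  intro a
  have h := (b.repr.symm a).2
  have h2 := Submodule.mem_orthogonal_singleton_iff_inner_left.mp h
  exact h2

theorem lift_norm (p : E 2) (hp : ‖p‖ = 1) (T : EuclideanSpace ℝ (Fin 2) →ₗᵢ[ℝ] E 2)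
    (hT : ∀ a, inner ℝ (T a) p = 0) (a : EuclideanSpace ℝ (Fin 2)) (c : ℝ) :
    ‖T a + c • p‖ ^ 2 = ‖a‖ ^ 2 + c ^ 2 := by
  rw [norm_add_sq_real, T.norm_map, real_inner_smul_right, hT a, norm_smul, hp, mul_one,
    Real.norm_eq_abs, sq_abs]
  ring

theorem lift (p : S 2) : ∃ Φ : EuclideanSpace ℝ (Fin 2) → S 2,
    (∀ a b, ‖a‖ ≤ 1 → ‖b‖ ≤ 1 → dist a b ≤ dist (Φ a) (Φ b)) ∧
    (∀ (R : ℝ) a, 0 < R → R ≤ 1 → ‖a‖ ≤ R * Real.sqrt (1 - R ^ 2 / 4) → dist (Φ a) p ≤ R) := by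
  have hp : ‖(p : E 2)‖ = 1 := by simp
  obtain ⟨T, hT⟩ := lift_iso (p : E 2) hp
  have hn : ∀ (a : EuclideanSpace ℝ (Fin 2)) (c : ℝ), ‖T a + c • (p : E 2)‖ ^ 2 = ‖a‖ ^ 2 + c ^ 2 :=
    lift_norm (p : E 2) hp T hT
  have hmem : ∀ a : EuclideanSpace ℝ (Fin 2), ‖a‖ ≤ 1 →
      T a + Real.sqrt (1 - ‖a‖ ^ 2) • (p : E 2) ∈ Metric.sphere (0 : E 2) 1 := by
    intro a ha
    rw [mem_sphere_zero_iff_norm]
    have h1 := hn a (Real.sqrt (1 - ‖a‖ ^ 2))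
    have h2 : 0 ≤ 1 - ‖a‖ ^ 2 := by nlinarith [norm_nonneg a]
    rw [Real.sq_sqrt h2] at h1
    have h3 : ‖T a + Real.sqrt (1 - ‖a‖ ^ 2) • (p : E 2)‖ ^ 2 = 1 := by rw [h1]; ring
    have h4 := norm_nonneg (T a + Real.sqrt (1 - ‖a‖ ^ 2) • (p : E 2))
    nlinarith
  have hd : ∀ (a b : EuclideanSpace ℝ (Fin 2)) (c d : ℝ),
      dist (T a + c • (p : E 2)) (T b + d • (p : E 2)) ^ 2 = ‖a - b‖ ^ 2 + (c - d) ^ 2 := by
    intro a b c d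
    rw [dist_eq_norm, ← hn (a - b) (c - d)]
    congr 2
    rw [map_sub, sub_smul]
    abel
  refine ⟨fun a => if h : ‖a‖ ≤ 1 then ⟨T a + Real.sqrt (1 - ‖a‖ ^ 2) • (p : E 2), hmem a h⟩
    else p, ?_, ?_⟩
  · intro a b ha hb
    simp only [dif_pos ha, dif_pos hb, Subtype.dist_eq]
    have h1 := hd a b (Real.sqrt (1 - ‖a‖ ^ 2)) (Real.sqrt (1 - ‖b‖ ^ 2))
    rw [dist_eq_norm a b]
    refine abs_le_of_sq_le_sq' ?_ dist_nonneg |>.2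
    rw [h1]
    nlinarith [sq_nonneg (Real.sqrt (1 - ‖a‖ ^ 2) - Real.sqrt (1 - ‖b‖ ^ 2))]
  · intro R a hR hR1 ha
    have hs0 : 0 ≤ 1 - R ^ 2 / 4 := by nlinarith
    have hs1 : Real.sqrt (1 - R ^ 2 / 4) ≤ 1 := by
      rw [Real.sqrt_le_left (by norm_num)]
      nlinarith [sq_nonneg R]
    have ha1 : ‖a‖ ≤ 1 := by
      refine ha.trans ?_
      have := Real.sqrt_nonneg (1 - R ^ 2 / 4)
      nlinarith
    have ha2 : ‖a‖ ^ 2 ≤ R ^ 2 * (1 - R ^ 2 / 4) := by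
      have h5 : ‖a‖ ^ 2 ≤ (R * Real.sqrt (1 - R ^ 2 / 4)) ^ 2 :=
        pow_le_pow_left₀ (norm_nonneg a) ha 2
      rw [mul_pow, Real.sq_sqrt hs0] at h5
      exact h5
    simp only [dif_pos ha1, Subtype.dist_eq]
    have h1 := hd a 0 (Real.sqrt (1 - ‖a‖ ^ 2)) 1
    rw [map_zero, zero_add, one_smul, sub_zero] at h1
    have h2 : 0 ≤ 1 - ‖a‖ ^ 2 := by nlinarith [norm_nonneg a]
    have hc : 1 - R ^ 2 / 2 ≤ Real.sqrt (1 - ‖a‖ ^ 2) := by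
      apply Real.le_sqrt_of_sq_le
      nlinarith
    have hc2 := Real.sq_sqrt h2
    refine abs_le_of_sq_le_sq' ?_ hR.le |>.2
    rw [h1]
    nlinarith

end Pool.Agent.Helper88.SE
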