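import Pool.Agent.Helper88.SE3.Defs

set_option autoImplicit false

open MeasureTheory Set Filter Topology
open scoped ENNReal

namespace Pool.Agent.Helper88.SE



theorem reindex {α : Type} [Fintype α] (N : ℕ) (hN : Fintype.card α = N) (y : α → S 2)
    (hy : Function.Injective y) :
    ∃ x : Fin N → S 2, Function.Injective x ∧
      ∀ s lam : ℝ, EL s lam x = ∑ a, ∑ b, KL s lam (y a) (y b) := by
  let e : α ≃ Fin N := Fintype.equivFinOfCardEq hN
  refine ⟨fun i => y (e.symm i), hy.comp e.symm.injective, ?_⟩
  intro s lam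
  unfold EL
  rw [← e.symm.sum_comp (fun a => ∑ b, KL s lam (y a) (y b))]
  refine Finset.sum_congr rfl fun i _ => ?_
  rw [← e.symm.sum_comp (fun b => KL s lam (y (e.symm i)) (y b))]

end Pool.Agent.Helper88.SE
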