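import Pool.Agent.Helper88.SE3.Defs
import Pool.Agent.Helper88.SE3.P_hv_norm
import Pool.Agent.Helper88.SE3.P_hd_mem
import Pool.Agent.Helper88.SE3.P_ht_sum
import Pool.Agent.Helper88.SE3.P_lift
import Pool.Agent.Helper88.SE3.P_reindex

set_option autoImplicit false

open MeasureTheory Set Filter Topology
open scoped ENNReal

namespace Pool.Agent.Helper88.SE



theorem cfg1_hd_bound (R : ℝ) (hR : 0 < R ∧ R ≤ 1) (n : ℕ) (hn : 1 ≤ n) (z : ℤ × ℤ)
    (hz : z ∈ hd (R * Real.sqrt (1 - R ^ 2 / 4) * n)) :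
    ‖((1 : ℝ) / n) • hv z‖ ≤ R * Real.sqrt (1 - R ^ 2 / 4) := by
  have hn0 : (0 : ℝ) < n := by exact_mod_cast hn
  have hs : 0 ≤ R * Real.sqrt (1 - R ^ 2 / 4) := mul_nonneg hR.1.le (Real.sqrt_nonneg _)
  rw [hd_mem _ (by positivity)] at hz
  have h1 := (hv_norm z z).2.1
  rw [norm_smul, h1]
  have h2 : Real.sqrt ((hq z : ℤ) : ℝ) ≤ R * Real.sqrt (1 - R ^ 2 / 4) * n := by
    apply Real.sqrt_le_iff.2
    exact ⟨by positivity, hz⟩
  have h3 : ‖(1 : ℝ) / n‖ = 1 / n := by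
    rw [Real.norm_eq_abs, abs_of_pos (by positivity)]
  rw [h3, div_mul_eq_mul_div, one_mul, div_le_iff₀ hn0]
  exact h2

theorem cfg1_le_one (R : ℝ) (hR : 0 < R ∧ R ≤ 1) : R * Real.sqrt (1 - R ^ 2 / 4) ≤ 1 := by
  have h1 : Real.sqrt (1 - R ^ 2 / 4) ≤ 1 := by
    rw [Real.sqrt_le_one]
    nlinarith [sq_nonneg R]
  calc R * Real.sqrt (1 - R ^ 2 / 4) ≤ 1 * 1 :=
        mul_le_mul hR.2 h1 (Real.sqrt_nonneg _) zero_le_one
    _ = 1 := one_mul 1

theorem cfg1_dist (n : ℕ) (hn : 1 ≤ n) (z w : ℤ × ℤ) :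
    dist (((1 : ℝ) / n) • hv z) (((1 : ℝ) / n) • hv w) = Real.sqrt ((hq (z - w) : ℤ) : ℝ) / n := by
  have hn0 : (0 : ℝ) < n := by exact_mod_cast hn
  rw [dist_smul₀, (hv_norm z w).1]
  have h3 : ‖(1 : ℝ) / n‖ = 1 / n := by
    rw [Real.norm_eq_abs, abs_of_pos (by positivity)]
  rw [h3]; ring

theorem cfg1_KL_same (s mu : ℝ) (hs : 0 < s) (hmu : 0 < mu) (n : ℕ) (hn : 1 ≤ n)
    (z w : ℤ × ℤ) (x y : S 2) (hxy : z = w → x = y)
    (h : Real.sqrt ((hq (z - w) : ℤ) : ℝ) / n ≤ dist x y) :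
    KL s (mu * n) x y ≤ (n : ℝ) ^ s * ht s mu (z - w) := by
  have hn0 : (0 : ℝ) < n := by exact_mod_cast hn
  by_cases hzw : z = w
  · have hx := hxy hzw
    subst hzw
    subst hx
    unfold KL ht
    simp [Real.zero_rpow (neg_ne_zero.2 hs.ne')]
  · have hne : z - w ≠ 0 := sub_ne_zero.2 hzw
    have h1 : 1 ≤ hq (z - w) := (hv_norm (z - w) 0).2.2.2 hne
    have h1' : (1 : ℝ) ≤ ((hq (z - w) : ℤ) : ℝ) := by exact_mod_cast h1
    have hq0 : 0 < Real.sqrt ((hq (z - w) : ℤ) : ℝ) := Real.sqrt_pos.2 (by linarith)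
    unfold KL ht
    rw [if_neg hne]
    have hD : 0 < Real.sqrt ((hq (z - w) : ℤ) : ℝ) / n := by positivity
    have ha : dist x y ^ (-s) ≤ (Real.sqrt ((hq (z - w) : ℤ) : ℝ) / n) ^ (-s) :=
      Real.rpow_le_rpow_of_nonpos hD h (by linarith)
    have hb : Real.exp (-(mu * n * dist x y)) ≤
        Real.exp (-(mu * Real.sqrt ((hq (z - w) : ℤ) : ℝ))) := by
      apply Real.exp_le_exp.2
      have : Real.sqrt ((hq (z - w) : ℤ) : ℝ) ≤ dist x y * n := by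
        rwa [div_le_iff₀ hn0] at h
      nlinarith
    have hc : (Real.sqrt ((hq (z - w) : ℤ) : ℝ) / n) ^ (-s) =
        (n : ℝ) ^ s * Real.sqrt ((hq (z - w) : ℤ) : ℝ) ^ (-s) := by
      rw [Real.div_rpow hq0.le hn0.le, Real.rpow_neg hn0.le, div_inv_eq_mul, mul_comm]
    calc dist x y ^ (-s) * Real.exp (-(mu * n * dist x y))
        ≤ (Real.sqrt ((hq (z - w) : ℤ) : ℝ) / n) ^ (-s) *
          Real.exp (-(mu * Real.sqrt ((hq (z - w) : ℤ) : ℝ))) :=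
          mul_le_mul ha hb (Real.exp_pos _).le (Real.rpow_nonneg hD.le _)
      _ = _ := by rw [hc]; ring

theorem cfg1_KL_diff (s mu g : ℝ) (hs : 0 < s) (hmu : 0 < mu) (hg : 0 < g) (n : ℕ)
    (x y : S 2) (h : g ≤ dist x y) :
    KL s (mu * n) x y ≤ g ^ (-s) * Real.exp (-(mu * n * g)) := by
  unfold KL
  have hn0 : (0 : ℝ) ≤ n := Nat.cast_nonneg n
  have ha : dist x y ^ (-s) ≤ g ^ (-s) := Real.rpow_le_rpow_of_nonpos hg h (by linarith)
  have hb : Real.exp (-(mu * n * dist x y)) ≤ Real.exp (-(mu * n * g)) := by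
    apply Real.exp_le_exp.2
    have : mu * n * g ≤ mu * n * dist x y := mul_le_mul_of_nonneg_left h (by positivity)
    linarith
  exact mul_le_mul ha hb (Real.exp_pos _).le (Real.rpow_nonneg hg.le _)

theorem cfg1 (m : ℕ) (p : Fin m → S 2) (R : Fin m → ℝ) (hR : ∀ i, 0 < R i ∧ R i ≤ 1) (g : ℝ)
    (hg : 0 < g) (hgap : ∀ i j, i ≠ j → ∀ x ∈ Metric.closedBall (p i) (R i),
      ∀ y ∈ Metric.closedBall (p j) (R j), g ≤ dist x y) (n : ℕ) (hn : 1 ≤ n) :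
    ∃ x : Fin (NN R n) → S 2, Function.Injective x ∧ ∀ s mu : ℝ, 0 < s → 0 < mu →
      EL s (mu * n) x ≤ (NN R n : ℝ) * (n : ℝ) ^ s * HS s mu +
        (NN R n : ℝ) ^ 2 * (g ^ (-s) * Real.exp (-(mu * n * g))) := by
  classical
  have hn0 : (0 : ℝ) < n := by exact_mod_cast hn
  choose Φ hΦ1 hΦ2 using fun i => lift (p i)
  set α : Type := Σ i : Fin m, {z // z ∈ hd (R i * Real.sqrt (1 - R i ^ 2 / 4) * n)} with hα
  let y : α → S 2 := fun a => Φ a.1 (((1 : ℝ) / n) • hv a.2.1)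
  have hcard : Fintype.card α = NN R n := by
    simp only [hα, Fintype.card_sigma]
    unfold NN
    apply Finset.sum_congr rfl
    intro i _
    exact Fintype.card_coe _
  have hb : ∀ a : α, ‖((1 : ℝ) / n) • hv a.2.1‖ ≤ R a.1 * Real.sqrt (1 - R a.1 ^ 2 / 4) :=
    fun a => cfg1_hd_bound (R a.1) (hR a.1) n hn a.2.1 a.2.2
  have hball : ∀ a : α, y a ∈ Metric.closedBall (p a.1) (R a.1) := by
    intro a
    rw [Metric.mem_closedBall]
    exact hΦ2 a.1 (R a.1) _ (hR a.1).1 (hR a.1).2 (hb a)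
  have hdiff : ∀ a b : α, a.1 ≠ b.1 → g ≤ dist (y a) (y b) := fun a b hab =>
    hgap a.1 b.1 hab (y a) (hball a) (y b) (hball b)
  have hsame : ∀ (i : Fin m) (z w : {z // z ∈ hd (R i * Real.sqrt (1 - R i ^ 2 / 4) * n)}),
      Real.sqrt ((hq (z.1 - w.1) : ℤ) : ℝ) / n ≤ dist (y ⟨i, z⟩) (y ⟨i, w⟩) := by
    intro i z w
    rw [← cfg1_dist n hn z.1 w.1]
    exact hΦ1 i _ _ ((hb ⟨i, z⟩).trans (cfg1_le_one _ (hR i)))
      ((hb ⟨i, w⟩).trans (cfg1_le_one _ (hR i)))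
  have hinj : Function.Injective y := by
    rintro ⟨i, z⟩ ⟨j, w⟩ hab
    by_cases hij : i = j
    · subst hij
      have h := hsame i z w
      rw [hab, dist_self] at h
      by_cases hzw : z.1 = w.1
      · rw [Subtype.ext hzw]
      · exfalso
        have h1 : 1 ≤ hq (z.1 - w.1) := (hv_norm (z.1 - w.1) 0).2.2.2 (sub_ne_zero.2 hzw)
        have h1' : (1 : ℝ) ≤ ((hq (z.1 - w.1) : ℤ) : ℝ) := by exact_mod_cast h1
        have hq0 : 0 < Real.sqrt ((hq (z.1 - w.1) : ℤ) : ℝ) := Real.sqrt_pos.2 (by linarith)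
        have : 0 < Real.sqrt ((hq (z.1 - w.1) : ℤ) : ℝ) / n := by positivity
        linarith
    · exfalso
      have h := hdiff ⟨i, z⟩ ⟨j, w⟩ hij
      rw [hab, dist_self] at h
      linarith
  obtain ⟨x, hx1, hx2⟩ := reindex (NN R n) hcard y hinj
  refine ⟨x, hx1, fun s mu hs hmu => ?_⟩
  rw [hx2]
  set C := g ^ (-s) * Real.exp (-(mu * n * g)) with hC
  have hC0 : 0 ≤ C := by
    have := Real.rpow_nonneg hg.le (-s)
    positivity
  have hterm : ∀ (i : Fin m) (z : {z // z ∈ hd (R i * Real.sqrt (1 - R i ^ 2 / 4) * n)})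
      (j : Fin m) (w : {z // z ∈ hd (R j * Real.sqrt (1 - R j ^ 2 / 4) * n)}),
      KL s (mu * n) (y ⟨i, z⟩) (y ⟨j, w⟩) ≤
        (if j = i then (n : ℝ) ^ s * ht s mu (z.1 - w.1) else 0) + C := by
    intro i z j w
    by_cases hij : j = i
    · subst hij
      rw [if_pos rfl]
      have := cfg1_KL_same s mu hs hmu n hn z.1 w.1 (y ⟨j, z⟩) (y ⟨j, w⟩)
        (fun h => by rw [Subtype.ext h]) (hsame j z w)
      linarith
    · rw [if_neg hij, zero_add]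
      exact cfg1_KL_diff s mu g hs hmu hg n _ _ (hdiff ⟨i, z⟩ ⟨j, w⟩ (fun h => hij h.symm))
  have hrow : ∀ a : α, ∑ b, KL s (mu * n) (y a) (y b) ≤
      (n : ℝ) ^ s * HS s mu + (NN R n : ℝ) * C := by
    rintro ⟨i, z⟩
    have h1 : ∑ b : α, KL s (mu * n) (y ⟨i, z⟩) (y b) ≤
        ∑ b : α, ((if b.1 = i then (n : ℝ) ^ s * ht s mu (z.1 - b.2.1) else 0) + C) :=
      Finset.sum_le_sum (fun b _ => hterm i z b.1 b.2)
    refine h1.trans ?_
    rw [Finset.sum_add_distrib, Finset.sum_const, Finset.card_univ, hcard, nsmul_eq_mul]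
    have h2 : ∑ b : α, (if b.1 = i then (n : ℝ) ^ s * ht s mu (z.1 - b.2.1) else 0) =
        (n : ℝ) ^ s * ∑ w ∈ hd (R i * Real.sqrt (1 - R i ^ 2 / 4) * n), ht s mu (z.1 - w) := by
      rw [Fintype.sum_sigma]
      rw [Finset.sum_eq_single i]
      · simp only [if_true]
        rw [Finset.mul_sum, ← Finset.sum_coe_sort (hd (R i * Real.sqrt (1 - R i ^ 2 / 4) * n))]
      · intro j _ hj
        apply Finset.sum_eq_zero
        intro w _
        rw [if_neg hj]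
      · intro h; exact absurd (Finset.mem_univ _) h
    rw [h2]
    have h3 := (ht_sum s mu hs hmu (hd (R i * Real.sqrt (1 - R i ^ 2 / 4) * n)) z.1).2
    have h4 : (n : ℝ) ^ s * ∑ w ∈ hd (R i * Real.sqrt (1 - R i ^ 2 / 4) * n), ht s mu (z.1 - w)
        ≤ (n : ℝ) ^ s * HS s mu := mul_le_mul_of_nonneg_left h3 (Real.rpow_nonneg hn0.le _)
    linarith
  calc ∑ a, ∑ b, KL s (mu * n) (y a) (y b)
      ≤ ∑ a : α, ((n : ℝ) ^ s * HS s mu + (NN R n : ℝ) * C) :=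
        Finset.sum_le_sum (fun a _ => hrow a)
    _ = (NN R n : ℝ) * (n : ℝ) ^ s * HS s mu + (NN R n : ℝ) ^ 2 * C := by
        rw [Finset.sum_const, Finset.card_univ, hcard, nsmul_eq_mul]; ring

end Pool.Agent.Helper88.SE
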