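import Pool.Agent.Helper88.SE3.Defs

set_option autoImplicit false

open MeasureTheory Set Filter Topology
open scoped ENNReal

namespace Pool.Agent.Helper88.SE



theorem gap (m : ℕ) (p : Fin m → S 2) (R : Fin m → ℝ)
    (hdis : ∀ i j, i ≠ j →
      Disjoint (Metric.closedBall (p i) (R i)) (Metric.closedBall (p j) (R j))) :
    ∃ g : ℝ, 0 < g ∧ ∀ i j, i ≠ j → ∀ x ∈ Metric.closedBall (p i) (R i),
      ∀ y ∈ Metric.closedBall (p j) (R j), g ≤ dist x y := by
  classical
  have h1 : ∀ q : Fin m × Fin m, ∃ g : ℝ, 0 < g ∧ (q.1 ≠ q.2 →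
      ∀ x ∈ Metric.closedBall (p q.1) (R q.1), ∀ y ∈ Metric.closedBall (p q.2) (R q.2),
        g ≤ dist x y) := by
    intro q
    by_cases hq : q.1 = q.2
    · exact ⟨1, one_pos, fun h => absurd hq h⟩
    · obtain ⟨r, hr, h⟩ := Metric.exists_pos_forall_lt_edist
        (isCompact_closedBall (p q.1) (R q.1)) Metric.isClosed_closedBall (hdis q.1 q.2 hq)
      refine ⟨r, by exact_mod_cast hr, fun _ x hx y hy => ?_⟩
      have h2 := h x hx y hy
      rw [edist_dist] at h2
      have h3 : ((r : ℝ≥0∞)).toReal < (ENNReal.ofReal (dist x y)).toReal :=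
        (ENNReal.toReal_lt_toReal ENNReal.coe_ne_top ENNReal.ofReal_ne_top).2 h2
      rw [ENNReal.toReal_ofReal dist_nonneg, ENNReal.coe_toReal] at h3
      exact h3.le
  choose G hG0 hG using h1
  rcases isEmpty_or_nonempty (Fin m × Fin m) with he | he
  · exact ⟨1, one_pos, fun i j => (he.false (i, j)).elim⟩
  · obtain ⟨q0, hq0⟩ := Finite.exists_min G
    refine ⟨G q0, hG0 q0, fun i j hij x hx y hy => ?_⟩
    exact (hq0 (i, j)).trans (hG (i, j) hij x hx y hy)

end Pool.Agent.Helper88.SE
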