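import Pool.Agent.Helper88.SE3.Defs
import Pool.Agent.Helper88.SE3.P_hv_norm
import Pool.Agent.Helper88.SE3.P_hd_mem

set_option autoImplicit false

open MeasureTheory Set Filter Topology
open scoped ENNReal

namespace Pool.Agent.Helper88.SE



/-- the ellipse -/
def h790ell (r : ℝ) : Set (Fin 2 → ℝ) := {x | x 0 ^ 2 + x 0 * x 1 + x 1 ^ 2 ≤ r ^ 2}

/-- the linear map -/
noncomputable def h790A : (Fin 2 → ℝ) →ₗ[ℝ] (Fin 2 → ℝ) :=
  Matrix.toLin' !![1, 1 / 2; 0, Real.sqrt 3 / 2]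

theorem h790A_zero (x : Fin 2 → ℝ) : h790A x 0 = x 0 + x 1 / 2 := by
  simp [h790A, Matrix.toLin'_apply, Matrix.mulVec, dotProduct, Fin.sum_univ_two]
  ring

theorem h790A_one (x : Fin 2 → ℝ) : h790A x 1 = Real.sqrt 3 / 2 * x 1 := by
  simp [h790A, Matrix.toLin'_apply, Matrix.mulVec, dotProduct, Fin.sum_univ_two]

theorem h790A_det : LinearMap.det h790A = Real.sqrt 3 / 2 := by
  rw [h790A, LinearMap.det_toLin', Matrix.det_fin_two]
  simp

theorem h790_preim (r : ℝ) (hr : 0 ≤ r) : h790ell r =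
    h790A ⁻¹' ((WithLp.toLp 2 : (Fin 2 → ℝ) → EuclideanSpace ℝ (Fin 2)) ⁻¹'
      Metric.closedBall (0 : EuclideanSpace ℝ (Fin 2)) r) := by
  ext x
  rw [Set.mem_preimage, Set.mem_preimage, EuclideanSpace.closedBall_zero_eq r hr]
  simp only [h790ell, Set.mem_ofPred_eq, Fin.sum_univ_two]
  rw [h790A_zero, h790A_one]
  have h3 : Real.sqrt 3 ^ 2 = 3 := Real.sq_sqrt (by norm_num)
  have : (x 0 + x 1 / 2) ^ 2 + (Real.sqrt 3 / 2 * x 1) ^ 2 = x 0 ^ 2 + x 0 * x 1 + x 1 ^ 2 := by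
    have : (Real.sqrt 3 / 2 * x 1) ^ 2 = 3 / 4 * x 1 ^ 2 := by
      rw [mul_pow, div_pow, h3]; ring
    rw [this]; ring
  rw [this]

theorem h790_vol (r : ℝ) (hr : 0 ≤ r) :
    (volume : Measure (Fin 2 → ℝ)).real (h790ell r) = 2 * Real.pi / Real.sqrt 3 * r ^ 2 := by
  have hs : (0 : ℝ) < Real.sqrt 3 := Real.sqrt_pos.2 (by norm_num)
  have h1 : (volume : Measure (Fin 2 → ℝ)) (h790ell r) =
      ENNReal.ofReal |(Real.sqrt 3 / 2)⁻¹| * (ENNReal.ofReal r ^ 2 * ENNReal.ofReal Real.pi) := by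
    rw [h790_preim r hr, MeasureTheory.Measure.addHaar_preimage_linearMap _
      (by rw [h790A_det]; positivity), h790A_det,
      (PiLp.volume_preserving_toLp (Fin 2)).measure_preimage
        Metric.isClosed_closedBall.measurableSet.nullMeasurableSet,
      EuclideanSpace.volume_closedBall_fin_two]
  rw [Measure.real, h1, abs_of_pos (by positivity), ENNReal.toReal_mul, ENNReal.toReal_mul,
    ENNReal.toReal_pow, ENNReal.toReal_ofReal (by positivity), ENNReal.toReal_ofReal hr,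
    ENNReal.toReal_ofReal Real.pi_pos.le]
  field_simp

theorem h790_bdd (r : ℝ) (hr : 0 ≤ r) : Bornology.IsBounded (h790ell r) := by
  refine (Metric.isBounded_closedBall (x := (0 : Fin 2 → ℝ)) (r := 2 * r)).subset ?_
  intro x hx
  have hx : x 0 ^ 2 + x 0 * x 1 + x 1 ^ 2 ≤ r ^ 2 := hx
  rw [mem_closedBall_zero_iff, pi_norm_le_iff_of_nonneg (by positivity)]
  intro i
  rw [Real.norm_eq_abs]
  refine abs_le_of_sq_le_sq' ?_ (by positivity) |> abs_le.2
  fin_cases i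
  · simp only [Fin.zero_eta]
    nlinarith [sq_nonneg (x 0 / 2 + x 1)]
  · simp only [Fin.mk_one]
    nlinarith [sq_nonneg (x 0 + x 1 / 2)]

theorem h790_closed (r : ℝ) : IsClosed (h790ell r) := by
  refine isClosed_le ?_ continuous_const
  fun_prop

theorem h790_convex (r : ℝ) (hr : 0 ≤ r) : Convex ℝ (h790ell r) := by
  rw [h790_preim r hr, ← Set.preimage_comp]
  exact (convex_closedBall (0 : EuclideanSpace ℝ (Fin 2)) r).is_linear_preimage
    ((((WithLp.linearEquiv 2 ℝ (Fin 2 → ℝ)).symm.toLinearMap).comp h790A).isLinear)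

theorem h790_frontier (r : ℝ) (hr : 0 ≤ r) :
    (volume : Measure (Fin 2 → ℝ)) (frontier (h790ell r)) = 0 :=
  (h790_convex r hr).addHaar_frontier _

theorem h790_mem (x : Fin 2 → ℝ) :
    x ∈ Submodule.span ℤ (Set.range (Pi.basisFun ℝ (Fin 2))) ↔ ∀ i, ∃ z : ℤ, (z : ℝ) = x i := by
  rw [Module.Basis.mem_span_iff_repr_mem]
  simp

open scoped Pointwise in
theorem h790_card (r : ℝ) (hr : 0 ≤ r) (n : ℕ) (hn : 0 < n) :
    Nat.card ↑(h790ell r ∩ (n : ℝ)⁻¹ •
      (Submodule.span ℤ (Set.range (Pi.basisFun ℝ (Fin 2))) : Set (Fin 2 → ℝ))) =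
      (hd (r * n)).card := by
  have hn' : (0 : ℝ) < n := by exact_mod_cast hn
  have hinj : Function.Injective (fun z : ℤ × ℤ => (![(z.1 : ℝ) / n, (z.2 : ℝ) / n] : Fin 2 → ℝ)) := by
    intro a b hab
    have h0 := congrFun hab 0
    have h1 := congrFun hab 1
    simp only [Matrix.cons_val_zero, Matrix.cons_val_one] at h0 h1
    rw [div_left_inj' hn'.ne'] at h0 h1
    exact Prod.ext (by exact_mod_cast h0) (by exact_mod_cast h1)
  have hset : h790ell r ∩ (n : ℝ)⁻¹ •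
      (Submodule.span ℤ (Set.range (Pi.basisFun ℝ (Fin 2))) : Set (Fin 2 → ℝ)) =
      (fun z : ℤ × ℤ => (![(z.1 : ℝ) / n, (z.2 : ℝ) / n] : Fin 2 → ℝ)) ''
        (hd (r * n) : Set (ℤ × ℤ)) := by
    have hkey : ∀ z : ℤ × ℤ, z ∈ hd (r * n) ↔
        (![(z.1 : ℝ) / n, (z.2 : ℝ) / n] : Fin 2 → ℝ) ∈ h790ell r := by
      intro z
      rw [hd_mem (r * n) (by positivity)]
      simp only [h790ell, Set.mem_ofPred_eq, Matrix.cons_val_zero, Matrix.cons_val_one, hq]
      push_cast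
      have e : ((z.1 : ℝ) / n) ^ 2 + (z.1 : ℝ) / n * ((z.2 : ℝ) / n) + ((z.2 : ℝ) / n) ^ 2 =
          ((z.1 : ℝ) ^ 2 + z.1 * z.2 + (z.2 : ℝ) ^ 2) / (n : ℝ) ^ 2 := by
        field_simp
      rw [e, div_le_iff₀ (by positivity), mul_pow]
    ext x
    rw [Set.mem_inter_iff, Set.mem_image, Set.mem_smul_set]
    constructor
    · rintro ⟨h1, y, hy, rfl⟩
      rw [SetLike.mem_coe, h790_mem] at hy
      obtain ⟨a, ha⟩ := hy 0
      obtain ⟨b, hb⟩ := hy 1
      have e : (![(a : ℝ) / n, (b : ℝ) / n] : Fin 2 → ℝ) = (n : ℝ)⁻¹ • y := by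
        ext i
        fin_cases i
        · simp [ha]; ring
        · simp [hb]; ring
      refine ⟨(a, b), ?_, e⟩
      rw [Finset.mem_coe, hkey]
      simp only [e]
      exact h1
    · rintro ⟨z, hz, rfl⟩
      refine ⟨(hkey z).1 hz, ![(z.1 : ℝ), (z.2 : ℝ)], ?_, ?_⟩
      · rw [SetLike.mem_coe, h790_mem]
        intro i
        fin_cases i
        · exact ⟨z.1, by simp⟩
        · exact ⟨z.2, by simp⟩
      · ext i
        fin_cases i
        · simp; ring
        · simp; ring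
  rw [hset, Nat.card_image_of_injective hinj]
  simp

theorem hd_count (r : ℝ) (hr : 0 < r) :
    Tendsto (fun n : ℕ => ((hd (r * n)).card : ℝ) / (n : ℝ) ^ 2) atTop
      (𝓝 (2 * Real.pi / Real.sqrt 3 * r ^ 2)) := by
  have h := tendsto_card_div_pow_atTop_volume (h790ell r) (h790_bdd r hr.le)
    (h790_closed r).measurableSet (h790_frontier r hr.le)
  rw [h790_vol r hr.le] at h
  refine h.congr' ?_
  filter_upwards [eventually_gt_atTop 0] with n hn
  rw [h790_card r hr.le n hn]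
  simp

end Pool.Agent.Helper88.SE
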