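import Pool.Agent.Helper88.SE3.Defs
import Pool.Agent.Helper88.SE3.P_law2

set_option autoImplicit false

open MeasureTheory Set Filter Topology
open scoped ENNReal

namespace Pool.Agent.Helper88.SE



theorem sg_ball (x : S 2) (t : ℝ) (ht : 0 ≤ t) (ht2 : t ≤ 2) :
    sg 2 (Metric.closedBall x t) = ENNReal.ofReal (t ^ 2 / 4) := by
  have h := law2 ((Set.Iic t).indicator (fun _ => (1 : ℝ≥0∞)))
    (measurable_const.indicator measurableSet_Iic) x
  have h1 : ∫⁻ y, (Set.Iic t).indicator (fun _ => (1 : ℝ≥0∞)) (dist x y) ∂(sg 2) =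
      sg 2 (Metric.closedBall x t) := by
    rw [← lintegral_indicator_one Metric.isClosed_closedBall.measurableSet]
    refine lintegral_congr fun y => ?_
    by_cases hy : dist x y ≤ t
    · rw [Set.indicator_of_mem (by exact hy), Set.indicator_of_mem
        (by rw [Metric.mem_closedBall, dist_comm]; exact hy)]
      rfl
    · rw [Set.indicator_of_notMem (by exact hy), Set.indicator_of_notMem
        (by rw [Metric.mem_closedBall, dist_comm]; exact hy)]
  rw [← h1, h]
  have h2 : ∫⁻ τ in Icc (0 : ℝ) 2, (Set.Iic t).indicator (fun _ => (1 : ℝ≥0∞)) τ * ENNReal.ofReal (τ / 2) =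
      ∫⁻ τ in Icc (0 : ℝ) t, ENNReal.ofReal (τ / 2) := by
    have h3 : ∀ τ : ℝ, (Set.Iic t).indicator (fun _ => (1 : ℝ≥0∞)) τ * ENNReal.ofReal (τ / 2) =
        (Set.Iic t).indicator (fun τ => ENNReal.ofReal (τ / 2)) τ := by
      intro τ
      by_cases hτ : τ ∈ Set.Iic t
      · rw [Set.indicator_of_mem hτ, Set.indicator_of_mem hτ, one_mul]
      · rw [Set.indicator_of_notMem hτ, Set.indicator_of_notMem hτ, zero_mul]
    simp_rw [h3]
    rw [lintegral_indicator measurableSet_Iic, Measure.restrict_restrict measurableSet_Iic]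
    congr 2
    ext τ
    simp only [Set.mem_inter_iff, Set.mem_Iic, Set.mem_Icc]
    constructor
    · rintro ⟨a, b, c⟩; exact ⟨b, a⟩
    · rintro ⟨a, b⟩; exact ⟨b, a, b.trans ht2⟩
  rw [h2]
  have h4 : ∫ τ in Icc (0 : ℝ) t, τ / 2 = t ^ 2 / 4 := by
    rw [integral_Icc_eq_integral_Ioc, ← intervalIntegral.integral_of_le ht]
    rw [intervalIntegral.integral_div, integral_id]
    ring
  rw [← h4]
  symm
  refine ofReal_integral_eq_lintegral_ofReal ?_ ?_
  · exact (continuous_id.div_const 2).continuousOn.integrableOn_Icc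
  · refine (ae_restrict_iff' measurableSet_Icc).mpr (Filter.Eventually.of_forall fun τ hτ => ?_)
    exact div_nonneg hτ.1 (by norm_num)

end Pool.Agent.Helper88.SE
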