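import Pool.Agent.Helper88.SE3.Defs
import Pool.Agent.Helper88.SE3.P_sg_prob
import Pool.Agent.Helper88.SE3.P_sg_ball

set_option autoImplicit false

open MeasureTheory Set Filter Topology
open scoped ENNReal

namespace Pool.Agent.Helper88.SE



theorem vitali (η : ℝ) (hη : 0 < η) (hη1 : η ≤ 1 / 2) :
    ∃ (m : ℕ) (p : Fin m → S 2) (R : Fin m → ℝ), (∀ i, 0 < R i ∧ R i ≤ η) ∧
      (∀ i j, i ≠ j → Disjoint (Metric.closedBall (p i) (R i)) (Metric.closedBall (p j) (R j))) ∧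
      4 * (1 - η) ≤ ∑ i, R i ^ 2 ∧ ∑ i, R i ^ 2 ≤ 4 := by
  classical
  haveI := sg_prob 2
  obtain ⟨u, hut, hucount, hudisj, hucov⟩ :=
    Vitali.exists_disjoint_covering_ae (sg 2) Set.univ {a : S 2 × ℝ | 0 < a.2 ∧ a.2 ≤ η} 9
      (fun a => a.2) (fun a => a.1) (fun a => Metric.closedBall a.1 a.2) (fun a _ => le_rfl)
      (by
        rintro ⟨x, r⟩ ⟨h0, h1⟩
        simp only at h0 h1 ⊢
        rw [sg_ball x (3 * r) (by linarith) (by linarith), sg_ball x r h0.le (by linarith)]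
        have : (3 * r) ^ 2 / 4 = 9 * (r ^ 2 / 4) := by ring
        rw [this, ENNReal.ofReal_mul (by norm_num)]
        simp)
      (by
        rintro ⟨x, r⟩ ⟨h0, h1⟩
        exact ⟨x, mem_interior_iff_mem_nhds.2 (Metric.closedBall_mem_nhds x h0)⟩)
      (fun a _ => Metric.isClosed_closedBall)
      (by
        intro x _ ε hε
        exact ⟨(x, min ε η), ⟨lt_min hε hη, min_le_right _ _⟩, min_le_left _ _, rfl⟩)
  have hmeas : ∀ a ∈ u, MeasurableSet (Metric.closedBall (a : S 2 × ℝ).1 a.2) :=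
    fun a _ => Metric.isClosed_closedBall.measurableSet
  have hU : sg 2 (⋃ a ∈ u, Metric.closedBall (a : S 2 × ℝ).1 a.2) = 1 := by
    have hm : MeasurableSet (⋃ a ∈ u, Metric.closedBall (a : S 2 × ℝ).1 a.2) :=
      MeasurableSet.biUnion hucount hmeas
    have h1 := measure_add_measure_compl (μ := sg 2) hm
    rw [Set.compl_eq_univ_diff, hucov, add_zero, measure_univ] at h1
    exact h1
  rw [measure_biUnion hucount hudisj hmeas] at hU
  rw [ENNReal.tsum_eq_iSup_sum] at hU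
  have hlt : ENNReal.ofReal (1 - η) <
      ⨆ F : Finset u, ∑ a ∈ F, sg 2 (Metric.closedBall (a : S 2 × ℝ).1 (a : S 2 × ℝ).2) := by
    rw [hU, ← ENNReal.ofReal_one]
    exact (ENNReal.ofReal_lt_ofReal_iff one_pos).2 (by linarith)
  obtain ⟨F, hF⟩ := lt_iSup_iff.1 hlt
  let e : Fin F.card ≃ F := F.equivFin.symm
  have hR : ∀ i : Fin F.card, 0 < ((e i : u) : S 2 × ℝ).2 ∧ ((e i : u) : S 2 × ℝ).2 ≤ η :=
    fun i => hut (e i : u).2
  have hdis : ∀ i j : Fin F.card, i ≠ j →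
      Disjoint (Metric.closedBall ((e i : u) : S 2 × ℝ).1 ((e i : u) : S 2 × ℝ).2)
        (Metric.closedBall ((e j : u) : S 2 × ℝ).1 ((e j : u) : S 2 × ℝ).2) := by
    intro i j hij
    apply hudisj (e i : u).2 (e j : u).2
    intro h
    apply hij
    apply e.injective
    exact Subtype.ext (Subtype.ext h)
  have hsum : ∑ a ∈ F, sg 2 (Metric.closedBall (a : S 2 × ℝ).1 (a : S 2 × ℝ).2) =
      ENNReal.ofReal ((∑ i : Fin F.card, ((e i : u) : S 2 × ℝ).2 ^ 2) / 4) := by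
    rw [← Finset.sum_coe_sort, ← Equiv.sum_comp e, Finset.sum_div, ENNReal.ofReal_sum_of_nonneg]
    · apply Finset.sum_congr rfl
      intro i _
      exact sg_ball _ _ (hR i).1.le (by linarith [(hR i).2])
    · intro i _
      positivity
  refine ⟨F.card, fun i => ((e i : u) : S 2 × ℝ).1, fun i => ((e i : u) : S 2 × ℝ).2, hR, hdis,
    ?_, ?_⟩
  · rw [hsum] at hF
    have h2 := (ENNReal.ofReal_lt_ofReal_iff_of_nonneg (by linarith)).1 hF
    linarith
  · have h3 : ∑ a ∈ F, sg 2 (Metric.closedBall (a : S 2 × ℝ).1 (a : S 2 × ℝ).2) ≤ 1 := by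
      rw [← hU]
      exact le_iSup (fun F : Finset u =>
        ∑ a ∈ F, sg 2 (Metric.closedBall (a : S 2 × ℝ).1 (a : S 2 × ℝ).2)) F
    rw [hsum, ← ENNReal.ofReal_one] at h3
    have h4 := (ENNReal.ofReal_le_ofReal_iff (by norm_num)).1 h3
    linarith

end Pool.Agent.Helper88.SE
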