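import Pool.Agent.Helper88.SE3.Defs
import Pool.Agent.Helper88.SE3.P_hd_count
import Pool.Agent.Helper88.SE3.P_vitali
import Pool.Agent.Helper88.SE3.P_gap
import Pool.Agent.Helper88.SE3.P_cfg1

set_option autoImplicit false

open MeasureTheory Set Filter Topology
open scoped ENNReal

namespace Pool.Agent.Helper88.SE



theorem cfg (η : ℝ) (hη : 0 < η) (hη1 : η ≤ 1 / 2) :
    ∃ ν g : ℝ, 0 < g ∧ 8 * Real.pi / Real.sqrt 3 * (1 - η) ^ 2 ≤ ν ∧
      ν ≤ 8 * Real.pi / Real.sqrt 3 ∧ ∃ (N : ℕ → ℕ) (x : ∀ n, Fin (N n) → S 2),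
      (∀ n, 1 ≤ n → Function.Injective (x n)) ∧
      Tendsto (fun n : ℕ => (N n : ℝ) / (n : ℝ) ^ 2) atTop (𝓝 ν) ∧
      ∀ n : ℕ, 1 ≤ n → ∀ s mu : ℝ, 0 < s → 0 < mu →
        EL s (mu * n) (x n) ≤ (N n : ℝ) * (n : ℝ) ^ s * HS s mu +
          (N n : ℝ) ^ 2 * (g ^ (-s) * Real.exp (-(mu * n * g))) := by
  obtain ⟨m, p, R, hR, hdis, hlow, hup⟩ := vitali η hη hη1
  obtain ⟨g, hg, hgap⟩ := gap m p R hdis
  have hR1 : ∀ i, 0 < R i ∧ R i ≤ 1 := fun i => ⟨(hR i).1, by linarith [(hR i).2]⟩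
  have hq : ∀ i, R i ^ 2 / 4 ≤ η := by
    intro i
    have h1 := (hR i).1
    have h2 := (hR i).2
    nlinarith
  have hpos : ∀ i, 0 < 1 - R i ^ 2 / 4 := fun i => by linarith [hq i]
  have hcfg : ∀ n : ℕ, ∃ x : Fin (NN R n) → S 2, 1 ≤ n → (Function.Injective x ∧
      ∀ s mu : ℝ, 0 < s → 0 < mu →
        EL s (mu * n) x ≤ (NN R n : ℝ) * (n : ℝ) ^ s * HS s mu +
          (NN R n : ℝ) ^ 2 * (g ^ (-s) * Real.exp (-(mu * n * g)))) := by
    intro n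
    by_cases hn : 1 ≤ n
    · obtain ⟨x, hx⟩ := cfg1 m p R hR1 g hg hgap n hn
      exact ⟨x, fun _ => hx⟩
    · exact ⟨fun _ => nrm 0, fun h => absurd h hn⟩
  choose x hx using hcfg
  have hs3 : 0 < Real.sqrt 3 := Real.sqrt_pos.2 (by norm_num)
  have hc : 0 < 2 * Real.pi / Real.sqrt 3 := by
    have := Real.pi_pos
    positivity
  refine ⟨∑ i, 2 * Real.pi / Real.sqrt 3 * (R i * Real.sqrt (1 - R i ^ 2 / 4)) ^ 2, g, hg, ?_, ?_,
    fun n => NN R n, x, fun n hn => (hx n hn).1, ?_, fun n hn s mu hs hmu => (hx n hn).2 s mu hs hmu⟩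
  · have h1 : ∀ i ∈ (Finset.univ : Finset (Fin m)), 2 * Real.pi / Real.sqrt 3 * (R i ^ 2 * (1 - η)) ≤
        2 * Real.pi / Real.sqrt 3 * (R i * Real.sqrt (1 - R i ^ 2 / 4)) ^ 2 := by
      intro i _
      rw [mul_pow, Real.sq_sqrt (hpos i).le]
      apply mul_le_mul_of_nonneg_left _ hc.le
      apply mul_le_mul_of_nonneg_left _ (sq_nonneg _)
      linarith [hq i]
    refine le_trans ?_ (Finset.sum_le_sum h1)
    rw [← Finset.mul_sum, ← Finset.sum_mul]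
    have h2 : 4 * (1 - η) * (1 - η) ≤ (∑ i, R i ^ 2) * (1 - η) :=
      mul_le_mul_of_nonneg_right hlow (by linarith)
    calc 8 * Real.pi / Real.sqrt 3 * (1 - η) ^ 2
        = 2 * Real.pi / Real.sqrt 3 * (4 * (1 - η) * (1 - η)) := by ring
      _ ≤ _ := mul_le_mul_of_nonneg_left h2 hc.le
  · have h1 : ∀ i ∈ (Finset.univ : Finset (Fin m)),
        2 * Real.pi / Real.sqrt 3 * (R i * Real.sqrt (1 - R i ^ 2 / 4)) ^ 2 ≤
        2 * Real.pi / Real.sqrt 3 * R i ^ 2 := by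
      intro i _
      rw [mul_pow, Real.sq_sqrt (hpos i).le]
      apply mul_le_mul_of_nonneg_left _ hc.le
      have := sq_nonneg (R i)
      nlinarith
    refine (Finset.sum_le_sum h1).trans ?_
    rw [← Finset.mul_sum]
    calc 2 * Real.pi / Real.sqrt 3 * ∑ i, R i ^ 2
        ≤ 2 * Real.pi / Real.sqrt 3 * 4 := mul_le_mul_of_nonneg_left hup hc.le
      _ = 8 * Real.pi / Real.sqrt 3 := by ring
  · have h1 : (fun n : ℕ => ((NN R n : ℕ) : ℝ) / (n : ℝ) ^ 2) = fun n : ℕ =>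
        ∑ i, ((hd (R i * Real.sqrt (1 - R i ^ 2 / 4) * n)).card : ℝ) / (n : ℝ) ^ 2 := by
      funext n
      unfold NN
      push_cast
      rw [Finset.sum_div]
    rw [h1]
    apply tendsto_finsetSum
    intro i _
    exact hd_count _ (mul_pos (hR i).1 (Real.sqrt_pos.2 (hpos i)))

end Pool.Agent.Helper88.SE
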