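import Pool.Agent.Helper88.SE3.Defs
import Pool.Agent.Helper88.SE3.P_TR3
import Pool.Agent.Helper88.SE3.P_J_asymp

set_option autoImplicit false

open MeasureTheory Set Filter Topology
open scoped ENNReal

namespace Pool.Agent.Helper88.SE



theorem pow_sq352 (a t e : ℝ) (ha : 0 < a) (ht : 0 < t) : (a * t ^ 2) ^ e = a ^ e * t ^ (2 * e) := by
  rw [Real.mul_rpow ha.le (by positivity)]
  congr 1
  rw [show t ^ 2 = t ^ (2:ℝ) by norm_cast, ← Real.rpow_mul ht.le]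

theorem mono352 (a t s mu g H E : ℝ) (ha : 0 < a) (ht : 0 < t)
    (hE : E ≤ (a * t ^ 2) * t ^ s * H + (a * t ^ 2) ^ 2 * (g ^ (-s) * Real.exp (-(mu * t * g)))) :
    (a * t ^ 2) ^ (-(1 + s / 2)) * E ≤
      a ^ (-(s / 2)) * H + a ^ (1 - s / 2) * (t ^ (2 - s) * Real.exp (-(mu * g) * t)) * g ^ (-s) := by
  have hM : 0 < a * t ^ 2 := by positivity
  refine (mul_le_mul_of_nonneg_left hE (Real.rpow_nonneg hM.le _)).trans (le_of_eq ?_)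
  have e1 : (a * t ^ 2) ^ (-(1 + s / 2)) * (a * t ^ 2) = a ^ (-(s / 2)) * t ^ (-s) := by
    have : (a * t ^ 2) ^ (-(1 + s / 2)) * (a * t ^ 2) = (a * t ^ 2) ^ (-(s / 2)) := by
      nth_rw 2 [← Real.rpow_one (a * t ^ 2)]
      rw [← Real.rpow_add hM]
      congr 1
      ring
    rw [this, pow_sq352 a t _ ha ht]
    congr 2
    ring
  have e2 : (a * t ^ 2) ^ (-(1 + s / 2)) * (a * t ^ 2) ^ 2 = a ^ (1 - s / 2) * t ^ (2 - s) := by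
    have : (a * t ^ 2) ^ (-(1 + s / 2)) * (a * t ^ 2) ^ 2 = (a * t ^ 2) ^ (1 - s / 2) := by
      rw [show (a * t ^ 2) ^ 2 = (a * t ^ 2) ^ (2:ℝ) by norm_cast, ← Real.rpow_add hM]
      congr 1
      ring
    rw [this, pow_sq352 a t _ ha ht]
    congr 2
    ring
  have e3 : t ^ (-s) * t ^ s = 1 := by
    rw [← Real.rpow_add ht]
    simp
  have e4 : Real.exp (-(mu * t * g)) = Real.exp (-(mu * g) * t) := by
    congr 1
    ring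
  calc (a * t ^ 2) ^ (-(1 + s / 2)) * ((a * t ^ 2) * t ^ s * H +
        (a * t ^ 2) ^ 2 * (g ^ (-s) * Real.exp (-(mu * t * g))))
      = ((a * t ^ 2) ^ (-(1 + s / 2)) * (a * t ^ 2)) * t ^ s * H +
        ((a * t ^ 2) ^ (-(1 + s / 2)) * (a * t ^ 2) ^ 2) *
          (g ^ (-s) * Real.exp (-(mu * t * g))) := by ring
    _ = a ^ (-(s / 2)) * (t ^ (-s) * t ^ s) * H + a ^ (1 - s / 2) * t ^ (2 - s) *
          (g ^ (-s) * Real.exp (-(mu * t * g))) := by rw [e1, e2]; ring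
    _ = _ := by rw [e3, e4]; ring

theorem up1a (s : ℝ) (hs : 0 < s) (hs2 : s < 2) (C : ℝ)
    (hC : Tendsto (fun N : ℕ => F 2 s N / (N : ℝ) ^ (1 + s / 2)) atTop (𝓝 C))
    (mu ν g : ℝ) (hmu : 0 < mu) (hν : 0 < ν) (hg : 0 < g) (N : ℕ → ℕ)
    (x : ∀ n, Fin (N n) → S 2) (hinj : ∀ n, 1 ≤ n → Function.Injective (x n))
    (hN : Tendsto (fun n : ℕ => (N n : ℝ) / (n : ℝ) ^ 2) atTop (𝓝 ν))
    (hE : ∀ n : ℕ, 1 ≤ n → EL s (mu * n) (x n) ≤ (N n : ℝ) * (n : ℝ) ^ s * HS s mu +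
          (N n : ℝ) ^ 2 * (g ^ (-s) * Real.exp (-(mu * n * g)))) :
    C ≤ ν ^ (-(s / 2)) * HS s mu - ν ^ (1 - s / 2) * (mu ^ (s - 2) * (Real.Gamma (2 - s) / 2)) := by
  obtain ⟨cinf, C₄, e₀, e₁, hc, hC4, he0, he1, hJ, hT⟩ :=
    TR3 2 (by norm_num) s hs (by norm_num; exact hs2)
  have hcast : ((2 : ℕ) : ℝ) = 2 := by norm_num
  simp only [hcast] at hJ hT
  have hcinf : cinf = Real.Gamma (2 - s) / 2 := tendsto_nhds_unique hJ (J_asymp s hs hs2)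
  -- step 1
  have step1 : ∀ n : ℕ, 1 ≤ n → 1 ≤ N n →
      C ≤ (1 + ((√(n:ℝ))⁻¹) ^ 2) ^ e₀ * ((N n : ℝ) ^ (-(1 + s / 2)) * EL s (mu * n) (x n)) -
        (1 + ((√(n:ℝ))⁻¹) ^ 2) ^ (-e₁) * ((N n : ℝ) ^ (1 - s / 2) * (mu * n) ^ (s - 2)) *
          (cinf * (1 - C₄ / ((√(n:ℝ))⁻¹ * (mu * n)))) := by
    intro n hn hNn
    have hn0 : (0:ℝ) < n := by exact_mod_cast hn
    have hsq : 0 < √(n:ℝ) := Real.sqrt_pos.mpr hn0
    have hρ1 : (√(n:ℝ))⁻¹ ≤ 1 :=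
      inv_le_one_of_one_le₀ (Real.one_le_sqrt.mpr (by exact_mod_cast hn))
    refine le_of_forall_pos_le_add fun ε hε => ?_
    exact le_of_tendsto hC (hT (N n) hNn (x n) (hinj n hn) _ (inv_pos.mpr hsq) hρ1 (mu * n)
      (by positivity) ε hε)
  have hNpos : ∀ᶠ n : ℕ in atTop, 1 ≤ N n := by
    filter_upwards [hN.eventually (lt_mem_nhds hν)] with n hn
    by_contra h
    have h0 : N n = 0 := by omega
    rw [h0] at hn
    simp at hn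
  -- the limit
  have hinv : Tendsto (fun n : ℕ => 1 + ((n : ℝ))⁻¹) atTop (𝓝 (1 + 0)) :=
    tendsto_const_nhds.add tendsto_inv_atTop_nhds_zero_nat
  have hp : ∀ e : ℝ, Tendsto (fun n : ℕ => (1 + ((n : ℝ))⁻¹) ^ e) atTop (𝓝 ((1 + 0) ^ e)) :=
    fun e => hinv.rpow_const (Or.inl (by norm_num))
  have ha : ∀ e : ℝ, Tendsto (fun n : ℕ => ((N n : ℝ) / (n : ℝ) ^ 2) ^ e) atTop (𝓝 (ν ^ e)) :=
    fun e => hN.rpow_const (Or.inl hν.ne')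
  have hexp : Tendsto (fun n : ℕ => (n : ℝ) ^ (2 - s) * Real.exp (-(mu * g) * n)) atTop (𝓝 0) :=
    (tendsto_rpow_mul_exp_neg_mul_atTop_nhds_zero (2 - s) (mu * g) (by positivity)).comp
      tendsto_natCast_atTop_atTop
  have hsqrt : Tendsto (fun n : ℕ => mu * √(n:ℝ)) atTop atTop :=
    (Real.tendsto_sqrt_atTop.comp tendsto_natCast_atTop_atTop).const_mul_atTop hmu
  have hC4' : Tendsto (fun n : ℕ => C₄ / (mu * √(n:ℝ))) atTop (𝓝 0) :=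
    tendsto_const_nhds.div_atTop hsqrt
  have hU : Tendsto (fun n : ℕ => (1 + ((n : ℝ))⁻¹) ^ e₀ *
        (((N n : ℝ) / (n : ℝ) ^ 2) ^ (-(s / 2)) * HS s mu +
          ((N n : ℝ) / (n : ℝ) ^ 2) ^ (1 - s / 2) *
            ((n : ℝ) ^ (2 - s) * Real.exp (-(mu * g) * n)) * g ^ (-s)) -
        (1 + ((n : ℝ))⁻¹) ^ (-e₁) * (((N n : ℝ) / (n : ℝ) ^ 2) ^ (1 - s / 2) * mu ^ (s - 2)) *
          (cinf * (1 - C₄ / (mu * √(n:ℝ))))) atTop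
      (𝓝 ((1 + 0) ^ e₀ * (ν ^ (-(s / 2)) * HS s mu + ν ^ (1 - s / 2) * 0 * g ^ (-s)) -
        (1 + 0) ^ (-e₁) * (ν ^ (1 - s / 2) * mu ^ (s - 2)) * (cinf * (1 - 0)))) := by
    refine Tendsto.sub ((hp e₀).mul (((ha _).mul_const _).add
      (((ha _).mul hexp).mul_const _))) (((hp (-e₁)).mul ((ha _).mul_const _)).mul
        (tendsto_const_nhds.mul (tendsto_const_nhds.sub hC4')))
  have hlim : ((1 + 0 : ℝ) ^ e₀ * (ν ^ (-(s / 2)) * HS s mu + ν ^ (1 - s / 2) * 0 * g ^ (-s)) -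
        (1 + 0) ^ (-e₁) * (ν ^ (1 - s / 2) * mu ^ (s - 2)) * (cinf * (1 - 0))) =
      ν ^ (-(s / 2)) * HS s mu - ν ^ (1 - s / 2) * (mu ^ (s - 2) * (Real.Gamma (2 - s) / 2)) := by
    rw [hcinf]
    simp only [add_zero, Real.one_rpow, sub_zero]
    ring
  rw [hlim] at hU
  refine ge_of_tendsto hU ?_
  filter_upwards [hNpos, eventually_ge_atTop 1] with n hNn hn
  refine (step1 n hn hNn).trans ?_
  have hn0 : (0:ℝ) < n := by exact_mod_cast hn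
  have hN0 : (0:ℝ) < N n := by exact_mod_cast hNn
  have hsq : 0 < √(n:ℝ) := Real.sqrt_pos.mpr hn0
  have hss : √(n:ℝ) * √(n:ℝ) = n := Real.mul_self_sqrt hn0.le
  set a : ℝ := (N n : ℝ) / (n : ℝ) ^ 2 with hadef
  have ha0 : 0 < a := by positivity
  have hNa : (N n : ℝ) = a * (n : ℝ) ^ 2 := by
    rw [hadef]
    field_simp
  have k1 : ((√(n:ℝ))⁻¹) ^ 2 = ((n : ℝ))⁻¹ := by
    rw [inv_pow, Real.sq_sqrt hn0.le]
  have k2 : (√(n:ℝ))⁻¹ * (mu * n) = mu * √(n:ℝ) := by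
    rw [inv_mul_eq_div, div_eq_iff hsq.ne', mul_assoc, hss]
  have k3 : (N n : ℝ) ^ (1 - s / 2) * (mu * n) ^ (s - 2) = a ^ (1 - s / 2) * mu ^ (s - 2) := by
    rw [hNa, pow_sq352 a n _ ha0 hn0, Real.mul_rpow hmu.le hn0.le]
    have : (n:ℝ) ^ (2 * (1 - s / 2)) * (n:ℝ) ^ (s - 2) = 1 := by
      rw [← Real.rpow_add hn0]
      rw [show 2 * (1 - s / 2) + (s - 2) = 0 by ring, Real.rpow_zero]
    calc a ^ (1 - s / 2) * (n:ℝ) ^ (2 * (1 - s / 2)) * (mu ^ (s - 2) * (n:ℝ) ^ (s - 2))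
        = a ^ (1 - s / 2) * mu ^ (s - 2) *
          ((n:ℝ) ^ (2 * (1 - s / 2)) * (n:ℝ) ^ (s - 2)) := by ring
      _ = _ := by rw [this, mul_one]
  rw [k1, k2, k3]
  have hE' := hE n hn
  rw [hNa] at hE'
  have k4 := mono352 a n s mu g (HS s mu) _ ha0 hn0 hE'
  rw [← hNa] at k4
  have k5 : (0:ℝ) ≤ (1 + ((n : ℝ))⁻¹) ^ e₀ := Real.rpow_nonneg (by positivity) _
  exact sub_le_sub_right (mul_le_mul_of_nonneg_left k4 k5) _

end Pool.Agent.Helper88.SE
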