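import Pool.Agent.Helper88.SE3.Defs
import Pool.Agent.Helper88.SE3.P_cfg
import Pool.Agent.Helper88.SE3.P_up1a

set_option autoImplicit false

open MeasureTheory Set Filter Topology
open scoped ENNReal

namespace Pool.Agent.Helper88.SE



theorem up1 (s : ℝ) (hs : 0 < s) (hs2 : s < 2) (C : ℝ)
    (hC : Tendsto (fun N : ℕ => F 2 s N / (N : ℝ) ^ (1 + s / 2)) atTop (𝓝 C))
    (mu : ℝ) (hmu : 0 < mu) :
    C ≤ (8 * Real.pi / Real.sqrt 3) ^ (-(s / 2)) * (HS s mu -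
      4 * Real.pi / Real.sqrt 3 * (mu ^ (s - 2) * Real.Gamma (2 - s))) := by
  have h3 : (0 : ℝ) < Real.sqrt 3 := Real.sqrt_pos.2 (by norm_num)
  set ν₀ : ℝ := 8 * Real.pi / Real.sqrt 3 with hν₀
  have hν₀pos : 0 < ν₀ := by
    have := Real.pi_pos
    positivity
  set f : ℝ → ℝ := fun ν => ν ^ (-(s / 2)) * HS s mu -
    ν ^ (1 - s / 2) * (mu ^ (s - 2) * (Real.Gamma (2 - s) / 2)) with hf
  -- the sequence of densities
  have key : ∀ n : ℕ, ∃ ν : ℝ, ν₀ * (1 - 1 / ((n : ℝ) + 2)) ^ 2 ≤ ν ∧ ν ≤ ν₀ ∧ C ≤ f ν := by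
    intro n
    have hη : (0 : ℝ) < 1 / ((n : ℝ) + 2) := by positivity
    have hη1 : 1 / ((n : ℝ) + 2) ≤ 1 / 2 := by
      apply one_div_le_one_div_of_le (by norm_num)
      have : (0 : ℝ) ≤ n := Nat.cast_nonneg n
      linarith
    obtain ⟨ν, g, hg, h1, h2, N, x, hinj, hN, hE⟩ := cfg _ hη hη1
    refine ⟨ν, h1, h2, ?_⟩
    have hν : 0 < ν := by
      refine lt_of_lt_of_le ?_ h1
      have : 0 < 1 - 1 / ((n : ℝ) + 2) := by linarith
      positivity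
    exact up1a s hs hs2 C hC mu ν g hmu hν hg N x hinj hN (fun n hn => hE n hn s mu hs hmu)
  choose ν h1 h2 h4 using key
  have hlim0 : Tendsto (fun n : ℕ => 1 / ((n : ℝ) + 2)) atTop (𝓝 0) := by
    have h5 : Tendsto (fun n : ℕ => (n : ℝ) + 2) atTop atTop :=
      tendsto_atTop_add_const_right _ _ tendsto_natCast_atTop_atTop
    have h6 := h5.inv_tendsto_atTop
    refine h6.congr fun n => ?_
    simp
  have hlim1 : Tendsto (fun n : ℕ => ν₀ * (1 - 1 / ((n : ℝ) + 2)) ^ 2) atTop (𝓝 ν₀) := by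
    have := ((hlim0.const_sub 1).pow 2).const_mul ν₀
    simpa using this
  have hlim : Tendsto ν atTop (𝓝 ν₀) :=
    tendsto_of_tendsto_of_tendsto_of_le_of_le hlim1 tendsto_const_nhds h1 h2
  have hcont : ContinuousAt f ν₀ := by
    have hc1 : ContinuousAt (fun ν : ℝ => ν ^ (-(s / 2))) ν₀ :=
      Real.continuousAt_rpow_const _ _ (Or.inl hν₀pos.ne')
    have hc2 : ContinuousAt (fun ν : ℝ => ν ^ (1 - s / 2)) ν₀ :=
      Real.continuousAt_rpow_const _ _ (Or.inl hν₀pos.ne')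
    exact (hc1.mul_const _).sub (hc2.mul_const _)
  have hle : C ≤ f ν₀ := ge_of_tendsto' (hcont.tendsto.comp hlim) h4
  refine hle.trans (le_of_eq ?_)
  have h6 : ν₀ ^ (1 - s / 2) = ν₀ ^ (-(s / 2)) * ν₀ := by
    rw [show (1 - s / 2 : ℝ) = -(s / 2) + 1 by ring, Real.rpow_add hν₀pos, Real.rpow_one]
  have h7 : ν₀ / 2 = 4 * Real.pi / Real.sqrt 3 := by rw [hν₀]; ring
  simp only [hf]
  rw [h6, ← h7]
  ring

end Pool.Agent.Helper88.SE
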