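import Pool.Agent.Helper88.SE3.Defs

set_option autoImplicit false

open MeasureTheory Set Filter Topology
open scoped ENNReal

namespace Pool.Agent.Helper88.SE



namespace ZH

noncomputable def fz (s : ℂ) (n : ℕ) : ℂ :=
  (s - 1) * ((n : ℂ) + 1) ^ (-s) + ((n : ℂ) + 2) ^ (1 - s) - ((n : ℂ) + 1) ^ (1 - s)

lemma dcpow (c : ℂ) (x : ℝ) (hx : 0 < x) :
    HasDerivAt (fun y : ℝ => (y : ℂ) ^ c) (c * (x : ℂ) ^ (c - 1)) x := by
  have h1 : HasDerivAt (fun z : ℂ => z ^ c) (c * (x : ℂ) ^ (c - 1) * 1) (x : ℂ) :=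
    (hasDerivAt_id (x : ℂ)).cpow_const (Complex.ofReal_mem_slitPlane.2 hx)
  rw [mul_one] at h1
  exact h1.comp_ofReal

lemma fz_bound (s : ℂ) (hs : 0 < s.re) (n : ℕ) :
    ‖fz s n‖ ≤ ‖1 - s‖ * ‖s‖ * ((n : ℝ) + 1) ^ (-s.re - 1) := by
  set a : ℝ := (n : ℝ) + 1 with ha
  have ha1 : 1 ≤ a := by rw [ha]; linarith [(Nat.cast_nonneg n : (0:ℝ) ≤ n)]
  have ha0 : 0 < a := by linarith
  -- inner bound
  have h1 : ∀ x ∈ Icc a (a + 1), ‖(x : ℂ) ^ (-s) - (a : ℂ) ^ (-s)‖ ≤ ‖s‖ * a ^ (-s.re - 1) := by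
    intro x hx
    have h2 := norm_image_sub_le_of_norm_deriv_le_segment' (f := fun y : ℝ => (y : ℂ) ^ (-s))
      (f' := fun y : ℝ => (-s) * (y : ℂ) ^ (-s - 1)) (a := a) (b := a + 1)
      (C := ‖s‖ * a ^ (-s.re - 1))
      (fun y hy => (dcpow (-s) y (by linarith [hy.1])).hasDerivWithinAt)
      (fun y hy => ?_) x hx
    · refine h2.trans ?_
      have h3 : 0 ≤ ‖s‖ * a ^ (-s.re - 1) := by positivity
      nlinarith [hx.1, hx.2]
    · have hy0 : 0 < y := by linarith [hy.1]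
      rw [norm_mul, norm_neg, Complex.norm_cpow_eq_rpow_re_of_pos hy0]
      refine mul_le_mul_of_nonneg_left ?_ (norm_nonneg _)
      have h4 : (-s - 1 : ℂ).re = -s.re - 1 := by simp
      rw [h4]
      exact Real.rpow_le_rpow_of_nonpos ha0 hy.1 (by linarith)
  have h5 := norm_image_sub_le_of_norm_deriv_le_segment'
    (f := fun y : ℝ => (y : ℂ) ^ (1 - s) - (1 - s) * (a : ℂ) ^ (-s) * (y : ℂ))
    (f' := fun y : ℝ => (1 - s) * (y : ℂ) ^ (1 - s - 1) - (1 - s) * (a : ℂ) ^ (-s) * 1)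
    (a := a) (b := a + 1) (C := ‖1 - s‖ * (‖s‖ * a ^ (-s.re - 1)))
    (fun y hy => ?_) (fun y hy => ?_) (a + 1) (by constructor <;> linarith)
  · have h6 : fz s n = ((a + 1 : ℝ) : ℂ) ^ (1 - s) - (1 - s) * (a : ℂ) ^ (-s) * ((a + 1 : ℝ) : ℂ)
        - ((a : ℂ) ^ (1 - s) - (1 - s) * (a : ℂ) ^ (-s) * (a : ℂ)) := by
      unfold fz
      rw [ha]
      push_cast
      have : (n : ℂ) + 2 = (n : ℂ) + 1 + 1 := by ring
      rw [this]
      ring
    rw [h6]
    refine h5.trans (le_of_eq ?_)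
    ring
  · refine HasDerivAt.hasDerivWithinAt ?_
    refine (dcpow (1 - s) y (by linarith [hy.1])).sub ?_
    have h7 : HasDerivAt (fun y : ℝ => (y : ℂ)) 1 y := Complex.ofRealCLM.hasDerivAt
    exact h7.const_mul _
  · have h8 := h1 y ⟨hy.1, hy.2.le⟩
    have h9 : (1 - s) * (y : ℂ) ^ (1 - s - 1) - (1 - s) * (a : ℂ) ^ (-s) * 1 =
        (1 - s) * ((y : ℂ) ^ (-s) - (a : ℂ) ^ (-s)) := by
      have : 1 - s - 1 = -s := by ring
      rw [this]
      ring
    rw [h9, norm_mul]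
    exact mul_le_mul_of_nonneg_left h8 (norm_nonneg _)

lemma fz_summ (σ : ℝ) (hσ : 0 < σ) (C : ℝ) : Summable (fun n : ℕ => C * ((n : ℝ) + 1) ^ (-σ - 1)) := by
  apply Summable.mul_left
  have h1 : Summable (fun n : ℕ => (n : ℝ) ^ (-σ - 1)) := Real.summable_nat_rpow.2 (by linarith)
  have h2 := (summable_nat_add_iff 1).2 h1
  refine h2.congr (fun n => ?_)
  push_cast
  rfl

noncomputable def FF1 (s : ℂ) : ℂ := ∑' n, fz s n

lemma fz_diff (n : ℕ) : Differentiable ℂ (fun s => fz s n) := by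
  unfold fz
  have h1 : ((n : ℂ) + 1) ≠ 0 := by
    have : ((n + 1 : ℕ) : ℂ) ≠ 0 := by exact_mod_cast Nat.succ_ne_zero n
    simpa using this
  have h2 : ((n : ℂ) + 2) ≠ 0 := by
    have : ((n + 2 : ℕ) : ℂ) ≠ 0 := by exact_mod_cast Nat.succ_ne_zero (n + 1)
    simpa using this
  intro s
  have e1 : DifferentiableAt ℂ (fun s : ℂ => ((n : ℂ) + 1) ^ (-s)) s :=
    (differentiableAt_id.neg).const_cpow (Or.inl h1)
  have e2 : DifferentiableAt ℂ (fun s : ℂ => ((n : ℂ) + 2) ^ (1 - s)) s :=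
    ((differentiableAt_const _).sub differentiableAt_id).const_cpow (Or.inl h2)
  have e3 : DifferentiableAt ℂ (fun s : ℂ => ((n : ℂ) + 1) ^ (1 - s)) s :=
    ((differentiableAt_const _).sub differentiableAt_id).const_cpow (Or.inl h1)
  exact (((differentiableAt_id.sub_const 1).mul e1).add e2).sub e3

lemma FF1_diff (s0 : ℂ) (hs0 : 0 < s0.re) : DifferentiableAt ℂ FF1 s0 := by
  set σ := s0.re / 2 with hσ
  set R := ‖s0‖ + 1 with hR
  set V : Set ℂ := {s | σ < s.re} ∩ Metric.ball 0 R with hV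
  have hVo : IsOpen V := (isOpen_lt continuous_const Complex.continuous_re).inter Metric.isOpen_ball
  have hmem : s0 ∈ V := ⟨by simp only [mem_ofPred_eq]; linarith, by simp [hR]⟩
  have h1 : DifferentiableOn ℂ (fun s => ∑' n, fz s n) V := by
    refine Complex.differentiableOn_tsum_of_summable_norm
      (u := fun n : ℕ => ((1 + R) * R) * ((n : ℝ) + 1) ^ (-σ - 1))
      (fz_summ σ (by linarith) _) (fun n => (fz_diff n).differentiableOn) hVo ?_
    intro n s hs
    have hs1 : σ < s.re := hs.1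
    have hs2 : ‖s‖ < R := by simpa using hs.2
    refine (fz_bound s (by linarith) n).trans ?_
    have hn1 : (1 : ℝ) ≤ (n : ℝ) + 1 := by linarith [(Nat.cast_nonneg n : (0:ℝ) ≤ n)]
    have hR0 : 0 ≤ R := by positivity
    have h3 : ‖1 - s‖ ≤ 1 + R := (norm_sub_le _ _).trans (by rw [norm_one]; linarith)
    have h4 : ((n : ℝ) + 1) ^ (-s.re - 1) ≤ ((n : ℝ) + 1) ^ (-σ - 1) :=
      Real.rpow_le_rpow_of_exponent_le hn1 (by linarith)
    refine mul_le_mul (mul_le_mul h3 hs2.le (norm_nonneg _) (by linarith)) h4 (by positivity) (by positivity)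
  exact h1.differentiableAt (hVo.mem_nhds hmem)

lemma fz_summable (s : ℂ) (hs : 0 < s.re) : Summable (fz s) :=
  Summable.of_norm_bounded (fz_summ s.re hs (‖1 - s‖ * ‖s‖)) (fun n => fz_bound s hs n)

lemma fz_partial (s : ℂ) (M : ℕ) : ∑ n ∈ Finset.range M, fz s n =
    (s - 1) * ∑ n ∈ Finset.range M, ((n : ℂ) + 1) ^ (-s) + ((M : ℂ) + 1) ^ (1 - s) - 1 := by
  induction M with
  | zero => simp
  | succ M ih =>
    rw [Finset.sum_range_succ, Finset.sum_range_succ, ih]
    unfold fz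
    push_cast
    have : (M : ℂ) + 1 + 1 = (M : ℂ) + 2 := by ring
    rw [this]
    ring

lemma FF1_eq_re_gt (s : ℂ) (hs : 1 < s.re) : FF1 s = (s - 1) * riemannZeta s - 1 := by
  have h1 : Tendsto (fun M => ∑ n ∈ Finset.range M, fz s n) atTop (𝓝 (FF1 s)) :=
    (fz_summable s (by linarith)).hasSum.tendsto_sum_nat
  have h2 : Tendsto (fun M : ℕ => ∑ n ∈ Finset.range M, ((n : ℂ) + 1) ^ (-s)) atTop
      (𝓝 (riemannZeta s)) := by
    have h3 : Summable (fun n : ℕ => 1 / ((n : ℂ) + 1) ^ s) := by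
      have := (summable_nat_add_iff 1).2 (Complex.summable_one_div_nat_cpow.2 hs)
      refine this.congr (fun n => ?_)
      push_cast
      rfl
    have h4 := h3.hasSum.tendsto_sum_nat
    rw [← zeta_eq_tsum_one_div_nat_add_one_cpow hs] at h4
    refine h4.congr (fun M => Finset.sum_congr rfl (fun n _ => ?_))
    rw [Complex.cpow_neg, one_div]
  have h5 : Tendsto (fun M : ℕ => ((M : ℂ) + 1) ^ (1 - s)) atTop (𝓝 0) := by
    rw [tendsto_zero_iff_norm_tendsto_zero]
    have h6 : ∀ M : ℕ, ‖((M : ℂ) + 1) ^ (1 - s)‖ = ((M : ℝ) + 1) ^ (-(s.re - 1)) := by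
      intro M
      have : ((M : ℂ) + 1) = (((M : ℝ) + 1 : ℝ) : ℂ) := by push_cast; rfl
      rw [this, Complex.norm_cpow_eq_rpow_re_of_pos (by positivity)]
      congr 1
      simp
    simp_rw [h6]
    have h7 := tendsto_rpow_neg_atTop (y := s.re - 1) (by linarith)
    refine h7.comp ?_
    exact tendsto_atTop_add_const_right _ _ tendsto_natCast_atTop_atTop
  have h8 : Tendsto (fun M => ∑ n ∈ Finset.range M, fz s n) atTop
      (𝓝 ((s - 1) * riemannZeta s + 0 - 1)) := by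
    simp_rw [fz_partial]
    exact ((h2.const_mul _).add h5).sub_const 1
  rw [add_zero] at h8
  exact tendsto_nhds_unique h1 h8

lemma FF1_half : FF1 (1 / 2) = (1 / 2 - 1) * riemannZeta (1 / 2) - 1 := by
  set A : Set ℂ := {s | 1 < s.re} with hA
  set B : Set ℂ := {s | 0 < s.re} ∩ {s | 0 < s.im} with hB
  set C : Set ℂ := {s | 0 < s.re} ∩ {s | s.re < 1} with hC
  have hAo : IsOpen A := isOpen_lt continuous_const Complex.continuous_re
  have hBo : IsOpen B := (isOpen_lt continuous_const Complex.continuous_re).inter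
    (isOpen_lt continuous_const Complex.continuous_im)
  have hCo : IsOpen C := (isOpen_lt continuous_const Complex.continuous_re).inter
    (isOpen_lt Complex.continuous_re continuous_const)
  have hAc : IsPreconnected A := (convex_halfSpace_re_gt 1).isPreconnected
  have hBc : IsPreconnected B := ((convex_halfSpace_re_gt 0).inter (convex_halfSpace_im_gt 0)).isPreconnected
  have hCc : IsPreconnected C := ((convex_halfSpace_re_gt 0).inter (convex_halfSpace_re_lt 1)).isPreconnected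
  have hAB : IsPreconnected (A ∪ B) :=
    hAc.union (2 + Complex.I) (by simp [hA]) (by simp [hB]) hBc
  have hU : IsPreconnected (A ∪ B ∪ C) :=
    hAB.union (1 / 2 + Complex.I) (Or.inr (by simp [hB])) (by simp [hC]; norm_num) hCc
  have hUo : IsOpen (A ∪ B ∪ C) := (hAo.union hBo).union hCo
  have hre : ∀ s ∈ A ∪ B ∪ C, 0 < s.re := by
    rintro s ((h | h) | h)
    · have : 1 < s.re := h
      linarith
    · exact h.1
    · exact h.1
  have hne : ∀ s ∈ A ∪ B ∪ C, s ≠ 1 := by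
    rintro s ((h | h) | h) rfl
    · have : (1 : ℝ) < (1 : ℂ).re := h
      simp at this
    · have : (0 : ℝ) < (1 : ℂ).im := h.2
      simp at this
    · have : (1 : ℂ).re < (1 : ℝ) := h.2
      simp at this
  have h1 : AnalyticOnNhd ℂ FF1 (A ∪ B ∪ C) :=
    DifferentiableOn.analyticOnNhd (fun s hs => (FF1_diff s (hre s hs)).differentiableWithinAt) hUo
  have h2 : AnalyticOnNhd ℂ (fun s => (s - 1) * riemannZeta s - 1) (A ∪ B ∪ C) := by
    refine DifferentiableOn.analyticOnNhd (fun s hs => ?_) hUo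
    have := differentiableAt_riemannZeta (hne s hs)
    exact (((differentiableAt_id.sub_const 1).mul this).sub_const 1).differentiableWithinAt
  have h3 : (2 : ℂ) ∈ A ∪ B ∪ C := Or.inl (Or.inl (by simp [hA]))
  have h4 : FF1 =ᶠ[𝓝 (2 : ℂ)] fun s => (s - 1) * riemannZeta s - 1 := by
    filter_upwards [hAo.mem_nhds (show (2 : ℂ) ∈ A by simp [hA])] with s hs
    exact FF1_eq_re_gt s hs
  exact h1.eqOn_of_preconnected_of_eventuallyEq h2 hU h3 h4 (Or.inr (by simp [hC]; norm_num))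

end ZH

theorem zeta_half : ∃ z : ℝ, riemannZeta (1 / 2) = (z : ℂ) ∧
    Tendsto (fun M : ℕ => (∑ m ∈ Finset.range M, ((m : ℝ) + 1) ^ (-(1 / 2) : ℝ)) -
      2 * Real.sqrt M) atTop (𝓝 z) := by
  have h1 : Tendsto (fun M => ∑ n ∈ Finset.range M, ZH.fz (1 / 2) n) atTop (𝓝 (ZH.FF1 (1 / 2))) :=
    (ZH.fz_summable (1 / 2) (by norm_num)).hasSum.tendsto_sum_nat
  rw [ZH.FF1_half] at h1
  set x : ℕ → ℝ := fun M => (∑ m ∈ Finset.range M, ((m : ℝ) + 1) ^ (-(1 / 2) : ℝ)) -
      2 * Real.sqrt ((M : ℝ) + 1) with hx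
  have h2 : ∀ M, ((x M : ℝ) : ℂ) = -2 * (∑ n ∈ Finset.range M, ZH.fz (1 / 2) n + 1) := by
    intro M
    rw [ZH.fz_partial, hx]
    have e1 : ∀ m : ℕ, ((m : ℂ) + 1) ^ (-(1 / 2) : ℂ) = ((((m : ℝ) + 1) ^ (-(1 / 2) : ℝ) : ℝ) : ℂ) := by
      intro m
      rw [Complex.ofReal_cpow (by positivity)]
      push_cast
      rfl
    have e2 : ((M : ℂ) + 1) ^ (1 - 1 / 2 : ℂ) = ((Real.sqrt ((M : ℝ) + 1) : ℝ) : ℂ) := by
      rw [Real.sqrt_eq_rpow, Complex.ofReal_cpow (by positivity)]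
      push_cast
      norm_num
    rw [e2, Finset.sum_congr rfl (fun m _ => e1 m)]
    push_cast
    ring
  have h3 : Tendsto (fun M => ((x M : ℝ) : ℂ)) atTop (𝓝 (riemannZeta (1 / 2))) := by
    simp_rw [h2]
    have := (h1.add_const 1).const_mul (-2 : ℂ)
    have e : -2 * ((1 / 2 - 1) * riemannZeta (1 / 2) - 1 + 1) = riemannZeta (1 / 2) := by ring
    rwa [e] at this
  have h4 : Tendsto x atTop (𝓝 (riemannZeta (1 / 2)).re) := by
    have := (Complex.continuous_re.tendsto _).comp h3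
    exact this
  have h5 : (riemannZeta (1 / 2)).im = 0 := by
    have h6 := (Complex.continuous_im.tendsto _).comp h3
    have h7 : (Complex.im ∘ fun M => ((x M : ℝ) : ℂ)) = fun _ => 0 := by
      funext M
      simp
    rw [h7] at h6
    exact (tendsto_nhds_unique h6 tendsto_const_nhds)
  refine ⟨(riemannZeta (1 / 2)).re, ?_, ?_⟩
  · apply Complex.ext
    · simp
    · rw [h5]; simp
  · have h8 : Tendsto (fun M : ℕ => 2 * (Real.sqrt ((M : ℝ) + 1) - Real.sqrt M)) atTop (𝓝 0) := by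
      have h9 : Tendsto (fun M : ℕ => 2 * (1 / Real.sqrt ((M : ℝ) + 1))) atTop (𝓝 (2 * 0)) := by
        refine Tendsto.const_mul 2 ?_
        have h10 : Tendsto (fun M : ℕ => Real.sqrt ((M : ℝ) + 1)) atTop atTop :=
          Real.tendsto_sqrt_atTop.comp (tendsto_atTop_add_const_right _ _ tendsto_natCast_atTop_atTop)
        exact h10.inv_tendsto_atTop.congr (fun M => by simp [Pi.inv_apply, one_div])
      rw [mul_zero] at h9
      refine squeeze_zero (fun M => ?_) (fun M => ?_) h9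
      · have : Real.sqrt M ≤ Real.sqrt ((M : ℝ) + 1) := Real.sqrt_le_sqrt (by linarith)
        linarith
      · have hp : 0 < Real.sqrt ((M : ℝ) + 1) := Real.sqrt_pos.2 (by positivity)
        have ha := Real.sq_sqrt (show (0 : ℝ) ≤ (M : ℝ) + 1 by positivity)
        have hb := Real.sq_sqrt (show (0 : ℝ) ≤ (M : ℝ) by positivity)
        have hc := Real.sqrt_nonneg (M : ℝ)
        have : Real.sqrt ((M : ℝ) + 1) - Real.sqrt M ≤ 1 / Real.sqrt ((M : ℝ) + 1) := by
          rw [le_div_iff₀ hp]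
          have hd : Real.sqrt M ≤ Real.sqrt ((M : ℝ) + 1) := Real.sqrt_le_sqrt (by linarith)
          nlinarith
        linarith
    have h11 := h4.add h8
    rw [add_zero] at h11
    refine h11.congr (fun M => ?_)
    rw [hx]
    ring

end Pool.Agent.Helper88.SE
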