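import Pool.Agent.Helper88.SE3.Defs
import Pool.Agent.Helper88.SE3.P_up1
import Pool.Agent.Helper88.SE3.P_zeta_half
import Pool.Agent.Helper88.SE3.P_E1_lim
import Pool.Agent.Helper88.SE3.P_Lhalf
import Pool.Agent.Helper88.SE3.P_HS1_lim

set_option autoImplicit false

open MeasureTheory Set Filter Topology
open scoped ENNReal

namespace Pool.Agent.Helper88.SE



theorem fin1 (C : ℝ) (hC : Tendsto (fun N : ℕ => F 2 1 N / (N : ℝ) ^ (1 + (1 : ℝ) / 2)) atTop (𝓝 C)) :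
    ∃ z l : ℝ, riemannZeta (1 / 2) = (z : ℂ) ∧
    HurwitzZeta.hurwitzZeta ((1 / 3 : ℝ) : UnitAddCircle) (1 / 2) -
      HurwitzZeta.hurwitzZeta ((2 / 3 : ℝ) : UnitAddCircle) (1 / 2) = (l : ℂ) ∧
    C ≤ 2 * Real.sqrt 3 * Real.sqrt (Real.sqrt 3 / (8 * Real.pi)) * z * l := by
  obtain ⟨z, hz1, hz2⟩ := zeta_half
  obtain ⟨l0, hl1, hl2⟩ := Lhalf
  refine ⟨z, Real.sqrt 3 * l0, hz1, hl2, ?_⟩
  have hlim := HS1_lim z l0 (E1_lim z hz2) hl1
  have hlim2 := hlim.const_mul ((8 * Real.pi / Real.sqrt 3) ^ (-((1 : ℝ) / 2)))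
  have hle : C ≤ (8 * Real.pi / Real.sqrt 3) ^ (-((1 : ℝ) / 2)) * (6 * z * l0) := by
    refine ge_of_tendsto hlim2 ?_
    filter_upwards [self_mem_nhdsWithin] with mu hmu
    have hmu' : 0 < mu := hmu
    have h := up1 1 one_pos (by norm_num) C hC mu hmu'
    have e1 : mu ^ ((1 : ℝ) - 2) * Real.Gamma (2 - 1) = 1 / mu := by
      rw [show (1 : ℝ) - 2 = -1 by norm_num, show (2 : ℝ) - 1 = 1 by norm_num, Real.Gamma_one,
        Real.rpow_neg_one, mul_one, one_div]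
    rw [e1] at h
    have e2 : 4 * Real.pi / Real.sqrt 3 / mu = 4 * Real.pi / Real.sqrt 3 * (1 / mu) := by ring
    rw [e2]
    exact h
  have hpi := Real.pi_pos
  have h3 : 0 < Real.sqrt 3 := Real.sqrt_pos.mpr (by norm_num)
  have hs3 : Real.sqrt 3 * Real.sqrt 3 = 3 := Real.mul_self_sqrt (by norm_num)
  have e3 : (8 * Real.pi / Real.sqrt 3) ^ (-((1 : ℝ) / 2)) =
      Real.sqrt (Real.sqrt 3 / (8 * Real.pi)) := by
    rw [Real.rpow_neg (by positivity), ← Real.inv_rpow (by positivity), inv_div]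
    exact (Real.sqrt_eq_rpow _).symm
  rw [e3] at hle
  calc C ≤ Real.sqrt (Real.sqrt 3 / (8 * Real.pi)) * (6 * z * l0) := hle
    _ = 2 * (Real.sqrt 3 * Real.sqrt 3) * Real.sqrt (Real.sqrt 3 / (8 * Real.pi)) * z * l0 := by
        rw [hs3]; ring
    _ = _ := by ring

end Pool.Agent.Helper88.SE
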