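import Pool.Agent.Helper88.SE3.Defs
import Pool.Agent.Helper88.SE3.P_TR32
import Pool.Agent.Helper88.SE3.P_IU_asymp

set_option autoImplicit false

open MeasureTheory Set Filter Topology
open scoped ENNReal

namespace Pool.Agent.Helper88.SE



theorem up2a (C : ℝ)
    (hC : Tendsto (fun N : ℕ => Em 2 2 N / (N : ℝ) ^ 2 - 1 / 4 * Real.log N) atTop (𝓝 C))
    (mu ν g : ℝ) (hmu : 0 < mu) (hν : 0 < ν) (hg : 0 < g) (N : ℕ → ℕ)
    (x : ∀ n, Fin (N n) → S 2) (hinj : ∀ n, 1 ≤ n → Function.Injective (x n))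
    (hN : Tendsto (fun n : ℕ => (N n : ℝ) / (n : ℝ) ^ 2) atTop (𝓝 ν))
    (hE : ∀ n : ℕ, 1 ≤ n → EL 2 (mu * n) (x n) ≤ (N n : ℝ) * (n : ℝ) ^ (2 : ℝ) * HS 2 mu +
          (N n : ℝ) ^ 2 * (g ^ (-(2 : ℝ)) * Real.exp (-(mu * n * g)))) :
    C ≤ HS 2 mu / ν + 1 / 2 * (Real.log 2 + Real.log mu + Real.eulerMascheroniConstant) -
      1 / 4 * Real.log ν := by
  obtain ⟨C₅, hC5, hTR⟩ := TR32
  -- the bound for fixed n
  have hbound : ∀ n : ℕ, 1 ≤ n → 1 ≤ N n →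
      C ≤ (1 + 1 / (n : ℝ)) ^ (7 / 2 : ℝ) * ((((N n : ℝ) / (n : ℝ) ^ 2))⁻¹ * HS 2 mu +
          g ^ (-(2 : ℝ)) * Real.exp (-(mu * n * g))) +
        ((IU (mu * n) - 1 / 2 * Real.log (mu * n)) + 1 / 2 * Real.log mu -
          1 / 4 * Real.log ((N n : ℝ) / (n : ℝ) ^ 2)) + Real.log (1 + 1 / (n : ℝ)) +
        C₅ / mu * (Real.sqrt n)⁻¹ := by
    intro n hn hNn
    have hn0 : (0 : ℝ) < n := by exact_mod_cast hn
    have hn1 : (1 : ℝ) ≤ n := by exact_mod_cast hn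
    have hN0 : (0 : ℝ) < N n := by exact_mod_cast hNn
    have hsq : 0 < Real.sqrt n := Real.sqrt_pos.2 hn0
    have hsq1 : 1 ≤ Real.sqrt n := by
      rw [show (1 : ℝ) = Real.sqrt 1 by simp]
      exact Real.sqrt_le_sqrt hn1
    have hss : Real.sqrt n * Real.sqrt n = n := Real.mul_self_sqrt hn0.le
    have hρ0 : 0 < (Real.sqrt n)⁻¹ := inv_pos.2 hsq
    have hρ1 : (Real.sqrt n)⁻¹ ≤ 1 := inv_le_one_of_one_le₀ hsq1
    have hρ2 : ((Real.sqrt n)⁻¹) ^ 2 = 1 / (n : ℝ) := by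
      rw [inv_pow, sq, hss, one_div]
    have hl : 0 < mu * n := mul_pos hmu hn0
    have h1 : C ≤ (1 + 1 / (n : ℝ)) ^ (7 / 2 : ℝ) * (EL 2 (mu * n) (x n) / (N n : ℝ) ^ 2) +
        IU (mu * n) - 1 / 4 * Real.log (N n) + Real.log (1 + 1 / (n : ℝ)) +
        C₅ / ((Real.sqrt n)⁻¹ * (mu * n)) := by
      apply le_of_forall_pos_le_add
      intro ε hε
      have h2 := hTR (N n) hNn (x n) (hinj n hn) _ hρ0 hρ1 (mu * n) hl ε hε
      rw [hρ2] at h2
      exact le_of_tendsto hC h2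
    have h3 : C₅ / ((Real.sqrt n)⁻¹ * (mu * n)) = C₅ / mu * (Real.sqrt n)⁻¹ := by
      have h4 : (Real.sqrt n)⁻¹ * (mu * n) = mu * Real.sqrt n := by
        have h5 : (Real.sqrt n)⁻¹ * (n : ℝ) = Real.sqrt n := by
          rw [inv_mul_eq_div, div_eq_iff hsq.ne']
          exact hss.symm
        calc (Real.sqrt n)⁻¹ * (mu * n) = mu * ((Real.sqrt n)⁻¹ * n) := by ring
          _ = mu * Real.sqrt n := by rw [h5]
      rw [h4, div_mul_eq_div_div, div_eq_mul_inv (C₅ / mu)]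
    have h6 : EL 2 (mu * n) (x n) / (N n : ℝ) ^ 2 ≤ (((N n : ℝ) / (n : ℝ) ^ 2))⁻¹ * HS 2 mu +
          g ^ (-(2 : ℝ)) * Real.exp (-(mu * n * g)) := by
      rw [div_le_iff₀ (by positivity)]
      have h7 := hE n hn
      rw [show ((n : ℝ) ^ (2 : ℝ)) = (n : ℝ) ^ 2 from by
        rw [← Real.rpow_natCast]; norm_num] at h7
      have h8 : ((((N n : ℝ) / (n : ℝ) ^ 2))⁻¹ * HS 2 mu +
          g ^ (-(2 : ℝ)) * Real.exp (-(mu * n * g))) * (N n : ℝ) ^ 2 =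
          (N n : ℝ) * (n : ℝ) ^ 2 * HS 2 mu +
          (N n : ℝ) ^ 2 * (g ^ (-(2 : ℝ)) * Real.exp (-(mu * n * g))) := by
        rw [inv_div]
        field_simp
      rw [h8]
      exact h7
    have h9 : 0 ≤ (1 + 1 / (n : ℝ)) ^ (7 / 2 : ℝ) := by positivity
    have h10 := mul_le_mul_of_nonneg_left h6 h9
    have h11 : IU (mu * n) - 1 / 4 * Real.log (N n) =
        (IU (mu * n) - 1 / 2 * Real.log (mu * n)) + 1 / 2 * Real.log mu -
          1 / 4 * Real.log ((N n : ℝ) / (n : ℝ) ^ 2) := by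
      rw [Real.log_mul hmu.ne' hn0.ne', Real.log_div hN0.ne' (by positivity), Real.log_pow]
      push_cast
      ring
    rw [h3] at h1
    linarith
  -- N n is positive eventually
  have hNpos : ∀ᶠ n : ℕ in atTop, 1 ≤ N n := by
    have h1 : ∀ᶠ n : ℕ in atTop, 0 < (N n : ℝ) / (n : ℝ) ^ 2 := hN.eventually (lt_mem_nhds hν)
    filter_upwards [h1] with n hn
    by_contra hcon
    have : N n = 0 := by omega
    rw [this] at hn
    simp at hn
  have hev : ∀ᶠ n : ℕ in atTop, C ≤ (1 + 1 / (n : ℝ)) ^ (7 / 2 : ℝ) *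
        ((((N n : ℝ) / (n : ℝ) ^ 2))⁻¹ * HS 2 mu + g ^ (-(2 : ℝ)) * Real.exp (-(mu * n * g))) +
        ((IU (mu * n) - 1 / 2 * Real.log (mu * n)) + 1 / 2 * Real.log mu -
          1 / 4 * Real.log ((N n : ℝ) / (n : ℝ) ^ 2)) + Real.log (1 + 1 / (n : ℝ)) +
        C₅ / mu * (Real.sqrt n)⁻¹ := by
    filter_upwards [hNpos, eventually_ge_atTop 1] with n h1 h2
    exact hbound n h2 h1
  -- limits
  have hnat : Tendsto (fun n : ℕ => (n : ℝ)) atTop atTop := tendsto_natCast_atTop_atTop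
  have l0 : Tendsto (fun n : ℕ => 1 + 1 / (n : ℝ)) atTop (𝓝 1) := by
    have := (tendsto_const_nhds (x := (1 : ℝ))).add tendsto_one_div_atTop_nhds_zero_nat
    simpa using this
  have l1 : Tendsto (fun n : ℕ => (1 + 1 / (n : ℝ)) ^ (7 / 2 : ℝ)) atTop (𝓝 1) := by
    have := l0.rpow_const (p := (7 / 2 : ℝ)) (Or.inl one_ne_zero)
    simpa using this
  have l2 : Tendsto (fun n : ℕ => (((N n : ℝ) / (n : ℝ) ^ 2))⁻¹) atTop (𝓝 ν⁻¹) :=
    hN.inv₀ hν.ne'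
  have l3 : Tendsto (fun n : ℕ => g ^ (-(2 : ℝ)) * Real.exp (-(mu * n * g))) atTop (𝓝 0) := by
    have h1 : Tendsto (fun n : ℕ => mu * (n : ℝ) * g) atTop atTop :=
      (hnat.const_mul_atTop hmu).atTop_mul_const hg
    have h2 : Tendsto (fun n : ℕ => Real.exp (-(mu * (n : ℝ) * g))) atTop (𝓝 0) :=
      Real.tendsto_exp_atBot.comp (tendsto_neg_atTop_atBot.comp h1)
    have := h2.const_mul (g ^ (-(2 : ℝ)))
    simpa using this
  have l4 : Tendsto (fun n : ℕ => IU (mu * n) - 1 / 2 * Real.log (mu * n)) atTop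
      (𝓝 (1 / 2 * (Real.log 2 + Real.eulerMascheroniConstant))) :=
    IU_asymp.comp (hnat.const_mul_atTop hmu)
  have l5 : Tendsto (fun n : ℕ => Real.log ((N n : ℝ) / (n : ℝ) ^ 2)) atTop (𝓝 (Real.log ν)) :=
    (Real.continuousAt_log hν.ne').tendsto.comp hN
  have l6 : Tendsto (fun n : ℕ => Real.log (1 + 1 / (n : ℝ))) atTop (𝓝 0) := by
    have := (Real.continuousAt_log one_ne_zero).tendsto.comp l0
    rw [Real.log_one] at this
    exact this
  have l7 : Tendsto (fun n : ℕ => C₅ / mu * (Real.sqrt n)⁻¹) atTop (𝓝 0) := by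
    have h1 : Tendsto (fun n : ℕ => Real.sqrt (n : ℝ)) atTop atTop :=
      Real.tendsto_sqrt_atTop.comp hnat
    have := (tendsto_inv_atTop_zero.comp h1).const_mul (C₅ / mu)
    simpa using this
  have hlim := (((l1.mul ((l2.mul_const (HS 2 mu)).add l3)).add
    ((l4.add_const (1 / 2 * Real.log mu)).sub (l5.const_mul (1 / 4)))).add l6).add l7
  have hfin := ge_of_tendsto hlim hev
  have e1 : (1 : ℝ) * (ν⁻¹ * HS 2 mu + 0) +
      (1 / 2 * (Real.log 2 + Real.eulerMascheroniConstant) + 1 / 2 * Real.log mu -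
        1 / 4 * Real.log ν) + 0 + 0 =
      HS 2 mu / ν + 1 / 2 * (Real.log 2 + Real.log mu + Real.eulerMascheroniConstant) -
      1 / 4 * Real.log ν := by
    rw [div_eq_mul_inv]; ring
  rw [← e1]
  exact hfin

end Pool.Agent.Helper88.SE
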