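import Pool.Agent.Helper88.SE3.Defs
import Pool.Agent.Helper88.SE3.P_cfg
import Pool.Agent.Helper88.SE3.P_up2a

set_option autoImplicit false

open MeasureTheory Set Filter Topology
open scoped ENNReal

namespace Pool.Agent.Helper88.SE



theorem up2 (C : ℝ)
    (hC : Tendsto (fun N : ℕ => Em 2 2 N / (N : ℝ) ^ 2 - 1 / 4 * Real.log N) atTop (𝓝 C))
    (mu : ℝ) (hmu : 0 < mu) :
    C ≤ HS 2 mu / (8 * Real.pi / Real.sqrt 3) +
      1 / 2 * (Real.log 2 + Real.log mu + Real.eulerMascheroniConstant) -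
      1 / 4 * Real.log (8 * Real.pi / Real.sqrt 3) := by
  set ν0 : ℝ := 8 * Real.pi / Real.sqrt 3 with hν0d
  have hν0 : 0 < ν0 := by
    have := Real.pi_pos
    positivity
  have h : ∀ n : ℕ, ∃ ν : ℝ, ν0 * (1 - 1 / ((n:ℝ) + 2)) ^ 2 ≤ ν ∧ ν ≤ ν0 ∧
      C ≤ HS 2 mu / ν + 1 / 2 * (Real.log 2 + Real.log mu + Real.eulerMascheroniConstant) -
        1 / 4 * Real.log ν := by
    intro n
    have hn : (0:ℝ) ≤ n := Nat.cast_nonneg n
    have hη : (0:ℝ) < 1 / ((n:ℝ) + 2) := by positivity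
    have hη1 : 1 / ((n:ℝ) + 2) ≤ 1 / 2 := by
      apply one_div_le_one_div_of_le (by norm_num)
      linarith
    obtain ⟨ν, g, hg, h1, h2, N, x, hinj, hN, hE⟩ := cfg _ hη hη1
    have hν : 0 < ν := by
      refine lt_of_lt_of_le ?_ h1
      have h3 : (0:ℝ) < 1 - 1 / ((n:ℝ) + 2) := by linarith
      rw [← hν0d]
      positivity
    exact ⟨ν, h1, h2, up2a C hC mu ν g hmu hν hg N x hinj hN
      (fun n hn => hE n hn 2 mu (by norm_num) hmu)⟩
  choose ν h1 h2 h3 using h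
  have hη : Tendsto (fun n : ℕ => 1 / ((n:ℝ) + 2)) atTop (𝓝 0) :=
    tendsto_const_nhds.div_atTop
      (tendsto_atTop_add_const_right _ _ tendsto_natCast_atTop_atTop)
  have hlow : Tendsto (fun n : ℕ => ν0 * (1 - 1 / ((n:ℝ) + 2)) ^ 2) atTop (𝓝 ν0) := by
    have h4 := ((tendsto_const_nhds (x := (1:ℝ))).sub hη).pow 2 |>.const_mul ν0
    simpa using h4
  have hlim : Tendsto ν atTop (𝓝 ν0) :=
    tendsto_of_tendsto_of_tendsto_of_le_of_le hlow tendsto_const_nhds h1 h2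
  have hfin := ((tendsto_const_nhds (x := HS 2 mu)).div hlim hν0.ne').add
    (tendsto_const_nhds (x := 1 / 2 * (Real.log 2 + Real.log mu + Real.eulerMascheroniConstant)))
    |>.sub ((hlim.log hν0.ne').const_mul (1/4 : ℝ))
  exact ge_of_tendsto' hfin h3
end Pool.Agent.Helper88.SE
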