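import Pool.Agent.Helper88.SE3.Defs
import Pool.Agent.Helper88.SE3.P_up2
import Pool.Agent.Helper88.SE3.P_HS2_lim
import Pool.Agent.Helper88.SE3.P_D_rel

set_option autoImplicit false

open MeasureTheory Set Filter Topology
open scoped ENNReal

namespace Pool.Agent.Helper88.SE



theorem fin2 (C : ℝ)
    (hC : Tendsto (fun N : ℕ => Em 2 2 N / (N : ℝ) ^ 2 - 1 / 4 * Real.log N) atTop (𝓝 C)) :
    C ≤ (1 / 4 : ℝ) * (Real.eulerMascheroniConstant - Real.log (2 * Real.sqrt 3 * Real.pi)) +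
      Real.sqrt 3 / (4 * Real.pi) * ∑' k : ℕ, (Real.log ((k : ℝ) + 2 / 3) / ((k : ℝ) + 2 / 3) -
        Real.log ((k : ℝ) + 1 / 3) / ((k : ℝ) + 1 / 3)) := by
  have hs : 0 < Real.sqrt 3 := Real.sqrt_pos.mpr (by norm_num)
  have hs2 : Real.sqrt 3 * Real.sqrt 3 = 3 := Real.mul_self_sqrt (by norm_num)
  have hpi : 0 < Real.pi := Real.pi_pos
  rw [D_rel]
  have hlim := HS2_lim
  generalize (∑' k : ℕ, (Real.log (3 * (k : ℝ) + 2) / (3 * (k : ℝ) + 2) -
      Real.log (3 * (k : ℝ) + 1) / (3 * (k : ℝ) + 1))) = D at hlim ⊢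
  have h2 := (hlim.div_const (8 * Real.pi / Real.sqrt 3)).add_const
    (1 / 2 * (Real.log 2 + Real.eulerMascheroniConstant) - 1 / 4 * Real.log (8 * Real.pi / Real.sqrt 3))
  have h1 : ∀ᶠ mu in 𝓝[>] (0 : ℝ), C ≤
      (HS 2 mu + 4 * Real.pi / Real.sqrt 3 * Real.log mu) / (8 * Real.pi / Real.sqrt 3) +
      (1 / 2 * (Real.log 2 + Real.eulerMascheroniConstant) -
        1 / 4 * Real.log (8 * Real.pi / Real.sqrt 3)) := by
    filter_upwards [self_mem_nhdsWithin] with mu hmu
    have h3 := up2 C hC mu hmu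
    have h4 : (HS 2 mu + 4 * Real.pi / Real.sqrt 3 * Real.log mu) / (8 * Real.pi / Real.sqrt 3) =
        HS 2 mu / (8 * Real.pi / Real.sqrt 3) + 1 / 2 * Real.log mu := by
      field_simp
      ring
    rw [h4]
    linarith
  have h3 := ge_of_tendsto h2 h1
  have e1 : (6 * D - 2 * Real.pi / Real.sqrt 3 * Real.eulerMascheroniConstant) /
      (8 * Real.pi / Real.sqrt 3) = 3 * Real.sqrt 3 / (4 * Real.pi) * D -
        1 / 4 * Real.eulerMascheroniConstant := by
    field_simp
    ring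
  have e2 : Real.sqrt 3 / (4 * Real.pi) * (3 * D + Real.pi / Real.sqrt 3 * Real.log 3) =
      3 * Real.sqrt 3 / (4 * Real.pi) * D + 1 / 4 * Real.log 3 := by
    field_simp
  have e3 : Real.log (8 * Real.pi / Real.sqrt 3) = 3 * Real.log 2 + Real.log Real.pi -
      1 / 2 * Real.log 3 := by
    rw [Real.log_div (by positivity) (by positivity), Real.log_mul (by norm_num) (by positivity),
      Real.log_sqrt (by norm_num)]
    have : Real.log 8 = 3 * Real.log 2 := by
      rw [show (8 : ℝ) = 2 ^ (3 : ℕ) by norm_num, Real.log_pow]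
      norm_num
    rw [this]
    ring
  have e4 : Real.log (2 * Real.sqrt 3 * Real.pi) = Real.log 2 + 1 / 2 * Real.log 3 +
      Real.log Real.pi := by
    rw [Real.log_mul (by positivity) (by positivity), Real.log_mul (by norm_num) (by positivity),
      Real.log_sqrt (by norm_num)]
    ring
  rw [e1, e3] at h3
  rw [e2, e4]
  linarith

end Pool.Agent.Helper88.SE
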