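import Pool.Agent.Helper88.SE3.Defs

set_option autoImplicit false

open MeasureTheory Set Filter Topology
open scoped ENNReal

namespace Pool.Agent.Helper88.SE



/-- terms of the analytic continuation of `(1-w) ζ(w) + 1` -/
noncomputable def zsB (n : ℕ) (w : ℂ) : ℂ :=
  (1 - w) * ((n : ℂ) + 1) ^ (-w) - ((n : ℂ) + 2) ^ (1 - w) + ((n : ℂ) + 1) ^ (1 - w)

lemma zsB_pow_diff {c x a : ℝ} (w : ℂ) (ha : 0 < a) (hx : a ≤ x) (hc : x ≤ a + 1) (hw : 0 < w.re) :
    ‖((x : ℂ)) ^ (-w) - ((a : ℂ)) ^ (-w)‖ ≤ ‖w‖ * a ^ (-w.re - 1) := by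
  have hder : ∀ y ∈ Set.Icc a (a + 1), HasDerivWithinAt (fun y : ℝ => ((y : ℂ)) ^ (-w))
      ((-w) * ((y : ℂ)) ^ (-w - 1)) (Set.Icc a (a + 1)) y := by
    intro y hy
    have hy0 : 0 < y := lt_of_lt_of_le ha hy.1
    have h1 : HasDerivAt (fun z : ℂ => z ^ (-w)) ((-w) * ((y : ℂ)) ^ (-w - 1) * 1) (y : ℂ) :=
      (hasDerivAt_id (y : ℂ)).cpow_const (Or.inl (by simpa using hy0))
    rw [mul_one] at h1
    exact h1.comp_ofReal.hasDerivWithinAt
  have hb : ∀ y ∈ Set.Icc a (a + 1), ‖(-w) * ((y : ℂ)) ^ (-w - 1)‖ ≤ ‖w‖ * a ^ (-w.re - 1) := by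
    intro y hy
    have hy0 : 0 < y := lt_of_lt_of_le ha hy.1
    rw [norm_mul, norm_neg, Complex.norm_cpow_eq_rpow_re_of_pos hy0]
    apply mul_le_mul_of_nonneg_left _ (norm_nonneg _)
    have : (-w - 1).re = -w.re - 1 := by simp
    rw [this]
    exact Real.rpow_le_rpow_of_nonpos ha hy.1 (by linarith)
  have h := (convex_Icc a (a + 1)).norm_image_sub_le_of_norm_hasDerivWithin_le hder hb
    (Set.left_mem_Icc.mpr (by linarith)) (show x ∈ Set.Icc a (a + 1) from ⟨hx, hc⟩)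
  refine h.trans ?_
  have h2 : ‖x - a‖ ≤ 1 := by
    rw [Real.norm_eq_abs, abs_le]; constructor <;> linarith
  have h3 : 0 ≤ ‖w‖ * a ^ (-w.re - 1) := mul_nonneg (norm_nonneg _) (Real.rpow_nonneg ha.le _)
  calc ‖w‖ * a ^ (-w.re - 1) * ‖x - a‖ ≤ ‖w‖ * a ^ (-w.re - 1) * 1 :=
        mul_le_mul_of_nonneg_left h2 h3
    _ = _ := mul_one _

lemma zsB_norm (n : ℕ) (w : ℂ) (hw : 0 < w.re) :
    ‖zsB n w‖ ≤ ‖1 - w‖ * (‖w‖ * ((n : ℝ) + 1) ^ (-w.re - 1)) := by
  set a : ℝ := (n : ℝ) + 1 with ha'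
  have ha : 0 < a := by positivity
  have hder : ∀ y ∈ Set.Icc a (a + 1), HasDerivWithinAt
      (fun y : ℝ => ((y : ℂ)) ^ (1 - w) - (y : ℂ) * ((1 - w) * (a : ℂ) ^ (-w)))
      ((1 - w) * ((y : ℂ) ^ (-w) - (a : ℂ) ^ (-w))) (Set.Icc a (a + 1)) y := by
    intro y hy
    have hy0 : 0 < y := lt_of_lt_of_le ha hy.1
    have h1 : HasDerivAt (fun z : ℂ => z ^ (1 - w)) ((1 - w) * ((y : ℂ)) ^ (1 - w - 1) * 1) (y : ℂ) :=
      (hasDerivAt_id (y : ℂ)).cpow_const (Or.inl (by simpa using hy0))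
    have h2 : HasDerivAt (fun z : ℂ => z * ((1 - w) * (a : ℂ) ^ (-w))) (1 * ((1 - w) * (a : ℂ) ^ (-w)))
        (y : ℂ) := (hasDerivAt_id (y : ℂ)).mul_const _
    have h3 : HasDerivWithinAt
      (fun y : ℝ => ((y : ℂ)) ^ (1 - w) - (y : ℂ) * ((1 - w) * (a : ℂ) ^ (-w)))
      ((1 - w) * ((y : ℂ)) ^ (1 - w - 1) * 1 - 1 * ((1 - w) * (a : ℂ) ^ (-w))) (Set.Icc a (a + 1)) y :=
      (h1.sub h2).comp_ofReal.hasDerivWithinAt (s := Set.Icc a (a + 1))
    have h4 : (1 - w - 1 : ℂ) = -w := by ring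
    exact h3.congr_deriv (by rw [h4]; ring)
  have hb : ∀ y ∈ Set.Icc a (a + 1), ‖(1 - w) * ((y : ℂ) ^ (-w) - (a : ℂ) ^ (-w))‖ ≤
      ‖1 - w‖ * (‖w‖ * a ^ (-w.re - 1)) := by
    intro y hy
    rw [norm_mul]
    exact mul_le_mul_of_nonneg_left (zsB_pow_diff (c := 0) w ha hy.1 hy.2 hw) (norm_nonneg _)
  have h := (convex_Icc a (a + 1)).norm_image_sub_le_of_norm_hasDerivWithin_le hder hb
    (Set.left_mem_Icc.mpr (by linarith)) (Set.right_mem_Icc.mpr (by linarith))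
  have h2 : ‖a + 1 - a‖ = 1 := by norm_num
  rw [h2, mul_one] at h
  refine le_trans (le_of_eq ?_) h
  rw [← norm_neg]
  congr 1
  unfold zsB
  have e1 : ((a : ℝ) : ℂ) = (n : ℂ) + 1 := by rw [ha']; push_cast; rfl
  have e2 : ((a + 1 : ℝ) : ℂ) = (n : ℂ) + 2 := by rw [ha']; push_cast; ring
  rw [e2, e1]
  ring

lemma zsB_diff (n : ℕ) : Differentiable ℂ (zsB n) := by
  have h1 : ((n : ℂ) + 1) ≠ 0 := by
    have : ((n : ℂ) + 1) = ((n + 1 : ℕ) : ℂ) := by push_cast; rfl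
    rw [this]; exact_mod_cast Nat.succ_ne_zero n
  have h2 : ((n : ℂ) + 2) ≠ 0 := by
    have : ((n : ℂ) + 2) = ((n + 2 : ℕ) : ℂ) := by push_cast; rfl
    rw [this]; exact_mod_cast (Nat.succ_ne_zero (n + 1))
  unfold zsB
  intro w
  have d1 : DifferentiableAt ℂ (fun w : ℂ => ((n : ℂ) + 1) ^ (-w)) w :=
    (differentiableAt_id.neg).const_cpow (Or.inl h1)
  have d2 : DifferentiableAt ℂ (fun w : ℂ => ((n : ℂ) + 2) ^ (1 - w)) w :=
    ((differentiableAt_const _).sub differentiableAt_id).const_cpow (Or.inl h2)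
  have d3 : DifferentiableAt ℂ (fun w : ℂ => ((n : ℂ) + 1) ^ (1 - w)) w :=
    ((differentiableAt_const _).sub differentiableAt_id).const_cpow (Or.inl h1)
  exact ((((differentiableAt_const _).sub differentiableAt_id).mul d1).sub d2).add d3

lemma zsB_bound_summable (δ C : ℝ) (hδ : 0 < δ) :
    Summable (fun n : ℕ => C * ((n : ℝ) + 1) ^ (-δ - 1)) := by
  apply Summable.mul_left
  have h : Summable (fun n : ℕ => (n : ℝ) ^ (-δ - 1)) :=
    Real.summable_nat_rpow.mpr (by linarith)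
  have h2 := (summable_nat_add_iff 1).mpr h
  exact h2.congr (fun n => by push_cast; rfl)

lemma zsB_region (w₀ : ℂ) (hw : 0 < w₀.re) :
    ∃ U : Set ℂ, IsOpen U ∧ w₀ ∈ U ∧ ∃ u : ℕ → ℝ, Summable u ∧ ∀ n, ∀ w ∈ U, ‖zsB n w‖ ≤ u n := by
  refine ⟨{w | w₀.re / 2 < w.re} ∩ Metric.ball 0 (‖w₀‖ + 1), ?_, ?_,
    fun n => ((1 + (‖w₀‖ + 1)) * (‖w₀‖ + 1)) * ((n : ℝ) + 1) ^ (-(w₀.re / 2) - 1),
    zsB_bound_summable _ _ (by linarith), ?_⟩
  · exact (isOpen_lt continuous_const Complex.continuous_re).inter Metric.isOpen_ball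
  · exact ⟨by simp only [Set.mem_ofPred_eq]; linarith, by simp⟩
  · rintro n w ⟨hw1, hw2⟩
    simp only [Set.mem_ofPred_eq] at hw1
    rw [mem_ball_zero_iff] at hw2
    have hw3 : 0 < w.re := by linarith
    refine (zsB_norm n w hw3).trans ?_
    have h1 : ‖1 - w‖ ≤ 1 + (‖w₀‖ + 1) := (norm_sub_le _ _).trans (by rw [norm_one]; linarith)
    have h2 : ((n : ℝ) + 1) ^ (-w.re - 1) ≤ ((n : ℝ) + 1) ^ (-(w₀.re / 2) - 1) :=
      Real.rpow_le_rpow_of_exponent_le (by linarith [Nat.cast_nonneg (α := ℝ) n]) (by linarith)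
    have h3 : 0 ≤ ((n : ℝ) + 1) ^ (-w.re - 1) := Real.rpow_nonneg (by positivity) _
    calc ‖1 - w‖ * (‖w‖ * ((n : ℝ) + 1) ^ (-w.re - 1))
        ≤ (1 + (‖w₀‖ + 1)) * ((‖w₀‖ + 1) * ((n : ℝ) + 1) ^ (-(w₀.re / 2) - 1)) := by
          apply mul_le_mul h1 _ (by positivity) (by positivity)
          exact mul_le_mul hw2.le h2 h3 (by positivity)
      _ = _ := by ring

noncomputable def zsG (w : ℂ) : ℂ := ∑' n, zsB n w

lemma zsG_diffAt (w₀ : ℂ) (hw : 0 < w₀.re) : DifferentiableAt ℂ zsG w₀ := by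
  obtain ⟨U, hU, hmem, u, hu, hb⟩ := zsB_region w₀ hw
  have h : DifferentiableOn ℂ (fun w => ∑' n, zsB n w) U :=
    Complex.differentiableOn_tsum_of_summable_norm hu (fun n => (zsB_diff n).differentiableOn) hU
      (fun n w hw => hb n w hw)
  exact (h w₀ hmem).differentiableAt (hU.mem_nhds hmem)

lemma zsG_hasSum (w : ℂ) (hw : 0 < w.re) : HasSum (fun n => zsB n w) (zsG w) := by
  obtain ⟨U, hU, hmem, u, hu, hb⟩ := zsB_region w hw
  exact (Summable.of_norm_bounded hu (fun n => hb n w hmem)).hasSum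

lemma zsB_partial (w : ℂ) (M : ℕ) : ∑ n ∈ Finset.range M, zsB n w =
    (1 - w) * (∑ n ∈ Finset.range M, ((n : ℂ) + 1) ^ (-w)) - ((M : ℂ) + 1) ^ (1 - w) + 1 := by
  induction M with
  | zero => simp
  | succ M ih =>
    rw [Finset.sum_range_succ, ih, Finset.sum_range_succ]
    unfold zsB
    push_cast
    have : (M : ℂ) + 1 + 1 = (M : ℂ) + 2 := by ring
    rw [this]
    ring

lemma zsG_eq_of_one_lt (w : ℂ) (hw : 1 < w.re) : zsG w = (1 - w) * riemannZeta w + 1 := by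
  have h1 := (zsG_hasSum w (by linarith)).tendsto_sum_nat
  have hs : HasSum (fun n : ℕ => ((n : ℂ) + 1) ^ (-w)) (riemannZeta w) := by
    have hsum : Summable (fun n : ℕ => 1 / ((n : ℂ) + 1) ^ w) := by
      have h := (Complex.summable_one_div_nat_cpow (p := w)).mpr hw
      have h2 := (summable_nat_add_iff 1).mpr h
      exact h2.congr (fun n => by push_cast; rfl)
    have h3 := hsum.hasSum
    rw [← zeta_eq_tsum_one_div_nat_add_one_cpow hw] at h3
    convert h3 using 2 with n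
    rw [Complex.cpow_neg, one_div]
  have h4 : Tendsto (fun M : ℕ => ((M : ℂ) + 1) ^ (1 - w)) atTop (𝓝 0) := by
    rw [tendsto_zero_iff_norm_tendsto_zero]
    have h5 : ∀ M : ℕ, ‖((M : ℂ) + 1) ^ (1 - w)‖ = ((M : ℝ) + 1) ^ (-(w.re - 1)) := by
      intro M
      have e : ((M : ℂ) + 1) = (((M : ℝ) + 1 : ℝ) : ℂ) := by push_cast; rfl
      rw [e, Complex.norm_cpow_eq_rpow_re_of_pos (by positivity)]
      congr 1
      simp
    simp_rw [h5]
    have h6 : Tendsto (fun x : ℝ => x ^ (-(w.re - 1))) atTop (𝓝 0) :=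
      tendsto_rpow_neg_atTop (by linarith)
    exact h6.comp (tendsto_atTop_add_const_right _ _ tendsto_natCast_atTop_atTop)
  have h7 : Tendsto (fun M : ℕ => ∑ n ∈ Finset.range M, zsB n w) atTop
      (𝓝 ((1 - w) * riemannZeta w - 0 + 1)) := by
    simp_rw [zsB_partial]
    exact ((hs.tendsto_sum_nat.const_mul _).sub h4).add_const 1
  rw [sub_zero] at h7
  exact tendsto_nhds_unique h1 h7

lemma zsG_eq_upper (w : ℂ) (hw : 0 < w.re) (hi : 0 < w.im) :
    zsG w = (1 - w) * riemannZeta w + 1 := by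
  set U : Set ℂ := {w | 0 < w.re} ∩ {w | 0 < w.im} with hUdef
  have hU : IsOpen U := (isOpen_lt continuous_const Complex.continuous_re).inter
    (isOpen_lt continuous_const Complex.continuous_im)
  have hconv : Convex ℝ U := (convex_halfSpace_re_gt 0).inter (convex_halfSpace_im_gt 0)
  have hf : AnalyticOnNhd ℂ zsG U := by
    apply DifferentiableOn.analyticOnNhd _ hU
    intro w hw
    exact (zsG_diffAt w hw.1).differentiableWithinAt
  have hg : AnalyticOnNhd ℂ (fun w => (1 - w) * riemannZeta w + 1) U := by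
    apply DifferentiableOn.analyticOnNhd _ hU
    intro w hw
    have hne : w ≠ 1 := by
      rintro rfl
      have := hw.2
      simp at this
    exact ((((differentiableAt_const _).sub differentiableAt_id).mul
      (differentiableAt_riemannZeta hne)).add (differentiableAt_const _)).differentiableWithinAt
  have hz : (2 + Complex.I : ℂ) ∈ U := by constructor <;> simp
  have hev : zsG =ᶠ[𝓝 (2 + Complex.I)] (fun w => (1 - w) * riemannZeta w + 1) := by
    have : {w : ℂ | 1 < w.re} ∈ 𝓝 (2 + Complex.I : ℂ) :=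
      (isOpen_lt continuous_const Complex.continuous_re).mem_nhds (by simp)
    filter_upwards [this] with w hw
    exact zsG_eq_of_one_lt w hw
  exact hf.eqOn_of_preconnected_of_eventuallyEq hg hconv.isPreconnected hz hev ⟨hw, hi⟩

lemma zsG_eq_real (σ : ℝ) (h0 : 0 < σ) (h1 : σ < 1) :
    zsG (σ : ℂ) = (1 - (σ : ℂ)) * riemannZeta (σ : ℂ) + 1 := by
  have hne : (σ : ℂ) ≠ 1 := by
    intro h
    have : σ = 1 := by exact_mod_cast h
    linarith
  have hlim : Tendsto (fun t : ℝ => ((σ : ℂ) + t * Complex.I)) (𝓝[>] 0) (𝓝 (σ : ℂ)) := by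
    have : Continuous (fun t : ℝ => ((σ : ℂ) + t * Complex.I)) := by fun_prop
    have h2 := (this.tendsto 0).mono_left (nhdsWithin_le_nhds (s := Set.Ioi 0))
    simpa using h2
  have c1 : ContinuousAt zsG (σ : ℂ) := (zsG_diffAt _ (by simpa using h0)).continuousAt
  have c2 : ContinuousAt (fun w => (1 - w) * riemannZeta w + 1) (σ : ℂ) :=
    ((((differentiableAt_const _).sub differentiableAt_id).mul
      (differentiableAt_riemannZeta hne)).add (differentiableAt_const _)).continuousAt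
  have t1 := c1.tendsto.comp hlim
  have t2 := c2.tendsto.comp hlim
  refine tendsto_nhds_unique (t1.congr' ?_) t2
  filter_upwards [self_mem_nhdsWithin] with t ht
  have ht' : 0 < t := ht
  simp only [Function.comp]
  apply zsG_eq_upper
  · simpa using h0
  · simpa using ht'

theorem zeta_s (s : ℝ) (hs : 0 < s) (hs2 : s < 2) : ∃ z : ℝ,
    riemannZeta (((s / 2 : ℝ)) : ℂ) = (z : ℂ) ∧
    Tendsto (fun M : ℕ => (∑ m ∈ Finset.range M, ((m : ℝ) + 1) ^ (-(s / 2))) -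
      (M : ℝ) ^ (1 - s / 2) / (1 - s / 2)) atTop (𝓝 z) := by
  set σ : ℝ := s / 2 with hσ
  have h0 : 0 < σ := by rw [hσ]; linarith
  have h1 : σ < 1 := by rw [hσ]; linarith
  have hg := zsG_eq_real σ h0 h1
  have hne : (1 - (σ : ℂ)) ≠ 0 := by
    intro h
    have h2 : ((1 - σ : ℝ) : ℂ) = 0 := by push_cast; exact h
    have : 1 - σ = 0 := by exact_mod_cast h2
    linarith
  have hsum := (zsG_hasSum (σ : ℂ) (by simpa using h0)).tendsto_sum_nat
  have hr : ∀ M : ℕ, (∑ n ∈ Finset.range M, zsB n (σ : ℂ) - 1) / (1 - (σ : ℂ)) =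
      (((∑ m ∈ Finset.range M, ((m : ℝ) + 1) ^ (-σ)) - ((M : ℝ) + 1) ^ (1 - σ) / (1 - σ) : ℝ) : ℂ) := by
    intro M
    rw [zsB_partial]
    push_cast
    have e1 : ∀ m : ℕ, ((((m : ℝ) + 1) ^ (-σ) : ℝ) : ℂ) = ((m : ℂ) + 1) ^ (-(σ : ℂ)) := by
      intro m
      rw [Complex.ofReal_cpow (by positivity)]
      push_cast; rfl
    have e2 : ((((M : ℝ) + 1) ^ (1 - σ) : ℝ) : ℂ) = ((M : ℂ) + 1) ^ (1 - (σ : ℂ)) := by
      rw [Complex.ofReal_cpow (by positivity)]
      push_cast; rfl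
    simp_rw [e1, e2]
    field_simp
    ring
  have ht : Tendsto (fun M : ℕ =>
      (((∑ m ∈ Finset.range M, ((m : ℝ) + 1) ^ (-σ)) - ((M : ℝ) + 1) ^ (1 - σ) / (1 - σ) : ℝ) : ℂ))
      atTop (𝓝 (riemannZeta (σ : ℂ))) := by
    have h3 := (hsum.sub_const 1).div_const (1 - (σ : ℂ))
    simp_rw [hr] at h3
    rw [hg] at h3
    have h4 : ((1 - (σ : ℂ)) * riemannZeta (σ : ℂ) + 1 - 1) / (1 - (σ : ℂ)) = riemannZeta (σ : ℂ) := by
      field_simp
      ring
    rwa [h4] at h3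
  have hre := (Complex.continuous_re.tendsto _).comp ht
  have him := (Complex.continuous_im.tendsto _).comp ht
  simp only [Function.comp_def, Complex.ofReal_re, Complex.ofReal_im] at hre him
  have him0 : (riemannZeta (σ : ℂ)).im = 0 := tendsto_nhds_unique him tendsto_const_nhds |>.symm ▸ rfl
  refine ⟨(riemannZeta (σ : ℂ)).re, ?_, ?_⟩
  · apply Complex.ext
    · simp
    · simp [him0]
  · rw [← tendsto_add_atTop_iff_nat 1]
    have h5 : Tendsto (fun M : ℕ => ((M : ℝ) + 1) ^ (-σ)) atTop (𝓝 0) :=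
      (tendsto_rpow_neg_atTop h0).comp
        (tendsto_atTop_add_const_right _ _ tendsto_natCast_atTop_atTop)
    have h6 := hre.add h5
    rw [add_zero] at h6
    refine h6.congr ?_
    intro M
    rw [Finset.sum_range_succ]
    push_cast
    ring

end Pool.Agent.Helper88.SE
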