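import Pool.Agent.Helper88.SE3.Defs
import Pool.Agent.Helper88.SE3.P_up1
import Pool.Agent.Helper88.SE3.P_zeta_s
import Pool.Agent.Helper88.SE3.P_Es_lim
import Pool.Agent.Helper88.SE3.P_Ls
import Pool.Agent.Helper88.SE3.P_HSs_lim

set_option autoImplicit false

open MeasureTheory Set Filter Topology
open scoped ENNReal

namespace Pool.Agent.Helper88.SE



theorem fins (s : ℝ) (hs : 0 < s) (hs2 : s < 2) (C : ℝ)
    (hC : Tendsto (fun N : ℕ => F 2 s N / (N : ℝ) ^ (1 + s / 2)) atTop (𝓝 C)) :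
    ∃ z l : ℝ, riemannZeta (((s / 2 : ℝ)) : ℂ) = (z : ℂ) ∧
    HurwitzZeta.hurwitzZeta ((1 / 3 : ℝ) : UnitAddCircle) (((s / 2 : ℝ)) : ℂ) -
      HurwitzZeta.hurwitzZeta ((2 / 3 : ℝ) : UnitAddCircle) (((s / 2 : ℝ)) : ℂ) = (l : ℂ) ∧
    C ≤ 6 * (8 * Real.sqrt 3 * Real.pi) ^ (-(s / 2)) * z * l := by
  obtain ⟨z, hz1, hz2⟩ := zeta_s s hs hs2
  obtain ⟨l0, hl1, hl2⟩ := Ls s hs hs2
  refine ⟨z, (3 : ℝ) ^ (s / 2) * l0, hz1, hl2, ?_⟩
  have h1 := HSs_lim s hs hs2 z l0 (Es_lim s hs hs2 z hz2) hl1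
  have h2 := h1.const_mul ((8 * Real.pi / Real.sqrt 3) ^ (-(s / 2)))
  have h3 : C ≤ (8 * Real.pi / Real.sqrt 3) ^ (-(s / 2)) * (6 * z * l0) := by
    refine ge_of_tendsto h2 ?_
    filter_upwards [self_mem_nhdsWithin] with mu hmu
    exact up1 s hs hs2 C hC mu hmu
  have h4 : (8 * Real.sqrt 3 * Real.pi) ^ (-(s / 2)) * (3 : ℝ) ^ (s / 2) =
      (8 * Real.pi / Real.sqrt 3) ^ (-(s / 2)) := by
    have e : 8 * Real.sqrt 3 * Real.pi = (8 * Real.pi / Real.sqrt 3) * 3 := by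
      have h5 : Real.sqrt 3 * Real.sqrt 3 = 3 := Real.mul_self_sqrt (by norm_num)
      have h6 : Real.sqrt 3 ≠ 0 := by positivity
      field_simp
      linear_combination h5
    rw [e, Real.mul_rpow (by positivity) (by norm_num), mul_assoc,
      ← Real.rpow_add (by norm_num : (0:ℝ) < 3), neg_add_cancel, Real.rpow_zero, mul_one]
  refine h3.trans (le_of_eq ?_)
  rw [← h4]
  ring

end Pool.Agent.Helper88.SE
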