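import Pool.Agent.Helper88.SE3.Defs

set_option autoImplicit false

open MeasureTheory Set Filter Topology
open scoped ENNReal

namespace Pool.Agent.Helper88.SE



lemma hz_sum_re (a : ℝ) (ha : a ∈ Icc (0:ℝ) 1) (ha0 : 0 < a) (s : ℝ) (hs : 1 < s) :
    HasSum (fun k : ℕ => ((k : ℝ) + a) ^ (-s))
      (HurwitzZeta.hurwitzZeta (a : UnitAddCircle) (s : ℂ)).re := by
  have h := HurwitzZeta.hasSum_hurwitzZeta_of_one_lt_re ha (s := (s : ℂ)) (by simpa using hs)
  have h2 := Complex.hasSum_re h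
  convert h2 using 2 with k
  have hk : (0:ℝ) ≤ (k : ℝ) + a := by positivity
  have h3 : ((k : ℂ) + (a : ℂ)) = (((k : ℝ) + a : ℝ) : ℂ) := by push_cast; ring
  rw [h3, ← Complex.ofReal_cpow hk, Real.rpow_neg hk, one_div, ← Complex.ofReal_inv,
    Complex.ofReal_re]

/-- termwise derivative bound -/
lemma hz_bound (s : ℝ) (hs : s ∈ Ioo (1/2 : ℝ) 2) (k : ℕ) :
    ‖-(Real.log ((k : ℝ) + 2/3) * ((k : ℝ) + 2/3) ^ (-s)) +
      Real.log ((k : ℝ) + 1/3) * ((k : ℝ) + 1/3) ^ (-s)‖ ≤ 100 / 3 * ((k : ℝ) + 1/3) ^ (-(5/4) : ℝ) := by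
  obtain ⟨hs1, hs2⟩ := hs
  have hk : (0:ℝ) ≤ k := Nat.cast_nonneg k
  have hd : ∀ x ∈ Icc ((k : ℝ) + 1/3) ((k : ℝ) + 2/3),
      HasDerivWithinAt (fun x : ℝ => Real.log x * x ^ (-s))
        (x⁻¹ * x ^ (-s) + Real.log x * ((-s) * x ^ (-s - 1)))
        (Icc ((k : ℝ) + 1/3) ((k : ℝ) + 2/3)) x := by
    intro x hx
    have hx0 : 0 < x := by linarith [hx.1]
    exact ((Real.hasDerivAt_log hx0.ne').mul
      (Real.hasDerivAt_rpow_const (Or.inl hx0.ne'))).hasDerivWithinAt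
  have hb : ∀ x ∈ Icc ((k : ℝ) + 1/3) ((k : ℝ) + 2/3),
      ‖x⁻¹ * x ^ (-s) + Real.log x * ((-s) * x ^ (-s - 1))‖ ≤
        100 * ((k : ℝ) + 1/3) ^ (-(5/4) : ℝ) := by
    intro x hx
    have hx0 : 0 < x := by linarith [hx.1]
    have hx3 : 1/3 ≤ x := by linarith [hx.1]
    have hmono : x ^ (-(5/4) : ℝ) ≤ ((k : ℝ) + 1/3) ^ (-(5/4) : ℝ) :=
      Real.rpow_le_rpow_of_nonpos (by positivity) hx.1 (by norm_num)
    have h1 : x⁻¹ * x ^ (-s) + Real.log x * ((-s) * x ^ (-s - 1)) =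
        x ^ (-s - 1) * (1 - s * Real.log x) := by
      have : x⁻¹ * x ^ (-s) = x ^ (-s - 1) := by
        rw [Real.rpow_sub_one hx0.ne']; field_simp
      rw [this]; ring
    rw [h1, norm_mul, Real.norm_eq_abs, Real.norm_eq_abs, abs_of_pos (Real.rpow_pos_of_pos hx0 _)]
    refine le_trans ?_ (mul_le_mul_of_nonneg_left hmono (by norm_num))
    have h2 : |1 - s * Real.log x| ≤ 1 + 2 * |Real.log x| := by
      have h3 : |1 - s * Real.log x| ≤ |(1:ℝ)| + |s * Real.log x| := abs_sub _ _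
      rw [abs_one, abs_mul, abs_of_pos (by linarith : (0:ℝ) < s)] at h3
      have h4 : s * |Real.log x| ≤ 2 * |Real.log x| :=
        mul_le_mul_of_nonneg_right hs2.le (abs_nonneg _)
      linarith
    rcases le_or_gt 1 x with h | h
    · have h5 : |Real.log x| ≤ 4 * x ^ (1/4 : ℝ) := by
        rw [abs_of_nonneg (Real.log_nonneg h)]
        have := Real.log_le_rpow_div hx0.le (by norm_num : (0:ℝ) < 1/4)
        linarith
      have h6 : (1:ℝ) ≤ x ^ (1/4 : ℝ) := Real.one_le_rpow h (by norm_num)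
      have h7 : x ^ (-s - 1) ≤ x ^ (-(3/2) : ℝ) :=
        Real.rpow_le_rpow_of_exponent_le h (by linarith)
      calc x ^ (-s - 1) * |1 - s * Real.log x| ≤ x ^ (-(3/2) : ℝ) * (9 * x ^ (1/4 : ℝ)) := by
            apply mul_le_mul h7 _ (abs_nonneg _) (Real.rpow_pos_of_pos hx0 _).le
            linarith
        _ = 9 * x ^ (-(5/4) : ℝ) := by
            have : x ^ (-(5/4) : ℝ) = x ^ (-(3/2) : ℝ) * x ^ (1/4 : ℝ) := by
              rw [← Real.rpow_add hx0]; norm_num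
            rw [this]; ring
        _ ≤ 100 * x ^ (-(5/4) : ℝ) := by
            apply mul_le_mul_of_nonneg_right (by norm_num) (Real.rpow_pos_of_pos hx0 _).le
    · have h5 : (1:ℝ) ≤ x ^ (-(5/4) : ℝ) :=
        Real.one_le_rpow_of_pos_of_le_one_of_nonpos hx0 h.le (by norm_num)
      have h6 : x ^ (-s - 1) ≤ 27 := by
        calc x ^ (-s - 1) ≤ (1/3 : ℝ) ^ (-s - 1) :=
              Real.rpow_le_rpow_of_nonpos (by norm_num) hx3 (by linarith)
          _ ≤ (1/3 : ℝ) ^ (-3 : ℝ) :=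
              Real.rpow_le_rpow_of_exponent_ge (by norm_num) (by norm_num) (by linarith)
          _ = 27 := by
              rw [Real.rpow_neg (by norm_num), show (3:ℝ) = ((3:ℕ):ℝ) by norm_num,
                Real.rpow_natCast]; norm_num
      have h8 : |Real.log x| ≤ 5/4 := by
        rw [abs_of_neg (Real.log_neg hx0 h)]
        have h9 : Real.log (1/3) ≤ Real.log x := Real.log_le_log (by norm_num) hx3
        have h10 : Real.log (1/3 : ℝ) = -Real.log 3 := by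
          rw [one_div, Real.log_inv]
        have h11 : Real.log 3 ≤ 5/4 := by
          rw [Real.log_le_iff_le_exp (by norm_num)]
          have h12 : (1 + (5/4 : ℝ)/4) ^ 4 ≤ Real.exp (5/4) := by
            have h13 := Real.add_one_le_exp ((5/4 : ℝ)/4)
            calc (1 + (5/4 : ℝ)/4) ^ 4 ≤ (Real.exp ((5/4 : ℝ)/4)) ^ 4 := by
                  apply pow_le_pow_left₀ (by norm_num); linarith
              _ = Real.exp (5/4) := by rw [← Real.exp_nat_mul]; norm_num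
          have h14 : (1 + (5/4 : ℝ)/12) ^ 12 ≤ Real.exp (5/4) := by
            have h13 := Real.add_one_le_exp ((5/4 : ℝ)/12)
            calc (1 + (5/4 : ℝ)/12) ^ 12 ≤ (Real.exp ((5/4 : ℝ)/12)) ^ 12 := by
                  apply pow_le_pow_left₀ (by norm_num); linarith
              _ = Real.exp (5/4) := by rw [← Real.exp_nat_mul]; norm_num
          norm_num at h14 ⊢
          linarith
        linarith
      calc x ^ (-s - 1) * |1 - s * Real.log x| ≤ 27 * (1 + 2 * (5/4)) := by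
            apply mul_le_mul h6 _ (abs_nonneg _) (by norm_num)
            linarith
        _ ≤ 100 * 1 := by norm_num
        _ ≤ 100 * x ^ (-(5/4) : ℝ) := mul_le_mul_of_nonneg_left h5 (by norm_num)
  have h := Convex.norm_image_sub_le_of_norm_hasDerivWithin_le hd hb (convex_Icc _ _)
    (left_mem_Icc.2 (by linarith)) (right_mem_Icc.2 (by linarith))
  rw [← norm_neg]
  have e1 : -(-(Real.log ((k : ℝ) + 2/3) * ((k : ℝ) + 2/3) ^ (-s)) +
      Real.log ((k : ℝ) + 1/3) * ((k : ℝ) + 1/3) ^ (-s)) =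
      Real.log ((k : ℝ) + 2/3) * ((k : ℝ) + 2/3) ^ (-s) -
      Real.log ((k : ℝ) + 1/3) * ((k : ℝ) + 1/3) ^ (-s) := by ring
  rw [e1]
  refine h.trans (le_of_eq ?_)
  have e2 : ‖(k : ℝ) + 2/3 - ((k : ℝ) + 1/3)‖ = 1/3 := by
    rw [Real.norm_eq_abs]
    have : (k : ℝ) + 2/3 - ((k : ℝ) + 1/3) = 1/3 := by ring
    rw [this]; norm_num
  rw [e2]; ring

lemma hz_summable : Summable (fun k : ℕ => 100 / 3 * ((k : ℝ) + 1/3) ^ (-(5/4) : ℝ)) := by
  apply Summable.mul_left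
  have h1 : Summable (fun k : ℕ => 27 * (((k + 1 : ℕ) : ℝ) ^ (-(5/4) : ℝ))) := by
    apply Summable.mul_left
    exact (summable_nat_add_iff 1).2 (Real.summable_nat_rpow.2 (by norm_num))
  refine Summable.of_nonneg_of_le (fun k => by positivity) (fun k => ?_) h1
  have hk : (0:ℝ) ≤ k := Nat.cast_nonneg k
  have h2 : ((k : ℝ) + 1/3) ^ (-(5/4) : ℝ) ≤ (1/3 * ((k + 1 : ℕ) : ℝ)) ^ (-(5/4) : ℝ) := by
    apply Real.rpow_le_rpow_of_nonpos (by positivity) _ (by norm_num)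
    push_cast; linarith
  have h3 : (1/3 * ((k + 1 : ℕ) : ℝ)) ^ (-(5/4) : ℝ) =
      (1/3 : ℝ) ^ (-(5/4) : ℝ) * ((k + 1 : ℕ) : ℝ) ^ (-(5/4) : ℝ) :=
    Real.mul_rpow (by norm_num) (by positivity)
  have h4 : (1/3 : ℝ) ^ (-(5/4) : ℝ) ≤ 27 := by
    have h5 : (1/3 : ℝ) ^ (-(5/4) : ℝ) ≤ (1/3 : ℝ) ^ (-3 : ℝ) :=
      Real.rpow_le_rpow_of_exponent_ge (by norm_num) (by norm_num) (by norm_num)
    have h6 : (1/3 : ℝ) ^ (-3 : ℝ) = 27 := by
      rw [Real.rpow_neg (by norm_num), show (3:ℝ) = ((3:ℕ):ℝ) by norm_num,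
        Real.rpow_natCast]; norm_num
    linarith
  rw [h3] at h2
  exact h2.trans (mul_le_mul_of_nonneg_right h4 (by positivity))

theorem hz_coeff (c₁ c₂ d₁ d₂ : ℝ)
    (h1 : (fun s : ℂ => HurwitzZeta.hurwitzZeta ((1 / 3 : ℝ) : UnitAddCircle) s - 1 / (s - 1)
          - (c₁ : ℂ) - (d₁ : ℂ) * (1 - s)) =o[𝓝[≠] (1 : ℂ)] (fun s : ℂ => s - 1))
    (h2 : (fun s : ℂ => HurwitzZeta.hurwitzZeta ((2 / 3 : ℝ) : UnitAddCircle) s - 1 / (s - 1)
          - (c₂ : ℂ) - (d₂ : ℂ) * (1 - s)) =o[𝓝[≠] (1 : ℂ)] (fun s : ℂ => s - 1)) :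
    d₂ - d₁ = ∑' k : ℕ, (Real.log ((k : ℝ) + 2 / 3) / ((k : ℝ) + 2 / 3) -
      Real.log ((k : ℝ) + 1 / 3) / ((k : ℝ) + 1 / 3)) := by
  set g : ℕ → ℝ → ℝ := fun k s => ((k : ℝ) + 2/3) ^ (-s) - ((k : ℝ) + 1/3) ^ (-s) with hg
  set g' : ℕ → ℝ → ℝ := fun k s => -(Real.log ((k : ℝ) + 2/3) * ((k : ℝ) + 2/3) ^ (-s)) +
      Real.log ((k : ℝ) + 1/3) * ((k : ℝ) + 1/3) ^ (-s) with hg'
  have hcoe1 : ((1/3 : ℝ) : UnitAddCircle) = (((1/3 : ℝ)) : UnitAddCircle) := rfl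
  have hsum : ∀ s : ℝ, 1 < s → HasSum (fun k => g k s)
      ((HurwitzZeta.hurwitzZeta ((2/3 : ℝ) : UnitAddCircle) (s : ℂ)).re -
        (HurwitzZeta.hurwitzZeta ((1/3 : ℝ) : UnitAddCircle) (s : ℂ)).re) := by
    intro s hs
    exact (hz_sum_re (2/3) (by constructor <;> norm_num) (by norm_num) s hs).sub
      (hz_sum_re (1/3) (by constructor <;> norm_num) (by norm_num) s hs)
  have hgd : ∀ (k : ℕ) (s : ℝ), s ∈ Ioo (1/2 : ℝ) 2 → HasDerivAt (g k) (g' k s) s := by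
    intro k s _
    have hd : ∀ x : ℝ, 0 < x → HasDerivAt (fun s : ℝ => x ^ (-s)) (-(Real.log x * x ^ (-s))) s := by
      intro x hx
      have h := ((hasDerivAt_id s).neg.const_rpow hx)
      refine h.congr_deriv ?_
      simp only [Pi.neg_apply, id]
      ring
    have h2 : HasDerivAt (g k) (-(Real.log ((k : ℝ) + 2/3) * ((k : ℝ) + 2/3) ^ (-s)) -
        -(Real.log ((k : ℝ) + 1/3) * ((k : ℝ) + 1/3) ^ (-s))) s :=
      (hd ((k : ℝ) + 2/3) (by positivity)).sub (hd ((k : ℝ) + 1/3) (by positivity))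
    refine h2.congr_deriv ?_
    simp only [hg']
    ring
  have hD : HasDerivAt (fun s => ∑' k, g k s) (∑' k, g' k 1) 1 := by
    apply hasDerivAt_tsum_of_isPreconnected hz_summable isOpen_Ioo (isPreconnected_Ioo)
      hgd (fun k s hs => hz_bound s hs k) (y₀ := 3/2) (by constructor <;> norm_num)
      (hsum (3/2) (by norm_num)).summable (by constructor <;> norm_num)
  have htend : Tendsto (fun s : ℝ => (s : ℂ)) (𝓝[>] (1:ℝ)) (𝓝[≠] (1:ℂ)) := by
    apply tendsto_nhdsWithin_of_tendsto_nhds_of_eventually_within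
    · have : Tendsto (fun s : ℝ => (s : ℂ)) (𝓝 (1:ℝ)) (𝓝 ((1:ℝ):ℂ)) :=
        Complex.continuous_ofReal.tendsto 1
      simpa using this.mono_left nhdsWithin_le_nhds
    · filter_upwards [self_mem_nhdsWithin] with s hs
      simp only [mem_compl_iff, mem_singleton_iff]
      intro h
      have : s = 1 := by exact_mod_cast h
      rw [this] at hs
      exact lt_irrefl (1:ℝ) (mem_Ioi.1 hs)
  have h3 := (h2.sub h1).comp_tendsto htend
  have h4 : (fun s : ℝ => (∑' k, g k s) - (c₂ - c₁) - (d₂ - d₁) * (1 - s)) =o[𝓝[>] (1:ℝ)]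
      (fun s : ℝ => s - 1) := by
    rw [Asymptotics.isLittleO_iff] at h3 ⊢
    intro c hc
    filter_upwards [h3 hc, self_mem_nhdsWithin] with s hs hs1
    have hs2 : (1:ℝ) < s := hs1
    rw [(hsum s hs2).tsum_eq]
    simp only [Function.comp_apply] at hs
    have h5 : ‖((s : ℂ) - 1)‖ = ‖s - 1‖ := by
      rw [← Complex.ofReal_one, ← Complex.ofReal_sub, Complex.norm_real]
    rw [h5] at hs
    refine le_trans ?_ hs
    refine le_trans (le_of_eq ?_) (Complex.abs_re_le_norm _)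
    rw [Real.norm_eq_abs]
    congr 1
    simp
    ring
  have h5 : Tendsto (fun s : ℝ => ∑' k, g k s) (𝓝[>] (1:ℝ)) (𝓝 (c₂ - c₁)) := by
    have h6 : Tendsto (fun s : ℝ => s - 1) (𝓝[>] (1:ℝ)) (𝓝 0) := by
      have : Tendsto (fun s : ℝ => s - 1) (𝓝 (1:ℝ)) (𝓝 (1 - 1)) := by
        exact (continuous_id.sub continuous_const).tendsto 1
      rw [sub_self] at this
      exact this.mono_left nhdsWithin_le_nhds
    have h7 := h4.trans_tendsto h6
    have h8 : Tendsto (fun s : ℝ => (c₂ - c₁) + (d₂ - d₁) * (1 - s)) (𝓝[>] (1:ℝ))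
        (𝓝 ((c₂ - c₁) + (d₂ - d₁) * (1 - 1))) := by
      apply Tendsto.mono_left _ nhdsWithin_le_nhds
      exact (continuous_const.add (continuous_const.mul
        (continuous_const.sub continuous_id))).tendsto 1
    have h9 := h7.add h8
    simp only [sub_self, mul_zero, add_zero, zero_add] at h9
    refine h9.congr fun s => ?_
    ring
  have h6 : (∑' k, g k 1) = c₂ - c₁ := by
    have h7 : Tendsto (fun s : ℝ => ∑' k, g k s) (𝓝[>] (1:ℝ)) (𝓝 (∑' k, g k 1)) :=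
      (hD.continuousAt.tendsto).mono_left nhdsWithin_le_nhds
    exact tendsto_nhds_unique h7 h5
  have h7 : HasDerivWithinAt (fun s => ∑' k, g k s) (-(d₂ - d₁)) (Ioi 1) 1 := by
    rw [hasDerivWithinAt_iff_isLittleO]
    refine h4.congr_left fun s => ?_
    rw [h6, smul_eq_mul]
    ring
  have h8 := UniqueDiffWithinAt.eq_deriv (Ioi (1:ℝ)) (uniqueDiffWithinAt_Ioi 1) h7
    hD.hasDerivWithinAt
  have h9 : d₂ - d₁ = -(∑' k, g' k 1) := by rw [← h8]; ring
  rw [h9, ← tsum_neg]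
  refine tsum_congr fun k => ?_
  simp only [hg', Real.rpow_neg_one]
  ring

end Pool.Agent.Helper88.SE
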