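import Pool.Agent.Helper88.SE3.Defs

set_option autoImplicit false

open MeasureTheory Set Filter Topology
open scoped ENNReal

namespace Pool.Agent.Helper88.SE



theorem hz_exp (a : ℝ) (ha : 0 < a) (ha1 : a ≤ 1) : ∃ c d : ℝ,
    (fun s : ℂ => HurwitzZeta.hurwitzZeta (a : UnitAddCircle) s - 1 / (s - 1)
          - (c : ℂ) - (d : ℂ) * (1 - s)) =o[𝓝[≠] (1 : ℂ)] (fun s : ℂ => s - 1) := by
  set G : ℂ → ℂ := Function.update
    (fun s : ℂ => (s - 1) * HurwitzZeta.hurwitzZeta (a : UnitAddCircle) s) 1 1 with hG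
  have hGne : ∀ s : ℂ, s ≠ 1 → G s = (s - 1) * HurwitzZeta.hurwitzZeta (a : UnitAddCircle) s := by
    intro s hs
    rw [hG, Function.update_of_ne hs]
  have hG1 : G 1 = 1 := by rw [hG, Function.update_self]
  have hGan : AnalyticAt ℂ G 1 := by
    refine Complex.analyticAt_of_differentiable_on_punctured_nhds_of_continuousAt ?_ ?_
    · filter_upwards [self_mem_nhdsWithin] with z hz
      have hz : z ≠ 1 := hz
      have h1 : DifferentiableAt ℂ
          (fun s : ℂ => (s - 1) * HurwitzZeta.hurwitzZeta (a : UnitAddCircle) s) z :=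
        (differentiableAt_id.sub_const 1).mul (HurwitzZeta.differentiableAt_hurwitzZeta _ hz)
      refine h1.congr_of_eventuallyEq ?_
      filter_upwards [isOpen_ne.mem_nhds hz] with s hs
      exact hGne s hs
    · rw [hG, continuousAt_update_same]
      exact HurwitzZeta.hurwitzZeta_residue_one _
  obtain ⟨p, hp⟩ := hGan
  have hHan : AnalyticAt ℂ (dslope G 1) 1 := ⟨_, hp.has_fpower_series_dslope_fslope⟩
  set H : ℂ → ℂ := dslope G 1 with hH
  have hHne : ∀ s : ℂ, s ≠ 1 →
      H s = HurwitzZeta.hurwitzZeta (a : UnitAddCircle) s - 1 / (s - 1) := by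
    intro s hs
    have hs' : s - 1 ≠ 0 := sub_ne_zero.2 hs
    rw [hH, dslope_of_ne _ hs, slope_def_field, hGne s hs, hG1]
    field_simp
  have hHd : HasDerivAt H (deriv H 1) 1 := hHan.differentiableAt.hasDerivAt
  -- real values
  have hreal : ∀ x : ℝ, 1 < x → (H (x : ℂ)).im = 0 := by
    intro x hx
    have hx1 : (x : ℂ) ≠ 1 := by
      intro h
      have : x = 1 := by exact_mod_cast h
      linarith
    rw [hHne _ hx1]
    have h1 := HurwitzZeta.hasSum_hurwitzZeta_of_one_lt_re (a := a) ⟨ha.le, ha1⟩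
      (s := (x : ℂ)) (by simpa using hx)
    have h2 := (Complex.hasSum_iff _ _).1 h1
    have h3 : ∀ n : ℕ, (1 / ((n : ℂ) + (a : ℂ)) ^ (x : ℂ)).im = 0 := by
      intro n
      have e : (1 / ((n : ℂ) + (a : ℂ)) ^ (x : ℂ)) = ((1 / ((n : ℝ) + a) ^ x : ℝ) : ℂ) := by
        rw [Complex.ofReal_div, Complex.ofReal_one, Complex.ofReal_cpow (by positivity)]
        push_cast
        rfl
      rw [e]
      exact Complex.ofReal_im _
    have h4 : (HurwitzZeta.hurwitzZeta (a : UnitAddCircle) (x : ℂ)).im = 0 := by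
      have h5 := h2.2
      simp only [h3] at h5
      exact h5.unique hasSum_zero
    have h6 : (1 / ((x : ℂ) - 1)).im = 0 := by
      have e : (1 / ((x : ℂ) - 1)) = ((1 / (x - 1) : ℝ) : ℂ) := by push_cast; rfl
      rw [e]
      exact Complex.ofReal_im _
    rw [Complex.sub_im, h4, h6, sub_zero]
  have hd1 : HasDerivAt (fun x : ℝ => H (x : ℂ)) (deriv H 1) 1 := by
    have := hHd
    exact HasDerivAt.comp_ofReal (z := (1 : ℝ)) (by simpa using this)
  have hd2 : HasDerivAt (fun x : ℝ => (H (x : ℂ)).im) (deriv H 1).im 1 := by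
    have h0 : HasFDerivAt (fun z : ℂ => z.im) Complex.imCLM (H ((1 : ℝ) : ℂ)) :=
      Complex.imCLM.hasFDerivAt
    exact h0.comp_hasDerivAt (1 : ℝ) hd1
  have him1 : (H 1).im = 0 := by
    have hc : Tendsto (fun x : ℝ => (H (x : ℂ)).im) (𝓝[>] 1) (𝓝 ((H ((1 : ℝ) : ℂ)).im)) :=
      hd2.continuousAt.tendsto.mono_left nhdsWithin_le_nhds
    have hc2 : Tendsto (fun x : ℝ => (H (x : ℂ)).im) (𝓝[>] 1) (𝓝 0) := by
      refine tendsto_const_nhds.congr' ?_
      filter_upwards [self_mem_nhdsWithin] with x hx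
      exact (hreal x hx).symm
    have := tendsto_nhds_unique hc hc2
    simpa using this
  have him2 : (deriv H 1).im = 0 := by
    have h1 : HasDerivWithinAt (fun x : ℝ => (H (x : ℂ)).im) (deriv H 1).im (Ici 1) 1 :=
      hd2.hasDerivWithinAt
    have h2 : HasDerivWithinAt (fun x : ℝ => (H (x : ℂ)).im) 0 (Ici 1) 1 := by
      refine (hasDerivWithinAt_const (1 : ℝ) (Ici 1) (0 : ℝ)).congr ?_ ?_
      · intro x hx
        rcases eq_or_lt_of_le (show (1 : ℝ) ≤ x from hx) with h | h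
        · subst h
          simpa using him1
        · exact hreal x h
      · simpa using him1
    exact (uniqueDiffWithinAt_Ici (1 : ℝ)).eq_deriv _ h1 h2
  refine ⟨(H 1).re, -(deriv H 1).re, ?_⟩
  have e1 : (((H 1).re : ℝ) : ℂ) = H 1 := by
    apply Complex.ext <;> simp [him1]
  have e2 : (((-(deriv H 1).re : ℝ)) : ℂ) = -(deriv H 1) := by
    apply Complex.ext <;> simp [him2]
  rw [e1, e2]
  have h := (hasDerivAt_iff_isLittleO.1 hHd).mono (nhdsWithin_le_nhds (s := {(1 : ℂ)}ᶜ))
  refine h.congr' ?_ (Filter.EventuallyEq.refl _ _)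
  filter_upwards [self_mem_nhdsWithin] with s hs
  have hs : s ≠ 1 := hs
  rw [hHne s hs, smul_eq_mul]
  ring

end Pool.Agent.Helper88.SE
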